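import Mathlib

set_option autoImplicit false

open scoped TensorProduct
open CategoryTheory AlgebraicGeometry

universe u

namespace Pool.Agent.Helper226

/-- The set of `R`-valued points of the Hilbert functor of `d` points on the affine `k`-scheme
`Spec B`: closed subschemes of `Spec B × Spec R = Spec (R ⊗ B)`, that is ideals `I` of `R ⊗ B`,
which are finite and locally free of constant rank `d` over `Spec R`. -/
def HilbFamily (k : Type u) [Field k] (B : Type u) [CommRing B] [Algebra k B] (d : ℕ)
    (R : Type u) [CommRing R] [Algebra k R] : Set (Ideal (R ⊗[k] B)) :=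
  {I | Module.Finite R ((R ⊗[k] B) ⧸ I) ∧ Module.Projective R ((R ⊗[k] B) ⧸ I) ∧
    ∀ p : PrimeSpectrum R, Module.rankAtStalk (R := R) ((R ⊗[k] B) ⧸ I) p = d}

/-- The `R`-valued points of a `k`-scheme `s : H ⟶ Spec k`. -/
def PointsOver (k : Type u) [Field k] (H : Scheme.{u}) (s : H ⟶ Spec (CommRingCat.of k))
    (R : Type u) [CommRing R] [Algebra k R] : Type u :=
  {f : Spec (CommRingCat.of R) ⟶ H // f ≫ s = Spec.map (CommRingCat.ofHom (algebraMap k R))}

/-- The Hilbert scheme of `d` points of the affine `k`-scheme `Spec B`: a `k`-scheme `H` with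
bijections, natural in the `k`-algebra `R`, between the `R`-valued points of `H` and the families
over `Spec R` of length `d` closed subschemes of `Spec B`. -/
structure HilbertScheme (k : Type u) [Field k] (B : Type u) [CommRing B] [Algebra k B]
    (d : ℕ) where
  H : Scheme.{u}
  s : H ⟶ Spec (CommRingCat.of k)
  Φ : ∀ (R : Type u) [CommRing R] [Algebra k R], PointsOver k H s R ≃ HilbFamily k B d R
  natural : ∀ (R R' : Type u) [CommRing R] [Algebra k R] [CommRing R'] [Algebra k R']
    (g : R →ₐ[k] R') (f : PointsOver k H s R) (f' : PointsOver k H s R'),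
      f'.1 = Spec.map (CommRingCat.ofHom g.toRingHom) ≫ f.1 →
        (Φ R' f').1 = (Φ R f).1.map (Algebra.TensorProduct.map g (AlgHom.id k B))

/-- The ideal of `B` defining the closed subscheme of `Spec B` which corresponds to a `k`-point of
the Hilbert scheme. -/
def HilbertScheme.idealOf {k : Type u} [Field k] {B : Type u} [CommRing B] [Algebra k B] {d : ℕ}
    (𝓗 : HilbertScheme k B d) (f : PointsOver k 𝓗.H 𝓗.s k) : Ideal B :=
  (𝓗.Φ k f).1.comap (Algebra.TensorProduct.includeRight : B →ₐ[k] k ⊗[k] B)

/-- The set of `k`-points of the Hilbert scheme, as a subset of its underlying space, whose ideal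
has the property `P`. -/
def HilbertScheme.locus {k : Type u} [Field k] {B : Type u} [CommRing B] [Algebra k B] {d : ℕ}
    (𝓗 : HilbertScheme k B d) (P : Ideal B → Prop) : Set 𝓗.H :=
  {x | ∃ f : PointsOver k 𝓗.H 𝓗.s k, x ∈ Set.range f.1 ∧ P (𝓗.idealOf f)}

end Pool.Agent.Helper226
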