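import Mathlib
import Pool.Agent.Helper226.HilbUniv

set_option autoImplicit false

open scoped TensorProduct
open CategoryTheory AlgebraicGeometry Limits

universe u

namespace Pool.Agent.Helper226

section Univ
variable {k : Type u} [CommRing k] {B : Type u} [CommRing B] [Algebra k B] {d : ℕ}

/-- the classifying map -/
noncomputable def UnivFor.hom {L : Set (Fin d → B)} (U : UnivFor k L) {R : Type u} [CommRing R]
    [Algebra k R] (I : Ideal (R ⊗[k] B)) (h : HasBas L I) : U.A →ₐ[k] R :=
  (U.desc R I h).choose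

lemma UnivFor.map_hom {L : Set (Fin d → B)} (U : UnivFor k L) {R : Type u} [CommRing R]
    [Algebra k R] (I : Ideal (R ⊗[k] B)) (h : HasBas L I) : U.I.map (bc B (U.hom I h)) = I :=
  (U.desc R I h).choose_spec

lemma UnivFor.hom_eq {L : Set (Fin d → B)} (U : UnivFor k L) {R : Type u} [CommRing R]
    [Algebra k R] (I : Ideal (R ⊗[k] B)) (h : HasBas L I) (φ : U.A →ₐ[k] R)
    (hφ : U.I.map (bc B φ) = I) : U.hom I h = φ :=
  U.uniq _ _ _ ((U.map_hom I h).trans hφ.symm)

lemma UnivFor.comp_hom {L : Set (Fin d → B)} (U : UnivFor k L) {R R' : Type u} [CommRing R]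
    [Algebra k R] [CommRing R'] [Algebra k R'] (I : Ideal (R ⊗[k] B)) (h : HasBas L I)
    (φ : R →ₐ[k] R') : φ.comp (U.hom I h) = U.hom (I.map (bc B φ)) (h.map φ) := by
  symm
  apply U.hom_eq
  rw [map_bc_comp, U.map_hom]

lemma exists_locIso {L : Set (Fin d → B)} (U : UnivFor k L) {b : Fin d → B}
    (hb : b ∈ L) (L' : Finset (Fin d → B)) (hL : L ⊆ L') (V : UnivFor k (L' : Set (Fin d → B)))
    (h : HasBas L V.I) :
    ∃ e : Localization.Away (locElt (U.chart hb) L') ≃ₐ[k] V.A,
      ∀ x, e (algebraMap _ _ x) = U.hom V.I h x := by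
  let W := U.loc hb L' hL
  let φ : W.A →ₐ[k] V.A := W.hom V.I V.has
  let ψ : V.A →ₐ[k] W.A := V.hom W.I W.has
  have h1 : ψ.comp φ = AlgHom.id k _ := by
    apply W.uniq
    rw [map_bc_comp, map_bc_id, W.map_hom, V.map_hom]
  have h2 : φ.comp ψ = AlgHom.id k _ := by
    apply V.uniq
    rw [map_bc_comp, map_bc_id, V.map_hom, W.map_hom]
  refine ⟨AlgEquiv.ofAlgHom φ ψ h2 h1, ?_⟩
  intro x
  let j : U.A →ₐ[k] W.A :=
    IsScalarTower.toAlgHom k U.A (Localization.Away (locElt (U.chart hb) L'))
  have hj : W.I = U.I.map (bc B j) := rfl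
  have : φ.comp j = U.hom V.I h := by
    symm
    apply U.hom_eq
    rw [map_bc_comp, ← hj]
    exact W.map_hom V.I V.has
  exact DFunLike.congr_fun this x

end Univ

section Functor

variable (k : Type u) [Field k] (B : Type u) [CommRing B] [Algebra k B] (d : ℕ)

/-- index category: nonempty finite sets of `d`-tuples, ordered by reverse inclusion -/
structure Idx where
  s : Finset (Fin d → B)
  ne : s.Nonempty

variable {B d} in
/-- the order is reversed inclusion -/
instance : Preorder (Idx B d) where
  le L L' := L'.s ⊆ L.s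
  le_refl _ := subset_rfl
  le_trans _ _ _ h h' := h'.trans h

variable {B d} in
/-- universal object -/
noncomputable def univ (L : Idx B d) : UnivFor k (L.s : Set (Fin d → B)) :=
  (univSingle k L.ne.choose).loc rfl L.s (by
    intro b hb
    rw [Set.mem_singleton_iff] at hb
    subst hb
    exact L.ne.choose_spec)

variable {B d} in
lemma hasBas_of_le {L L' : Idx B d} (h : L ≤ L') : HasBas (L'.s : Set (Fin d → B)) (univ k L).I :=
  fun b hb => (univ k L).has b (h hb)

/-- the chart diagram -/
noncomputable def chartFunctor : Idx B d ⥤ Scheme.{u} where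
  obj L := Spec (CommRingCat.of (univ k L).A)
  map {L L'} f := Spec.map (CommRingCat.ofHom
    ((univ k L').hom (univ k L).I (hasBas_of_le k f.le)).toRingHom)
  map_id L := by
    have : (univ k L).hom (univ k L).I (hasBas_of_le k (𝟙 L : L ⟶ L).le) = AlgHom.id k _ := by
      apply UnivFor.hom_eq
      rw [map_bc_id]
    rw [this]
    exact Spec.map_id _
  map_comp {L L' L''} f g := by
    rw [← Spec.map_comp, ← CommRingCat.ofHom_comp]
    congr 2
    have := (univ k L'').comp_hom (univ k L').I (hasBas_of_le k g.le)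
      ((univ k L').hom (univ k L).I (hasBas_of_le k f.le))
    have h2 : (univ k L'').hom (univ k L).I (hasBas_of_le k (f ≫ g).le) =
        ((univ k L').hom (univ k L).I (hasBas_of_le k f.le)).comp
          ((univ k L'').hom (univ k L').I (hasBas_of_le k g.le)) := by
      apply UnivFor.hom_eq
      rw [map_bc_comp, UnivFor.map_hom, UnivFor.map_hom]
    rw [h2]
    rfl

variable {B d}

/-- element cutting out `L'` in the chart `L`. -/
noncomputable def cutElt (L : Idx B d) (L' : Finset (Fin d → B)) : (univ k L).A :=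
  locElt ((univ k L).chart (b := L.ne.choose) L.ne.choose_spec) L'

lemma exists_cutIso {L L' : Idx B d} (h : L' ≤ L) :
    ∃ e : Localization.Away (cutElt k L L'.s) ≃ₐ[k] (univ k L').A,
      ∀ x, e (algebraMap _ _ x) = (univ k L).hom (univ k L').I (hasBas_of_le k h) x :=
  exists_locIso (univ k L) (b := L.ne.choose) L.ne.choose_spec L'.s h (univ k L') _

lemma chartFunctor_map_eq {L L' : Idx B d} (f : L' ⟶ L) :
    ∃ e : Localization.Away (cutElt k L L'.s) ≃ₐ[k] (univ k L').A,
    (chartFunctor k B d).map f = Spec.map (CommRingCat.ofHom e.toRingEquiv.toRingHom) ≫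
      Spec.map (CommRingCat.ofHom (algebraMap (univ k L).A
        (Localization.Away (cutElt k L L'.s)))) := by
  obtain ⟨e, he⟩ := exists_cutIso k f.le
  refine ⟨e, ?_⟩
  rw [← Spec.map_comp, ← CommRingCat.ofHom_comp]
  dsimp only [chartFunctor]
  congr 2
  ext x
  exact (he x).symm

instance {L L' : Idx B d} (f : L' ⟶ L) : IsOpenImmersion ((chartFunctor k B d).map f) := by
  obtain ⟨e, he⟩ := chartFunctor_map_eq k f
  have : IsIso (CommRingCat.ofHom e.toRingEquiv.toRingHom) :=
    inferInstanceAs (IsIso (e.toRingEquiv.toCommRingCatIso.hom))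
  have h2 : IsOpenImmersion (Spec.map (CommRingCat.ofHom e.toRingEquiv.toRingHom) ≫
      Spec.map (CommRingCat.ofHom (algebraMap (univ k L).A
        (Localization.Away (cutElt k L L'.s))))) := inferInstance
  rw [he]
  exact h2

lemma range_chartFunctor_map {L L' : Idx B d} (f : L' ⟶ L) (y : Spec (CommRingCat.of (univ k L).A)) :
    y ∈ Set.range ((chartFunctor k B d).map f) ↔ cutElt k L L'.s ∉ y.asIdeal := by
  obtain ⟨e, he⟩ := chartFunctor_map_eq k f
  rw [he]
  have : IsIso (CommRingCat.ofHom e.toRingEquiv.toRingHom) :=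
    inferInstanceAs (IsIso (e.toRingEquiv.toCommRingCatIso.hom))
  have h1 : Set.range (Spec.map (CommRingCat.ofHom e.toRingEquiv.toRingHom) ≫
      Spec.map (CommRingCat.ofHom (algebraMap (univ k L).A
        (Localization.Away (cutElt k L L'.s))))) = Set.range (Spec.map (CommRingCat.ofHom (algebraMap (univ k L).A
        (Localization.Away (cutElt k L L'.s))))) := by
    rw [Scheme.Hom.comp_base, TopCat.coe_comp, Set.range_comp]
    rw [Set.range_eq_univ.2, Set.image_univ]
    exact (Spec.map (CommRingCat.ofHom e.toRingEquiv.toRingHom)).surjective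
  have := PrimeSpectrum.localization_away_comap_range (Localization.Away (cutElt k L L'.s)) (cutElt k L L'.s)
  have h2 : y ∈ Set.range (PrimeSpectrum.comap (algebraMap (univ k L).A
        (Localization.Away (cutElt k L L'.s)))) ↔ cutElt k L L'.s ∉ y.asIdeal := by
    rw [this]
    rfl
  exact (Set.ext_iff.1 h1 y).trans h2

open Classical in
/-- union of index sets -/
noncomputable def Idx.sup (L L' : Idx B d) : Idx B d := ⟨L.s ∪ L'.s, L.ne.mono Finset.subset_union_left⟩

omit [CommRing B] in
lemma Idx.sup_le_left (L L' : Idx B d) : L.sup L' ≤ L := by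
  classical
  exact Finset.subset_union_left

omit [CommRing B] in
lemma Idx.sup_le_right (L L' : Idx B d) : L.sup L' ≤ L' := by
  classical
  exact Finset.subset_union_right

lemma cutElt_sup_notMem {l i j : Idx B d} (p : PrimeSpectrum (univ k l).A)
    (hi : cutElt k l i.s ∉ p.asIdeal) (hj : cutElt k l j.s ∉ p.asIdeal) :
    cutElt k l (i.sup j).s ∉ p.asIdeal := by
  classical
  intro hmem
  unfold cutElt locElt at hmem hi hj
  rw [Ideal.IsPrime.prod_mem_iff] at hmem hi hj
  push Not at hi hj
  obtain ⟨b', hb', hb2⟩ := hmem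
  rcases Finset.mem_union.1 hb' with hb' | hb'
  · exact hi b' hb' hb2
  · exact hj b' hb' hb2

instance : ((chartFunctor k B d) ⋙ Scheme.forget).IsLocallyDirected where
  cond := by
    classical
    intro i j l fi fj xi xj h
    have hi : cutElt k l i.s ∉ PrimeSpectrum.asIdeal ((chartFunctor k B d).map fi xi : Spec (CommRingCat.of (univ k l).A)) :=
      (range_chartFunctor_map k fi _).1 ⟨xi, rfl⟩
    have hj : cutElt k l j.s ∉ PrimeSpectrum.asIdeal ((chartFunctor k B d).map fi xi : Spec (CommRingCat.of (univ k l).A)) := by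
      have : (chartFunctor k B d).map fi xi = (chartFunctor k B d).map fj xj := h
      rw [this]
      exact (range_chartFunctor_map k fj _).1 ⟨xj, rfl⟩
    let m : Idx B d := i.sup j
    let gi : m ⟶ i := homOfLE (Idx.sup_le_left i j)
    let gj : m ⟶ j := homOfLE (Idx.sup_le_right i j)
    have hm : cutElt k l m.s ∉ PrimeSpectrum.asIdeal ((chartFunctor k B d).map fi xi : Spec (CommRingCat.of (univ k l).A)) :=
      cutElt_sup_notMem k _ hi hj
    obtain ⟨z, hz⟩ := (range_chartFunctor_map k (gi ≫ fi) _).2 hm
    refine ⟨m, gi, gj, z, ?_, ?_⟩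
    · apply ((chartFunctor k B d).map fi).isOpenEmbedding.injective
      change (chartFunctor k B d).map fi ((chartFunctor k B d).map gi z) = _
      rw [← Scheme.Hom.comp_apply, ← Functor.map_comp]
      exact hz
    · apply ((chartFunctor k B d).map fj).isOpenEmbedding.injective
      change (chartFunctor k B d).map fj ((chartFunctor k B d).map gj z) = _
      rw [← Scheme.Hom.comp_apply, ← Functor.map_comp]
      have : gj ≫ fj = gi ≫ fi := Subsingleton.elim _ _
      rw [this]
      exact hz.trans h

end Functor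

end Pool.Agent.Helper226
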