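import Mathlib
import Pool.Agent.Helper226.HilbGlue

set_option autoImplicit false

open scoped TensorProduct
open CategoryTheory AlgebraicGeometry Limits

universe u

namespace Pool.Agent.Helper226

variable (k : Type u) [Field k] (B : Type u) [CommRing B] [Algebra k B] (d : ℕ)

/-- the Hilbert scheme, glued from charts -/
noncomputable def HilbS : Scheme.{u} := colimit (chartFunctor k B d)

variable {B d}

/-- chart inclusion -/
noncomputable def chartι (L : Idx B d) : Spec (CommRingCat.of (univ k L).A) ⟶ HilbS k B d :=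
  colimit.ι (chartFunctor k B d) L

instance (L : Idx B d) : IsOpenImmersion (chartι k L) :=
  inferInstanceAs (IsOpenImmersion (colimit.ι (chartFunctor k B d) L))

lemma map_chartι {L L' : Idx B d} (h : L ≤ L') :
    Spec.map (CommRingCat.ofHom
    ((univ k L').hom (univ k L).I (hasBas_of_le k h)).toRingHom) ≫ chartι k L' = chartι k L :=
  colimit.w (chartFunctor k B d) (homOfLE h)

lemma chartι_surj (x : HilbS k B d) : ∃ (L : Idx B d) (y : Spec (CommRingCat.of (univ k L).A)),
    chartι k L y = x :=
  Scheme.IsLocallyDirected.ι_jointly_surjective (chartFunctor k B d) x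

variable (B d) in
/-- the structure morphism -/
noncomputable def HilbS.str : HilbS k B d ⟶ Spec (CommRingCat.of k) :=
  colimit.desc (chartFunctor k B d)
    { pt := Spec (CommRingCat.of k)
      ι :=
        { app := fun L => Spec.map (CommRingCat.ofHom (algebraMap k (univ k L).A))
          naturality := by
            intro L L' f
            dsimp [chartFunctor]
            rw [← Spec.map_comp, ← CommRingCat.ofHom_comp, Category.comp_id]
            congr 2
            exact ((univ k L').hom (univ k L).I (hasBas_of_le k f.le)).comp_algebraMap } }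

lemma chartι_str (L : Idx B d) : chartι k L ≫ HilbS.str k B d =
    Spec.map (CommRingCat.ofHom (algebraMap k (univ k L).A)) :=
  colimit.ι_desc _ _

section pt

variable {R : Type u} [CommRing R] [Algebra k R] {R' : Type u} [CommRing R'] [Algebra k R']

/-- the point of the Hilbert scheme given by an ideal lying in a chart -/
noncomputable def pt (L : Idx B d) (I : Ideal (R ⊗[k] B)) (h : HasBas (L.s : Set (Fin d → B)) I) :
    Spec (CommRingCat.of R) ⟶ HilbS k B d :=
  Spec.map (CommRingCat.ofHom ((univ k L).hom I h).toRingHom) ≫ chartι k L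

lemma pt_str (L : Idx B d) (I : Ideal (R ⊗[k] B)) (h : HasBas (L.s : Set (Fin d → B)) I) :
    pt k L I h ≫ HilbS.str k B d = Spec.map (CommRingCat.ofHom (algebraMap k R)) := by
  unfold pt
  rw [Category.assoc, chartι_str, ← Spec.map_comp, ← CommRingCat.ofHom_comp]
  congr 2
  exact ((univ k L).hom I h).comp_algebraMap

lemma pt_of_le {L L' : Idx B d} (hL : L ≤ L') (I : Ideal (R ⊗[k] B))
    (h : HasBas (L.s : Set (Fin d → B)) I) (h' : HasBas (L'.s : Set (Fin d → B)) I) :
    pt k L I h = pt k L' I h' := by
  unfold pt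
  rw [← map_chartι k hL, ← Category.assoc, ← Spec.map_comp, ← CommRingCat.ofHom_comp]
  congr 3
  have : (univ k L').hom I h' = ((univ k L).hom I h).comp
      ((univ k L').hom (univ k L).I (hasBas_of_le k hL)) := by
    apply UnivFor.hom_eq
    rw [map_bc_comp, UnivFor.map_hom, UnivFor.map_hom]
  rw [this]
  rfl

lemma pt_eq (L L' : Idx B d) (I : Ideal (R ⊗[k] B))
    (h : HasBas (L.s : Set (Fin d → B)) I) (h' : HasBas (L'.s : Set (Fin d → B)) I) :
    pt k L I h = pt k L' I h' := by
  classical
  have hs : HasBas ((L.sup L').s : Set (Fin d → B)) I := by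
    intro b hb
    rcases Finset.mem_union.1 (Finset.mem_coe.1 hb) with hb | hb
    · exact h b hb
    · exact h' b hb
  rw [← pt_of_le k (Idx.sup_le_left L L') I hs h, ← pt_of_le k (Idx.sup_le_right L L') I hs h']

lemma pt_map (L : Idx B d) (I : Ideal (R ⊗[k] B)) (h : HasBas (L.s : Set (Fin d → B)) I)
    (φ : R →ₐ[k] R') : Spec.map (CommRingCat.ofHom φ.toRingHom) ≫ pt k L I h =
      pt k L (I.map (bc B φ)) (h.map φ) := by
  unfold pt
  rw [← Category.assoc, ← Spec.map_comp, ← CommRingCat.ofHom_comp]
  congr 3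
  rw [← UnivFor.comp_hom]
  rfl

lemma chartι_eq_iff {L L' : Idx B d} {x : Spec (CommRingCat.of (univ k L).A)}
    {y : Spec (CommRingCat.of (univ k L').A)} :
    chartι k L x = chartι k L' y ↔ ∃ (M : Idx B d) (h : M ≤ L) (h' : M ≤ L')
      (z : Spec (CommRingCat.of (univ k M).A)),
      (chartFunctor k B d).map (homOfLE h) z = x ∧ (chartFunctor k B d).map (homOfLE h') z = y := by
  unfold chartι
  refine (Scheme.IsLocallyDirected.ι_eq_ι_iff (chartFunctor k B d)).trans ?_
  constructor
  · rintro ⟨M, fi, fj, z, h1, h2⟩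
    exact ⟨M, fi.le, fj.le, z, h1, h2⟩
  · rintro ⟨M, h, h', z, h1, h2⟩
    exact ⟨M, homOfLE h, homOfLE h', z, h1, h2⟩

lemma cutElt_dvd {l i j : Idx B d} (h : i.s ⊆ j.s) : cutElt k l i.s ∣ cutElt k l j.s := by
  unfold cutElt locElt
  exact Finset.prod_dvd_prod_of_subset _ _ _ h

lemma mem_range_chartι {L L' : Idx B d} (x : Spec (CommRingCat.of (univ k L).A))
    (h : chartι k L x ∈ Set.range (chartι k L')) : cutElt k L L'.s ∉ x.asIdeal := by
  obtain ⟨y, hy⟩ := h
  obtain ⟨M, h1, h2, z, h3, h4⟩ := (chartι_eq_iff k).1 hy.symm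
  have := (range_chartFunctor_map k (homOfLE h1) x).1 ⟨z, h3⟩
  intro hmem
  exact this (Ideal.mem_of_dvd _ (cutElt_dvd k h2) hmem)

lemma hasBas_of_forall {L L' : Idx B d} (I : Ideal (R ⊗[k] B))
    (h : HasBas (L.s : Set (Fin d → B)) I)
    (hr : ∀ y : Spec (CommRingCat.of R), pt k L I h y ∈ Set.range (chartι k L')) :
    HasBas (L'.s : Set (Fin d → B)) I := by
  have hu : IsUnit ((univ k L).hom I h (cutElt k L L'.s)) := by
    by_contra hnu
    obtain ⟨m, hm, hmem⟩ := exists_max_ideal_of_mem_nonunits hnu
    let y : Spec (CommRingCat.of R) := (⟨m, hm.isPrime⟩ : PrimeSpectrum R)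
    have hy := hr y
    have : chartι k L (Spec.map (CommRingCat.ofHom ((univ k L).hom I h).toRingHom) y) ∈
        Set.range (chartι k L') := by
      unfold pt at hy
      rw [Scheme.Hom.comp_apply] at hy
      exact hy
    have := mem_range_chartι k _ this
    exact this hmem
  rw [show (univ k L).hom I h (cutElt k L L'.s) = locElt (((univ k L).chart (b := L.ne.choose) L.ne.choose_spec).map
    ((univ k L).hom I h)) L'.s from (locElt_map _ _ _).symm, isUnit_locElt_iff, Chart.ideal_map,
    UnivFor.chart_ideal, UnivFor.map_hom] at hu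
  exact hu

lemma pt_injective {L L' : Idx B d} (I I' : Ideal (R ⊗[k] B))
    (h : HasBas (L.s : Set (Fin d → B)) I) (h' : HasBas (L'.s : Set (Fin d → B)) I')
    (heq : pt k L I h = pt k L' I' h') : I = I' := by
  have h2 : HasBas (L'.s : Set (Fin d → B)) I := by
    apply hasBas_of_forall k I h
    intro y
    rw [heq]
    exact ⟨Spec.map (CommRingCat.ofHom ((univ k L').hom I' h').toRingHom) y, by simp [pt]⟩
  rw [pt_eq k L L' I h h2] at heq
  unfold pt at heq
  rw [cancel_mono] at heq
  have h3 := Spec.map_injective heq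
  have h4 : (univ k L').hom I h2 = (univ k L').hom I' h' := by
    ext x
    exact congr($(h3).hom x)
  rw [← (univ k L').map_hom I h2, h4, UnivFor.map_hom]

end pt

end Pool.Agent.Helper226
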