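import Mathlib
import Pool.Agent.Helper226.HilbPoints

set_option autoImplicit false

open scoped TensorProduct

universe u

namespace Pool.Agent.Helper226

section Loc

variable {k : Type u} [CommRing k] {B : Type u} [CommRing B] [Algebra k B]
variable {R : Type u} [CommRing R] [Algebra k R]

/-- structure map as algebra map over `k` -/
noncomputable abbrev locHom (R : Type u) [CommRing R] [Algebra k R] (R' : Type u) [CommRing R']
    [Algebra k R'] [Algebra R R'] [IsScalarTower k R R'] : R →ₐ[k] R' :=
  IsScalarTower.toAlgHom k R R'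

lemma isLocalization_bc (f : R) (R' : Type u) [CommRing R'] [Algebra k R'] [Algebra R R']
    [IsScalarTower k R R'] [IsLocalization.Away f R'] :
    let := (bc B (locHom (k := k) R R')).toRingHom.toAlgebra
    IsLocalization.Away (f ⊗ₜ[k] (1 : B)) (R' ⊗[k] B) := by
  let alg := (bc B (locHom (k := k) R R')).toRingHom.toAlgebra
  have hs : IsScalarTower R (R ⊗[k] B) (R' ⊗[k] B) := by
    refine IsScalarTower.of_algebraMap_eq' ?_
    ext x
    simp [RingHom.algebraMap_toAlgebra, Algebra.TensorProduct.algebraMap_apply]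
  have : Submonoid.powers (f ⊗ₜ[k] (1 : B)) =
      Algebra.algebraMapSubmonoid (R ⊗[k] B) (Submonoid.powers f) := by
    simp [Algebra.TensorProduct.algebraMap_apply]
  rw [IsLocalization.Away, this]
  refine IsLocalization.tensorProduct_tensorProduct _ _ _ _ ?_
  ext
  simp [RingHom.algebraMap_toAlgebra]

lemma mem_map_bc_iff (f : R) (R' : Type u) [CommRing R'] [Algebra k R'] [Algebra R R']
    [IsScalarTower k R R'] [IsLocalization.Away f R'] (I : Ideal (R ⊗[k] B)) (x : R ⊗[k] B) :
    bc B (locHom (k := k) R R') x ∈ I.map (bc B (locHom (k := k) R R')) ↔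
      ∃ n : ℕ, (f ^ n) • x ∈ I := by
  let alg := (bc B (locHom (k := k) R R')).toRingHom.toAlgebra
  have hloc := isLocalization_bc (k := k) (B := B) f R'
  have h1 : (bc B (locHom (k := k) R R')) x ∈ I.map (bc B (locHom (k := k) R R')) ↔
    algebraMap (R ⊗[k] B) (R' ⊗[k] B) x ∈ I.map (algebraMap (R ⊗[k] B) (R' ⊗[k] B)) := Iff.rfl
  rw [h1, IsLocalization.algebraMap_mem_map_algebraMap_iff (Submonoid.powers (f ⊗ₜ[k] (1 : B)))]
  constructor
  · rintro ⟨_, ⟨n, rfl⟩, hn⟩
    refine ⟨n, ?_⟩
    simpa [Algebra.smul_def, Algebra.TensorProduct.algebraMap_apply] using hn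
  · rintro ⟨n, hn⟩
    refine ⟨_, ⟨n, rfl⟩, ?_⟩
    simpa [Algebra.smul_def, Algebra.TensorProduct.algebraMap_apply] using hn

lemma exists_bc_eq (f : R) (R' : Type u) [CommRing R'] [Algebra k R'] [Algebra R R']
    [IsScalarTower k R R'] [IsLocalization.Away f R'] (y : R' ⊗[k] B) :
      ∃ (n : ℕ) (x : R ⊗[k] B), bc B (locHom (k := k) R R') x = (algebraMap R R' f ^ n) • y := by
  let alg := (bc B (locHom (k := k) R R')).toRingHom.toAlgebra
  have hloc := isLocalization_bc (k := k) (B := B) f R'
  obtain ⟨n, x, hx⟩ := IsLocalization.Away.surj (f ⊗ₜ[k] (1 : B)) y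
  refine ⟨n, x, ?_⟩
  change algebraMap (R ⊗[k] B) (R' ⊗[k] B) x = _
  rw [← hx, mul_comm, Algebra.smul_def, RingHom.algebraMap_toAlgebra, map_pow]
  simp [Algebra.TensorProduct.algebraMap_apply]

/-- local criterion for membership -/
lemma mem_of_locally (I : Ideal (R ⊗[k] B)) (x : R ⊗[k] B)
    (h : ∀ p : PrimeSpectrum R, ∃ f ∉ p.asIdeal,
      bc B (locHom (k := k) R (Localization.Away f)) x ∈
        I.map (bc B (locHom (k := k) R (Localization.Away f)))) : x ∈ I := by
  let N : Ideal R :=
    { carrier := {r | r • x ∈ I}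
      add_mem' := by
        intro a b ha hb
        simp only [Set.mem_ofPred_eq] at *
        rw [add_smul]
        exact I.add_mem ha hb
      zero_mem' := by simp
      smul_mem' := by
        intro c a ha
        simp only [Set.mem_ofPred_eq] at *
        rw [smul_eq_mul, mul_smul, Algebra.smul_def c]
        exact I.mul_mem_left _ ha }
  have hN : N = ⊤ := by
    by_contra hne
    obtain ⟨m, hm, hle⟩ := Ideal.exists_le_maximal N hne
    obtain ⟨f, hf, hx⟩ := h ⟨m, hm.isPrime⟩
    rw [mem_map_bc_iff f] at hx
    obtain ⟨n, hn⟩ := hx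
    exact hf (hm.isPrime.mem_of_pow_mem n (hle hn))
  have : (1 : R) ∈ N := by rw [hN]; trivial
  have h1 : (1 : R) • x ∈ I := this
  simpa using h1

lemma eq_of_locally (I I' : Ideal (R ⊗[k] B))
    (h : ∀ p : PrimeSpectrum R, ∃ f ∉ p.asIdeal,
      I.map (bc B (locHom (k := k) R (Localization.Away f))) =
        I'.map (bc B (locHom (k := k) R (Localization.Away f)))) : I = I' := by
  apply le_antisymm
  · intro x hx
    apply mem_of_locally
    intro p
    obtain ⟨f, hf, he⟩ := h p
    exact ⟨f, hf, he ▸ Ideal.mem_map_of_mem _ hx⟩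
  · intro x hx
    apply mem_of_locally
    intro p
    obtain ⟨f, hf, he⟩ := h p
    exact ⟨f, hf, he ▸ Ideal.mem_map_of_mem _ hx⟩

/-- gluing ideals -/
lemma exists_glue {ι : Type u} [Finite ι] (f : ι → R)
    (I : ∀ i, Ideal ((Localization.Away (f i)) ⊗[k] B))
    (hI : ∀ i j, ∀ (T : Type u) [CommRing T] [Algebra k T] [Algebra R T] [IsScalarTower k R T]
      (φ : Localization.Away (f i) →ₐ[k] T) (ψ : Localization.Away (f j) →ₐ[k] T)
      (_ : φ.comp (locHom (k := k) R _) = locHom (k := k) R T)
      (_ : ψ.comp (locHom (k := k) R _) = locHom (k := k) R T),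
      (I i).map (bc B φ) = (I j).map (bc B ψ)) :
    ∃ J : Ideal (R ⊗[k] B), ∀ i, J.map (bc B (locHom (k := k) R (Localization.Away (f i)))) = I i := by
  refine ⟨⨅ i, (I i).comap (bc B (locHom (k := k) R (Localization.Away (f i)))), ?_⟩
  intro i
  apply le_antisymm
  · rw [Ideal.map_le_iff_le_comap]
    exact iInf_le _ i
  · intro y hy
    obtain ⟨n, x, hx⟩ := exists_bc_eq (k := k) (B := B) (f i) (Localization.Away (f i)) y
    have hxi : bc B (locHom (k := k) R (Localization.Away (f i))) x ∈ I i := by
      rw [hx, Algebra.smul_def]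
      exact (I i).mul_mem_left _ hy
    have key : ∀ j, ∃ m : ℕ, bc B (locHom (k := k) R (Localization.Away (f j))) ((f i ^ m) • x) ∈ I j := by
      intro j
      let T := Localization.Away (algebraMap R (Localization.Away (f j)) (f i))
      let ψ : Localization.Away (f j) →ₐ[k] T := locHom (k := k) (Localization.Away (f j)) T
      have hu : IsUnit (algebraMap R T (f i)) := by
        rw [IsScalarTower.algebraMap_apply R (Localization.Away (f j)) T]
        exact IsLocalization.Away.algebraMap_isUnit _
      let φ : Localization.Away (f i) →ₐ[k] T :=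
        IsLocalization.liftAlgHom (M := Submonoid.powers (f i)) (f := locHom (k := k) R T) (by
          rintro ⟨_, n, rfl⟩
          simpa using hu.pow n)
      have hφ : φ.comp (locHom (k := k) R _) = locHom (k := k) R T := by
        ext x
        simp [φ]
      have hψ : ψ.comp (locHom (k := k) R _) = locHom (k := k) R T := by
        ext x
        simp [ψ, ← IsScalarTower.algebraMap_apply]
      have e := hI i j T φ ψ hφ hψ
      have h1 : bc B φ (bc B (locHom (k := k) R (Localization.Away (f i))) x) ∈ (I i).map (bc B φ) :=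
        Ideal.mem_map_of_mem _ hxi
      rw [e, ← AlgHom.comp_apply, ← bc_comp, hφ, ← hψ, bc_comp, AlgHom.comp_apply,
        mem_map_bc_iff (algebraMap R (Localization.Away (f j)) (f i))] at h1
      obtain ⟨m, hm⟩ := h1
      refine ⟨m, ?_⟩
      convert hm using 1
      rw [Algebra.smul_def, map_mul, Algebra.smul_def]
      congr 1
      simp [Algebra.TensorProduct.algebraMap_apply]
    choose m hm using key
    have : Fintype ι := Fintype.ofFinite ι
    let M := ∑ j, m j
    have hM : (f i ^ M) • x ∈ ⨅ i, (I i).comap (bc B (locHom (k := k) R (Localization.Away (f i)))) := by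
      rw [Submodule.mem_iInf]
      intro j
      rw [Ideal.mem_comap]
      have hle : m j ≤ M := Finset.single_le_sum (fun _ _ => Nat.zero_le _) (Finset.mem_univ j)
      obtain ⟨t, ht⟩ := Nat.exists_eq_add_of_le hle
      rw [ht, add_comm, pow_add, mul_smul, Algebra.smul_def, map_mul]
      exact (I j).mul_mem_left _ (hm j)
    have h2 := Ideal.mem_map_of_mem (bc B (locHom (k := k) R (Localization.Away (f i)))) hM
    have hu : IsUnit (algebraMap R (Localization.Away (f i)) (f i)) :=
      IsLocalization.Away.algebraMap_isUnit _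
    have h3 : bc B (locHom (k := k) R (Localization.Away (f i))) ((f i ^ M) • x) =
        (algebraMap R (Localization.Away (f i)) (f i) ^ (M + n)) • y := by
      rw [pow_add, mul_smul, ← hx, Algebra.smul_def, map_mul, Algebra.smul_def]
      congr 1
      simp [Algebra.TensorProduct.algebraMap_apply]
    rw [h3] at h2
    obtain ⟨v, hv⟩ := hu.pow (M + n)
    have h4 : y = (↑v⁻¹ : Localization.Away (f i)) • ((algebraMap R (Localization.Away (f i)) (f i) ^ (M + n)) • y) := by
      rw [← hv, smul_smul]
      simp
    rw [h4, Algebra.smul_def]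
    exact Ideal.mul_mem_left _ _ h2

end Loc

end Pool.Agent.Helper226
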