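import Mathlib
import Pool.Agent.Helper226.HilbLocal

set_option autoImplicit false

open scoped TensorProduct
open CategoryTheory AlgebraicGeometry Limits

universe u

namespace Pool.Agent.Helper226

section SpecGlue

variable {k : Type u} [CommRing k] {R : Type u} [CommRing R] [Algebra k R]

lemma span_range_eq_top (s : PrimeSpectrum R → R) (hs : ∀ p, s p ∉ p.asIdeal) :
    Ideal.span (Set.range s) = ⊤ := by
  by_contra hne
  obtain ⟨m, hm, hle⟩ := Ideal.exists_le_maximal _ hne
  exact hs ⟨m, hm.isPrime⟩ (hle (Ideal.subset_span ⟨_, rfl⟩))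

lemma spec_hom_ext {Y : Scheme.{u}} (φ ψ : Spec (CommRingCat.of R) ⟶ Y)
    (h : ∀ p : PrimeSpectrum R, ∃ f ∉ p.asIdeal,
      Spec.map (CommRingCat.ofHom (algebraMap R (Localization.Away f))) ≫ φ =
      Spec.map (CommRingCat.ofHom (algebraMap R (Localization.Away f))) ≫ ψ) : φ = ψ := by
  choose s hs hsφ using h
  exact (Scheme.affineOpenCoverOfSpanRangeEqTop (R := .of R) s
    (span_range_eq_top s hs)).openCover.hom_ext _ _ hsφ

variable (k) in
lemma spec_glue {Y : Scheme.{u}} {ι : Type u} (s : ι → R) (hs : Ideal.span (Set.range s) = ⊤)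
    (φ : ∀ i, Spec (CommRingCat.of (Localization.Away (s i))) ⟶ Y)
    (h : ∀ i j, ∀ (T : Type u) [CommRing T] [Algebra k T] [Algebra R T] [IsScalarTower k R T]
      (α : Localization.Away (s i) →ₐ[k] T) (β : Localization.Away (s j) →ₐ[k] T)
      (_ : α.comp (locHom (k := k) R _) = locHom (k := k) R T)
      (_ : β.comp (locHom (k := k) R _) = locHom (k := k) R T),
      Spec.map (CommRingCat.ofHom α.toRingHom) ≫ φ i =
        Spec.map (CommRingCat.ofHom β.toRingHom) ≫ φ j) :
    ∃ Φ : Spec (CommRingCat.of R) ⟶ Y, ∀ i,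
      Spec.map (CommRingCat.ofHom (algebraMap R (Localization.Away (s i)))) ≫ Φ = φ i := by
  let 𝒰 := (Scheme.affineOpenCoverOfSpanRangeEqTop (R := .of R) s hs).openCover
  refine ⟨𝒰.glueMorphisms φ ?_, fun i => 𝒰.ι_glueMorphisms _ _ i⟩
  intro i j
  let T := Localization.Away (s i) ⊗[R] Localization.Away (s j)
  let α : Localization.Away (s i) →ₐ[k] T :=
    (Algebra.TensorProduct.includeLeft (R := R) (S := R)).restrictScalars k
  let β : Localization.Away (s j) →ₐ[k] T :=
    (Algebra.TensorProduct.includeRight (R := R)).restrictScalars k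
  have hα : α.comp (locHom (k := k) R _) = locHom (k := k) R T := by
    ext x
    simp [α, T, Algebra.TensorProduct.algebraMap_apply]
  have hβ : β.comp (locHom (k := k) R _) = locHom (k := k) R T := by
    ext x
    simp [β, T]
  have key := h i j T α β hα hβ
  refine (cancel_epi (pullbackSpecIso R (Localization.Away (s i)) (Localization.Away (s j))).inv).1 ?_
  have e1 := pullbackSpecIso_inv_fst R (Localization.Away (s i)) (Localization.Away (s j))
  have e2 := pullbackSpecIso_inv_snd R (Localization.Away (s i)) (Localization.Away (s j))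
  exact (((Category.assoc _ _ _).symm.trans (congrArg (· ≫ φ i) e1)).trans key).trans
    ((Category.assoc _ _ _).symm.trans (congrArg (· ≫ φ j) e2)).symm

end SpecGlue

variable (k : Type u) [Field k] {B : Type u} [CommRing B] [Algebra k B] {d : ℕ}

section
variable {R : Type u} [CommRing R] [Algebra k R] {R' : Type u} [CommRing R'] [Algebra k R']

/-- Zariski-locally on `Spec R`, the quotient has a basis consisting of elements of `B`. -/
def LocBas (d : ℕ) (I : Ideal (R ⊗[k] B)) : Prop :=
  ∀ p : PrimeSpectrum R, ∃ f ∉ p.asIdeal, ∃ b : Fin d → B,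
    IsBas b (I.map (bc B (locHom (k := k) R (Localization.Away f))))

/-- the index with one element -/
def Idx.single (b : Fin d → B) : Idx B d := ⟨{b}, Finset.singleton_nonempty b⟩

variable {k} in
lemma hasBas_single {b : Fin d → B} {I : Ideal (R ⊗[k] B)} (h : IsBas b I) :
    HasBas ((Idx.single b).s : Set (Fin d → B)) I := by
  intro b' hb'
  simp only [Idx.single, Finset.coe_singleton, Set.mem_singleton_iff] at hb'
  subst hb'
  exact h

/-- `φ` classifies `I` -/
def Classifies (φ : Spec (CommRingCat.of R) ⟶ HilbS k B d) (I : Ideal (R ⊗[k] B)) : Prop :=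
  ∀ (R' : Type u) [CommRing R'] [Algebra k R'] (g : R →ₐ[k] R') (L : Idx B d)
    (h : HasBas (L.s : Set (Fin d → B)) (I.map (bc B g))),
    Spec.map (CommRingCat.ofHom g.toRingHom) ≫ φ = pt k L (I.map (bc B g)) h

lemma Classifies.unique {φ ψ : Spec (CommRingCat.of R) ⟶ HilbS k B d} {I : Ideal (R ⊗[k] B)}
    (hI : LocBas k d I) (hφ : Classifies k φ I) (hψ : Classifies k ψ I) : φ = ψ := by
  apply spec_hom_ext
  intro p
  obtain ⟨f, hf, b, hb⟩ := hI p
  refine ⟨f, hf, ?_⟩
  exact (hφ _ (locHom (k := k) R (Localization.Away f)) _ (hasBas_single hb)).trans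
    (hψ _ (locHom (k := k) R (Localization.Away f)) _ (hasBas_single hb)).symm

lemma LocBas.map {I : Ideal (R ⊗[k] B)} (hI : LocBas k d I) (g : R →ₐ[k] R') :
    LocBas k d (I.map (bc B g)) := by
  intro p
  obtain ⟨f, hf, b, hb⟩ := hI (PrimeSpectrum.comap g.toRingHom p)
  refine ⟨g f, hf, b, ?_⟩
  have hu : IsUnit (((locHom (k := k) R' (Localization.Away (g f))).comp g) f) := by
    simp only [AlgHom.comp_apply]
    exact IsLocalization.Away.algebraMap_isUnit _
  let γ : Localization.Away f →ₐ[k] Localization.Away (g f) :=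
    IsLocalization.liftAlgHom (M := Submonoid.powers f)
      (f := (locHom (k := k) R' (Localization.Away (g f))).comp g) (by
        rintro ⟨_, n, rfl⟩
        rw [map_pow]
        exact hu.pow n)
  have hγ : γ.comp (locHom (k := k) R (Localization.Away f)) =
      (locHom (k := k) R' (Localization.Away (g f))).comp g := by
    ext x
    simp [γ]
  rw [← map_bc_comp, ← hγ, map_bc_comp]
  exact hb.map γ

lemma exists_classifies {I : Ideal (R ⊗[k] B)} (hI : LocBas k d I) :
    ∃ φ : Spec (CommRingCat.of R) ⟶ HilbS k B d, Classifies k φ I := by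
  have hI' := hI
  choose s hs b hb using hI
  obtain ⟨Φ, hΦ⟩ := spec_glue k s (span_range_eq_top s hs)
    (fun p => pt k (Idx.single (b p)) _ (hasBas_single (hb p))) (by
      intro p q T _ _ _ _ α β hα hβ
      rw [pt_map, pt_map]
      have e : ((I.map (bc B (locHom (k := k) R (Localization.Away (s p))))).map (bc B α)) =
          ((I.map (bc B (locHom (k := k) R (Localization.Away (s q))))).map (bc B β)) := by
        rw [← map_bc_comp, ← map_bc_comp, hα, hβ]
      have h2 : HasBas ((Idx.single (b q)).s : Set (Fin d → B))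
          ((I.map (bc B (locHom (k := k) R (Localization.Away (s p))))).map (bc B α)) := by
        rw [e]
        exact (hasBas_single (hb q)).map β
      rw [pt_eq k _ (Idx.single (b q)) _ _ h2]
      congr 1)
  refine ⟨Φ, ?_⟩
  intro R' _ _ g L h
  apply spec_hom_ext
  intro p
  obtain hq : s (PrimeSpectrum.comap g.toRingHom p) ∉ (PrimeSpectrum.comap g.toRingHom p).asIdeal :=
    hs _
  set q := PrimeSpectrum.comap g.toRingHom p with hqdef
  refine ⟨g (s q), hq, ?_⟩
  have hu : IsUnit (((locHom (k := k) R' (Localization.Away (g (s q)))).comp g) (s q)) := by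
    simp only [AlgHom.comp_apply]
    exact IsLocalization.Away.algebraMap_isUnit _
  let γ : Localization.Away (s q) →ₐ[k] Localization.Away (g (s q)) :=
    IsLocalization.liftAlgHom (M := Submonoid.powers (s q))
      (f := (locHom (k := k) R' (Localization.Away (g (s q)))).comp g) (by
        rintro ⟨_, n, rfl⟩
        rw [map_pow]
        exact hu.pow n)
  have hγ : γ.comp (locHom (k := k) R (Localization.Away (s q))) =
      (locHom (k := k) R' (Localization.Away (g (s q)))).comp g := by
    ext x
    simp [γ]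
  have h1 : Spec.map (CommRingCat.ofHom (algebraMap R' (Localization.Away (g (s q))))) ≫
      Spec.map (CommRingCat.ofHom g.toRingHom) ≫ Φ =
      Spec.map (CommRingCat.ofHom γ.toRingHom) ≫
        Spec.map (CommRingCat.ofHom (algebraMap R (Localization.Away (s q)))) ≫ Φ := by
    rw [← Category.assoc, ← Category.assoc, ← Spec.map_comp, ← Spec.map_comp,
      ← CommRingCat.ofHom_comp, ← CommRingCat.ofHom_comp]
    congr 3
    exact congrArg AlgHom.toRingHom hγ.symm
  rw [h1, hΦ q, pt_map]
  have h2 := pt_map k L (I.map (bc B g)) h (locHom (k := k) R' (Localization.Away (g (s q))))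
  refine Eq.trans ?_ h2.symm
  have e : ((I.map (bc B (locHom (k := k) R (Localization.Away (s q))))).map (bc B γ)) =
      (I.map (bc B g)).map (bc B (locHom (k := k) R' (Localization.Away (g (s q))))) := by
    rw [← map_bc_comp, ← map_bc_comp, hγ]
  have h3 : HasBas (L.s : Set (Fin d → B))
      ((I.map (bc B (locHom (k := k) R (Localization.Away (s q))))).map (bc B γ)) := by
    rw [e]
    exact h.map _
  rw [pt_eq k _ L _ _ h3]
  congr 1

variable {k} in
lemma isBas_of_dvd {I : Ideal (R ⊗[k] B)} {b : Fin d → B} {f g : R} (hfg : f ∣ g)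
    (h : IsBas b (I.map (bc B (locHom (k := k) R (Localization.Away f))))) :
    IsBas b (I.map (bc B (locHom (k := k) R (Localization.Away g)))) := by
  have hu : IsUnit (locHom (k := k) R (Localization.Away g) f) := by
    obtain ⟨c, rfl⟩ := hfg
    have : IsUnit (algebraMap R (Localization.Away (f * c)) (f * c)) :=
      IsLocalization.Away.algebraMap_isUnit _
    rw [map_mul] at this
    exact isUnit_of_mul_isUnit_left this
  let γ : Localization.Away f →ₐ[k] Localization.Away g :=
    IsLocalization.liftAlgHom (M := Submonoid.powers f)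
      (f := (locHom (k := k) R (Localization.Away g))) (by
        rintro ⟨_, n, rfl⟩
        rw [map_pow]
        exact hu.pow n)
  have hγ : γ.comp (locHom (k := k) R (Localization.Away f)) =
      (locHom (k := k) R (Localization.Away g)) := by
    ext x
    simp [γ]
  rw [← hγ, map_bc_comp]
  exact h.map γ

lemma Classifies.injective {φ : Spec (CommRingCat.of R) ⟶ HilbS k B d} {I I' : Ideal (R ⊗[k] B)}
    (hI : LocBas k d I) (hI' : LocBas k d I') (hφ : Classifies k φ I) (hφ' : Classifies k φ I') :
    I = I' := by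
  apply eq_of_locally
  intro p
  obtain ⟨f, hf, b, hb⟩ := hI p
  obtain ⟨f', hf', b', hb'⟩ := hI' p
  refine ⟨f * f', fun h => ?_, ?_⟩
  · rcases p.isPrime.mem_or_mem h with h | h
    · exact hf h
    · exact hf' h
  · have h1 := isBas_of_dvd (Dvd.intro _ rfl : f ∣ f * f') hb
    have h2 := isBas_of_dvd (Dvd.intro_left _ rfl : f' ∣ f * f') hb'
    exact pt_injective k _ _ (hasBas_single h1) (hasBas_single h2)
      ((hφ _ _ _ (hasBas_single h1)).symm.trans (hφ' _ _ _ (hasBas_single h2)))

/-- `f` is good for `φ`: over `R_f`, the morphism factors through a chart. -/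
def GoodElt (φ : Spec (CommRingCat.of R) ⟶ HilbS k B d) (f : R) : Prop :=
  ∃ (L : Idx B d) (I : Ideal (Localization.Away f ⊗[k] B)) (h : HasBas (L.s : Set (Fin d → B)) I),
    Spec.map (CommRingCat.ofHom (algebraMap R (Localization.Away f))) ≫ φ = pt k L I h

lemma exists_good (φ : Spec (CommRingCat.of R) ⟶ HilbS k B d)
    (hφ : φ ≫ HilbS.str k B d = Spec.map (CommRingCat.ofHom (algebraMap k R)))
    (p : PrimeSpectrum R) : ∃ f ∉ p.asIdeal, GoodElt k φ f := by
  let p' : Spec (CommRingCat.of R) := p
  obtain ⟨L, y, hy⟩ := chartι_surj k (φ p')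
  let U : (Spec (CommRingCat.of R)).Opens := φ ⁻¹ᵁ (chartι k L).opensRange
  have hpU : p' ∈ U := by
    change φ p' ∈ (chartι k L).opensRange
    rw [← hy]
    exact ⟨y, rfl⟩
  obtain ⟨_, ⟨f, rfl⟩, hpf, hfU⟩ :=
    PrimeSpectrum.isTopologicalBasis_basic_opens.exists_subset_of_mem_open
    (a := p) (u := (U : Set (Spec (CommRingCat.of R)))) hpU U.2
  refine ⟨f, hpf, ?_⟩
  let j : Spec (CommRingCat.of (Localization.Away f)) ⟶ Spec (CommRingCat.of R) :=
    Spec.map (CommRingCat.ofHom (algebraMap R (Localization.Away f)))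
  have hrange : Set.range (j ≫ φ) ⊆ Set.range (chartι k L) := by
    rintro _ ⟨z, rfl⟩
    rw [Scheme.Hom.comp_apply]
    have hz : j z ∈ (PrimeSpectrum.basicOpen f : Set (PrimeSpectrum R)) := by
      rw [← PrimeSpectrum.localization_away_comap_range (Localization.Away f) f]
      exact ⟨z, rfl⟩
    exact hfU hz
  let u := IsOpenImmersion.lift (chartι k L) (j ≫ φ) hrange
  have hu : u ≫ chartι k L = j ≫ φ := IsOpenImmersion.lift_fac _ _ _
  let w0 : CommRingCat.of (univ k L).A ⟶ CommRingCat.of (Localization.Away f) := Spec.preimage u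
  have hw0 : Spec.map w0 = u := Spec.map_preimage u
  have hcomm : CommRingCat.ofHom (algebraMap k (univ k L).A) ≫ w0 =
      CommRingCat.ofHom (algebraMap k (Localization.Away f)) := by
    apply Spec.map_injective
    rw [Spec.map_comp, hw0, ← chartι_str, ← Category.assoc, hu, Category.assoc, hφ,
      ← Spec.map_comp, ← CommRingCat.ofHom_comp]
  let w : (univ k L).A →ₐ[k] Localization.Away f :=
    { w0.hom with
      commutes' := fun r => congr($(hcomm).hom r) }
  have hL : HasBas (L.s : Set (Fin d → B)) ((univ k L).I.map (bc B w)) := (univ k L).has.map w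
  refine ⟨L, (univ k L).I.map (bc B w), hL, ?_⟩
  unfold pt
  rw [(univ k L).hom_eq _ hL w rfl]
  exact hu.symm.trans (congrArg (· ≫ chartι k L) hw0.symm)

lemma exists_ideal (φ : Spec (CommRingCat.of R) ⟶ HilbS k B d)
    (hφ : φ ≫ HilbS.str k B d = Spec.map (CommRingCat.ofHom (algebraMap k R))) :
    ∃ I : Ideal (R ⊗[k] B), LocBas k d I ∧ Classifies k φ I := by
  have hspan : Ideal.span {f : R | GoodElt k φ f} = ⊤ := by
    by_contra hne
    obtain ⟨m, hm, hle⟩ := Ideal.exists_le_maximal _ hne
    obtain ⟨f, hf, hg⟩ := exists_good k φ hφ ⟨m, hm.isPrime⟩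
    exact hf (hle (Ideal.subset_span hg))
  obtain ⟨t, ht, htop⟩ := (Ideal.span_eq_top_iff_finite _).1 hspan
  let ι : Type u := {f : R // f ∈ t}
  have hgood : ∀ i : ι, GoodElt k φ i.1 := fun i => ht i.2
  choose L I h hI using hgood
  obtain ⟨J, hJ⟩ := exists_glue (k := k) (B := B) (fun i : ι => i.1) I (by
    intro i j T _ _ _ _ α β hα hβ
    apply pt_injective k _ _ ((h i).map α) ((h j).map β)
    rw [← pt_map k _ _ (h i), ← pt_map k _ _ (h j), ← hI, ← hI, ← Category.assoc,
      ← Category.assoc, ← Spec.map_comp,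
      ← Spec.map_comp, ← CommRingCat.ofHom_comp, ← CommRingCat.ofHom_comp]
    congr 3
    exact congrArg AlgHom.toRingHom (hα.trans hβ.symm))
  have hex : ∀ p : PrimeSpectrum R, ∃ i : ι, i.1 ∉ p.asIdeal := by
    intro p
    by_contra hcon
    push Not at hcon
    apply p.isPrime.ne_top
    rw [← top_le_iff, ← htop, Ideal.span_le]
    intro f hf
    exact hcon ⟨f, hf⟩
  have hJL : LocBas k d J := by
    intro p
    obtain ⟨i, hi⟩ := hex p
    refine ⟨i.1, hi, (L i).ne.choose, ?_⟩
    rw [hJ i]
    exact h i _ (L i).ne.choose_spec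
  refine ⟨J, hJL, ?_⟩
  obtain ⟨Φ, hΦ⟩ := exists_classifies k hJL
  have : φ = Φ := by
    apply spec_hom_ext
    intro p
    obtain ⟨i, hi⟩ := hex p
    refine ⟨i.1, hi, ?_⟩
    rw [hI i]
    have hh : HasBas ((L i).s : Set (Fin d → B))
        (J.map (bc B (locHom (k := k) R (Localization.Away i.1)))) := by
      rw [hJ i]
      exact h i
    have := hΦ _ (locHom (k := k) R (Localization.Away i.1)) (L i) hh
    refine Eq.trans ?_ this.symm
    congr 1
    exact (hJ i).symm
  rw [this]
  exact hΦ

lemma Classifies.str {φ : Spec (CommRingCat.of R) ⟶ HilbS k B d} {I : Ideal (R ⊗[k] B)}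
    (hI : LocBas k d I) (hφ : Classifies k φ I) :
    φ ≫ HilbS.str k B d = Spec.map (CommRingCat.ofHom (algebraMap k R)) := by
  apply spec_hom_ext
  intro p
  obtain ⟨f, hf, b, hb⟩ := hI p
  refine ⟨f, hf, ?_⟩
  have := hφ _ (locHom (k := k) R (Localization.Away f)) _ (hasBas_single hb)
  have h2 : Spec.map (CommRingCat.ofHom (algebraMap R (Localization.Away f))) ≫ φ =
    pt k (Idx.single b) _ (hasBas_single hb) := this
  rw [← Category.assoc, h2, pt_str, ← Spec.map_comp, ← CommRingCat.ofHom_comp]

lemma Classifies.map {φ : Spec (CommRingCat.of R) ⟶ HilbS k B d} {I : Ideal (R ⊗[k] B)}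
    (hφ : Classifies k φ I) (g : R →ₐ[k] R') :
    Classifies k (Spec.map (CommRingCat.ofHom g.toRingHom) ≫ φ) (I.map (bc B g)) := by
  intro R'' _ _ g' L h
  have h' : HasBas (L.s : Set (Fin d → B)) (I.map (bc B (g'.comp g))) := by
    rw [map_bc_comp]
    exact h
  have := hφ R'' (g'.comp g) L h'
  rw [← Category.assoc, ← Spec.map_comp, ← CommRingCat.ofHom_comp]
  refine Eq.trans this ?_
  congr 1
  rw [map_bc_comp]

end

/-- the ideal classified by a morphism -/
noncomputable def idealOf {R : Type u} [CommRing R] [Algebra k R]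
    (φ : Spec (CommRingCat.of R) ⟶ HilbS k B d)
    (hφ : φ ≫ HilbS.str k B d = Spec.map (CommRingCat.ofHom (algebraMap k R))) :
    Ideal (R ⊗[k] B) := (exists_ideal k φ hφ).choose

lemma locBas_idealOf {R : Type u} [CommRing R] [Algebra k R]
    (φ : Spec (CommRingCat.of R) ⟶ HilbS k B d)
    (hφ : φ ≫ HilbS.str k B d = Spec.map (CommRingCat.ofHom (algebraMap k R))) :
    LocBas k d (idealOf k φ hφ) := (exists_ideal k φ hφ).choose_spec.1

lemma classifies_idealOf {R : Type u} [CommRing R] [Algebra k R]
    (φ : Spec (CommRingCat.of R) ⟶ HilbS k B d)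
    (hφ : φ ≫ HilbS.str k B d = Spec.map (CommRingCat.ofHom (algebraMap k R))) :
    Classifies k φ (idealOf k φ hφ) := (exists_ideal k φ hφ).choose_spec.2

/-- the classifying morphism -/
noncomputable def morOf {R : Type u} [CommRing R] [Algebra k R] (I : Ideal (R ⊗[k] B))
    (hI : LocBas k d I) : Spec (CommRingCat.of R) ⟶ HilbS k B d := (exists_classifies k hI).choose

lemma classifies_morOf {R : Type u} [CommRing R] [Algebra k R] (I : Ideal (R ⊗[k] B))
    (hI : LocBas k d I) : Classifies k (morOf k I hI) I := (exists_classifies k hI).choose_spec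

/-- the bijection between morphisms to the Hilbert scheme and locally free quotients -/
noncomputable def homEquiv (R : Type u) [CommRing R] [Algebra k R] :
    {φ : Spec (CommRingCat.of R) ⟶ HilbS k B d //
      φ ≫ HilbS.str k B d = Spec.map (CommRingCat.ofHom (algebraMap k R))} ≃
    {I : Ideal (R ⊗[k] B) // LocBas k d I} where
  toFun φ := ⟨idealOf k φ.1 φ.2, locBas_idealOf k φ.1 φ.2⟩
  invFun I := ⟨morOf k I.1 I.2, Classifies.str k I.2 (classifies_morOf k I.1 I.2)⟩
  left_inv φ := by
    apply Subtype.ext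
    exact Classifies.unique k (locBas_idealOf k φ.1 φ.2)
      (classifies_morOf k (idealOf k φ.1 φ.2) (locBas_idealOf k φ.1 φ.2))
      (classifies_idealOf k φ.1 φ.2)
  right_inv I := by
    apply Subtype.ext
    have hs := Classifies.str k I.2 (classifies_morOf k I.1 I.2)
    exact Classifies.injective k (locBas_idealOf k (morOf k I.1 I.2) hs) I.2
      (classifies_idealOf k (morOf k I.1 I.2) hs)
      (classifies_morOf k I.1 I.2)

lemma homEquiv_classifies {R : Type u} [CommRing R] [Algebra k R]
    (φ : {φ : Spec (CommRingCat.of R) ⟶ HilbS k B d //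
      φ ≫ HilbS.str k B d = Spec.map (CommRingCat.ofHom (algebraMap k R))}) :
    Classifies k φ.1 (homEquiv k R φ).1 := classifies_idealOf k φ.1 φ.2

lemma homEquiv_natural {R : Type u} [CommRing R] [Algebra k R] {R' : Type u} [CommRing R']
    [Algebra k R'] (g : R →ₐ[k] R')
    (φ : {φ : Spec (CommRingCat.of R) ⟶ HilbS k B d //
      φ ≫ HilbS.str k B d = Spec.map (CommRingCat.ofHom (algebraMap k R))})
    (h : (Spec.map (CommRingCat.ofHom g.toRingHom) ≫ φ.1) ≫ HilbS.str k B d =
      Spec.map (CommRingCat.ofHom (algebraMap k R'))) :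
    (homEquiv k R' ⟨_, h⟩).1 = (homEquiv k R φ).1.map (bc B g) := by
  have h1 := homEquiv_classifies k ⟨_, h⟩
  have h2 := (homEquiv_classifies k φ).map k g
  exact Classifies.injective k (homEquiv k R' ⟨_, h⟩).2 ((homEquiv k R φ).2.map k g) h1 h2

end Pool.Agent.Helper226
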