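import Mathlib
import Pool.Agent.Helper226.HilbRep

set_option autoImplicit false

open scoped TensorProduct

universe u

namespace Pool.Agent.Helper226

variable {k : Type u} [Field k] {B : Type u} [CommRing B] [Algebra k B] {d : ℕ}
variable {R : Type u} [CommRing R] [Algebra k R]

/-- the map `R^d → (R ⊗ B)/I` given by `b` -/
noncomputable def gen (I : Ideal (R ⊗[k] B)) (b : Fin d → B) :
    (Fin d → R) →ₗ[R] ((R ⊗[k] B) ⧸ I) :=
  (Ideal.Quotient.mkₐ R I).toLinearMap ∘ₗ Chart.expand (k := k) R b

lemma gen_bijective {I : Ideal (R ⊗[k] B)} {b : Fin d → B} (h : IsBas b I) :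
    Function.Bijective (gen I b) := by
  obtain ⟨c, rfl⟩ := h
  constructor
  · rw [← LinearMap.ker_eq_bot, LinearMap.ker_eq_bot']
    intro v hv
    have : Chart.expand (k := k) R b v ∈ c.ideal := Ideal.Quotient.eq_zero_iff_mem.1 hv
    rw [Chart.mem_ideal, Chart.L_expand] at this
    exact this
  · intro y
    obtain ⟨x, rfl⟩ := Ideal.Quotient.mk_surjective y
    refine ⟨c.L x, ?_⟩
    symm
    exact Ideal.Quotient.eq.2 (c.sub_expand_mem x)

lemma isBas_of_bijective {I : Ideal (R ⊗[k] B)} {b : Fin d → B}
    (h : Function.Bijective (gen I b)) : IsBas b I := by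
  let e : (Fin d → R) ≃ₗ[R] ((R ⊗[k] B) ⧸ I) := LinearEquiv.ofBijective _ h
  let L : R ⊗[k] B →ₗ[R] (Fin d → R) := e.symm.toLinearMap ∘ₗ (Ideal.Quotient.mkₐ R I).toLinearMap
  have hL : ∀ x, L x = 0 ↔ x ∈ I := by
    intro x
    simp only [L, LinearMap.coe_comp, Function.comp_apply, LinearEquiv.coe_coe,
      LinearEquiv.map_eq_zero_iff]
    exact Ideal.Quotient.eq_zero_iff_mem
  refine ⟨Chart.mk' b L ?_ ?_, ?_⟩
  · intro i
    simp only [L, LinearMap.coe_comp, Function.comp_apply, LinearEquiv.coe_coe]
    rw [LinearEquiv.symm_apply_eq]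
    change _ = gen I b (Pi.single i 1)
    simp [gen, Chart.expand]
  · intro x y hx
    rw [hL] at hx ⊢
    exact I.mul_mem_right _ hx
  · ext x
    rw [Chart.mem_ideal, Chart.mk'_L, hL]

lemma isBas_iff_bijective {I : Ideal (R ⊗[k] B)} {b : Fin d → B} :
    IsBas b I ↔ Function.Bijective (gen I b) := ⟨gen_bijective, isBas_of_bijective⟩

/-- the localisation map on quotients -/
noncomputable def locQuot (I : Ideal (R ⊗[k] B)) (R' : Type u) [CommRing R'] [Algebra k R']
    [Algebra R R'] [IsScalarTower k R R'] :
    ((R ⊗[k] B) ⧸ I) →ₗ[R] ((R' ⊗[k] B) ⧸ (I.map (bc B (locHom (k := k) R R')))) where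
  toFun := Ideal.Quotient.lift I
    ((Ideal.Quotient.mk (I.map (bc B (locHom (k := k) R R')))).comp
      (bc B (locHom (k := k) R R')).toRingHom)
    (fun _ ha => Ideal.Quotient.eq_zero_iff_mem.2 (Ideal.mem_map_of_mem _ ha))
  map_add' x y := by simp
  map_smul' r x := by
    obtain ⟨x, rfl⟩ := Ideal.Quotient.mk_surjective x
    rw [RingHom.id_apply, ← Ideal.Quotient.mk_eq_mk, ← Submodule.Quotient.mk_smul,
      Ideal.Quotient.mk_eq_mk, Ideal.Quotient.mk_eq_mk, Ideal.Quotient.lift_mk,
      Ideal.Quotient.lift_mk]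
    have : (bc B (locHom (k := k) R R')).toRingHom (r • x) =
        r • (bc B (locHom (k := k) R R')).toRingHom x := by
      induction x using TensorProduct.induction_on with
      | zero => simp
      | add x y hx hy => rw [smul_add, map_add, map_add, hx, hy, smul_add]
      | tmul a y =>
        rw [TensorProduct.smul_tmul']
        simp [Algebra.smul_def]
    rw [RingHom.comp_apply, this]
    rfl

lemma locQuot_mk (I : Ideal (R ⊗[k] B)) (R' : Type u) [CommRing R'] [Algebra k R']
    [Algebra R R'] [IsScalarTower k R R'] (x : R ⊗[k] B) :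
    locQuot I R' (Ideal.Quotient.mk I x) = Ideal.Quotient.mk _ (bc B (locHom (k := k) R R') x) :=
  rfl

lemma isLocalizedModule_locQuot (I : Ideal (R ⊗[k] B)) (f : R) (R' : Type u) [CommRing R']
    [Algebra k R'] [Algebra R R'] [IsScalarTower k R R'] [IsLocalization.Away f R'] :
    IsLocalizedModule (Submonoid.powers f) (locQuot I R') where
  map_units := by
    rintro ⟨_, n, rfl⟩
    have hu : IsUnit (algebraMap R R' (f ^ n)) := by
      rw [map_pow]
      exact (IsLocalization.Away.algebraMap_isUnit f).pow n
    have h2 := hu.map (algebraMap R' (Module.End R' ((R' ⊗[k] B) ⧸ (I.map (bc B (locHom (k := k) R R'))))))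
    rw [Module.End.isUnit_iff] at h2 ⊢
    convert h2 using 1
    ext x
    change (f ^ n) • x = (algebraMap R R' (f ^ n)) • x
    rw [algebraMap_smul]
  surj := by
    intro y
    obtain ⟨y, rfl⟩ := Ideal.Quotient.mk_surjective y
    obtain ⟨n, x, hx⟩ := exists_bc_eq (k := k) (B := B) f R' y
    refine ⟨(Ideal.Quotient.mk I x, ⟨f ^ n, n, rfl⟩), ?_⟩
    rw [locQuot_mk, hx]
    rw [← map_pow, algebraMap_smul]
    rfl
  exists_of_eq := by
    intro x y h
    obtain ⟨x, rfl⟩ := Ideal.Quotient.mk_surjective x
    obtain ⟨y, rfl⟩ := Ideal.Quotient.mk_surjective y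
    rw [locQuot_mk, locQuot_mk, Ideal.Quotient.eq, ← map_sub, mem_map_bc_iff f] at h
    obtain ⟨n, hn⟩ := h
    refine ⟨⟨f ^ n, n, rfl⟩, ?_⟩
    rw [smul_sub] at hn
    exact Ideal.Quotient.eq.2 hn

lemma exists_primes_lift (p : PrimeSpectrum R) {f : R} (hf : f ∉ p.asIdeal) :
    ∃ p' : PrimeSpectrum (Localization.Away f),
      PrimeSpectrum.comap (algebraMap R (Localization.Away f)) p' = p := by
  have : p ∈ Set.range (PrimeSpectrum.comap (algebraMap R (Localization.Away f))) := by
    rw [PrimeSpectrum.localization_away_comap_range (Localization.Away f) f]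
    exact hf
  exact this

lemma LocBas.spec {I : Ideal (R ⊗[k] B)} (h : LocBas k d I) :
    Module.Finite R ((R ⊗[k] B) ⧸ I) ∧ Module.Projective R ((R ⊗[k] B) ⧸ I) ∧
      ∀ p : PrimeSpectrum R, Module.rankAtStalk ((R ⊗[k] B) ⧸ I) p = d := by
  have hfree : ∀ f : R, (∃ b : Fin d → B,
      IsBas b (I.map (bc B (locHom (k := k) R (Localization.Away f))))) →
      Nonempty ((Fin d → Localization.Away f) ≃ₗ[Localization.Away f]
        ((Localization.Away f ⊗[k] B) ⧸ (I.map (bc B (locHom (k := k) R (Localization.Away f)))))) := by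
    rintro f ⟨b, hb⟩
    exact ⟨LinearEquiv.ofBijective _ (gen_bijective hb)⟩
  have hFP : Module.FinitePresentation R ((R ⊗[k] B) ⧸ I) := by
    let s : Set R := {f | ∃ b : Fin d → B,
      IsBas b (I.map (bc B (locHom (k := k) R (Localization.Away f))))}
    have hs : Ideal.span s = ⊤ := by
      by_contra hne
      obtain ⟨m, hm, hle⟩ := Ideal.exists_le_maximal _ hne
      obtain ⟨f, hf, b, hb⟩ := h ⟨m, hm.isPrime⟩
      exact hf (hle (Ideal.subset_span ⟨b, hb⟩))
    have : ∀ g : s, IsLocalizedModule (Submonoid.powers g.val) (locQuot I (Localization.Away g.val)) :=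
      fun g => isLocalizedModule_locQuot I g.val _
    refine Module.FinitePresentation.of_localizationSpan' s hs
      (Rₚ := fun g => Localization.Away g.val)
      (fun g => locQuot I (Localization.Away g.val)) ?_
    intro g
    obtain ⟨e⟩ := hfree g.val g.2
    exact Module.FinitePresentation.of_equiv e
  have hproj : Module.Projective R ((R ⊗[k] B) ⧸ I) := by
    rw [← Module.freeLocus_eq_univ_iff, Set.eq_univ_iff_forall]
    intro p
    obtain ⟨f, hf, b, hb⟩ := h p
    obtain ⟨e⟩ := hfree f ⟨b, hb⟩
    have hloc := isLocalizedModule_locQuot I f (Localization.Away f)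
    have : Module.Projective (Localization.Away f) (LocalizedModule.Away f ((R ⊗[k] B) ⧸ I)) := by
      have e2 : LocalizedModule.Away f ((R ⊗[k] B) ⧸ I) ≃ₗ[Localization.Away f]
        ((Localization.Away f ⊗[k] B) ⧸ (I.map (bc B (locHom (k := k) R (Localization.Away f))))) :=
        (IsLocalizedModule.iso (Submonoid.powers f) (locQuot I (Localization.Away f))).extendScalarsOfIsLocalization
          (Submonoid.powers f) (Localization.Away f)
      exact Module.Projective.of_equiv (e.trans e2.symm)
    exact (Module.basicOpen_subset_freeLocus_iff.2 this) hf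
  refine ⟨inferInstance, hproj, ?_⟩
  · intro p
    obtain ⟨f, hf, b, hb⟩ := h p
    obtain ⟨e⟩ := hfree f ⟨b, hb⟩
    have hloc := isLocalizedModule_locQuot I f (Localization.Away f)
    obtain ⟨p', hp'⟩ := exists_primes_lift p hf
    have hbc := IsLocalizedModule.isBaseChange (Submonoid.powers f) (Localization.Away f)
      (locQuot I (Localization.Away f))
    have := Module.rankAtStalk_isBaseChange hbc p'
    rw [hp'] at this
    rw [← this, Module.rankAtStalk_eq_of_equiv e.symm]
    have : Nontrivial (Localization.Away f) := p'.nontrivial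
    rw [Module.rankAtStalk_eq_finrank_of_free]
    simp

/-- the localisation map on coordinate vectors -/
noncomputable def piLoc (d : ℕ) (R : Type u) [CommRing R] (R' : Type u) [CommRing R']
    [Algebra R R'] : (Fin d → R) →ₗ[R] (Fin d → R') :=
  LinearMap.pi fun i => (Algebra.linearMap R R') ∘ₗ LinearMap.proj i

lemma isLocalizedModule_piLoc (d : ℕ) (S : Submonoid R) (R' : Type u) [CommRing R']
    [Algebra R R'] [IsLocalization S R'] : IsLocalizedModule S (piLoc d R R') := by
  unfold piLoc
  infer_instance

lemma span_range_v (I : Ideal (R ⊗[k] B)) :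
    Submodule.span R (Set.range fun x : B => Ideal.Quotient.mk I ((1 : R) ⊗ₜ[k] x)) = ⊤ := by
  rw [eq_top_iff]
  rintro y -
  obtain ⟨y, rfl⟩ := Ideal.Quotient.mk_surjective y
  induction y using TensorProduct.induction_on with
  | zero => simp
  | add x y hx hy => rw [map_add]; exact Submodule.add_mem _ hx hy
  | tmul r x =>
    have : (Ideal.Quotient.mk I) (r ⊗ₜ[k] x) = r • (Ideal.Quotient.mk I) ((1 : R) ⊗ₜ[k] x) := by
      rw [← Ideal.Quotient.mk_eq_mk, ← Ideal.Quotient.mk_eq_mk, ← Submodule.Quotient.mk_smul,
        TensorProduct.smul_tmul', smul_eq_mul, mul_one]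
    rw [this]
    exact Submodule.smul_mem _ _ (Submodule.subset_span ⟨x, rfl⟩)

lemma locBas_of_spec {I : Ideal (R ⊗[k] B)} (h1 : Module.Finite R ((R ⊗[k] B) ⧸ I))
    (h2 : Module.Projective R ((R ⊗[k] B) ⧸ I))
    (h3 : ∀ p : PrimeSpectrum R, Module.rankAtStalk ((R ⊗[k] B) ⧸ I) p = d) : LocBas k d I := by
  intro p
  set M := (R ⊗[k] B) ⧸ I with hM
  have hFP : Module.FinitePresentation R M := Module.finitePresentation_of_projective R M
  let Rp := Localization.AtPrime p.asIdeal
  let Mp := LocalizedModule p.asIdeal.primeCompl M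
  let g := LocalizedModule.mkLinearMap p.asIdeal.primeCompl M
  have hfp : Module.FinitePresentation Rp Mp := inferInstance
  have hfl : Module.Flat Rp Mp := inferInstance
  let v : B → Mp := fun x => g (Ideal.Quotient.mk I ((1 : R) ⊗ₜ[k] x))
  have hv : Submodule.span Rp (Set.range v) = ⊤ := by
    have := span_eq_top_of_isLocalizedModule Rp p.asIdeal.primeCompl g
      (span_range_v (k := k) (B := B) I)
    rw [← this, ← Set.range_comp]
    rfl
  obtain ⟨κ, a, bs, hbs⟩ := Module.exists_basis_of_span_of_flat v hv
  have hfin : Finite κ := Module.Finite.finite_basis bs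
  have : Fintype κ := Fintype.ofFinite κ
  have hcard : Fintype.card κ = d := by
    rw [← h3 p, Module.rankAtStalk, Module.finrank_eq_card_basis bs]
  let e : Fin d ≃ κ := (Fintype.equivFinOfCardEq hcard).symm
  let b : Fin d → B := fun i => a (e i)
  let bs' : Module.Basis (Fin d) Rp Mp := bs.reindex e.symm
  have hbs' : ∀ i, bs' i = v (b i) := by
    intro i
    simp [bs', hbs, b]
  have hpi : IsLocalizedModule p.asIdeal.primeCompl (piLoc d R Rp) :=
    isLocalizedModule_piLoc d _ _
  have hbij : Function.Bijective (IsLocalizedModule.map p.asIdeal.primeCompl (piLoc d R Rp) g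
      (gen I b)) := by
    have : IsLocalizedModule.map p.asIdeal.primeCompl (piLoc d R Rp) g (gen I b) =
        (bs'.equivFun.symm.toLinearMap).restrictScalars R := by
      apply IsLocalizedModule.linearMap_ext p.asIdeal.primeCompl (piLoc d R Rp) g
      ext i
      simp only [LinearMap.coe_comp, Function.comp_apply, IsLocalizedModule.map_apply]
      have h4 : piLoc d R Rp (LinearMap.single R (fun _ => R) i 1) = Pi.single i 1 := by
        ext j
        by_cases hij : j = i
        · subst hij; simp [piLoc]
        · simp [piLoc, hij]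
      rw [h4]
      have h5 : gen I b (LinearMap.single R (fun _ => R) i 1) =
          Ideal.Quotient.mk I ((1 : R) ⊗ₜ[k] b i) := by
        simp [gen, Chart.expand]
      rw [h5]
      simp [Module.Basis.equivFun_symm_apply, hbs', Pi.single_apply, v]
    rw [this]
    exact bs'.equivFun.symm.bijective
  obtain ⟨f, hf, hbf⟩ := Module.FinitePresentation.exists_notMem_bijective (gen I b) p.asIdeal
    (piLoc d R Rp) g hbij
  refine ⟨f, hf, b, isBas_of_bijective ?_⟩
  have hpi2 : IsLocalizedModule (Submonoid.powers f) (piLoc d R (Localization.Away f)) :=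
    isLocalizedModule_piLoc d _ _
  have hlq := isLocalizedModule_locQuot I f (Localization.Away f)
  rw [← IsLocalizedModule.map_bijective_iff_localizedModuleMap_bijective
    (piLoc d R (Localization.Away f)) (locQuot I (Localization.Away f))] at hbf
  have : IsLocalizedModule.map (Submonoid.powers f) (piLoc d R (Localization.Away f))
      (locQuot I (Localization.Away f)) (gen I b) =
        (gen (I.map (bc B (locHom (k := k) R (Localization.Away f)))) b).restrictScalars R := by
    apply IsLocalizedModule.linearMap_ext (Submonoid.powers f) (piLoc d R (Localization.Away f))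
      (locQuot I (Localization.Away f))
    ext i
    simp only [LinearMap.coe_comp, Function.comp_apply, IsLocalizedModule.map_apply]
    have h4 : piLoc d R (Localization.Away f) (LinearMap.single R (fun _ => R) i 1) =
        Pi.single i 1 := by
      ext j
      by_cases hij : j = i
      · subst hij; simp [piLoc]
      · simp [piLoc, hij]
    rw [h4]
    have h5 : gen I b (LinearMap.single R (fun _ => R) i 1) =
        Ideal.Quotient.mk I ((1 : R) ⊗ₜ[k] b i) := by
      simp [gen, Chart.expand]
    rw [h5, locQuot_mk]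
    simp [gen, Chart.expand]
  rw [this] at hbf
  exact hbf

end Pool.Agent.Helper226
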