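import Mathlib

set_option autoImplicit false

universe u v

namespace Pool.Agent.Helper226

open Ideal

lemma mvPolynomial_height (k : Type u) [Field k] (n : ℕ) :
    ∀ (m : Ideal (MvPolynomial (Fin n) k)), m.IsMaximal → m.height = n := by
  induction n with
  | zero =>
    intro m hm
    have h1 : (m.height : WithBot ℕ∞) ≤ ringKrullDim (MvPolynomial (Fin 0) k) :=
      Ideal.height_le_ringKrullDim_of_ne_top hm.ne_top
    rw [MvPolynomial.ringKrullDim_of_isNoetherianRing, ringKrullDim_eq_zero_of_field] at h1
    simp only [Nat.card_eq_fintype_card, Fintype.card_fin, Nat.cast_zero, add_zero] at h1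
    have : m.height ≤ 0 := by exact_mod_cast h1
    simpa using this
  | succ n ih =>
    intro m hm
    let e := (MvPolynomial.finSuccEquiv k n).toRingEquiv
    have h1 : (m.map e).height = m.height := e.height_map m
    have hM : (m.map e).IsMaximal := Ideal.map_isMaximal_of_equiv e
    let p : Ideal (MvPolynomial (Fin n) k) := (m.map e).comap Polynomial.C
    have hp : p.IsMaximal := Polynomial.isMaximal_comap_C_of_isJacobsonRing _
    have hlo : (m.map e).LiesOver p := ⟨rfl⟩
    rw [← h1, Polynomial.height_eq_height_add_one p (m.map e), ih p hp]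
    simp

lemma ringKrullDim_le_of_isIntegral (R : Type u) (S : Type v) [CommRing R] [CommRing S]
    [Algebra R S] [Algebra.IsIntegral R S] : ringKrullDim S ≤ ringKrullDim R := by
  apply Order.krullDim_le_of_strictMono (PrimeSpectrum.comap (algebraMap R S))
  intro p q hpq
  have h2 : p.asIdeal < q.asIdeal := hpq
  obtain ⟨hle, x, hxq, hxp⟩ := SetLike.lt_iff_le_and_exists.1 h2
  exact Ideal.comap_lt_comap_of_integral_mem_sdiff hle ⟨hxq, hxp⟩ (Algebra.IsIntegral.isIntegral x)

/-- all maximal ideals of a finitely generated domain over a field have the same height -/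
lemma height_eq_ringKrullDim (k : Type u) [Field k] (A : Type v) [CommRing A] [IsDomain A]
    [Algebra k A] [Algebra.FiniteType k A] (m : Ideal A) (hm : m.IsMaximal) :
    (m.height : WithBot ℕ∞) = ringKrullDim A := by
  apply le_antisymm (Ideal.height_le_ringKrullDim_of_ne_top hm.ne_top)
  obtain ⟨s, g, ginj, gint⟩ := exists_integral_inj_algHom_of_fg k A
  let := g.toRingHom.toAlgebra
  have hint : Algebra.IsIntegral (MvPolynomial (Fin s) k) A := ⟨gint⟩
  have hfs : FaithfulSMul (MvPolynomial (Fin s) k) A :=
    (faithfulSMul_iff_algebraMap_injective _ _).2 ginj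
  have hN : IsNoetherianRing A := Algebra.FiniteType.isNoetherianRing k A
  let p : Ideal (MvPolynomial (Fin s) k) := m.comap (algebraMap _ A)
  have hp : p.IsMaximal := Ideal.isMaximal_comap_of_isIntegral_of_isMaximal m
  have hlo : m.LiesOver p := ⟨rfl⟩
  have h1 := Ideal.height_eq_height_add_of_liesOver_of_hasGoingDown p m
  have h2 : p.height ≤ m.height := by
    rw [h1]
    exact le_self_add
  rw [mvPolynomial_height k s p hp] at h2
  have h3 := ringKrullDim_le_of_isIntegral (MvPolynomial (Fin s) k) A
  rw [MvPolynomial.ringKrullDim_of_isNoetherianRing, ringKrullDim_eq_zero_of_field] at h3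
  simp only [Nat.card_eq_fintype_card, Fintype.card_fin, zero_add] at h3
  refine h3.trans ?_
  exact_mod_cast h2

/-- Localising a finitely generated domain does not change the dimension. -/
lemma ringKrullDim_localization_away (k : Type u) [Field k] (A : Type v) [CommRing A] [IsDomain A]
    [Algebra k A] [Algebra.FiniteType k A] (f : A) (hf : f ≠ 0) (A' : Type v) [CommRing A']
    [Algebra A A'] [IsLocalization.Away f A'] : ringKrullDim A' = ringKrullDim A := by
  let : Algebra k A' := ((algebraMap A A').comp (algebraMap k A)).toAlgebra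
  have hst : IsScalarTower k A A' := IsScalarTower.of_algebraMap_eq' rfl
  have hft : Algebra.FiniteType A A' := IsLocalization.finiteType_of_monoid_fg (Submonoid.powers f) A'
  have hft2 : Algebra.FiniteType k A' := Algebra.FiniteType.trans ‹_› hft
  have hle : Submonoid.powers f ≤ nonZeroDivisors A :=
    powers_le_nonZeroDivisors_of_noZeroDivisors hf
  have hdom : IsDomain A' := IsLocalization.isDomain_of_le_nonZeroDivisors A' hle
  obtain ⟨n, hn⟩ := Ideal.exists_maximal A'
  have hJ : IsJacobsonRing A := isJacobsonRing_of_finiteType (A := k)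
  let m := n.under A
  have hm : m.IsMaximal := ((IsLocalization.isMaximal_iff_isMaximal_disjoint A' f n).1 hn).1
  rw [← height_eq_ringKrullDim k A' n hn, ← height_eq_ringKrullDim k A m hm]
  congr 1
  exact (IsLocalization.height_under (Submonoid.powers f) n).symm

end Pool.Agent.Helper226
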