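import Mathlib
import Pool.Agent.Helper226.Dim

set_option autoImplicit false

universe u v

namespace Pool.Agent.Helper226

open AlgebraicGeometry CategoryTheory

lemma topDim_eq_iSup (Y : Scheme.{u}) [Nonempty Y] :
    topologicalKrullDim Y = ⨆ y : Y, (Order.coheight y : WithBot ℕ∞) := by
  rw [topologicalKrullDim, Order.krullDim_eq_of_orderIso (irreducibleSetEquivPoints (α := Y)),
    Order.krullDim_eq_iSup_coheight_of_nonempty]
  rw [WithBot.coe_iSup (OrderTop.bddAbove _)]

lemma stalk_dim_eq_height {Y : Scheme.{u}} (U : Y.Opens) (hU : IsAffineOpen U) (y : U) :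
    ringKrullDim (Y.presheaf.stalk y.1) = (hU.primeIdealOf y).asIdeal.height := by
  have := hU.isLocalization_stalk y
  exact IsLocalization.AtPrime.ringKrullDim_eq_height (hU.primeIdealOf y).asIdeal
    (Y.presheaf.stalk y.1)

/-- the affine charts of an integral scheme locally of finite type over a field are finitely
generated domains -/
lemma exists_algebra {k : Type u} [Field k] (Y : Scheme.{u}) (s : Y ⟶ Spec (.of k))
    [LocallyOfFiniteType s] (U : Y.Opens) (hU : IsAffineOpen U) :
    ∃ a : Algebra k Γ(Y, U), @Algebra.FiniteType k Γ(Y, U) _ _ a := by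
  have h := s.finiteType_appLE (isAffineOpen_top (Spec (.of k))) hU le_top
  let g : k →+* Γ(Y, U) := (s.appLE ⊤ U le_top).hom.comp (Scheme.ΓSpecIso (.of k)).inv.hom
  refine ⟨g.toAlgebra, ?_⟩
  have h2 : RingHom.FiniteType (Scheme.ΓSpecIso (.of k)).inv.hom :=
    RingHom.FiniteType.of_surjective _
      (ConcreteCategory.bijective_of_isIso (Scheme.ΓSpecIso (.of k)).inv).2
  exact h.comp h2

lemma dim_basicOpen {k : Type u} [Field k] (Y : Scheme.{u}) [IsIntegral Y] (s : Y ⟶ Spec (.of k))
    [LocallyOfFiniteType s] (U : Y.Opens) (hU : IsAffineOpen U) (f : Γ(Y, U))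
    (hf : f ≠ 0) (hne : (Nonempty U)) :
    ringKrullDim Γ(Y, Y.basicOpen f) = ringKrullDim Γ(Y, U) := by
  obtain ⟨a, ha⟩ := exists_algebra Y s U hU
  have hd : IsDomain Γ(Y, U) := inferInstance
  have := hU.isLocalization_basicOpen f
  exact ringKrullDim_localization_away k Γ(Y, U) f hf Γ(Y, Y.basicOpen f)

lemma dim_affine_eq {k : Type u} [Field k] (Y : Scheme.{u}) [IsIntegral Y] (s : Y ⟶ Spec (.of k))
    [LocallyOfFiniteType s] (U V : Y.Opens) (hU : IsAffineOpen U) (hV : IsAffineOpen V)
    (hUne : Nonempty U) (hVne : Nonempty V) : ringKrullDim Γ(Y, U) = ringKrullDim Γ(Y, V) := by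
  obtain ⟨x, hxU, hxV⟩ := nonempty_preirreducible_inter U.isOpen V.isOpen
    (Set.nonempty_coe_sort.1 hUne) (Set.nonempty_coe_sort.1 hVne)
  obtain ⟨f, g, hfg, hx⟩ := exists_basicOpen_le_affine_inter hU hV x ⟨hxU, hxV⟩
  have hf : f ≠ 0 := by
    rintro rfl
    simp at hx
  have hg : g ≠ 0 := by
    rintro rfl
    rw [hfg] at hx
    simp at hx
  rw [← dim_basicOpen Y s U hU f hf hUne, ← dim_basicOpen Y s V hV g hg hVne, hfg]

theorem topDim_le_of_isClosed {k : Type u} [Field k] (Y : Scheme.{u}) [IsIntegral Y]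
    (s : Y ⟶ Spec (.of k)) [LocallyOfFiniteType s] (y : Y) (hy : IsClosed {y}) :
    topologicalKrullDim Y ≤ ringKrullDim (Y.presheaf.stalk y) := by
  rw [topDim_eq_iSup]
  apply iSup_le
  intro z
  rw [← ringKrullDim_stalk_eq_coheight z]
  obtain ⟨U, hU, hyU, -⟩ := exists_isAffineOpen_mem_and_subset (U := ⊤) (x := y) trivial
  obtain ⟨V, hV, hzV, -⟩ := exists_isAffineOpen_mem_and_subset (U := ⊤) (x := z) trivial
  rw [stalk_dim_eq_height V hV ⟨z, hzV⟩, stalk_dim_eq_height U hU ⟨y, hyU⟩]
  have h1 : (((hV.primeIdealOf ⟨z, hzV⟩).asIdeal.height : ℕ∞) : WithBot ℕ∞) ≤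
      ringKrullDim Γ(Y, V) :=
    Ideal.height_le_ringKrullDim_of_ne_top (hV.primeIdealOf ⟨z, hzV⟩).isPrime.ne_top
  rw [dim_affine_eq Y s V U hV hU ⟨⟨z, hzV⟩⟩ ⟨⟨y, hyU⟩⟩] at h1
  have hmax := hU.primeIdealOf_isMaximal_of_isClosed ⟨y, hyU⟩ hy
  obtain ⟨a, ha⟩ := exists_algebra Y s U hU
  have hne : Nonempty U := ⟨⟨y, hyU⟩⟩
  have hd : IsDomain Γ(Y, U) := inferInstance
  rw [height_eq_ringKrullDim k Γ(Y, U) _ hmax]
  exact h1

lemma isReduced_vanishing {X : Scheme.{u}} (Z : TopologicalSpace.Closeds X) :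
    IsReduced (Scheme.IdealSheafData.vanishingIdeal Z).subscheme := by
  have h : ∀ U, IsReduced
      ((Scheme.IdealSheafData.vanishingIdeal Z).subschemeCover.openCover.X U) := by
    intro (U : X.affineOpens)
    change IsReduced (Spec (.of (Γ(X, U) ⧸ (Scheme.IdealSheafData.vanishingIdeal Z).ideal U)))
    have : _root_.IsReduced (Γ(X, U) ⧸ (Scheme.IdealSheafData.vanishingIdeal Z).ideal U) := by
      rw [← Ideal.isRadical_iff_quotient_reduced]
      rw [Scheme.IdealSheafData.vanishingIdeal_ideal]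
      exact PrimeSpectrum.isRadical_vanishingIdeal _
    infer_instance
  exact IsReduced.of_openCover _
    (Scheme.IdealSheafData.vanishingIdeal Z).subschemeCover.openCover

theorem topDim_le_stalk {k : Type u} [Field k] (X : Scheme.{u})
    (s : X ⟶ Spec (.of k)) [LocallyOfFiniteType s] (Z : Set X) (hZ : IsClosed Z)
    (hirr : IsIrreducible Z) (x : X) (hx : x ∈ Z) (hxc : IsClosed {x}) :
    topologicalKrullDim Z ≤ ringKrullDim (X.presheaf.stalk x) := by
  let I := Scheme.IdealSheafData.vanishingIdeal (X := X) ⟨Z, hZ⟩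
  let ι := I.subschemeι
  have hsupp : (I.support : Set X) = Z := by
    simp [I]
  have hr : Set.range ι = Z := (I.range_subschemeι).trans hsupp
  have hind : Topology.IsEmbedding ι := ι.isEmbedding
  have hne : Nonempty I.subscheme := by
    rw [← hr] at hx
    obtain ⟨y, -⟩ := hx
    exact ⟨y⟩
  have hirr' : IrreducibleSpace I.subscheme := by
    rw [← hr] at hirr
    have := Subtype.irreducibleSpace hirr
    exact hind.toHomeomorph.isOpenEmbedding.irreducibleSpace
  have hred : IsReduced I.subscheme := isReduced_vanishing _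
  have hint : IsIntegral I.subscheme := isIntegral_of_irreducibleSpace_of_isReduced _
  obtain ⟨y, hy⟩ : x ∈ Set.range ι := hr ▸ hx
  have hyc : IsClosed {y} := by
    have : {y} = ι ⁻¹' {x} := by
      ext w
      simp only [Set.mem_singleton_iff, Set.mem_preimage, ← hy]
      exact hind.injective.eq_iff.symm
    rw [this]
    exact hxc.preimage ι.continuous
  have h1 := topDim_le_of_isClosed I.subscheme (ι ≫ s) y hyc
  have h2 : topologicalKrullDim Z ≤ topologicalKrullDim I.subscheme := by
    have h3 : topologicalKrullDim (Set.range ι) ≤ topologicalKrullDim I.subscheme :=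
      (hind.toHomeomorph.symm.isInducing).topologicalKrullDim_le
    rwa [hr] at h3
  refine h2.trans (h1.trans ?_)
  rw [← hy]
  have hs : Function.Surjective (ι.stalkMap y) := ι.stalkMap_surjective y
  exact ringKrullDim_le_of_surjective (ι.stalkMap y).hom hs

end Pool.Agent.Helper226
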