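import Mathlib
import Pool.Agent.Helper226.LociDefs
import Pool.Agent.Helper226.HilbFree
import Pool.Agent.Helper226.HilbFinite
import Pool.Agent.Helper226.SchemeDim

set_option autoImplicit false

open scoped TensorProduct
open CategoryTheory AlgebraicGeometry

universe u

namespace Pool.Agent.Helper226

section basic

variable (k : Type u) [Field k] (B : Type u) [CommRing B] [Algebra k B] (d : ℕ)

/-- the constructed Hilbert scheme -/
noncomputable def hilb : HilbertScheme k B d where
  H := HilbS k B d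
  s := HilbS.str k B d
  Φ := fun R _ _ => (homEquiv k R).trans
    (Equiv.subtypeEquivRight fun I => ⟨fun h => h.spec, fun h => locBas_of_spec h.1 h.2.1 h.2.2⟩)
  natural := by
    intro R R' _ _ _ _ g f f' h
    have hstr : (Spec.map (CommRingCat.ofHom g.toRingHom) ≫ f.1) ≫ HilbS.str k B d =
        Spec.map (CommRingCat.ofHom (algebraMap k R')) := by
      rw [← h]
      exact f'.2
    have h1 : f' = ⟨_, hstr⟩ := Subtype.ext h
    rw [h1]
    exact homEquiv_natural k g f hstr

end basic

variable {k : Type u} [Field k] {B : Type u} [CommRing B] [Algebra k B] {d : ℕ}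
variable {R : Type u} [CommRing R] [Algebra k R] {R' : Type u} [CommRing R'] [Algebra k R']

lemma mem_single (b : Fin d → B) : b ∈ ((Idx.single b).s : Set (Fin d → B)) := by
  simp [Idx.single]

/-- the universal chart datum on the chart with basis `b` -/
noncomputable def uc (k : Type u) [Field k] {B : Type u} [CommRing B] [Algebra k B] {d : ℕ}
    (b : Fin d → B) : Chart k b (univ k (Idx.single b)).A :=
  (univ k (Idx.single b)).chart (mem_single b)

lemma uc_ideal (b : Fin d → B) : (uc k b).ideal = (univ k (Idx.single b)).I :=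
  (univ k (Idx.single b)).chart_ideal (mem_single b)

/-- the classifying map of a chart datum -/
noncomputable def clf {b : Fin d → B} (c : Chart k b R) : (univ k (Idx.single b)).A →ₐ[k] R :=
  (univ k (Idx.single b)).hom c.ideal (hasBas_single ⟨c, rfl⟩)

lemma uc_map_clf {b : Fin d → B} (c : Chart k b R) : (uc k b).map (clf c) = c := by
  apply Chart.ideal_injective
  rw [Chart.ideal_map, uc_ideal]
  exact (univ k (Idx.single b)).map_hom c.ideal (hasBas_single ⟨c, rfl⟩)

lemma hom_ext_uc {b : Fin d → B} {φ ψ : (univ k (Idx.single b)).A →ₐ[k] R}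
    (h : (uc k b).map φ = (uc k b).map ψ) : φ = ψ := by
  apply (univ k (Idx.single b)).uniq
  rw [← uc_ideal, ← Chart.ideal_map, ← Chart.ideal_map, h]

lemma clf_map {b : Fin d → B} (c : Chart k b R) (g : R →ₐ[k] R') :
    clf (c.map g) = g.comp (clf c) := by
  apply hom_ext_uc
  rw [uc_map_clf, ← Chart.map_map, uc_map_clf]

/-- the morphism to the Hilbert scheme given by a chart datum -/
noncomputable def mor {b : Fin d → B} (c : Chart k b R) :
    Spec (CommRingCat.of R) ⟶ HilbS k B d :=
  Spec.map (CommRingCat.ofHom (clf c).toRingHom) ≫ chartι k (Idx.single b)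

lemma mor_eq_pt {b : Fin d → B} (c : Chart k b R) :
    mor c = pt k (Idx.single b) c.ideal (hasBas_single ⟨c, rfl⟩) := rfl

lemma mor_map {b : Fin d → B} (c : Chart k b R) (g : R →ₐ[k] R') :
    mor (c.map g) = Spec.map (CommRingCat.ofHom g.toRingHom) ≫ mor c := by
  unfold mor
  rw [clf_map, ← Category.assoc, ← Spec.map_comp, ← CommRingCat.ofHom_comp]
  rfl

lemma mor_str {b : Fin d → B} (c : Chart k b R) :
    mor c ≫ HilbS.str k B d = Spec.map (CommRingCat.ofHom (algebraMap k R)) := by
  rw [mor_eq_pt, pt_str]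

lemma mor_eq_of_ideal_eq {b b' : Fin d → B} (c : Chart k b R) (c' : Chart k b' R)
    (h : c.ideal = c'.ideal) : mor c = mor c' := by
  have h' : HasBas ((Idx.single b').s : Set (Fin d → B)) c.ideal := by
    rw [h]; exact hasBas_single ⟨c', rfl⟩
  rw [mor_eq_pt, mor_eq_pt, pt_eq k _ (Idx.single b') _ _ h']
  congr 1

lemma locBas_of_isBas {b : Fin d → B} {I : Ideal (R ⊗[k] B)} (h : IsBas b I) : LocBas k d I := by
  intro p
  exact ⟨1, p.isPrime.one_notMem, b, h.map _⟩

lemma isBas_of_locBas_field {J : Ideal (k ⊗[k] B)} (h : LocBas k d J) :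
    ∃ b : Fin d → B, IsBas b J := by
  obtain ⟨f, hf, b, hb⟩ := h ⟨⊥, Ideal.isPrime_bot⟩
  have hf0 : f ≠ 0 := fun h0 => hf (by simp [h0])
  refine ⟨b, ?_⟩
  let ρ : Localization.Away f →ₐ[k] k :=
    IsLocalization.liftAlgHom (M := Submonoid.powers f) (f := AlgHom.id k k) (by
      rintro ⟨_, n, rfl⟩
      exact (IsUnit.mk0 f hf0).pow n)
  have hρ : ρ.comp (locHom (k := k) k (Localization.Away f)) = AlgHom.id k k := by
    apply AlgHom.ext
    intro x
    simp [ρ]
  have := hb.map ρ
  rwa [← map_bc_comp, hρ, map_bc_id] at this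

/-- classification of the morphism of a chart datum -/
lemma classifies_mor {b : Fin d → B} (c : Chart k b R) : Classifies k (mor c) c.ideal := by
  intro R'' _ _ g L h
  have h2 : HasBas ((Idx.single b).s : Set (Fin d → B)) (c.ideal.map (bc B g)) :=
    (hasBas_single ⟨c, rfl⟩ : HasBas _ c.ideal).map g
  rw [mor_eq_pt, pt_map, pt_eq k _ L _ _ h]

lemma homEquiv_mor {b : Fin d → B} (c : Chart k b R) :
    (homEquiv k R ⟨mor c, mor_str c⟩).1 = c.ideal :=
  Classifies.injective k (homEquiv k R ⟨mor c, mor_str c⟩).2 (locBas_of_isBas ⟨c, rfl⟩)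
    (homEquiv_classifies k ⟨mor c, mor_str c⟩) (classifies_mor c)

lemma exists_chart_of_field (f : PointsOver k (hilb k B d).H (hilb k B d).s k) :
    ∃ (b : Fin d → B) (c : Chart k b k), f.1 = mor c ∧ ((hilb k B d).Φ k f).1 = c.ideal := by
  obtain ⟨b, c, hc⟩ := isBas_of_locBas_field (homEquiv k k f).2
  refine ⟨b, c, ?_, hc.symm⟩
  have h1 : Classifies k f.1 (homEquiv k k f).1 := homEquiv_classifies k f
  rw [← hc] at h1
  exact Classifies.unique k (locBas_of_isBas ⟨c, rfl⟩) h1 (classifies_mor c)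

lemma comap_ideal {b : Fin d → B} (c : Chart k b k) :
    (c.ideal.comap (Algebra.TensorProduct.includeRight : B →ₐ[k] k ⊗[k] B) : Set B) =
      {x | c.q x = 0} := by
  ext x
  simp [Chart.mem_ideal]

/-- the ideal of `B` given by a chart datum over `k` -/
noncomputable def Chart.ker {b : Fin d → B} (c : Chart k b k) : Ideal B :=
  c.ideal.comap (Algebra.TensorProduct.includeRight : B →ₐ[k] k ⊗[k] B)

lemma Chart.mem_ker {b : Fin d → B} (c : Chart k b k) (x : B) : x ∈ c.ker ↔ c.q x = 0 := by
  simp [Chart.ker, Chart.mem_ideal]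

/-- the closed point of the Hilbert scheme -/
lemma mem_locus_of_chart {b : Fin d → B} (c : Chart k b k) (P : Ideal B → Prop) (hP : P c.ker)
    (x : HilbS k B d) (hx : x ∈ Set.range (mor c)) : x ∈ (hilb k B d).locus P := by
  refine ⟨⟨mor c, mor_str c⟩, hx, ?_⟩
  unfold HilbertScheme.idealOf
  have : ((hilb k B d).Φ k ⟨mor c, mor_str c⟩).1 = c.ideal := homEquiv_mor c
  rw [this]
  exact hP

lemma exists_chart_of_mem_locus (P : Ideal B → Prop) (x : HilbS k B d)
    (hx : x ∈ (hilb k B d).locus P) :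
    ∃ (b : Fin d → B) (c : Chart k b k), P c.ker ∧ x ∈ Set.range (mor c) := by
  obtain ⟨f, hf, hP⟩ := hx
  obtain ⟨b, c, h1, h2⟩ := exists_chart_of_field f
  refine ⟨b, c, ?_, h1 ▸ hf⟩
  unfold HilbertScheme.idealOf at hP
  rw [h2] at hP
  exact hP

end Pool.Agent.Helper226
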