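import Mathlib
import Pool.Agent.Helper226.Dim

set_option autoImplicit false

universe u

namespace Pool.Agent.Helper226

open Polynomial

/-- the gaps of the semigroup -/
def gaps : Finset ℕ := {1, 2, 3, 4, 5, 6, 7, 8, 9, 10, 11, 12, 19, 20, 23, 25}

lemma gaps_lt {n : ℕ} (h : n ∈ gaps) : n < 26 := by
  revert n
  decide

/-- sums of non-gaps are non-gaps -/
lemma add_notMem_gaps {a c : ℕ} (ha : a ∉ gaps) (hc : c ∉ gaps) : a + c ∉ gaps := by
  intro h
  have h1 := gaps_lt h
  have key : ∀ n < 26, ∀ a ≤ n, a ∉ gaps → n - a ∉ gaps → n ∉ gaps := by decide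
  exact key (a + c) h1 a (Nat.le_add_right a c) ha (by rwa [Nat.add_sub_cancel_left]) h

variable (k : Type u) [Field k]

/-- the coordinate ring of the curve -/
def curveRing : Subalgebra k k[X] where
  carrier := {f | ∀ i ∈ gaps, f.coeff i = 0}
  mul_mem' := by
    intro f g hf hg i hi
    rw [coeff_mul]
    refine Finset.sum_eq_zero ?_
    rintro ⟨a, c⟩ hac
    have hac : a + c = i := by simpa using hac
    by_cases ha : a ∈ gaps
    · simp [hf a ha]
    · by_cases hc : c ∈ gaps
      · simp [hg c hc]
      · exact absurd hi (hac ▸ add_notMem_gaps ha hc)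
  add_mem' := by
    intro f g hf hg i hi
    simp [hf i hi, hg i hi]
  algebraMap_mem' := by
    intro r i hi
    have : i ≠ 0 := by
      rintro rfl
      revert hi
      decide
    exact coeff_C_of_ne_zero this

/-- The curve ring. -/
abbrev CB : Type u := curveRing k

open Classical in
/-- monomials -/
noncomputable def mon (i : ℕ) : CB k :=
  if h : i ∉ gaps then ⟨X ^ i, by
    intro j hj
    rw [coeff_X_pow, if_neg]
    rintro rfl
    exact h hj⟩ else 0

lemma coe_mon {i : ℕ} (h : i ∉ gaps) : (mon k i : k[X]) = X ^ i := by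
  simp [mon, h]

lemma mon_zero : mon k 0 = 1 := by
  apply Subtype.ext
  rw [coe_mon k (by decide)]
  simp

lemma mon_mul {i j : ℕ} (hi : i ∉ gaps) (hj : j ∉ gaps) : mon k (i + j) = mon k i * mon k j := by
  apply Subtype.ext
  rw [coe_mon k (add_notMem_gaps hi hj), MulMemClass.coe_mul, coe_mon k hi, coe_mon k hj, pow_add]

lemma eq_sum_mon (f : CB k) : f = ∑ i ∈ (f : k[X]).support, (f : k[X]).coeff i • mon k i := by
  apply Subtype.ext
  rw [AddSubmonoidClass.coe_finsetSum]
  conv_lhs => rw [(f : k[X]).as_sum_support]
  refine Finset.sum_congr rfl fun i hi => ?_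
  have hg : i ∉ gaps := fun h => (mem_support_iff.1 hi) (f.2 i h)
  rw [SetLike.val_smul, coe_mon k hg, ← C_mul_X_pow_eq_monomial, smul_eq_C_mul]

lemma span_mon : Submodule.span k (mon k '' {i | i ∉ gaps}) = ⊤ := by
  rw [eq_top_iff]
  rintro f -
  rw [eq_sum_mon k f]
  refine Submodule.sum_mem _ fun i hi => Submodule.smul_mem _ _ (Submodule.subset_span ⟨i, ?_, rfl⟩)
  exact fun h => (mem_support_iff.1 hi) (f.2 i h)

instance curve_finiteType : Algebra.FiniteType k (CB k) := by
  classical
  refine ⟨?_⟩
  have h1 : ∀ n, n ∉ gaps → mon k n ∈ Algebra.adjoin k (((Finset.range 39).image (mon k) : Finset (CB k)) : Set (CB k)) := by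
    intro n
    induction n using Nat.strong_induction_on with
    | _ n ih =>
      intro hn
      by_cases hlt : n < 39
      · apply Algebra.subset_adjoin
        exact Finset.mem_coe.2 (Finset.mem_image.2 ⟨n, Finset.mem_range.2 hlt, rfl⟩)
      · push Not at hlt
        have h13 : 13 ∉ gaps := by decide
        have h2 : n - 13 ∉ gaps := fun h => by
          have := gaps_lt h
          omega
        have h3 : mon k n = mon k (n - 13) * mon k 13 := by
          rw [← mon_mul k h2 h13]
          congr 1
          omega
        rw [h3]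
        refine Subalgebra.mul_mem _ (ih (n - 13) (by omega) h2) ?_
        apply Algebra.subset_adjoin
        exact Finset.mem_coe.2 (Finset.mem_image.2 ⟨13, by decide, rfl⟩)
  have htop : Algebra.adjoin k (((Finset.range 39).image (mon k) : Finset (CB k)) : Set (CB k)) = ⊤ := by
    rw [eq_top_iff]
    intro f _
    rw [eq_sum_mon k f]
    refine Subalgebra.sum_mem _ fun i hi => Subalgebra.smul_mem _ (h1 i ?_) _
    exact fun h => (mem_support_iff.1 hi) (f.2 i h)
  rw [← htop]
  exact Subalgebra.fg_adjoin_finset _

lemma integral_of_pow : ∀ f : k[X], IsIntegral (curveRing k) f := by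
  intro f
  have hX : IsIntegral (curveRing k) (X : k[X]) := by
    apply IsIntegral.of_pow (n := 26) (by norm_num)
    rw [← coe_mon k (i := 26) (by decide)]
    exact isIntegral_algebraMap (R := curveRing k) (x := mon k 26)
  rw [f.as_sum_support]
  refine IsIntegral.sum _ fun i _ => ?_
  rw [← C_mul_X_pow_eq_monomial]
  refine IsIntegral.mul ?_ (hX.pow i)
  have : (C (f.coeff i) : k[X]) = algebraMap (curveRing k) k[X] (algebraMap k (curveRing k) (f.coeff i)) := rfl
  rw [this]
  exact isIntegral_algebraMap

lemma integral_pow_map (f : k[X]) :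
    RingHom.IsIntegralElem ((aeval (X ^ 13 : k[X]) : k[X] →ₐ[k] k[X]) : k[X] →+* k[X]) f := by
  set h := ((aeval (X ^ 13 : k[X]) : k[X] →ₐ[k] k[X]) : k[X] →+* k[X]) with hh
  have hX : RingHom.IsIntegralElem h (X : k[X]) := by
    refine ⟨X ^ 13 - C X, monic_X_pow_sub_C X (by norm_num), ?_⟩
    simp [hh]
  have hXn : ∀ n, RingHom.IsIntegralElem h (X ^ n : k[X]) := by
    intro n
    induction n with
    | zero => simpa using h.isIntegralElem_one
    | succ n ih => rw [pow_succ]; exact ih.mul h hX
  induction f using Polynomial.induction_on' with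
  | add p q hp hq => exact hp.add h hq
  | monomial n a =>
    rw [← C_mul_X_pow_eq_monomial]
    refine RingHom.IsIntegralElem.mul h ?_ (hXn n)
    have : (C a : k[X]) = h (C a) := by
      simp [hh]
    rw [this]
    exact h.isIntegralElem_map

lemma curve_dim : ringKrullDim (CB k) = 1 := by
  apply le_antisymm
  · -- CB is integral over k[t^13]
    let g : k[X] →ₐ[k] CB k := aeval (mon k 13)
    let _ : Algebra k[X] (CB k) := g.toRingHom.toAlgebra
    have hint : Algebra.IsIntegral k[X] (CB k) := by
      refine ⟨fun f => ?_⟩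
      have h1 : ((curveRing k).val.toRingHom.comp g.toRingHom) =
          ((aeval (X ^ 13 : k[X]) : k[X] →ₐ[k] k[X]) : k[X] →+* k[X]) := by
        have : (curveRing k).val.comp g = aeval (X ^ 13 : k[X]) := by
          apply Polynomial.algHom_ext
          simp only [g, AlgHom.comp_apply, aeval_X]
          exact coe_mon k (by decide)
        rw [← this]
        rfl
      have h2 := integral_pow_map k (f : k[X])
      rw [← h1] at h2
      exact RingHom.IsIntegralElem.of_map (f := g.toRingHom) (g := (curveRing k).val.toRingHom)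
        Subtype.val_injective h2
    have := ringKrullDim_le_of_isIntegral k[X] (CB k)
    refine this.trans ?_
    rw [Polynomial.ringKrullDim_of_isNoetherianRing, ringKrullDim_eq_zero_of_field]
    simp
  · have hint : Algebra.IsIntegral (CB k) k[X] := ⟨integral_of_pow k⟩
    have := ringKrullDim_le_of_isIntegral (CB k) k[X]
    rw [Polynomial.ringKrullDim_of_isNoetherianRing, ringKrullDim_eq_zero_of_field] at this
    simpa using this

end Pool.Agent.Helper226
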