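import Mathlib
import Pool.Agent.Helper226.Curve
import Pool.Agent.Helper226.HilbFinite

set_option autoImplicit false

open scoped TensorProduct

universe u

namespace Pool.Agent.Helper226

open Polynomial

section comb

/-- exponents of the monomial basis of the quotient -/
def Dv : Fin 10 → ℕ := ![0, 13, 14, 15, 17, 24, 26, 27, 28, 41]

lemma Dv_injective : Function.Injective Dv := by decide

lemma Dv_notMem (j : Fin 10) : Dv j ∉ gaps := by
  revert j
  decide

/-- exponents of the monomials in the ideal -/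
abbrev InJ (i : ℕ) : Prop := i ∉ gaps ∧ ∀ j, Dv j ≠ i

lemma inJ_sub {i : ℕ} (hi : InJ i) (l : Fin 10) (h : i ≤ Dv l) : Dv l - i ∈ gaps := by
  have key : ∀ l : Fin 10, ∀ i < 42, i ∉ gaps → (∀ j, Dv j ≠ i) → i ≤ Dv l → Dv l - i ∈ gaps := by
    decide
  have h2 : ∀ l, Dv l < 42 := by decide
  exact key l i (by have := h2 l; omega) hi.1 hi.2 h

lemma inJ_add {i s : ℕ} (hi : InJ i) (hs : s ∉ gaps) : InJ (i + s) := by
  refine ⟨add_notMem_gaps hi.1 hs, fun j hj => ?_⟩
  have := inJ_sub hi j (by omega)
  rw [hj, Nat.add_sub_cancel_left] at this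
  exact hs this

lemma inJ_gen {i : ℕ} (hi : InJ i) :
    ∃ g, (g = 16 ∨ g = 18 ∨ g = 21 ∨ g = 22) ∧ g ≤ i ∧ i - g ∉ gaps := by
  by_cases h : i < 42
  · have key : ∀ i < 42, i ∉ gaps → (∀ j, Dv j ≠ i) →
        ∃ g ∈ [16, 18, 21, 22], g ≤ i ∧ i - g ∉ gaps := by decide
    obtain ⟨g, hg, h1, h2⟩ := key i h hi.1 hi.2
    exact ⟨g, by simpa using hg, h1, h2⟩
  · refine ⟨16, by simp, by omega, fun h2 => ?_⟩
    have := gaps_lt h2
    omega

variable {M : Type u} [Zero M]

lemma vanish (Δ : ℕ → ℕ → M)
    (H : ∀ i s y, InJ i → s ∉ gaps → (∃ l, Dv l = y) → Δ (i + s) y = if s ≤ y then Δ i (y - s) else 0)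
    (H0 : ∀ i x, (∀ j, Dv j ≠ x) → Δ i x = 0)
    (h18_24 : Δ 18 24 = 0) (h16_24 : Δ 16 24 = 0) (h16_26 : Δ 16 26 = 0) (h16_27 : Δ 16 27 = 0)
    (h16_28 : Δ 16 28 = 0) (h22_41 : Δ 22 41 = 0) (h21_41 : Δ 21 41 = 0) (h18_41 : Δ 18 41 = 0)
    (h16_41 : Δ 16 41 = 0) : ∀ i, InJ i → ∀ y, Δ i y = 0 := by
  have step : ∀ g x s g' s' y, InJ g → s ∉ gaps → InJ g' → s' ∉ gaps → (∃ l, Dv l = y) →
      g + s = g' + s' → y = x + s → (s' ≤ y → Δ g' (y - s') = 0) → Δ g x = 0 := by
    intro g x s g' s' y hg hs hg' hs' hy e1 e2 h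
    have a := H g s y hg hs hy
    rw [if_pos (by omega), e2, Nat.add_sub_cancel] at a
    have c := H g' s' y hg' hs' hy
    rw [← e1] at c
    rw [← a, ← e2, c]
    split_ifs with h'
    · exact h h'
    · rfl
  have h16_0 : Δ 16 0 = 0 := step 16 0 15 18 13 15 (by decide) (by decide)
    (by decide) (by decide) (by decide) rfl rfl (fun _ => H0 _ _ (by decide))
  have h16_13 : Δ 16 13 = 0 := step 16 13 28 22 22 41 (by decide) (by decide)
    (by decide) (by decide) (by decide) rfl rfl (fun _ => H0 _ _ (by decide))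
  have h16_14 : Δ 16 14 = 0 := step 16 14 27 21 22 41 (by decide) (by decide)
    (by decide) (by decide) (by decide) rfl rfl (fun _ => H0 _ _ (by decide))
  have h16_15 : Δ 16 15 = 0 := step 16 15 26 21 21 41 (by decide) (by decide)
    (by decide) (by decide) (by decide) rfl rfl (fun _ => H0 _ _ (by decide))
  have h16_17 : Δ 16 17 = 0 := step 16 17 24 18 22 41 (by decide) (by decide)
    (by decide) (by decide) (by decide) rfl rfl (fun _ => H0 _ _ (by decide))
  have h18_0 : Δ 18 0 = 0 := step 18 0 13 16 15 13 (by decide) (by decide)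
    (by decide) (by decide) (by decide) rfl rfl (fun h => absurd h (by decide))
  have h18_13 : Δ 18 13 = 0 := step 18 13 13 16 15 26 (by decide) (by decide)
    (by decide) (by decide) (by decide) rfl rfl (fun _ => H0 _ _ (by decide))
  have h18_14 : Δ 18 14 = 0 := step 18 14 13 16 15 27 (by decide) (by decide)
    (by decide) (by decide) (by decide) rfl rfl (fun _ => H0 _ _ (by decide))
  have h18_15 : Δ 18 15 = 0 := step 18 15 13 16 15 28 (by decide) (by decide)
    (by decide) (by decide) (by decide) rfl rfl (fun _ => h16_13)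
  have h18_17 : Δ 18 17 = 0 := step 18 17 24 16 26 41 (by decide) (by decide)
    (by decide) (by decide) (by decide) rfl rfl (fun _ => h16_15)
  have h18_26 : Δ 18 26 = 0 := step 18 26 15 16 17 41 (by decide) (by decide)
    (by decide) (by decide) (by decide) rfl rfl (fun _ => h16_24)
  have h18_27 : Δ 18 27 = 0 := step 18 27 14 16 16 41 (by decide) (by decide)
    (by decide) (by decide) (by decide) rfl rfl (fun _ => H0 _ _ (by decide))
  have h18_28 : Δ 18 28 = 0 := step 18 28 13 16 15 41 (by decide) (by decide)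
    (by decide) (by decide) (by decide) rfl rfl (fun _ => h16_26)
  have h21_0 : Δ 21 0 = 0 := step 21 0 13 16 18 13 (by decide) (by decide)
    (by decide) (by decide) (by decide) rfl rfl (fun h => absurd h (by decide))
  have h21_13 : Δ 21 13 = 0 := step 21 13 13 16 18 26 (by decide) (by decide)
    (by decide) (by decide) (by decide) rfl rfl (fun _ => H0 _ _ (by decide))
  have h21_14 : Δ 21 14 = 0 := step 21 14 13 16 18 27 (by decide) (by decide)
    (by decide) (by decide) (by decide) rfl rfl (fun _ => H0 _ _ (by decide))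
  have h21_15 : Δ 21 15 = 0 := step 21 15 13 16 18 28 (by decide) (by decide)
    (by decide) (by decide) (by decide) rfl rfl (fun _ => H0 _ _ (by decide))
  have h21_17 : Δ 21 17 = 0 := step 21 17 24 16 29 41 (by decide) (by decide)
    (by decide) (by decide) (by decide) rfl rfl (fun _ => H0 _ _ (by decide))
  have h21_24 : Δ 21 24 = 0 := step 21 24 17 16 22 41 (by decide) (by decide)
    (by decide) (by decide) (by decide) rfl rfl (fun _ => H0 _ _ (by decide))
  have h21_26 : Δ 21 26 = 0 := step 21 26 15 18 18 41 (by decide) (by decide)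
    (by decide) (by decide) (by decide) rfl rfl (fun _ => H0 _ _ (by decide))
  have h21_27 : Δ 21 27 = 0 := step 21 27 14 18 17 41 (by decide) (by decide)
    (by decide) (by decide) (by decide) rfl rfl (fun _ => h18_24)
  have h21_28 : Δ 21 28 = 0 := step 21 28 13 16 18 41 (by decide) (by decide)
    (by decide) (by decide) (by decide) rfl rfl (fun _ => H0 _ _ (by decide))
  have h22_0 : Δ 22 0 = 0 := step 22 0 13 18 17 13 (by decide) (by decide)
    (by decide) (by decide) (by decide) rfl rfl (fun h => absurd h (by decide))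
  have h22_13 : Δ 22 13 = 0 := step 22 13 13 18 17 26 (by decide) (by decide)
    (by decide) (by decide) (by decide) rfl rfl (fun _ => H0 _ _ (by decide))
  have h22_14 : Δ 22 14 = 0 := step 22 14 13 18 17 27 (by decide) (by decide)
    (by decide) (by decide) (by decide) rfl rfl (fun _ => H0 _ _ (by decide))
  have h22_15 : Δ 22 15 = 0 := step 22 15 13 18 17 28 (by decide) (by decide)
    (by decide) (by decide) (by decide) rfl rfl (fun _ => H0 _ _ (by decide))
  have h22_17 : Δ 22 17 = 0 := step 22 17 24 16 30 41 (by decide) (by decide)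
    (by decide) (by decide) (by decide) rfl rfl (fun _ => H0 _ _ (by decide))
  have h22_24 : Δ 22 24 = 0 := step 22 24 17 18 21 41 (by decide) (by decide)
    (by decide) (by decide) (by decide) rfl rfl (fun _ => H0 _ _ (by decide))
  have h22_26 : Δ 22 26 = 0 := step 22 26 15 16 21 41 (by decide) (by decide)
    (by decide) (by decide) (by decide) rfl rfl (fun _ => H0 _ _ (by decide))
  have h22_27 : Δ 22 27 = 0 := step 22 27 14 18 18 41 (by decide) (by decide)
    (by decide) (by decide) (by decide) rfl rfl (fun _ => H0 _ _ (by decide))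
  have h22_28 : Δ 22 28 = 0 := step 22 28 13 18 17 41 (by decide) (by decide)
    (by decide) (by decide) (by decide) rfl rfl (fun _ => h18_24)
  have fin : ∀ g, (g = 16 ∨ g = 18 ∨ g = 21 ∨ g = 22) → ∀ y, Δ g y = 0 := by
    intro g hg y
    by_cases hy : ∀ j, Dv j ≠ y
    · exact H0 _ _ hy
    push Not at hy
    obtain ⟨j, rfl⟩ := hy
    rcases hg with rfl | rfl | rfl | rfl
    · fin_cases j <;> assumption
    · fin_cases j <;> assumption
    · fin_cases j <;> assumption
    · fin_cases j <;> assumption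
  intro i hi y
  by_cases hy : ∀ j, Dv j ≠ y
  · exact H0 _ _ hy
  push Not at hy
  obtain ⟨g, hg, hle, hs⟩ := inJ_gen hi
  have hgJ : InJ g := by
    rcases hg with rfl | rfl | rfl | rfl <;> decide
  have := H g (i - g) y hgJ hs hy
  rw [Nat.add_sub_cancel' hle] at this
  rw [this]
  split_ifs
  · exact fin g hg _
  · rfl

end comb

section chart

variable (k : Type u) [Field k]

/-- the monomial basis of the quotient -/
noncomputable def basB : Fin 10 → CB k := fun j => mon k (Dv j)

/-- coefficients -/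
noncomputable def coefs : CB k →ₗ[k] (Fin 10 → k) :=
  LinearMap.pi fun j => (Polynomial.lcoeff k (Dv j)) ∘ₗ (curveRing k).val.toLinearMap

lemma coefs_apply (f : CB k) (j : Fin 10) : coefs k f j = (f : k[X]).coeff (Dv j) := rfl

lemma coefs_mon_mul {i : ℕ} (hi : i ∉ gaps) (y : CB k) (l : Fin 10) :
    coefs k (mon k i * y) l = if i ≤ Dv l then (y : k[X]).coeff (Dv l - i) else 0 := by
  rw [coefs_apply, MulMemClass.coe_mul, coe_mon k hi, coeff_X_pow_mul']

lemma coefs_mon {i : ℕ} (hi : i ∉ gaps) (l : Fin 10) :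
    coefs k (mon k i) l = if i = Dv l then 1 else 0 := by
  rw [coefs_apply, coe_mon k hi, coeff_X_pow]
  simp only [eq_comm]

lemma coefs_inJ {i : ℕ} (hi : InJ i) : coefs k (mon k i) = 0 := by
  ext l
  rw [coefs_mon k hi.1, if_neg (fun h => hi.2 l h.symm)]
  rfl

lemma coefs_Dv (i : Fin 10) : coefs k (basB k i) = Pi.single i 1 := by
  ext l
  rw [basB, coefs_mon k (Dv_notMem i), Pi.single_apply]
  by_cases h : i = l
  · simp [h]
  · rw [if_neg (fun h2 => h (Dv_injective h2)), if_neg (Ne.symm h)]

/-- the point of the Hilbert scheme, as a chart datum -/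
noncomputable def qz : Chart k (basB k) k where
  q := coefs k
  q_b := coefs_Dv k
  q_mul := by
    intro x y
    have hx : x ∈ Submodule.span k (mon k '' {i | i ∉ gaps}) := by
      rw [span_mon]; trivial
    induction hx using Submodule.span_induction with
    | mem x hx =>
      obtain ⟨i, hi, rfl⟩ := hx
      by_cases hJ : InJ i
      · rw [coefs_inJ k hJ]
        simp only [Pi.zero_apply, zero_smul, Finset.sum_const_zero]
        ext l
        rw [coefs_mon_mul k hi]
        split_ifs with h
        · exact y.2 _ (inJ_sub hJ l h)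
        · rfl
      · have : ∃ j, Dv j = i := by
          by_contra h
          push Not at h
          exact hJ ⟨hi, h⟩
        obtain ⟨j, rfl⟩ := this
        change coefs k (basB k j * y) = ∑ i, coefs k (basB k j) i • coefs k (basB k i * y)
        rw [coefs_Dv]
        simp [Pi.single_apply]
    | zero => simp
    | add x x' _ _ hx hx' => simp [add_mul, hx, hx', add_smul, Finset.sum_add_distrib]
    | smul a x _ hx =>
      rw [smul_mul_assoc, map_smul, hx, map_smul, Finset.smul_sum]
      simp [mul_smul]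

variable {R' : Type u} [CommRing R'] [Algebra k R']

/-- tangent vectors: linear relations -/
lemma tangent_rel (n : Ideal R') (hn : ∀ x ∈ n, ∀ y ∈ n, x * y = 0) (c : Chart k (basB k) R')
    (h0 : ∀ x j, c.q x j - algebraMap k R' (coefs k x j) ∈ n) {i s : ℕ} (hi : InJ i)
    (hs : s ∉ gaps) (l : Fin 10) :
    c.q (mon k (i + s)) l = ∑ j, if Dv j + s = Dv l then c.q (mon k i) j else 0 := by
  rw [mon_mul k hi.1 hs, c.q_mul, Finset.sum_apply]
  refine Finset.sum_congr rfl fun j _ => ?_
  rw [Pi.smul_apply, smul_eq_mul]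
  have h1 : c.q (mon k i) j ∈ n := by
    have := h0 (mon k i) j
    rwa [coefs_inJ k hi, Pi.zero_apply, map_zero, sub_zero] at this
  have h2 := h0 (basB k j * mon k s) l
  have h3 := hn _ h1 _ h2
  rw [mul_sub, sub_eq_zero] at h3
  rw [h3]
  have h4 : coefs k (basB k j * mon k s) l = if Dv j + s = Dv l then 1 else 0 := by
    rw [basB, ← mon_mul k (Dv_notMem j) hs, coefs_mon k (add_notMem_gaps (Dv_notMem j) hs)]
  rw [h4]
  split_ifs <;> simp

/-- the nine coordinates -/
def gx : Fin 9 → ℕ := ![18, 16, 16, 16, 16, 22, 21, 18, 16]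

/-- the nine coordinates -/
def xx : Fin 9 → Fin 10 := ![5, 5, 6, 7, 8, 9, 9, 9, 9]

lemma tangent_zero (n : Ideal R') (hn : ∀ x ∈ n, ∀ y ∈ n, x * y = 0) (c : Chart k (basB k) R')
    (h0 : ∀ x j, c.q x j - algebraMap k R' (coefs k x j) ∈ n)
    (h9 : ∀ t : Fin 9, c.q (mon k (gx t)) (xx t) = 0) (x : CB k) (j : Fin 10) :
    c.q x j = algebraMap k R' (coefs k x j) := by
  let Δ : ℕ → ℕ → R' := fun i x => ∑ j, if Dv j = x then c.q (mon k i) j else 0
  have hΔ : ∀ i j, Δ i (Dv j) = c.q (mon k i) j := by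
    intro i j
    simp only [Δ]
    rw [Finset.sum_eq_single j]
    · simp
    · intro b _ hb
      rw [if_neg (fun h => hb (Dv_injective h))]
    · simp
  have H0 : ∀ i x, (∀ j, Dv j ≠ x) → Δ i x = 0 := by
    intro i x hx
    exact Finset.sum_eq_zero fun j _ => if_neg (hx j)
  have H : ∀ i s y, InJ i → s ∉ gaps → (∃ l, Dv l = y) →
      Δ (i + s) y = if s ≤ y then Δ i (y - s) else 0 := by
    rintro i s y hi hs ⟨l, rfl⟩
    rw [hΔ, tangent_rel k n hn c h0 hi hs]
    split_ifs with h
    · refine Finset.sum_congr rfl fun j _ => ?_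
      congr 1
      apply propext
      omega
    · refine Finset.sum_eq_zero fun j _ => if_neg ?_
      omega
  have hv := vanish Δ H H0 ((hΔ 18 5).trans (h9 0)) ((hΔ 16 5).trans (h9 1))
    ((hΔ 16 6).trans (h9 2)) ((hΔ 16 7).trans (h9 3)) ((hΔ 16 8).trans (h9 4))
    ((hΔ 22 9).trans (h9 5)) ((hΔ 21 9).trans (h9 6)) ((hΔ 18 9).trans (h9 7))
    ((hΔ 16 9).trans (h9 8))
  have hx : x ∈ Submodule.span k (mon k '' {i | i ∉ gaps}) := by
    rw [span_mon]; trivial
  induction hx using Submodule.span_induction with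
  | mem x hx =>
    obtain ⟨i, hi, rfl⟩ := hx
    by_cases hJ : InJ i
    · rw [coefs_inJ k hJ, ← hΔ, hv i hJ]
      simp
    · have : ∃ j, Dv j = i := by
        by_contra h
        push Not at h
        exact hJ ⟨hi, h⟩
      obtain ⟨l, rfl⟩ := this
      change c.q (basB k l) j = algebraMap k R' (coefs k (basB k l) j)
      rw [c.q_b, coefs_Dv, Pi.single_apply, Pi.single_apply]
      split_ifs <;> simp
  | zero => simp
  | add x x' _ _ hx hx' => simp [hx, hx']
  | smul a x _ hx =>
    rw [map_smul, Pi.smul_apply, hx, map_smul, Pi.smul_apply, smul_eq_mul, map_mul,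
      Algebra.smul_def]

end chart

section height

/-- Nakayama and the height theorem -/
lemma height_le_of_le_sup {A : Type u} [CommRing A] [IsNoetherianRing A] (m : Ideal A)
    [hm : m.IsMaximal] {ι : Type} [Fintype ι] (f : ι → A) (hf : ∀ i, f i ∈ m)
    (h : m ≤ Ideal.span (Set.range f) ⊔ m * m) : m.height ≤ Fintype.card ι := by
  have hmin : m ∈ (Ideal.span (Set.range f)).minimalPrimes := by
    refine ⟨⟨hm.isPrime, Ideal.span_le.2 (by rintro _ ⟨i, rfl⟩; exact hf i)⟩, ?_⟩
    rintro q ⟨hq, hfq⟩ hqm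
    have h1 : m ≤ q ⊔ m • m := h.trans (sup_le_sup_right hfq _)
    obtain ⟨r, hr, hr2⟩ := Submodule.exists_sub_one_mem_and_smul_le_of_fg_of_le_sup
      (I := m) (N := q) (N' := m) (P := m) (IsNoetherian.noetherian m) le_rfl h1
    have hrm : r ∉ m := by
      intro hrm
      apply hm.ne_top
      rw [Ideal.eq_top_iff_one]
      have := m.sub_mem hrm hr
      simpa using this
    intro x hx
    have h2 : r * x ∈ q := hr2 (Submodule.smul_mem_pointwise_smul x r m hx)
    exact (hq.mem_or_mem h2).resolve_left (fun h3 => hrm (hqm h3))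
  refine (Ideal.height_le_card_of_mem_minimalPrimes_span (Set.finite_range f) hmin).trans ?_
  have := Set.ncard_image_le (f := f) (Set.finite_univ)
  rw [Set.image_univ, Set.ncard_univ, Nat.card_eq_fintype_card] at this
  exact_mod_cast this

variable (k : Type u) [Field k]

variable {k} in
lemma UnivFor.hom_ext_chart {L : Set (Fin 10 → CB k)} (U : UnivFor k L) {b : Fin 10 → CB k}
    (hb : b ∈ L) {R : Type u} [CommRing R] [Algebra k R] (φ ψ : U.A →ₐ[k] R)
    (h : (U.chart hb).map φ = (U.chart hb).map ψ) : φ = ψ := by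
  apply U.uniq
  rw [← U.chart_ideal hb, ← Chart.ideal_map, ← Chart.ideal_map, h]

theorem height_ker_le {L : Set (Fin 10 → CB k)} (U : UnivFor k L) [IsNoetherianRing U.A]
    (hb : basB k ∈ L) (z : U.A →ₐ[k] k) (hz : (U.chart hb).map z = qz k) :
    (RingHom.ker z).height ≤ 9 := by
  set c := U.chart hb with hc
  have hzq : ∀ x j, z (c.q x j) = coefs k x j := by
    intro x j
    rw [← Chart.map_q, hz]
    rfl
  have hmax : (RingHom.ker z).IsMaximal := RingHom.ker_isMaximal_of_surjective z (fun a => ⟨algebraMap k _ a, z.commutes a⟩)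
  set m := RingHom.ker z with hm
  let f : Fin 9 → U.A := fun t => c.q (mon k (gx t)) (xx t)
  have hgx : ∀ t, InJ (gx t) := by decide
  have hf : ∀ t, f t ∈ m := by
    intro t
    rw [hm, RingHom.mem_ker]
    change z (c.q (mon k (gx t)) (xx t)) = 0
    rw [hzq, coefs_inJ k (hgx t)]
    rfl
  refine (height_le_of_le_sup m f hf ?_).trans (by simp)
  let N : Ideal U.A := Ideal.span (Set.range f) ⊔ m * m
  have hNm : N ≤ m := sup_le (Ideal.span_le.2 (by rintro _ ⟨i, rfl⟩; exact hf i)) Ideal.mul_le_left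
  let φ : U.A →ₐ[k] (U.A ⧸ N) := Ideal.Quotient.mkₐ k N
  let ψ : U.A →ₐ[k] (U.A ⧸ N) := (Algebra.ofId k (U.A ⧸ N)).comp z
  have hφψ : φ = ψ := by
    apply U.hom_ext_chart hb
    ext x j
    rw [Chart.map_q, Chart.map_q]
    have := tangent_zero k (m.map φ) ?_ (c.map φ) ?_ ?_ x j
    · rw [Chart.map_q] at this
      rw [this]
      change _ = algebraMap k _ (z (c.q x j))
      rw [hzq]
    · intro x hx y hy
      have h1 : x * y ∈ m.map φ * m.map φ := Ideal.mul_mem_mul hx hy
      rw [← Ideal.map_mul] at h1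
      have h2 : (m * m).map φ ≤ ⊥ := by
        rw [Ideal.map_le_iff_le_comap]
        intro w hw
        rw [Ideal.mem_comap, Ideal.mem_bot]
        exact Ideal.Quotient.eq_zero_iff_mem.2 (Ideal.mem_sup_right hw)
      exact (Ideal.mem_bot).1 (h2 h1)
    · intro x j
      rw [Chart.map_q, ← hzq, ← φ.commutes, ← map_sub]
      apply Ideal.mem_map_of_mem
      rw [hm, RingHom.mem_ker, map_sub, z.commutes]
      simp
    · intro t
      rw [Chart.map_q]
      exact Ideal.Quotient.eq_zero_iff_mem.2
        (Ideal.mem_sup_left (Ideal.subset_span ⟨t, rfl⟩))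
  intro x hx
  have : φ x = 0 := by
    rw [hφψ]
    change algebraMap k _ (z x) = 0
    rw [RingHom.mem_ker.1 hx, map_zero]
  exact Ideal.Quotient.eq_zero_iff_mem.1 this

end height

end Pool.Agent.Helper226
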