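import Mathlib
import Pool.Agent.Helper226.Loci
import Pool.Agent.Helper226.Tangent

set_option autoImplicit false

open scoped TensorProduct
open CategoryTheory AlgebraicGeometry

universe u

namespace Pool.Agent.Helper226

variable {k : Type u} [Field k] {B : Type u} [CommRing B] [Algebra k B] {d : ℕ}
variable {R : Type u} [CommRing R] [Algebra k R] {R' : Type u} [CommRing R'] [Algebra k R']

/-- ring of the chart -/
abbrev AR (k : Type u) [Field k] {B : Type u} [CommRing B] [Algebra k B] {d : ℕ}
    (b : Fin d → B) : Type u := (univ k (Idx.single b)).A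

lemma clf_surjective {b : Fin d → B} (c : Chart k b k) : Function.Surjective (clf c) :=
  fun a => ⟨algebraMap k _ a, (clf c).commutes a⟩

lemma ker_clf_maximal {b : Fin d → B} (c : Chart k b k) : (RingHom.ker (clf c)).IsMaximal :=
  RingHom.ker_isMaximal_of_surjective (clf c) (clf_surjective c)

/-- the point of the chart -/
noncomputable def zp {b : Fin d → B} (c : Chart k b k) : Spec (CommRingCat.of (AR k b)) :=
  (⟨RingHom.ker (clf c), (ker_clf_maximal c).isPrime⟩ : PrimeSpectrum (AR k b))

lemma zp_asIdeal {b : Fin d → B} (c : Chart k b k) : (zp c).asIdeal = RingHom.ker (clf c) := rfl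

lemma range_specMap_field {A : Type u} [CommRing A] [Algebra k A] (φ : A →ₐ[k] k)
    (y : Spec (CommRingCat.of k)) :
    (Spec.map (CommRingCat.ofHom φ.toRingHom) y).asIdeal = RingHom.ker φ := by
  have h1 : (Spec.map (CommRingCat.ofHom φ.toRingHom) y).asIdeal =
      Ideal.comap φ.toRingHom y.asIdeal := rfl
  have h2 : y.asIdeal = ⊥ := by
    have : y.asIdeal.IsPrime := y.isPrime
    exact (Ideal.eq_bot_or_top y.asIdeal).resolve_right this.ne_top
  rw [h1, h2]
  rfl

lemma mem_range_mor_iff {b : Fin d → B} (c : Chart k b k) (x : HilbS k B d) :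
    x ∈ Set.range (mor c) ↔ x = chartι k (Idx.single b) (zp c) := by
  have key : ∀ y : Spec (CommRingCat.of k), mor c y = chartι k (Idx.single b) (zp c) := by
    intro y
    unfold mor
    rw [Scheme.Hom.comp_apply]
    congr 1
    apply PrimeSpectrum.ext
    exact range_specMap_field (clf c) y
  constructor
  · rintro ⟨y, rfl⟩
    exact key y
  · rintro rfl
    exact ⟨(⟨⊥, Ideal.isPrime_bot⟩ : PrimeSpectrum k), key _⟩

lemma exists_chart_in {b : Fin d → B} (P : Ideal B → Prop) (o : Spec (CommRingCat.of (AR k b)))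
    (hx : chartι k (Idx.single b) o ∈ (hilb k B d).locus P) :
    ∃ c : Chart k b k, P c.ker ∧ o = zp c := by
  obtain ⟨b1, c1, hP, hr⟩ := exists_chart_of_mem_locus P _ hx
  have h1 : HasBas ((Idx.single b).s : Set (Fin d → B)) c1.ideal := by
    apply hasBas_of_forall k c1.ideal (L := Idx.single b1) (hasBas_single ⟨c1, rfl⟩)
    intro y
    rw [← mor_eq_pt]
    have h2 : mor c1 y = chartι k (Idx.single b) o := by
      rw [(mem_range_mor_iff c1 _).1 hr]
      exact (mem_range_mor_iff c1 _).1 ⟨y, rfl⟩
    rw [h2]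
    exact ⟨o, rfl⟩
  obtain ⟨c, hc⟩ := h1 b (mem_single b)
  refine ⟨c, ?_, ?_⟩
  · unfold Chart.ker
    rw [hc]
    exact hP
  · rw [mor_eq_of_ideal_eq c1 c hc.symm, mem_range_mor_iff] at hr
    exact (chartι k (Idx.single b)).isOpenEmbedding.injective hr

lemma chartι_zp_mem_locus {b : Fin d → B} (c : Chart k b k) (P : Ideal B → Prop) (hP : P c.ker) :
    chartι k (Idx.single b) (zp c) ∈ (hilb k B d).locus P :=
  mem_locus_of_chart c P hP _ ((mem_range_mor_iff c _).2 rfl)

lemma isClosed_zp {b : Fin d → B} (c : Chart k b k) : IsClosed {zp c} := by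
  have := (PrimeSpectrum.isClosed_singleton_iff_isMaximal
    (⟨RingHom.ker (clf c), (ker_clf_maximal c).isPrime⟩ : PrimeSpectrum (AR k b))).2
    (ker_clf_maximal c)
  exact this

lemma isClosed_chartι_zp [Algebra.FiniteType k B] {b : Fin d → B} (c : Chart k b k) :
    IsClosed {chartι k (Idx.single b) (zp c)} := by
  have hJ : JacobsonSpace (HilbS k B d) :=
    LocallyOfFiniteType.jacobsonSpace (HilbS.str k B d)
  have h1 : IsLocallyClosed ({chartι k (Idx.single b) (zp c)} : Set (HilbS k B d)) := by
    have h2 := (isClosed_zp c).isLocallyClosed.image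
      (chartι k (Idx.single b)).isOpenEmbedding.isInducing
      (chartι k (Idx.single b)).isOpenEmbedding.isOpen_range.isLocallyClosed
    rw [Set.image_singleton] at h2
    exact h2
  exact isClosed_singleton_of_isLocallyClosed_singleton h1

lemma noetherian_AR [Algebra.FiniteType k B] (b : Fin d → B) : IsNoetherianRing (AR k b) := by
  have h1 := univ_finiteType (k := k) (Idx.single b)
  exact Algebra.FiniteType.isNoetherianRing k _

lemma stalk_le [Algebra.FiniteType k B] {b : Fin d → B} (c : Chart k b k) {ι : Type} [Fintype ι]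
    (f : ι → AR k b) (hf : ∀ i, clf c (f i) = 0)
    (h : RingHom.ker (clf c) ≤ Ideal.span (Set.range f) ⊔ RingHom.ker (clf c) * RingHom.ker (clf c)) :
    ringKrullDim ((HilbS k B d).presheaf.stalk (chartι k (Idx.single b) (zp c))) ≤
      Fintype.card ι := by
  have := noetherian_AR (k := k) b
  have hm := ker_clf_maximal c
  rw [ringKrullDim_stalk_eq_coheight]
  have h1 : Order.coheight (chartι k (Idx.single b) (zp c)) = Order.coheight (zp c) :=
    coheight_eq_of_isOpenImmersion (chartι k (Idx.single b))
  rw [h1, ← idealHeight_eq_coheight]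
  have h3 : (RingHom.ker (clf c)).height ≤ Fintype.card ι := height_le_of_le_sup _ f hf h
  have h2 : (((RingHom.ker (clf c)).height : ℕ∞) : WithBot ℕ∞) ≤
      ((Fintype.card ι : ℕ∞) : WithBot ℕ∞) := WithBot.coe_le_coe.2 h3
  exact h2

end Pool.Agent.Helper226
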