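import Mathlib

set_option autoImplicit false

namespace Pool.Agent.Helper226.Apo

/-- index type of the variables: `inl 0 = s`, `inl 1 = t`, `inl 2 = m`, `inl 3 = n`,
`inr (false, α, i)` = `P α i`, `inr (true, α, i)` = `Q α i`. -/
abbrev Ix (h : ℕ) : Type := Fin 4 ⊕ (Bool × Fin h × Fin 5)

/-- exponents of the four special variables -/
def ex : Fin 4 → ℕ := ![0, 1, 3, 4]

/-- the trilinear form -/
noncomputable def tri {h : ℕ} : Ix h → Ix h → Ix h → ℂ
  | Sum.inl a, Sum.inl b, Sum.inl c => if ex a + ex b + ex c = 4 then 1 else 0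
  | Sum.inl a, Sum.inr z, Sum.inr w =>
      if a.val < 2 ∧ z.1 ≠ w.1 ∧ z.2.1 = w.2.1 ∧ a.val + z.2.2.val + w.2.2.val = 4 then 1 else 0
  | Sum.inr z, Sum.inl a, Sum.inr w =>
      if a.val < 2 ∧ z.1 ≠ w.1 ∧ z.2.1 = w.2.1 ∧ a.val + z.2.2.val + w.2.2.val = 4 then 1 else 0
  | Sum.inr z, Sum.inr w, Sum.inl a =>
      if a.val < 2 ∧ z.1 ≠ w.1 ∧ z.2.1 = w.2.1 ∧ a.val + z.2.2.val + w.2.2.val = 4 then 1 else 0
  | _, _, _ => 0

section core

variable {h : ℕ} {A : Type} [CommRing A] [Algebra ℂ A]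

/-- linear combination of the variables -/
noncomputable def el (x : Ix h → A) (d : Ix h → ℂ) : A := ∑ i, d i • x i

/-- `P a i` -/
noncomputable def pe (x : Ix h → A) (u : Bool) (a : Fin h → ℂ) (i : Fin 5) : A :=
  ∑ α, a α • x (Sum.inr (u, α, i))

variable (lam : A →ₗ[ℂ] ℂ) (x : Ix h → A)

theorem lam_el (hx : ∀ i j k, lam (x i * x j * x k) = tri i j k) (d : Ix h → ℂ) (j k : Ix h) :
    lam (el x d * x j * x k) = ∑ i, d i * tri i j k := by
  unfold el
  rw [Finset.sum_mul, Finset.sum_mul, map_sum]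
  refine Finset.sum_congr rfl fun i _ => ?_
  rw [smul_mul_assoc, smul_mul_assoc, map_smul, hx, smul_eq_mul]

theorem tri_comm12 (i j k : Ix h) : tri i j k = tri j i k := by
  rcases i with a | ⟨u, α, i⟩ <;> rcases j with b | ⟨v, β, j⟩ <;> rcases k with c | ⟨w, γ, k⟩ <;>
    simp only [tri]
  · congr 1; simp only [eq_iff_iff]; constructor <;> intro h <;> omega
  · congr 1
    simp only [eq_iff_iff]
    constructor
    · rintro ⟨h1, h2, h3, h4⟩; exact ⟨h1, h2.symm, h3.symm, by omega⟩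
    · rintro ⟨h1, h2, h3, h4⟩; exact ⟨h1, h2.symm, h3.symm, by omega⟩

theorem lam_el2 (hx : ∀ i j k, lam (x i * x j * x k) = tri i j k) (c d : Ix h → ℂ)
    (hc : el x c = 1) (j : Ix h) :
    lam (el x d * x j) = ∑ k, ∑ i, c k * (d i * tri i j k) := by
  have h1 : el x d * x j = ∑ k, c k • (el x d * x j * x k) := by
    have : el x d * x j = el x d * x j * el x c := by rw [hc, mul_one]
    conv_lhs => rw [this]
    conv_lhs => rw [show el x c = ∑ k, c k • x k from rfl]
    rw [Finset.mul_sum]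
    refine Finset.sum_congr rfl fun k _ => ?_
    rw [mul_smul_comm]
  rw [h1, map_sum]
  refine Finset.sum_congr rfl fun k _ => ?_
  rw [map_smul, lam_el lam x hx, smul_eq_mul, Finset.mul_sum]

theorem sum_pick (u : Bool) (β : Fin h) (b : Fin 5) (e : ℕ) (d : Bool × Fin h × Fin 5 → ℂ) :
    ∑ z : Bool × Fin h × Fin 5, (if z.1 ≠ u ∧ z.2.1 = β ∧ e + z.2.2.val + b.val = 4 then d z else 0)
      = ∑ i : Fin 5, if e + i.val + b.val = 4 then d (!u, β, i) else 0 := by
  rw [Fintype.sum_prod_type, Fintype.sum_bool, Fintype.sum_prod_type, Fintype.sum_prod_type]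
  rw [Finset.sum_eq_single β, Finset.sum_eq_single β]
  · cases u <;> simp
  · intro α _ hα
    apply Finset.sum_eq_zero
    intro i _
    simp [hα]
  · simp
  · intro α _ hα
    apply Finset.sum_eq_zero
    intro i _
    simp [hα]
  · simp

theorem rad_z (hx : ∀ i j k, lam (x i * x j * x k) = tri i j k) (c d : Ix h → ℂ)
    (hc : el x c = 1) (h0 : d (Sum.inl 0) = 0) (h1 : d (Sum.inl 1) = 0)
    (u : Bool) (β : Fin h) (b : Fin 5) :
    lam (el x d * x (Sum.inr (u, β, b))) =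
      c (Sum.inl 0) * (∑ i : Fin 5, if 0 + i.val + b.val = 4 then d (Sum.inr (!u, β, i)) else 0) +
      c (Sum.inl 1) * (∑ i : Fin 5, if 1 + i.val + b.val = 4 then d (Sum.inr (!u, β, i)) else 0) := by
  rw [lam_el2 lam x hx c d hc]
  rw [← sum_pick u β b 0 (fun z => d (Sum.inr z)), ← sum_pick u β b 1 (fun z => d (Sum.inr z))]
  simp [Fintype.sum_sum_type, Fin.sum_univ_four, tri, h0, h1, Finset.mul_sum]


theorem rad_n (hx : ∀ i j k, lam (x i * x j * x k) = tri i j k) (c d : Ix h → ℂ)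
    (hc : el x c = 1) :
    lam (el x d * x (Sum.inl 3)) = c (Sum.inl 0) * d (Sum.inl 0) := by
  rw [lam_el2 lam x hx c d hc]
  simp [Fintype.sum_sum_type, Fin.sum_univ_four, tri, ex]

theorem rad_m (hx : ∀ i j k, lam (x i * x j * x k) = tri i j k) (c d : Ix h → ℂ)
    (hc : el x c = 1) :
    lam (el x d * x (Sum.inl 2)) = c (Sum.inl 0) * d (Sum.inl 1) + c (Sum.inl 1) * d (Sum.inl 0) := by
  rw [lam_el2 lam x hx c d hc]
  simp [Fintype.sum_sum_type, Fin.sum_univ_four, tri, ex]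

theorem rad_t (hx : ∀ i j k, lam (x i * x j * x k) = tri i j k) (c d : Ix h → ℂ)
    (hc : el x c = 1) (h0 : d (Sum.inl 0) = 0) (h1 : d (Sum.inl 1) = 0)
    (hz : ∀ z, d (Sum.inr z) = 0) :
    lam (el x d * x (Sum.inl 1)) = c (Sum.inl 0) * d (Sum.inl 2) := by
  rw [lam_el2 lam x hx c d hc]
  simp [Fintype.sum_sum_type, Fin.sum_univ_four, tri, ex, h0, h1, hz]

theorem rad_s (hx : ∀ i j k, lam (x i * x j * x k) = tri i j k) (c d : Ix h → ℂ)
    (hc : el x c = 1) (h0 : d (Sum.inl 0) = 0) (h1 : d (Sum.inl 1) = 0)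
    (hz : ∀ z, d (Sum.inr z) = 0) :
    lam (el x d * x (Sum.inl 0)) = c (Sum.inl 0) * d (Sum.inl 3) + c (Sum.inl 1) * d (Sum.inl 2) := by
  rw [lam_el2 lam x hx c d hc]
  simp [Fintype.sum_sum_type, Fin.sum_univ_four, tri, ex, h0, h1, hz]

theorem rad (hx : ∀ i j k, lam (x i * x j * x k) = tri i j k) (c d : Ix h → ℂ)
    (hc : el x c = 1) (hs : c (Sum.inl 0) ≠ 0) (hd : ∀ j, lam (el x d * x j) = 0) : d = 0 := by
  have h0 : d (Sum.inl 0) = 0 := by
    have := hd (Sum.inl 3)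
    rw [rad_n lam x hx c d hc] at this
    exact (mul_eq_zero.mp this).resolve_left hs
  have h1 : d (Sum.inl 1) = 0 := by
    have := hd (Sum.inl 2)
    rw [rad_m lam x hx c d hc, h0, mul_zero, add_zero] at this
    exact (mul_eq_zero.mp this).resolve_left hs
  have hz : ∀ z, d (Sum.inr z) = 0 := by
    rintro ⟨u, β, i⟩
    have key := fun b => hd (Sum.inr (!u, β, b))
    simp only [rad_z lam x hx c d hc h0 h1, Bool.not_not] at key
    have k4 := key 4
    have k3 := key 3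
    have k2 := key 2
    have k1 := key 1
    have k0 := key 0
    simp [Fin.sum_univ_five] at k0 k1 k2 k3 k4
    have d0 : d (Sum.inr (u, β, 0)) = 0 := k4.resolve_left hs
    rw [d0, mul_zero, add_zero] at k3
    have d1 : d (Sum.inr (u, β, 1)) = 0 := (mul_eq_zero.mp k3).resolve_left hs
    rw [d1, mul_zero, add_zero] at k2
    have d2 : d (Sum.inr (u, β, 2)) = 0 := (mul_eq_zero.mp k2).resolve_left hs
    rw [d2, mul_zero, add_zero] at k1
    have d3 : d (Sum.inr (u, β, 3)) = 0 := (mul_eq_zero.mp k1).resolve_left hs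
    rw [d3, mul_zero, add_zero] at k0
    have d4 : d (Sum.inr (u, β, 4)) = 0 := (mul_eq_zero.mp k0).resolve_left hs
    fin_cases i <;> assumption
  have h2 : d (Sum.inl 2) = 0 := by
    have := hd (Sum.inl 1)
    rw [rad_t lam x hx c d hc h0 h1 hz] at this
    exact (mul_eq_zero.mp this).resolve_left hs
  have h3 : d (Sum.inl 3) = 0 := by
    have := hd (Sum.inl 0)
    rw [rad_s lam x hx c d hc h0 h1 hz, h2, mul_zero, add_zero] at this
    exact (mul_eq_zero.mp this).resolve_left hs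
  funext j
  rcases j with a | z
  · fin_cases a
    · exact h0
    · exact h1
    · exact h2
    · exact h3
  · exact hz z


end core

end Pool.Agent.Helper226.Apo
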