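import Mathlib
import Pool.Agent.Helper226.ApoCore
set_option autoImplicit false
namespace Pool.Agent.Helper226.Apo

theorem exists_common_kernel {V W ι' : Type} [AddCommGroup V] [Module ℂ V] [FiniteDimensional ℂ V]
    [AddCommGroup W] [Module ℂ W] [FiniteDimensional ℂ W] [Fintype ι'] (T : ι' → V →ₗ[ℂ] W)
    (S : ι' → Submodule ℂ W) (hS : ∀ i v, T i v ∈ S i)
    (hlt : ∑ i, Module.finrank ℂ (S i) < Module.finrank ℂ V) : ∃ v, v ≠ 0 ∧ ∀ i, T i v = 0 := by
  let Ψ : V →ₗ[ℂ] ((i : ι') → S i) := LinearMap.pi (fun i => (T i).codRestrict (S i) (hS i))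
  have h1 : Module.finrank ℂ ((i : ι') → S i) = ∑ i, Module.finrank ℂ (S i) :=
    Module.finrank_pi_fintype ℂ
  have h2 : LinearMap.ker Ψ ≠ ⊥ := LinearMap.ker_ne_bot_of_finrank_lt (by rw [h1]; exact hlt)
  obtain ⟨v, hv, hv0⟩ := (Submodule.ne_bot_iff _).mp h2
  refine ⟨v, hv0, fun i => ?_⟩
  have h3 := congrFun (LinearMap.mem_ker.mp hv) i
  have h4 := congrArg Subtype.val h3
  exact h4

variable {h : ℕ} {A : Type} [CommRing A] [Algebra ℂ A] [FiniteDimensional ℂ A]
variable (lam : A →ₗ[ℂ] ℂ) (x : Ix h → A)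

/-- the bilinear form of the functional -/
noncomputable def bf : LinearMap.BilinForm ℂ A := (LinearMap.mul ℂ A).compr₂ lam

omit [FiniteDimensional ℂ A] in
@[simp] theorem bf_apply (a b : A) : bf lam a b = lam (a * b) := rfl

omit [FiniteDimensional ℂ A] in
theorem bf_nondeg (nd : ∀ a : A, (∀ b, lam (a * b) = 0) → a = 0) : (bf lam).Nondegenerate := by
  constructor
  · intro a ha
    exact nd a ha
  · intro a ha
    exact nd a (fun b => by rw [mul_comm]; exact ha b)

theorem finrank_orth (nd : ∀ a : A, (∀ b, lam (a * b) = 0) → a = 0) (W : Submodule ℂ A) :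
    Module.finrank ℂ ((bf lam).orthogonal W) = Module.finrank ℂ A - Module.finrank ℂ W :=
  LinearMap.BilinForm.finrank_orthogonal (bf_nondeg lam nd) W

omit [FiniteDimensional ℂ A] in
theorem mem_orth_span {ι' : Type} (f : ι' → A) (a : A) (ha : ∀ i, lam (a * f i) = 0) :
    a ∈ (bf lam).orthogonal (Submodule.span ℂ (Set.range f)) := by
  rw [LinearMap.BilinForm.mem_orthogonal_iff]
  intro n hn
  induction hn using Submodule.span_induction with
  | mem y hy => obtain ⟨i, rfl⟩ := hy; rw [bf_apply, mul_comm]; exact ha i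
  | zero => simp
  | add y z _ _ hy hz => rw [map_add, LinearMap.add_apply, hy, hz, add_zero]
  | smul c y _ hy => rw [map_smul, LinearMap.smul_apply, hy, smul_zero]

omit [FiniteDimensional ℂ A] in
theorem linind (hx : ∀ i j k, lam (x i * x j * x k) = tri i j k) (c : Ix h → ℂ)
    (hc : el x c = 1) (hs : c (Sum.inl 0) ≠ 0) : LinearIndependent ℂ x := by
  rw [Fintype.linearIndependent_iff]
  intro g hg i
  have := rad lam x hx c g hc hs (fun j => by
    rw [show el x g = 0 from hg, zero_mul, map_zero])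
  rw [this]; rfl

/-- index of the variables different from s, t -/
def em2 : Fin 2 ⊕ (Bool × Fin h × Fin 5) → Ix h
  | Sum.inl 0 => Sum.inl 2
  | Sum.inl 1 => Sum.inl 3
  | Sum.inr z => Sum.inr z

theorem em2_inj : Function.Injective (em2 (h := h)) := by
  intro a b hab
  rcases a with a | a <;> rcases b with b | b
  · fin_cases a <;> fin_cases b <;> simp_all [em2]
  · fin_cases a <;> simp_all [em2]
  · fin_cases b <;> simp_all [em2]
  · simpa [em2] using hab


omit [FiniteDimensional ℂ A] in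
theorem lam_pe (hx : ∀ i j k, lam (x i * x j * x k) = tri i j k) (u : Bool) (a : Fin h → ℂ)
    (i : Fin 5) (j k : Ix h) :
    lam (x j * pe x u a i * x k) = ∑ α, a α * tri j (Sum.inr (u, α, i)) k := by
  unfold pe
  rw [Finset.mul_sum, Finset.sum_mul, map_sum]
  refine Finset.sum_congr rfl fun α _ => ?_
  rw [mul_smul_comm, smul_mul_assoc, map_smul, hx, smul_eq_mul]

theorem tri_shift (u : Bool) (α : Fin h) (i j : Fin 5) (hij : j.val = i.val + 1) (k : Ix h) :
    tri (Sum.inl 1) (Sum.inr (u, α, i)) k = tri (Sum.inl 0) (Sum.inr (u, α, j)) k := by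
  rcases k with k | ⟨w, γ, k⟩ <;> simp only [tri]
  congr 1
  simp only [eq_iff_iff, Fin.val_one, Fin.val_zero]
  constructor
  · rintro ⟨h1, h2, h3, h4⟩; exact ⟨by omega, h2, h3, by omega⟩
  · rintro ⟨h1, h2, h3, h4⟩; exact ⟨by omega, h2, h3, by omega⟩

theorem tri_top (u : Bool) (α : Fin h) (k : Ix h) :
    tri (Sum.inl 1) (Sum.inr (u, α, 4)) k = 0 := by
  rcases k with k | ⟨w, γ, k⟩ <;> simp only [tri]
  rw [if_neg]
  rintro ⟨h1, h2, h3, h4⟩
  have : ((4 : Fin 5).val) = 4 := rfl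
  have : ((1 : Fin 4).val) = 1 := rfl
  omega

theorem tri_q0 (β α : Fin h) (i : Fin 5) (hi : i.val ≤ 2) (k : Ix h) :
    tri (Sum.inr (true, β, 0)) (Sum.inr (false, α, i)) k = 0 := by
  rcases k with k | ⟨w, γ, k⟩ <;> simp only [tri]
  rw [if_neg]
  rintro ⟨h1, h2, h3, h4⟩
  have : ((0 : Fin 5).val) = 0 := rfl
  omega

omit [FiniteDimensional ℂ A] in
theorem lam_one (hx : ∀ i j k, lam (x i * x j * x k) = tri i j k) (c : Ix h → ℂ)
    (hc : el x c = 1) (z : Bool × Fin h × Fin 5) (m : Fin 2 ⊕ (Bool × Fin h × Fin 5)) :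
    lam (x (Sum.inr z) * x (em2 m)) = c (Sum.inl 0) * tri (Sum.inl 0) (Sum.inr z) (em2 m)
      + c (Sum.inl 1) * tri (Sum.inl 1) (Sum.inr z) (em2 m) := by
  have h1 : x (Sum.inr z) * x (em2 m) = ∑ k, c k • (x (Sum.inr z) * x (em2 m) * x k) := by
    have : x (Sum.inr z) * x (em2 m) = x (Sum.inr z) * x (em2 m) * el x c := by rw [hc, mul_one]
    conv_lhs => rw [this]
    conv_lhs => rw [show el x c = ∑ k, c k • x k from rfl]
    rw [Finset.mul_sum]
    refine Finset.sum_congr rfl fun k _ => ?_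
    rw [mul_smul_comm]
  rw [h1, map_sum]
  simp only [map_smul, hx, smul_eq_mul]
  rw [Fintype.sum_sum_type, Fin.sum_univ_four]
  rcases m with m | m
  · fin_cases m <;> simp [em2, tri]
  · simp [em2, tri]

omit [FiniteDimensional ℂ A] in
theorem lam_y (hx : ∀ i j k, lam (x i * x j * x k) = tri i j k) (c : Ix h → ℂ)
    (hc : el x c = 1) (u : Bool) (a : Fin h → ℂ) (i : Fin 5)
    (m : Fin 2 ⊕ (Bool × Fin h × Fin 5)) :
    lam ((1 - c (Sum.inl 0) • x (Sum.inl 0) - c (Sum.inl 1) • x (Sum.inl 1)) * pe x u a i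
      * x (em2 m)) = 0 := by
  have e : (1 - c (Sum.inl 0) • x (Sum.inl 0) - c (Sum.inl 1) • x (Sum.inl 1)) * pe x u a i
      * x (em2 m) = (∑ α, a α • (x (Sum.inr (u, α, i)) * x (em2 m)))
        - c (Sum.inl 0) • (x (Sum.inl 0) * pe x u a i * x (em2 m))
        - c (Sum.inl 1) • (x (Sum.inl 1) * pe x u a i * x (em2 m)) := by
    have e1 : (∑ α, a α • (x (Sum.inr (u, α, i)) * x (em2 m))) = pe x u a i * x (em2 m) := by
      unfold pe; rw [Finset.sum_mul]
      exact Finset.sum_congr rfl fun α _ => by rw [smul_mul_assoc]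
    rw [e1]
    simp only [Algebra.smul_def]
    ring
  rw [e, map_sub, map_sub, map_sum, map_smul, map_smul, lam_pe lam x hx, lam_pe lam x hx]
  simp only [map_smul, lam_one lam x hx c hc, smul_eq_mul, mul_add, Finset.mul_sum,
    Finset.sum_add_distrib]
  rw [sub_sub, sub_eq_zero]
  congr 1 <;> exact Finset.sum_congr rfl fun α _ => by ring

end Pool.Agent.Helper226.Apo
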