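import Mathlib
import Pool.Agent.Helper226.ApoCore2
set_option autoImplicit false
namespace Pool.Agent.Helper226.Apo

variable {h : ℕ} {A : Type} [CommRing A] [Algebra ℂ A] [FiniteDimensional ℂ A]
variable (lam : A →ₗ[ℂ] ℂ) (x : Ix h → A)

/-- `pe` as a linear map in the coefficients -/
noncomputable def pl (i : Fin 5) : (Fin h → ℂ) →ₗ[ℂ] A :=
  Fintype.linearCombination ℂ (fun α => x (Sum.inr (false, α, i)))

omit [FiniteDimensional ℂ A] in
theorem pl_apply (i : Fin 5) (a : Fin h → ℂ) : pl x i a = pe x false a i := rfl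

/-- multiply a linear map by an element -/
noncomputable def ml (z : A) (f : (Fin h → ℂ) →ₗ[ℂ] A) : (Fin h → ℂ) →ₗ[ℂ] A :=
  (LinearMap.mulLeft ℂ z).comp f

omit [FiniteDimensional ℂ A] in
theorem ml_apply (z : A) (f : (Fin h → ℂ) →ₗ[ℂ] A) (a : Fin h → ℂ) : ml z f a = z * f a := rfl

/-- the family of nine linear maps -/
noncomputable def TT (c : Ix h → ℂ) (Q : A) : Fin 5 ⊕ Fin 4 → ((Fin h → ℂ) →ₗ[ℂ] A) :=
  Sum.elim
    ![ml (x (Sum.inl 1)) (pl x 0) - ml (x (Sum.inl 0)) (pl x 1),
      ml (x (Sum.inl 1)) (pl x 1) - ml (x (Sum.inl 0)) (pl x 2),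
      ml (x (Sum.inl 1)) (pl x 2) - ml (x (Sum.inl 0)) (pl x 3),
      ml (x (Sum.inl 1)) (pl x 3) - ml (x (Sum.inl 0)) (pl x 4),
      ml (x (Sum.inl 1)) (pl x 4)]
    ![ml (1 - c (Sum.inl 0) • x (Sum.inl 0) - c (Sum.inl 1) • x (Sum.inl 1)) (pl x 4),
      ml Q (pl x 0), ml Q (pl x 1), ml Q (pl x 2)]

/-- the orthogonal of the span of all variables -/
noncomputable def LP : Submodule ℂ A := (bf lam).orthogonal (Submodule.span ℂ (Set.range x))

/-- the orthogonal of the span of the variables other than `s, t` -/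
noncomputable def LP2 : Submodule ℂ A :=
  (bf lam).orthogonal (Submodule.span ℂ (Set.range (x ∘ em2)))

omit [FiniteDimensional ℂ A] in
theorem shift_mem (hx : ∀ i j k, lam (x i * x j * x k) = tri i j k) (a : Fin h → ℂ)
    (i j : Fin 5) (hij : j.val = i.val + 1) :
    x (Sum.inl 1) * pe x false a i - x (Sum.inl 0) * pe x false a j ∈ LP lam x := by
  refine mem_orth_span lam x _ fun k => ?_
  rw [sub_mul, map_sub, lam_pe lam x hx, lam_pe lam x hx, sub_eq_zero]
  exact Finset.sum_congr rfl fun α _ => by rw [tri_shift false α i j hij k]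

omit [FiniteDimensional ℂ A] in
theorem top_mem (hx : ∀ i j k, lam (x i * x j * x k) = tri i j k) (a : Fin h → ℂ) :
    x (Sum.inl 1) * pe x false a 4 ∈ LP lam x := by
  refine mem_orth_span lam x _ fun k => ?_
  rw [lam_pe lam x hx]
  exact Finset.sum_eq_zero fun α _ => by rw [tri_top, mul_zero]

omit [FiniteDimensional ℂ A] in
theorem lam_pq (hx : ∀ i j k, lam (x i * x j * x k) = tri i j k) (a b : Fin h → ℂ)
    (i : Fin 5) (hi : i.val ≤ 2) (k : Ix h) :
    lam (pe x true b 0 * pe x false a i * x k) = 0 := by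
  rw [show pe x true b 0 = ∑ β, b β • x (Sum.inr (true, β, 0)) from rfl]
  rw [Finset.sum_mul, Finset.sum_mul, map_sum]
  refine Finset.sum_eq_zero fun β _ => ?_
  rw [smul_mul_assoc, smul_mul_assoc, map_smul, lam_pe lam x hx]
  rw [Finset.sum_eq_zero, smul_zero]
  intro α _
  rw [tri_q0 β α i hi k, mul_zero]

omit [FiniteDimensional ℂ A] in
theorem pq_mem (hx : ∀ i j k, lam (x i * x j * x k) = tri i j k) (a b : Fin h → ℂ)
    (i : Fin 5) (hi : i.val ≤ 2) :
    pe x true b 0 * pe x false a i ∈ LP lam x :=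
  mem_orth_span lam x _ fun k => lam_pq lam x hx a b i hi k

omit [FiniteDimensional ℂ A] in
theorem pq_mem2 (hx : ∀ i j k, lam (x i * x j * x k) = tri i j k) (a b : Fin h → ℂ)
    (i : Fin 5) (hi : i.val ≤ 2) :
    pe x true b 0 * pe x false a i ∈ LP2 lam x :=
  mem_orth_span lam (x ∘ em2) _ fun k => lam_pq lam x hx a b i hi (em2 k)

theorem exists_good (nd : ∀ a : A, (∀ b, lam (a * b) = 0) → a = 0)
    (hx : ∀ i j k, lam (x i * x j * x k) = tri i j k) (c : Ix h → ℂ)
    (hc : el x c = 1) (hs : c (Sum.inl 0) ≠ 0) (hh : 53 < h)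
    (hfin : Module.finrank ℂ A ≤ 10 * h + 9) (b : Fin h → ℂ) :
    ∃ a : Fin h → ℂ, a ≠ 0 ∧
      x (Sum.inl 1) * pe x false a 0 = x (Sum.inl 0) * pe x false a 1 ∧
      x (Sum.inl 1) * pe x false a 1 = x (Sum.inl 0) * pe x false a 2 ∧
      x (Sum.inl 1) * pe x false a 2 = x (Sum.inl 0) * pe x false a 3 ∧
      x (Sum.inl 1) * pe x false a 3 = x (Sum.inl 0) * pe x false a 4 ∧
      x (Sum.inl 1) * pe x false a 4 = 0 ∧
      (1 - c (Sum.inl 0) • x (Sum.inl 0) - c (Sum.inl 1) • x (Sum.inl 1)) * pe x false a 4 = 0 ∧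
      pe x true b 0 * pe x false a 0 = 0 ∧
      pe x true b 0 * pe x false a 1 = 0 ∧
      pe x true b 0 * pe x false a 2 = 0 := by
  have li : LinearIndependent ℂ x := linind lam x hx c hc hs
  have li2 : LinearIndependent ℂ (x ∘ em2) := li.comp _ em2_inj
  have r1 : Module.finrank ℂ (LP lam x) ≤ 5 := by
    unfold LP
    rw [finrank_orth lam nd, finrank_span_eq_card li]
    simp only [Fintype.card_sum, Fintype.card_prod, Fintype.card_fin, Fintype.card_bool]
    omega
  have r2 : Module.finrank ℂ (LP2 lam x) ≤ 7 := by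
    unfold LP2
    rw [finrank_orth lam nd, finrank_span_eq_card li2]
    simp only [Fintype.card_sum, Fintype.card_prod, Fintype.card_fin, Fintype.card_bool]
    omega
  have hmem : ∀ i v, TT x c (pe x true b 0) i v ∈
      (Sum.elim (fun _ => LP lam x) (fun _ => LP2 lam x) : Fin 5 ⊕ Fin 4 → Submodule ℂ A) i := by
    intro i v
    rcases i with i | i
    · fin_cases i
      · exact shift_mem lam x hx v 0 1 rfl
      · exact shift_mem lam x hx v 1 2 rfl
      · exact shift_mem lam x hx v 2 3 rfl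
      · exact shift_mem lam x hx v 3 4 rfl
      · exact top_mem lam x hx v
    · fin_cases i
      · exact mem_orth_span lam (x ∘ em2) _ fun k => lam_y lam x hx c hc false v 4 k
      · exact pq_mem2 lam x hx v b 0 (by norm_num)
      · exact pq_mem2 lam x hx v b 1 (by norm_num)
      · exact pq_mem2 lam x hx v b 2 (by norm_num)
  obtain ⟨a, ha0, ha⟩ := exists_common_kernel (TT x c (pe x true b 0)) _ hmem (by
    rw [Fintype.sum_sum_type, Module.finrank_fintype_fun_eq_card, Fintype.card_fin]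
    have b1 := Finset.sum_le_card_nsmul (Finset.univ : Finset (Fin 5)) (fun i => Module.finrank ℂ
      ((Sum.elim (fun _ => LP lam x) (fun _ => LP2 lam x) : Fin 5 ⊕ Fin 4 → Submodule ℂ A)
        (Sum.inl i))) 5 (fun i _ => r1)
    have b2 := Finset.sum_le_card_nsmul (Finset.univ : Finset (Fin 4)) (fun i => Module.finrank ℂ
      ((Sum.elim (fun _ => LP lam x) (fun _ => LP2 lam x) : Fin 5 ⊕ Fin 4 → Submodule ℂ A)
        (Sum.inr i))) 7 (fun i _ => r2)
    rw [Finset.card_univ, Fintype.card_fin, smul_eq_mul] at b1 b2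
    omega)
  refine ⟨a, ha0, ?_, ?_, ?_, ?_, ?_, ?_, ?_, ?_, ?_⟩
  · exact sub_eq_zero.mp (ha (Sum.inl 0))
  · exact sub_eq_zero.mp (ha (Sum.inl 1))
  · exact sub_eq_zero.mp (ha (Sum.inl 2))
  · exact sub_eq_zero.mp (ha (Sum.inl 3))
  · exact ha (Sum.inl 4)
  · exact ha (Sum.inr 0)
  · exact ha (Sum.inr 1)
  · exact ha (Sum.inr 2)
  · exact ha (Sum.inr 3)


omit [FiniteDimensional ℂ A] in
theorem w_li (s t w0 w1 w2 w3 w4 : A) (cs : ℂ) (h1 : t * w0 = s * w1)
    (h2 : t * w1 = s * w2) (h3 : t * w2 = s * w3) (h4 : t * w3 = s * w4) (h5 : t * w4 = 0)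
    (h6 : algebraMap ℂ A cs * (s * w4) = w4) (hw4 : w4 ≠ 0) :
    LinearIndependent ℂ ![w0, w1, w2] := by
  have e2 : t ^ 2 * w2 = s ^ 2 * w4 := by linear_combination t * h3 + s * h4
  have e1 : t ^ 3 * w1 = s ^ 3 * w4 := by
    linear_combination t ^ 2 * h2 + s * t * h3 + s ^ 2 * h4
  have e0 : t ^ 4 * w0 = s ^ 4 * w4 := by
    linear_combination t ^ 3 * h1 + s * t ^ 2 * h2 + s ^ 2 * t * h3 + s ^ 3 * h4
  set κ := algebraMap ℂ A cs with hκ
  have k2 : κ ^ 2 * s ^ 2 * w4 = w4 := by linear_combination (κ * s + 1) * h6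
  have k3 : κ ^ 3 * s ^ 3 * w4 = w4 := by
    linear_combination (κ ^ 2 * s ^ 2 + κ * s + 1) * h6
  have k4 : κ ^ 4 * s ^ 4 * w4 = w4 := by
    linear_combination (κ ^ 3 * s ^ 3 + κ ^ 2 * s ^ 2 + κ * s + 1) * h6
  rw [Fintype.linearIndependent_iff]
  intro g hg
  rw [Fin.sum_univ_three] at hg
  replace hg : g 0 • w0 + g 1 • w1 + g 2 • w2 = 0 := hg
  simp only [Algebra.smul_def] at hg
  have g0 : g 0 = 0 := by
    have : g 0 • w4 = 0 := by
      rw [Algebra.smul_def]
      linear_combination κ ^ 4 * t ^ 4 * hg - algebraMap ℂ A (g 0) * κ ^ 4 * e0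
        - algebraMap ℂ A (g 0) * k4 - algebraMap ℂ A (g 1) * κ ^ 4 * t * e1
        - algebraMap ℂ A (g 1) * κ ^ 4 * s ^ 3 * h5
        - algebraMap ℂ A (g 2) * κ ^ 4 * t ^ 2 * e2
        - algebraMap ℂ A (g 2) * κ ^ 4 * t * s ^ 2 * h5
    exact (smul_eq_zero.mp this).resolve_right hw4
  rw [g0, map_zero, zero_mul, zero_add] at hg
  have g1 : g 1 = 0 := by
    have : g 1 • w4 = 0 := by
      rw [Algebra.smul_def]
      linear_combination κ ^ 3 * t ^ 3 * hg - algebraMap ℂ A (g 1) * κ ^ 3 * e1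
        - algebraMap ℂ A (g 1) * k3
        - algebraMap ℂ A (g 2) * κ ^ 3 * t * e2
        - algebraMap ℂ A (g 2) * κ ^ 3 * s ^ 2 * h5
    exact (smul_eq_zero.mp this).resolve_right hw4
  rw [g1, map_zero, zero_mul, zero_add] at hg
  have g2 : g 2 = 0 := by
    have : g 2 • w4 = 0 := by
      rw [Algebra.smul_def]
      linear_combination κ ^ 2 * t ^ 2 * hg - algebraMap ℂ A (g 2) * κ ^ 2 * e2
        - algebraMap ℂ A (g 2) * k2
    exact (smul_eq_zero.mp this).resolve_right hw4
  intro i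
  fin_cases i
  · exact g0
  · exact g1
  · exact g2

omit [FiniteDimensional ℂ A] in
theorem lam_top (hx : ∀ i j k, lam (x i * x j * x k) = tri i j k) (a b : Fin h → ℂ)
    (hab : ∑ α, a α * b α = 1) :
    lam (x (Sum.inl 0) * (pe x false a 4 * pe x true b 0)) = 1 := by
  rw [← mul_assoc, show pe x true b 0 = ∑ β, b β • x (Sum.inr (true, β, 0)) from rfl]
  rw [Finset.mul_sum, map_sum]
  rw [← hab]
  refine Finset.sum_congr rfl fun β _ => ?_
  rw [mul_smul_comm, map_smul, lam_pe lam x hx]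
  rw [Finset.sum_eq_single β]
  · simp [tri, mul_comm]
  · intro α _ hα
    simp [tri, hα]
  · simp

theorem exists_dual (a : Fin h → ℂ) (ha : a ≠ 0) : ∃ b : Fin h → ℂ, ∑ α, a α * b α = 1 := by
  obtain ⟨α, hα⟩ := Function.ne_iff.mp ha
  have hα' : a α ≠ 0 := hα
  refine ⟨Pi.single α (a α)⁻¹, ?_⟩
  rw [Finset.sum_eq_single α]
  · rw [Pi.single_eq_same, mul_inv_cancel₀ hα']
  · intro β _ hβ
    rw [Pi.single_eq_of_ne hβ, mul_zero]
  · simp

omit [FiniteDimensional ℂ A] in
theorem ww_li (hx : ∀ i j k, lam (x i * x j * x k) = tri i j k) (c : Ix h → ℂ)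
    (a b : Fin h → ℂ) (hab : ∑ α, a α * b α = 1)
    (h0 : x (Sum.inl 1) * pe x false a 0 = x (Sum.inl 0) * pe x false a 1)
    (h1 : x (Sum.inl 1) * pe x false a 1 = x (Sum.inl 0) * pe x false a 2)
    (h2 : x (Sum.inl 1) * pe x false a 2 = x (Sum.inl 0) * pe x false a 3)
    (h3 : x (Sum.inl 1) * pe x false a 3 = x (Sum.inl 0) * pe x false a 4)
    (h4 : x (Sum.inl 1) * pe x false a 4 = 0)
    (h5 : (1 - c (Sum.inl 0) • x (Sum.inl 0) - c (Sum.inl 1) • x (Sum.inl 1)) *
      pe x false a 4 = 0) :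
    LinearIndependent ℂ ![pe x false a 0 * pe x true b 0, pe x false a 1 * pe x true b 0,
      pe x false a 2 * pe x true b 0] := by
  have top := lam_top lam x hx a b hab
  refine w_li (x (Sum.inl 0)) (x (Sum.inl 1)) _ _ _ (pe x false a 3 * pe x true b 0)
    (pe x false a 4 * pe x true b 0) (c (Sum.inl 0)) ?_ ?_ ?_ ?_ ?_ ?_ ?_
  · linear_combination (pe x true b 0) * h0
  · linear_combination (pe x true b 0) * h1
  · linear_combination (pe x true b 0) * h2
  · linear_combination (pe x true b 0) * h3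
  · linear_combination (pe x true b 0) * h4
  · simp only [Algebra.smul_def] at h5
    linear_combination (-(pe x true b 0)) * h5 - (pe x true b 0) * algebraMap ℂ A (c (Sum.inl 1)) * h4
  · intro h6
    rw [h6, mul_zero, map_zero] at top
    exact zero_ne_one top


theorem core (nd : ∀ a : A, (∀ b, lam (a * b) = 0) → a = 0)
    (hx : ∀ i j k, lam (x i * x j * x k) = tri i j k) (c : Ix h → ℂ)
    (hc : el x c = 1) (hs : c (Sum.inl 0) ≠ 0) (hh : 53 < h) :
    10 * h + 10 ≤ Module.finrank ℂ A := by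
  by_contra hcon
  have hfin : Module.finrank ℂ A ≤ 10 * h + 9 := by omega
  obtain ⟨a, ha, a0, a1, a2, a3, a4, a5, -, -, -⟩ := exists_good lam x nd hx c hc hs hh hfin 0
  obtain ⟨b, hab⟩ := exists_dual a ha
  obtain ⟨a', ha', a0', a1', a2', a3', a4', a5', b0, b1, b2⟩ :=
    exists_good lam x nd hx c hc hs hh hfin b
  obtain ⟨b', hab'⟩ := exists_dual a' ha'
  have lw := ww_li lam x hx c a b hab a0 a1 a2 a3 a4 a5
  have lw' := ww_li lam x hx c a' b' hab' a0' a1' a2' a3' a4' a5'
  have li : LinearIndependent ℂ x := linind lam x hx c hc hs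
  set w : Fin 3 → A := ![pe x false a 0 * pe x true b 0, pe x false a 1 * pe x true b 0,
      pe x false a 2 * pe x true b 0] with hw
  set w' : Fin 3 → A := ![pe x false a' 0 * pe x true b' 0, pe x false a' 1 * pe x true b' 0,
      pe x false a' 2 * pe x true b' 0] with hw'
  have hwm : ∀ i, w i ∈ LP lam x := by
    intro i
    fin_cases i
    · have := pq_mem lam x hx a b 0 (by norm_num)
      rwa [mul_comm] at this
    · have := pq_mem lam x hx a b 1 (by norm_num)
      rwa [mul_comm] at this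
    · have := pq_mem lam x hx a b 2 (by norm_num)
      rwa [mul_comm] at this
  have hwm' : ∀ i, w' i ∈ LP lam x := by
    intro i
    fin_cases i
    · have := pq_mem lam x hx a' b' 0 (by norm_num)
      rwa [mul_comm] at this
    · have := pq_mem lam x hx a' b' 1 (by norm_num)
      rwa [mul_comm] at this
    · have := pq_mem lam x hx a' b' 2 (by norm_num)
      rwa [mul_comm] at this
  have hww : ∀ i j, w i * w' j = 0 := by
    intro i j
    have key : ∀ j, pe x true b 0 * w' j = 0 := by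
      intro j
      fin_cases j
      · change pe x true b 0 * (pe x false a' 0 * pe x true b' 0) = 0
        linear_combination (pe x true b' 0) * b0
      · change pe x true b 0 * (pe x false a' 1 * pe x true b' 0) = 0
        linear_combination (pe x true b' 0) * b1
      · change pe x true b 0 * (pe x false a' 2 * pe x true b' 0) = 0
        linear_combination (pe x true b' 0) * b2
    fin_cases i
    · change pe x false a 0 * pe x true b 0 * w' j = 0
      rw [mul_assoc, key, mul_zero]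
    · change pe x false a 1 * pe x true b 0 * w' j = 0
      rw [mul_assoc, key, mul_zero]
    · change pe x false a 2 * pe x true b 0 * w' j = 0
      rw [mul_assoc, key, mul_zero]
  let L := Submodule.span ℂ (Set.range x)
  let W := Submodule.span ℂ (Set.range w)
  let W' := Submodule.span ℂ (Set.range w')
  have fL : Module.finrank ℂ L = 10 * h + 4 := by
    rw [finrank_span_eq_card li]
    simp only [Fintype.card_sum, Fintype.card_prod, Fintype.card_fin, Fintype.card_bool]
    omega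
  have fW : Module.finrank ℂ W = 3 := by
    rw [finrank_span_eq_card lw, Fintype.card_fin]
  have fW' : Module.finrank ℂ W' = 3 := by
    rw [finrank_span_eq_card lw', Fintype.card_fin]
  have hWle : W ≤ LP lam x := Submodule.span_le.mpr (by rintro _ ⟨i, rfl⟩; exact hwm i)
  have hWle' : W' ≤ LP lam x := Submodule.span_le.mpr (by rintro _ ⟨i, rfl⟩; exact hwm' i)
  have hinf : L ⊓ W = ⊥ := by
    rw [eq_bot_iff]
    intro y hy
    obtain ⟨hy1, hy2⟩ := Submodule.mem_inf.mp hy
    obtain ⟨d, hd⟩ := (Submodule.mem_span_range_iff_exists_fun ℂ).mp hy1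
    have hy3 := hWle hy2
    have hd0 : d = 0 := rad lam x hx c d hc hs (fun j => by
      rw [show el x d = y from hd, mul_comm]
      exact (LinearMap.BilinForm.mem_orthogonal_iff.mp hy3) (x j)
        (Submodule.subset_span ⟨j, rfl⟩))
    rw [Submodule.mem_bot, ← hd, hd0]
    simp
  have fsup : Module.finrank ℂ (L ⊔ W : Submodule ℂ A) = 10 * h + 7 := by
    have := Submodule.finrank_sup_add_finrank_inf_eq L W
    rw [hinf, finrank_bot, fL, fW] at this
    omega
  have horth : W' ≤ (bf lam).orthogonal (L ⊔ W) := by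
    intro y hy
    rw [LinearMap.BilinForm.mem_orthogonal_iff]
    intro n hn
    obtain ⟨l, hl, v, hv, rfl⟩ := Submodule.mem_sup.mp hn
    have h1 : lam (l * y) = 0 := (LinearMap.BilinForm.mem_orthogonal_iff.mp (hWle' hy)) l hl
    have h2 : v * y = 0 := by
      have h3 : ∀ j, v * w' j = 0 := by
        intro j
        refine Submodule.span_induction (p := fun v _ => v * w' j = 0) ?_ ?_ ?_ ?_ hv
        · rintro _ ⟨i, rfl⟩; exact hww i j
        · rw [zero_mul]
        · intro p q _ _ hp hq; rw [add_mul, hp, hq, add_zero]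
        · intro r p _ hp; rw [smul_mul_assoc, hp, smul_zero]
      refine Submodule.span_induction (p := fun y _ => v * y = 0) ?_ ?_ ?_ ?_ hy
      · rintro _ ⟨i, rfl⟩; exact h3 i
      · rw [mul_zero]
      · intro p q _ _ hp hq; rw [mul_add, hp, hq, add_zero]
      · intro r p _ hp; rw [mul_smul_comm, hp, smul_zero]
    change lam ((l + v) * y) = 0
    rw [add_mul, map_add, h1, h2, map_zero, add_zero]
  have hfle := Submodule.finrank_mono horth
  rw [fW', finrank_orth lam nd, fsup] at hfle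
  omega

end Pool.Agent.Helper226.Apo
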