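import Mathlib
set_option autoImplicit false
open MvPolynomial
namespace Pool.Agent.Helper226.Apo

variable {σ : Type} [Fintype σ]

/-- linear form with coefficients `c` -/
noncomputable def lf (c : σ → ℂ) : MvPolynomial σ ℂ := ∑ i, c i • (X i : MvPolynomial σ ℂ)

theorem lf_add (c d : σ → ℂ) : lf (c + d) = lf c + lf d := by
  simp [lf, add_smul, Finset.sum_add_distrib]

theorem lf_smul (a : ℂ) (c : σ → ℂ) : lf (a • c) = a • lf c := by
  simp [lf, Finset.smul_sum, smul_smul]

theorem lf_zero : lf (0 : σ → ℂ) = 0 := by simp [lf]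

theorem lf_hom (c : σ → ℂ) : (lf c).IsHomogeneous 1 := by
  unfold lf
  refine IsHomogeneous.sum _ _ _ fun i _ => ?_
  rw [smul_eq_C_mul]
  simpa using (isHomogeneous_C σ (c i)).mul (isHomogeneous_X ℂ i)

theorem lf_single [DecidableEq σ] (i : σ) : lf (Pi.single i (1 : ℂ)) = X i := by
  unfold lf
  rw [Finset.sum_eq_single i]
  · simp
  · intro j _ hj; rw [Pi.single_eq_of_ne hj, zero_smul]
  · simp

theorem lf_ne_zero (c : σ → ℂ) (i : σ) (hc : c i ≠ 0) : lf c ≠ 0 := by
  classical
  intro h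
  have := congrArg (coeff (Finsupp.single i 1)) h
  rw [coeff_zero] at this
  apply hc
  rw [← this]
  unfold lf
  rw [coeff_sum, Finset.sum_eq_single i]
  · simp
  · intro j _ hj
    rw [coeff_smul, coeff_X, if_neg, smul_zero]
    intro h
    exact hj (Finsupp.single_left_injective one_ne_zero h)
  · simp

/-- choose a linear form which is a nonzerodivisor modulo `J` -/
theorem exists_nzd (J : Ideal (MvPolynomial σ ℂ)) (i0 : σ)
    (hsat : ∀ g : MvPolynomial σ ℂ, (∀ i, X i * g ∈ J) → g ∈ J) :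
    ∃ c : σ → ℂ, c i0 ≠ 0 ∧ ∀ g, lf c * g ∈ J → g ∈ J := by
  classical
  have hfin : (associatedPrimes (MvPolynomial σ ℂ) (MvPolynomial σ ℂ ⧸ J)).Finite :=
    associatedPrimes.finite _ _
  let V : Ideal (MvPolynomial σ ℂ) → Submodule ℂ (σ → ℂ) := fun P =>
    { carrier := {c | lf c ∈ P}
      add_mem' := fun {a b} ha hb => by
        change lf (a + b) ∈ P
        rw [lf_add]; exact P.add_mem ha hb
      zero_mem' := by change lf 0 ∈ P; rw [lf_zero]; exact P.zero_mem
      smul_mem' := fun r a ha => by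
        change lf (r • a) ∈ P
        rw [lf_smul, smul_eq_C_mul]; exact P.mul_mem_left _ ha }
  let V0 : Submodule ℂ (σ → ℂ) := LinearMap.ker (LinearMap.proj (R := ℂ) (φ := fun _ : σ => ℂ) i0)
  let S : Finset (Submodule ℂ (σ → ℂ)) := insert V0 (hfin.toFinset.image V)
  have hS : ⊤ ∉ S := by
    intro hmem
    rcases Finset.mem_insert.mp hmem with h0 | h1
    · have h2 : (Pi.single i0 1 : σ → ℂ) ∈ V0 := by rw [← h0]; trivial
      have h3 : (Pi.single i0 1 : σ → ℂ) i0 = 0 := h2
      rw [Pi.single_eq_same] at h3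
      exact one_ne_zero h3
    · obtain ⟨P, hP, hPV⟩ := Finset.mem_image.mp h1
      rw [Set.Finite.mem_toFinset] at hP
      have hX : ∀ i, (X i : MvPolynomial σ ℂ) ∈ P := by
        intro i
        have h2 : (Pi.single i 1 : σ → ℂ) ∈ V P := by rw [hPV]; trivial
        have h3 : lf (Pi.single i (1 : ℂ)) ∈ P := h2
        rwa [lf_single] at h3
      rw [AssociatedPrimes.mem_iff, isAssociatedPrime_iff] at hP
      obtain ⟨hprime, y, hy⟩ := hP
      obtain ⟨g, rfl⟩ := Ideal.Quotient.mk_surjective y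
      have hg : ∀ r : MvPolynomial σ ℂ, r ∈ P → r * g ∈ J := by
        intro r hr
        rw [hy, Submodule.mem_colon_singleton] at hr
        have h4 : r • (Ideal.Quotient.mk J g) = 0 := hr
        have h5 : Ideal.Quotient.mk J (r * g) = 0 := h4
        exact Ideal.Quotient.eq_zero_iff_mem.mp h5
      have hgJ : g ∈ J := hsat g fun i => hg _ (hX i)
      apply hprime.ne_top
      rw [hy, Ideal.eq_top_iff_one, Submodule.mem_colon_singleton]
      rw [Ideal.Quotient.eq_zero_iff_mem.mpr hgJ, smul_zero]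
      exact Submodule.zero_mem _
  have hne := Subspace.biUnion_ne_univ_of_top_notMem hS
  obtain ⟨c, hc⟩ := (Set.ne_univ_iff_exists_notMem _).mp hne
  have hc' : ∀ W ∈ S, c ∉ W := by
    intro W hW hcW
    exact hc (Set.mem_biUnion hW hcW)
  refine ⟨c, ?_, ?_⟩
  · intro h0
    exact hc' V0 (Finset.mem_insert_self _ _) h0
  · intro g hg
    by_contra hgJ
    have hz : lf c ∈ { r : MvPolynomial σ ℂ | ∃ x : MvPolynomial σ ℂ ⧸ J, x ≠ 0 ∧ r • x = 0 } := by
      refine ⟨Ideal.Quotient.mk J g, ?_, ?_⟩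
      · intro h; exact hgJ (Ideal.Quotient.eq_zero_iff_mem.mp h)
      · change Ideal.Quotient.mk J (lf c * g) = 0
        exact Ideal.Quotient.eq_zero_iff_mem.mpr hg
    rw [← biUnion_associatedPrimes_eq_zero_divisors] at hz
    obtain ⟨P, hP, hcP⟩ := Set.mem_iUnion₂.mp hz
    exact hc' (V P) (Finset.mem_insert_of_mem (Finset.mem_image.mpr
      ⟨P, hfin.mem_toFinset.mpr hP, rfl⟩)) hcP

end Pool.Agent.Helper226.Apo
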