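import Mathlib
import Pool.Agent.Helper226.ApoDehom1
set_option autoImplicit false
open MvPolynomial
namespace Pool.Agent.Helper226.Apo

section lin
variable {V W : Type} [AddCommGroup V] [Module ℂ V] [AddCommGroup W] [Module ℂ W]

theorem exists_functional (f : V →ₗ[ℂ] W) (φ : V →ₗ[ℂ] ℂ) (h : ∀ v, f v = 0 → φ v = 0) :
    ∃ ψ : W →ₗ[ℂ] ℂ, ∀ v, ψ (f v) = φ v := by
  have h1 : φ ∈ LinearMap.range f.dualMap := by
    rw [LinearMap.range_dualMap_eq_dualAnnihilator_ker, Submodule.mem_dualAnnihilator]
    exact fun w hw => h w hw
  obtain ⟨ψ, hψ⟩ := h1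
  exact ⟨ψ, fun v => LinearMap.congr_fun hψ v⟩

end lin

variable {σ : Type}

theorem hc_mul (l g : MvPolynomial σ ℂ) (hl : l.IsHomogeneous 1) (n : ℕ) :
    homogeneousComponent (n + 1) (l * g) = l * homogeneousComponent n g := by
  induction g using MvPolynomial.induction_on' with
  | monomial d a =>
    rw [homogeneousComponent_of_mem (isHomogeneous_monomial a rfl),
      homogeneousComponent_of_mem (hl.mul (isHomogeneous_monomial a rfl))]
    by_cases h : n = d.degree
    · rw [if_pos h, if_pos (by omega)]
    · rw [if_neg h, if_neg (by omega), mul_zero]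
  | add p q hp hq => rw [mul_add, map_add, hp, hq, map_add, mul_add]

theorem hc_mul_zero (l g : MvPolynomial σ ℂ) (hl : l.IsHomogeneous 1) :
    homogeneousComponent 0 (l * g) = 0 := by
  induction g using MvPolynomial.induction_on' with
  | monomial d a =>
    rw [homogeneousComponent_of_mem (hl.mul (isHomogeneous_monomial a rfl)), if_neg (by omega)]
  | add p q hp hq => rw [mul_add, map_add, hp, hq, add_zero]

theorem mem_of_mem_dehom (J : Ideal (MvPolynomial σ ℂ))
    (hJ : ∀ g ∈ J, ∀ t : ℕ, homogeneousComponent t g ∈ J)
    (l : MvPolynomial σ ℂ) (hl : l.IsHomogeneous 1) (hnz : ∀ g, l * g ∈ J → g ∈ J)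
    (k : ℕ) (F : MvPolynomial σ ℂ) (hF : F.IsHomogeneous k)
    (hm : F ∈ J ⊔ Ideal.span {l - 1}) : F ∈ J := by
  obtain ⟨q, hq, y, hy, hqy⟩ := Submodule.mem_sup.mp hm
  obtain ⟨g, rfl⟩ := Ideal.mem_span_singleton'.mp hy
  have key : ∀ n, homogeneousComponent n F + homogeneousComponent n g
      - homogeneousComponent n (l * g) ∈ J := by
    intro n
    have h1 := hJ q hq n
    have h2 : q = F + g - l * g := by rw [← hqy]; ring
    rwa [h2, map_sub, map_add] at h1
  have hFn : ∀ n, n ≠ k → homogeneousComponent n F = 0 := by
    intro n hn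
    rw [homogeneousComponent_of_mem hF, if_neg hn]
  have up : ∀ n, n < k → homogeneousComponent n g ∈ J := by
    intro n
    induction n with
    | zero =>
      intro h0
      have := key 0
      rwa [hFn 0 (by omega), hc_mul_zero l g hl, zero_add, sub_zero] at this
    | succ n ih =>
      intro h0
      have := key (n + 1)
      rw [hFn (n + 1) (by omega), hc_mul l g hl, zero_add] at this
      have h2 := J.add_mem this (J.mul_mem_left l (ih (by omega)))
      rwa [sub_add_cancel] at h2
  have down : ∀ m n, k ≤ n → g.totalDegree < n + m → homogeneousComponent n g ∈ J := by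
    intro m
    induction m with
    | zero =>
      intro n _ h0
      rw [homogeneousComponent_eq_zero n g (by omega)]
      exact J.zero_mem
    | succ m ih =>
      intro n hn h0
      have h1 := ih (n + 1) (by omega) (by omega)
      have := key (n + 1)
      rw [hFn (n + 1) (by omega), hc_mul l g hl, zero_add] at this
      apply hnz
      have h2 := J.sub_mem h1 this
      rwa [sub_sub_cancel] at h2
  have hk : homogeneousComponent k g ∈ J := down (g.totalDegree + 1) k le_rfl (by omega)
  have hFk : homogeneousComponent k F = F := homogeneousComponent_eq_self hF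
  have hlast := key k
  rw [hFk] at hlast
  have hlk : homogeneousComponent k (l * g) ∈ J := by
    rcases k with _ | k
    · rw [hc_mul_zero l g hl]; exact J.zero_mem
    · rw [hc_mul l g hl]; exact J.mul_mem_left _ (up k (by omega))
  have h3 := J.add_mem (J.sub_mem hlast hk) hlk
  have h4 : F + homogeneousComponent k g - homogeneousComponent k (l * g)
    - homogeneousComponent k g + homogeneousComponent k (l * g) = F := by ring
  rwa [h4] at h3

end Pool.Agent.Helper226.Apo
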