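import Mathlib
import Pool.Agent.Helper226.ApoDehom2
set_option autoImplicit false
open MvPolynomial
namespace Pool.Agent.Helper226.Apo

variable {σ : Type} [Fintype σ]

/-- dimension of degree `t` part -/
noncomputable abbrev HS (σ : Type) (t : ℕ) : Submodule ℂ (MvPolynomial σ ℂ) :=
  homogeneousSubmodule σ ℂ t

/-- the degree `t` part of the ideal -/
noncomputable abbrev JS (J : Ideal (MvPolynomial σ ℂ)) (t : ℕ) : Submodule ℂ (MvPolynomial σ ℂ) :=
  Submodule.restrictScalars ℂ J ⊓ homogeneousSubmodule σ ℂ t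

instance fdHS (t : ℕ) : FiniteDimensional ℂ (HS σ t) :=
  Module.Finite.iff_fg.mpr (homogeneousSubmodule_fg σ ℂ t)

instance fdJS (J : Ideal (MvPolynomial σ ℂ)) (t : ℕ) : FiniteDimensional ℂ (JS J t) :=
  Submodule.finiteDimensional_inf_right _ _

theorem split (J : Ideal (MvPolynomial σ ℂ)) (c : σ → ℂ) (i0 : σ) (hc : c i0 ≠ 0)
    (hnz : ∀ g, lf c * g ∈ J → g ∈ J) (r t : ℕ)
    (h1 : Module.finrank ℂ (HS σ t) - Module.finrank ℂ (JS J t) = r)
    (h2 : Module.finrank ℂ (HS σ (t + 1)) - Module.finrank ℂ (JS J (t + 1)) = r) :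
    (HS σ t).map (LinearMap.mulLeft ℂ (lf c)) ⊔ JS J (t + 1) = HS σ (t + 1) := by
  have hinj : Function.Injective (LinearMap.mulLeft ℂ (lf c)) := by
    intro a b hab
    exact mul_left_cancel₀ (lf_ne_zero c i0 hc) hab
  have hmul : ∀ g : MvPolynomial σ ℂ, g.IsHomogeneous t → (lf c * g).IsHomogeneous (t + 1) := by
    intro g hg
    have := (lf_hom c).mul hg
    rwa [add_comm] at this
  have hle1 : (HS σ t).map (LinearMap.mulLeft ℂ (lf c)) ≤ HS σ (t + 1) := by
    rintro _ ⟨g, hg, rfl⟩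
    exact hmul g hg
  have hle2 : JS J (t + 1) ≤ HS σ (t + 1) := inf_le_right
  have hle3 : JS J t ≤ HS σ t := inf_le_right
  have hle : (HS σ t).map (LinearMap.mulLeft ℂ (lf c)) ⊔ JS J (t + 1) ≤ HS σ (t + 1) :=
    sup_le hle1 hle2
  have hinf : (HS σ t).map (LinearMap.mulLeft ℂ (lf c)) ⊓ JS J (t + 1) =
      (JS J t).map (LinearMap.mulLeft ℂ (lf c)) := by
    apply le_antisymm
    · rintro _ ⟨⟨g, hg, rfl⟩, hgJ⟩
      exact ⟨g, ⟨hnz g hgJ.1, hg⟩, rfl⟩
    · rintro _ ⟨g, hg, rfl⟩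
      exact ⟨⟨g, hg.2, rfl⟩, ⟨J.mul_mem_left _ hg.1, hmul g hg.2⟩⟩
  have f1 : Module.finrank ℂ ((HS σ t).map (LinearMap.mulLeft ℂ (lf c))) =
      Module.finrank ℂ (HS σ t) :=
    (Submodule.equivMapOfInjective _ hinj _).finrank_eq.symm
  have f2 : Module.finrank ℂ ((JS J t).map (LinearMap.mulLeft ℂ (lf c))) =
      Module.finrank ℂ (JS J t) :=
    (Submodule.equivMapOfInjective _ hinj _).finrank_eq.symm
  have f3 := Submodule.finrank_sup_add_finrank_inf_eq
    ((HS σ t).map (LinearMap.mulLeft ℂ (lf c))) (JS J (t + 1))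
  rw [hinf, f1, f2] at f3
  have g1 := Submodule.finrank_mono hle3
  have g2 := Submodule.finrank_mono hle2
  have g3 := Submodule.finrank_mono hle
  refine Submodule.eq_of_le_of_finrank_eq hle ?_
  omega


theorem dehom (J : Ideal (MvPolynomial σ ℂ)) (i0 : σ)
    (hJ : ∀ g ∈ J, ∀ t : ℕ, homogeneousComponent t g ∈ J)
    (hsat : ∀ g : MvPolynomial σ ℂ, (∀ i, X i * g ∈ J) → g ∈ J) (r t₀ : ℕ)
    (hr : ∀ t ≥ t₀, Module.finrank ℂ (HS σ t) - Module.finrank ℂ (JS J t) = r)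
    (Λ : MvPolynomial σ ℂ →ₗ[ℂ] ℂ) (hΛ : ∀ g ∈ J, g.IsHomogeneous 3 → Λ g = 0) :
    ∃ (B : Type) (_ : CommRing B) (_ : Algebra ℂ B) (_ : FiniteDimensional ℂ B)
      (lam : B →ₗ[ℂ] ℂ) (x : σ → B) (c : σ → ℂ),
      (∀ a : B, (∀ b, lam (a * b) = 0) → a = 0) ∧
      (∀ i j k, lam (x i * x j * x k) = Λ (X i * X j * X k)) ∧
      ∑ i, c i • x i = 1 ∧ c i0 ≠ 0 ∧ Module.finrank ℂ B ≤ r := by
  obtain ⟨c, hc0, hnz⟩ := exists_nzd J i0 hsat
  set l := lf c with hl
  let I' : Ideal (MvPolynomial σ ℂ) := J ⊔ Ideal.span {l - 1}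
  let π : MvPolynomial σ ℂ →ₐ[ℂ] (MvPolynomial σ ℂ ⧸ I') := Ideal.Quotient.mkₐ ℂ I'
  have hπ0 : ∀ g, π g = 0 ↔ g ∈ I' := fun g => Ideal.Quotient.eq_zero_iff_mem
  have hπs : Function.Surjective π := Ideal.Quotient.mk_surjective
  have hπl : π l = 1 := by
    have : π (l - 1) = 0 := (hπ0 _).mpr (Ideal.mem_sup_right (Ideal.subset_span rfl))
    rw [map_sub, map_one, sub_eq_zero] at this
    exact this
  have hπJ : ∀ g ∈ J, π g = 0 := fun g hg => (hπ0 _).mpr (Ideal.mem_sup_left hg)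
  let M : ℕ → Submodule ℂ (MvPolynomial σ ℂ ⧸ I') := fun t => (HS σ t).map π.toLinearMap
  have mono1 : ∀ t, M t ≤ M (t + 1) := by
    rintro t _ ⟨g, hg, rfl⟩
    refine ⟨l * g, ?_, ?_⟩
    · have := (lf_hom c).mul hg
      rwa [add_comm] at this
    · change π (l * g) = π g
      rw [map_mul, hπl, one_mul]
  have mono2 : ∀ t ≥ t₀, M (t + 1) ≤ M t := by
    rintro t ht _ ⟨g, hg, rfl⟩
    have hs := split J c i0 hc0 hnz r t (hr t ht) (hr (t + 1) (by omega))
    have hg' : g ∈ (HS σ t).map (LinearMap.mulLeft ℂ (lf c)) ⊔ JS J (t + 1) := by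
      rw [hs]; exact hg
    obtain ⟨_, ⟨g', hg'', rfl⟩, q, hq, rfl⟩ := Submodule.mem_sup.mp hg'
    refine ⟨g', hg'', ?_⟩
    change π g' = π (l * g' + q)
    rw [map_add, map_mul, hπl, one_mul, hπJ q hq.1, add_zero]
  have hmono : ∀ t s, M t ≤ M (t + s) := by
    intro t s
    induction s with
    | zero => exact le_rfl
    | succ s ih => exact ih.trans (mono1 _)
  have hback : ∀ s, M (t₀ + s) ≤ M t₀ := by
    intro s
    induction s with
    | zero => exact le_rfl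
    | succ s ih => exact (mono2 (t₀ + s) (by omega)).trans ih
  have hall : ∀ t, M t ≤ M t₀ := by
    intro t
    have := hback t
    rw [add_comm] at this
    exact (hmono t t₀).trans this
  have hmemM : ∀ b, b ∈ M t₀ := by
    intro b
    obtain ⟨g, rfl⟩ := hπs b
    rw [← sum_homogeneousComponent g, map_sum]
    refine Submodule.sum_mem _ fun i _ => hall i ⟨_, homogeneousComponent_mem i g, rfl⟩
  let φ : HS σ t₀ →ₗ[ℂ] (MvPolynomial σ ℂ ⧸ I') := π.toLinearMap.domRestrict (HS σ t₀)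
  have hφs : Function.Surjective φ := by
    intro b
    obtain ⟨g, hg, hgb⟩ := hmemM b
    exact ⟨⟨g, hg⟩, hgb⟩
  have fdB : FiniteDimensional ℂ (MvPolynomial σ ℂ ⧸ I') := Module.Finite.of_surjective φ hφs
  have hfr : Module.finrank ℂ (MvPolynomial σ ℂ ⧸ I') ≤ r := by
    have e1 := LinearMap.finrank_range_add_finrank_ker φ
    rw [LinearMap.range_eq_top.mpr hφs, finrank_top] at e1
    have e2 : Submodule.comap (HS σ t₀).subtype (JS J t₀) ≤ LinearMap.ker φ := by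
      intro g hg
      rw [LinearMap.mem_ker]
      exact hπJ _ (Submodule.mem_inf.mp (Submodule.mem_comap.mp hg)).1
    have e3 := Submodule.finrank_mono e2
    have e4 : Module.finrank ℂ (Submodule.comap (HS σ t₀).subtype (JS J t₀)) =
        Module.finrank ℂ (JS J t₀) :=
      (Submodule.comapSubtypeEquivOfLe (inf_le_right : JS J t₀ ≤ HS σ t₀)).finrank_eq
    have e5 := hr t₀ le_rfl
    omega
  -- the functional
  obtain ⟨μ, hμ⟩ := exists_functional (π.toLinearMap.domRestrict (HS σ 3)) (Λ.domRestrict (HS σ 3))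
    (by
      rintro ⟨v, hv⟩ h0
      have hv0 : π v = 0 := h0
      have hvJ : v ∈ J := mem_of_mem_dehom J hJ l (lf_hom c) hnz 3 v hv ((hπ0 v).mp hv0)
      exact hΛ v hvJ hv)
  have hμ' : ∀ v : MvPolynomial σ ℂ, v.IsHomogeneous 3 → μ (π v) = Λ v :=
    fun v hv => hμ ⟨v, hv⟩
  let N : Ideal (MvPolynomial σ ℂ ⧸ I') :=
    { carrier := {a | ∀ b, μ (a * b) = 0}
      add_mem' := fun {a b} ha hb d => by
        rw [add_mul, map_add, ha d, hb d, add_zero]
      zero_mem' := fun d => by rw [zero_mul, map_zero]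
      smul_mem' := fun e a ha d => by
        rw [smul_eq_mul, mul_comm e a, mul_assoc]; exact ha _ }
  let ρ : (MvPolynomial σ ℂ ⧸ I') →ₐ[ℂ] ((MvPolynomial σ ℂ ⧸ I') ⧸ N) := Ideal.Quotient.mkₐ ℂ N
  have hρ0 : ∀ g, ρ g = 0 ↔ g ∈ N := fun g => Ideal.Quotient.eq_zero_iff_mem
  have hρs : Function.Surjective ρ := Ideal.Quotient.mk_surjective
  obtain ⟨lam, hlam⟩ := exists_functional ρ.toLinearMap μ (by
    intro v hv
    have := (hρ0 v).mp hv 1
    rwa [mul_one] at this)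
  have hlam' : ∀ v, lam (ρ v) = μ v := hlam
  refine ⟨(MvPolynomial σ ℂ ⧸ I') ⧸ N, inferInstance, inferInstance,
    Module.Finite.of_surjective ρ.toLinearMap hρs, lam, fun i => ρ (π (X i)), c,
    ?_, ?_, ?_, hc0, ?_⟩
  · intro a ha
    obtain ⟨a, rfl⟩ := hρs a
    rw [hρ0]
    intro b
    have := ha (ρ b)
    rwa [← map_mul, hlam'] at this
  · intro i j k
    simp only [← map_mul]
    rw [hlam', hμ']
    have := ((isHomogeneous_X ℂ i).mul (isHomogeneous_X ℂ j)).mul (isHomogeneous_X ℂ k)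
    exact this
  · have : ∑ i, c i • ρ (π (X i)) = ρ (π (lf c)) := by
      unfold lf
      simp only [map_sum, map_smul]
    rw [this, ← hl, hπl, map_one]
  · refine le_trans ?_ hfr
    exact LinearMap.finrank_le_finrank_of_surjective (f := ρ.toLinearMap) hρs

end Pool.Agent.Helper226.Apo
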