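import Mathlib
import Pool.Agent.Helper226.ApoCore
set_option autoImplicit false
namespace Pool.Agent.Helper226.Apo

/-- the model algebra `R ⊕ R^h p ⊕ R^h q ⊕ R v` -/
def Md (R : Type) (h : ℕ) : Type := R × (Fin h → R) × (Fin h → R) × R

variable {R : Type} [CommRing R] {h : ℕ}

noncomputable instance : AddCommGroup (Md R h) :=
  inferInstanceAs (AddCommGroup (R × (Fin h → R) × (Fin h → R) × R))

noncomputable instance [Algebra ℂ R] : Module ℂ (Md R h) :=
  inferInstanceAs (Module ℂ (R × (Fin h → R) × (Fin h → R) × R))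

omit [CommRing R] in
theorem Md.ext' {a b : Md R h} (h1 : a.1 = b.1) (h2 : ∀ α, a.2.1 α = b.2.1 α)
    (h3 : ∀ α, a.2.2.1 α = b.2.2.1 α) (h4 : a.2.2.2 = b.2.2.2) : a = b :=
  Prod.ext h1 (Prod.ext (funext h2) (Prod.ext (funext h3) h4))

/-- multiplication -/
noncomputable def Md.mul (a b : Md R h) : Md R h :=
  (a.1 * b.1, fun α => a.1 * b.2.1 α + b.1 * a.2.1 α, fun α => a.1 * b.2.2.1 α + b.1 * a.2.2.1 α,
    a.1 * b.2.2.2 + b.1 * a.2.2.2 + ∑ α, (a.2.1 α * b.2.2.1 α + a.2.2.1 α * b.2.1 α))

noncomputable instance : Mul (Md R h) := ⟨Md.mul⟩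
noncomputable instance : One (Md R h) := ⟨(1, 0, 0, 0)⟩

theorem mul1 (a b : Md R h) : (a * b).1 = a.1 * b.1 := rfl
theorem mul2 (a b : Md R h) (α : Fin h) :
    (a * b).2.1 α = a.1 * b.2.1 α + b.1 * a.2.1 α := rfl
theorem mul3 (a b : Md R h) (α : Fin h) :
    (a * b).2.2.1 α = a.1 * b.2.2.1 α + b.1 * a.2.2.1 α := rfl
theorem mul4 (a b : Md R h) : (a * b).2.2.2 =
    a.1 * b.2.2.2 + b.1 * a.2.2.2 + ∑ α, (a.2.1 α * b.2.2.1 α + a.2.2.1 α * b.2.1 α) := rfl
theorem add1 (a b : Md R h) : (a + b).1 = a.1 + b.1 := rfl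
theorem add2 (a b : Md R h) (α : Fin h) : (a + b).2.1 α = a.2.1 α + b.2.1 α := rfl
theorem add3 (a b : Md R h) (α : Fin h) : (a + b).2.2.1 α = a.2.2.1 α + b.2.2.1 α := rfl
theorem add4 (a b : Md R h) : (a + b).2.2.2 = a.2.2.2 + b.2.2.2 := rfl
theorem zero1 : (0 : Md R h).1 = 0 := rfl
theorem zero2 (α : Fin h) : (0 : Md R h).2.1 α = 0 := rfl
theorem zero3 (α : Fin h) : (0 : Md R h).2.2.1 α = 0 := rfl
theorem zero4 : (0 : Md R h).2.2.2 = 0 := rfl
theorem one1 : (1 : Md R h).1 = 1 := rfl
theorem one2 (α : Fin h) : (1 : Md R h).2.1 α = 0 := rfl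
theorem one3 (α : Fin h) : (1 : Md R h).2.2.1 α = 0 := rfl
theorem one4 : (1 : Md R h).2.2.2 = 0 := rfl

theorem Md.mul_comm' (a b : Md R h) : a * b = b * a := by
  apply Md.ext'
  · rw [mul1, mul1, mul_comm]
  · intro α; rw [mul2, mul2, add_comm]
  · intro α; rw [mul3, mul3, add_comm]
  · rw [mul4, mul4]
    congr 1
    · ring
    · exact Finset.sum_congr rfl fun α _ => by ring

theorem Md.mul_assoc' (a b c : Md R h) : a * b * c = a * (b * c) := by
  apply Md.ext'
  · simp only [mul1]; ring
  · intro α; simp only [mul1, mul2]; ring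
  · intro α; simp only [mul1, mul3]; ring
  · simp only [mul1, mul2, mul3, mul4, mul_add, add_mul, Finset.sum_add_distrib, Finset.mul_sum,
      Finset.sum_mul]
    simp only [← add_assoc]
    simp only [mul_comm, mul_left_comm, mul_assoc]
    ring

theorem Md.left_distrib' (a b c : Md R h) : a * (b + c) = a * b + a * c := by
  apply Md.ext'
  · simp only [mul1, add1]; ring
  · intro α; simp only [mul2, add1, add2]; ring
  · intro α; simp only [mul3, add1, add3]; ring
  · simp only [add1, add2, add3, mul4, add4, mul_add, add_mul, Finset.sum_add_distrib]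
    ring

theorem Md.one_mul' (a : Md R h) : 1 * a = a := by
  apply Md.ext'
  · simp only [mul1, one1]; ring
  · intro α; simp only [mul2, one1, one2]; ring
  · intro α; simp only [mul3, one1, one3]; ring
  · simp only [mul4, one1, one2, one3, one4]
    simp

theorem Md.zero_mul' (a : Md R h) : 0 * a = 0 := by
  apply Md.ext'
  · simp only [mul1, zero1]; ring
  · intro α; simp only [mul2, zero1, zero2]; ring
  · intro α; simp only [mul3, zero1, zero3]; ring
  · simp only [mul4, zero1, zero2, zero3, zero4]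
    simp

noncomputable instance : CommRing (Md R h) :=
  { (inferInstance : AddCommGroup (Md R h)) with
    mul := (· * ·)
    one := 1
    mul_assoc := Md.mul_assoc'
    mul_comm := Md.mul_comm'
    left_distrib := Md.left_distrib'
    right_distrib := fun a b c => by
      change (a + b) * c = a * c + b * c
      rw [Md.mul_comm', Md.left_distrib', Md.mul_comm' c a, Md.mul_comm' c b]
    one_mul := Md.one_mul'
    mul_one := fun a => by
      change a * 1 = a
      rw [Md.mul_comm', Md.one_mul']
    zero_mul := Md.zero_mul'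
    mul_zero := fun a => by
      change a * 0 = 0
      rw [Md.mul_comm', Md.zero_mul'] }

theorem smul1 [Algebra ℂ R] (r : ℂ) (a : Md R h) : (r • a).1 = r • a.1 := rfl
theorem smul2 [Algebra ℂ R] (r : ℂ) (a : Md R h) (α : Fin h) : (r • a).2.1 α = r • a.2.1 α := rfl
theorem smul3 [Algebra ℂ R] (r : ℂ) (a : Md R h) (α : Fin h) :
    (r • a).2.2.1 α = r • a.2.2.1 α := rfl
theorem smul4 [Algebra ℂ R] (r : ℂ) (a : Md R h) : (r • a).2.2.2 = r • a.2.2.2 := rfl

noncomputable instance [Algebra ℂ R] : Algebra ℂ (Md R h) :=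
  Algebra.ofModule
    (by
      intro r a b
      apply Md.ext'
      · simp only [mul1, smul1, smul_mul_assoc]
      · intro α; simp only [mul2, smul1, smul2, smul_mul_assoc, mul_smul_comm, smul_add]
      · intro α; simp only [mul3, smul1, smul3, smul_mul_assoc, mul_smul_comm, smul_add]
      · simp only [mul4, smul1, smul2, smul3, smul4, smul_mul_assoc, mul_smul_comm, smul_add,
          Finset.smul_sum])
    (by
      intro r a b
      apply Md.ext'
      · simp only [mul1, smul1, mul_smul_comm]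
      · intro α; simp only [mul2, smul1, smul2, smul_mul_assoc, mul_smul_comm, smul_add]
      · intro α; simp only [mul3, smul1, smul3, smul_mul_assoc, mul_smul_comm, smul_add]
      · simp only [mul4, smul1, smul2, smul3, smul4, smul_mul_assoc, mul_smul_comm, smul_add,
          Finset.smul_sum])

noncomputable instance [Algebra ℂ R] [FiniteDimensional ℂ R] : FiniteDimensional ℂ (Md R h) :=
  inferInstanceAs (FiniteDimensional ℂ (R × (Fin h → R) × (Fin h → R) × R))

theorem finrank_Md [Algebra ℂ R] [FiniteDimensional ℂ R] :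
    Module.finrank ℂ (Md R h) = (2 * h + 2) * Module.finrank ℂ R := by
  have : Module.finrank ℂ (Md R h) =
    Module.finrank ℂ (R × (Fin h → R) × (Fin h → R) × R) := rfl
  rw [this, Module.finrank_prod, Module.finrank_prod, Module.finrank_prod,
    Module.finrank_pi_fintype]
  simp
  ring

end Pool.Agent.Helper226.Apo
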