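import Mathlib
import Pool.Agent.Helper226.ApoModel1
set_option autoImplicit false
namespace Pool.Agent.Helper226.Apo

variable {R : Type} [CommRing R] {h : ℕ} (t : R)

/-- `R`-component of the special variables -/
def rr : Fin 4 → R := ![1, t, 0, 0]
/-- `v`-component of the special variables -/
def vv : Fin 4 → R := ![0, 0, t ^ 3, t ^ 4]

/-- constructor -/
def mkM (r : R) (p q : Fin h → R) (v : R) : Md R h := (r, p, q, v)

omit [CommRing R] in
theorem mkM1 (r : R) (p q : Fin h → R) (v : R) : (mkM r p q v).1 = r := rfl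
omit [CommRing R] in
theorem mkM2 (r : R) (p q : Fin h → R) (v : R) : (mkM r p q v).2.1 = p := rfl
omit [CommRing R] in
theorem mkM3 (r : R) (p q : Fin h → R) (v : R) : (mkM r p q v).2.2.1 = q := rfl
omit [CommRing R] in
theorem mkM4 (r : R) (p q : Fin h → R) (v : R) : (mkM r p q v).2.2.2 = v := rfl

/-- the variables in the model algebra -/
noncomputable def xs : Ix h → Md R h
  | Sum.inl a => mkM (rr t a) 0 0 (vv t a)
  | Sum.inr (false, α, i) => mkM 0 (Pi.single α (t ^ i.val)) 0 0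
  | Sum.inr (true, α, i) => mkM 0 0 (Pi.single α (t ^ i.val)) 0

theorem xs_zero : (xs t (Sum.inl 0) : Md R h) = 1 := rfl

theorem xs_zw (z w : Bool × Fin h × Fin 5) :
    xs t (Sum.inr z) * xs t (Sum.inr w) = mkM 0 0 0
      (if z.1 ≠ w.1 ∧ z.2.1 = w.2.1 then t ^ (z.2.2.val + w.2.2.val) else 0) := by
  obtain ⟨u, α, i⟩ := z
  obtain ⟨u', β, j⟩ := w
  apply Md.ext'
  · rw [mul1]; cases u <;> cases u' <;> simp [xs, mkM1]
  · intro γ; rw [mul2]; cases u <;> cases u' <;> simp [xs, mkM1, mkM2]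
  · intro γ; rw [mul3]; cases u <;> cases u' <;> simp [xs, mkM1, mkM3]
  · rw [mul4]
    cases u <;> cases u' <;>
      simp [xs, mkM1, mkM2, mkM3, mkM4, Pi.single_apply, pow_add, eq_comm]

variable [Algebra ℂ R] (φ : R →ₗ[ℂ] ℂ)

/-- functional on the model algebra -/
noncomputable def lamM : Md R h →ₗ[ℂ] ℂ :=
  { toFun := fun a => φ a.2.2.2
    map_add' := fun a b => by rw [add4, map_add]
    map_smul' := fun r a => by rw [smul4, map_smul]; rfl }

theorem lamM_apply (a : Md R h) : lamM φ a = φ a.2.2.2 := rfl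

theorem lam_azw (hφ : ∀ n : ℕ, φ (t ^ n) = if n = 4 then 1 else 0) (a : Fin 4)
    (z w : Bool × Fin h × Fin 5) :
    lamM φ (xs t (Sum.inl a) * (xs t (Sum.inr z) * xs t (Sum.inr w))) =
      if a.val < 2 ∧ z.1 ≠ w.1 ∧ z.2.1 = w.2.1 ∧ a.val + z.2.2.val + w.2.2.val = 4 then 1 else 0 := by
  rw [xs_zw, lamM_apply, mul4]
  simp only [xs, mkM1, mkM2, mkM3, mkM4]
  by_cases h1 : z.1 ≠ w.1 ∧ z.2.1 = w.2.1
  · rw [if_pos h1]
    obtain ⟨h1, h2⟩ := h1
    fin_cases a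
    · simp [rr, vv, hφ, h1, h2]
    · simp [rr, vv, h1, h2]
      rw [← pow_succ', hφ]
      congr 1
      simp only [eq_iff_iff]
      omega
    · simp [rr, vv]
    · simp [rr, vv]
  · rw [if_neg h1, if_neg]
    · simp
    · rintro ⟨_, h2, h3, _⟩
      exact h1 ⟨h2, h3⟩

theorem lam_abc (hφ : ∀ n : ℕ, φ (t ^ n) = if n = 4 then 1 else 0) (a b c : Fin 4) :
    lamM φ (xs t (Sum.inl a) * xs t (Sum.inl b) * xs t (Sum.inl c) : Md R h) =
      if ex a + ex b + ex c = 4 then 1 else 0 := by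
  have h0 := hφ
  have e3 : φ (t ^ 3) = 0 := by rw [hφ]; simp
  have e4 : φ (t ^ 4) = 1 := by rw [hφ]; simp
  have e5 : φ (t ^ 5) = 0 := by rw [hφ]; simp
  have e6 : φ (t * t * t ^ 3) = 0 := by rw [show t * t * t ^ 3 = t ^ 5 by ring, hφ]; simp
  have e7 : φ (t * t * t ^ 4) = 0 := by rw [show t * t * t ^ 4 = t ^ 6 by ring, hφ]; simp
  have e8 : φ (t ^ 6) = 0 := by rw [hφ]; simp
  rw [lamM_apply, mul4, mul1, mul4]
  fin_cases a <;> fin_cases b <;> fin_cases c <;>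
    simp [xs, mkM1, mkM2, mkM3, mkM4, rr, vv, ex, ← pow_succ', e3, e4, e5, e6, e7,
        e8]


omit [Algebra ℂ R] in
theorem xsz1 (z : Bool × Fin h × Fin 5) : (xs t (Sum.inr z) : Md R h).1 = 0 := by
  obtain ⟨u, α, i⟩ := z
  cases u <;> rfl

omit [Algebra ℂ R] in
theorem xsz4 (z : Bool × Fin h × Fin 5) : (xs t (Sum.inr z) : Md R h).2.2.2 = 0 := by
  obtain ⟨u, α, i⟩ := z
  cases u <;> rfl

omit [Algebra ℂ R] in
theorem xsa1 (a : Fin 4) : (xs t (Sum.inl a) : Md R h).1 = rr t a := rfl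
omit [Algebra ℂ R] in
theorem xsa2 (a : Fin 4) (α : Fin h) : (xs t (Sum.inl a) : Md R h).2.1 α = 0 := rfl
omit [Algebra ℂ R] in
theorem xsa3 (a : Fin 4) (α : Fin h) : (xs t (Sum.inl a) : Md R h).2.2.1 α = 0 := rfl

theorem lam_abz (a b : Fin 4) (z : Bool × Fin h × Fin 5) :
    lamM φ (xs t (Sum.inl a) * xs t (Sum.inl b) * xs t (Sum.inr z)) = 0 := by
  rw [lamM_apply, mul4, xsz1, xsz4]
  simp [mul2, mul3, xsa2, xsa3]

theorem lam_zwy (z w y : Bool × Fin h × Fin 5) :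
    lamM φ (xs t (Sum.inr z) * xs t (Sum.inr w) * xs t (Sum.inr y)) = 0 := by
  rw [lamM_apply, xs_zw, mul4, xsz1, xsz4]
  simp [mkM1, mkM2, mkM3]

theorem lamM_tri (hφ : ∀ n : ℕ, φ (t ^ n) = if n = 4 then 1 else 0) (i j k : Ix h) :
    lamM φ (xs t i * xs t j * xs t k) = tri i j k := by
  rcases i with a | z <;> rcases j with b | w <;> rcases k with c | y
  · exact lam_abc t φ hφ a b c
  · rw [lam_abz]; rfl
  · rw [mul_right_comm, lam_abz]; rfl
  · rw [mul_assoc, lam_azw t φ hφ]; rfl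
  · rw [mul_assoc, mul_comm, lam_abz]; rfl
  · rw [mul_comm (xs t (Sum.inr z)), mul_assoc, lam_azw t φ hφ]; rfl
  · rw [mul_comm, lam_azw t φ hφ]; rfl
  · rw [lam_zwy]; rfl

end Pool.Agent.Helper226.Apo
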