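import Mathlib
import Pool.Agent.Helper226.ApoModel2
import Pool.Agent.Helper226.ApoDehom3
set_option autoImplicit false
open MvPolynomial
open scoped Pointwise
namespace Pool.Agent.Helper226.Apo

section gen
variable {σ : Type} {A : Type} [CommRing A] [Algebra ℂ A] (x : σ → A)

/-- image of the forms of degree `n` -/
noncomputable def LL (n : ℕ) : Submodule ℂ A := (HS σ n).map (aeval x).toLinearMap

theorem aeval_mem_LL {n : ℕ} (F : MvPolynomial σ ℂ) (hF : F.IsHomogeneous n) :
    aeval x F ∈ LL x n := ⟨F, hF, rfl⟩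

theorem LL_mono (i0 : σ) (h0 : x i0 = 1) (n : ℕ) : LL x n ≤ LL x (n + 1) := by
  rintro _ ⟨F, hF, rfl⟩
  refine ⟨X i0 * F, ?_, ?_⟩
  · have := (isHomogeneous_X ℂ i0).mul hF
    rwa [add_comm] at this
  · change aeval x (X i0 * F) = aeval x F
    rw [map_mul, aeval_X, h0, one_mul]

theorem LL_mono' (i0 : σ) (h0 : x i0 = 1) (n s : ℕ) : LL x n ≤ LL x (n + s) := by
  induction s with
  | zero => exact le_rfl
  | succ s ih => exact ih.trans (LL_mono x i0 h0 _)

theorem LL_three (κ : A →ₗ[ℂ] ℂ) (hκ : ∀ i j k, κ (x i * x j * x k) = 0) (a : A)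
    (ha : a ∈ LL x 3) : κ a = 0 := by
  have h1 : LL x 3 = Submodule.span ℂ (Set.range x * Set.range x * Set.range x) := by
    unfold LL
    rw [HS, ← homogeneousSubmodule_one_pow, homogeneousSubmodule_one_eq_span_X,
      Submodule.map_pow, pow_three', Submodule.map_span, Submodule.span_mul_span,
      Submodule.span_mul_span]
    congr 1
    have : (aeval x).toLinearMap '' Set.range (X : σ → MvPolynomial σ ℂ) = Set.range x := by
      rw [← Set.range_comp]
      congr 1
      funext i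
      simp
    rw [this]
  rw [h1] at ha
  refine Submodule.span_induction (p := fun a _ => κ a = 0) ?_ ?_ ?_ ?_ ha
  · rintro _ ⟨_, ⟨_, ⟨i, rfl⟩, _, ⟨j, rfl⟩, rfl⟩, _, ⟨k, rfl⟩, rfl⟩
    exact hκ i j k
  · exact map_zero κ
  · intro p q _ _ hp hq; rw [map_add, hp, hq, add_zero]
  · intro r p _ hp; rw [map_smul, hp, smul_zero]

end gen

variable {R : Type} [CommRing R] {h : ℕ} (t : R) [Algebra ℂ R]

/-- first component as a functional -/
noncomputable def kapM (φ : R →ₗ[ℂ] ℂ) : Md R h →ₗ[ℂ] ℂ :=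
  { toFun := fun a => φ a.1
    map_add' := fun a b => by rw [add1, map_add]
    map_smul' := fun r a => by rw [smul1, map_smul]; rfl }

theorem kapM_apply (φ : R →ₗ[ℂ] ℂ) (a : Md R h) : kapM φ a = φ a.1 := rfl

theorem kapM_three (φ : R →ₗ[ℂ] ℂ) (hφ : ∀ n : ℕ, φ (t ^ n) = if n = 4 then 1 else 0)
    (i j k : Ix h) : kapM φ (xs t i * xs t j * xs t k) = 0 := by
  have e1 : φ t = 0 := by have := hφ 1; rw [pow_one] at this; rw [this]; simp
  have e0 : φ 1 = 0 := by have := hφ 0; rw [pow_zero] at this; rw [this]; simp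
  have e2 : φ (t * t) = 0 := by rw [show t * t = t ^ 2 by ring, hφ]; simp
  have e3 : φ (t * t * t) = 0 := by rw [show t * t * t = t ^ 3 by ring, hφ]; simp
  rw [kapM_apply, mul1, mul1]
  rcases i with a | z
  · rcases j with b | w
    · rcases k with c | y
      · rw [xsa1, xsa1, xsa1]
        fin_cases a <;> fin_cases b <;> fin_cases c <;> simp [rr, e0, e1, e2, e3]
      · rw [xsz1, mul_zero, map_zero]
    · rw [xsz1, mul_zero, zero_mul, map_zero]
  · rw [xsz1, zero_mul, zero_mul, map_zero]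

/-- the four types of embeddings -/
noncomputable def i1 : R →ₗ[ℂ] Md R h :=
  { toFun := fun r => mkM r 0 0 0
    map_add' := fun a b => by
      apply Md.ext' <;> intros <;> simp [add1, add2, add3, add4, mkM1, mkM2, mkM3, mkM4]
    map_smul' := fun r a => by
      apply Md.ext' <;> intros <;> simp [smul1, smul2, smul3, smul4, mkM1, mkM2, mkM3, mkM4] }
noncomputable def i2 (α : Fin h) : R →ₗ[ℂ] Md R h :=
  { toFun := fun r => mkM 0 (Pi.single α r) 0 0
    map_add' := fun a b => by
      apply Md.ext' <;> intros <;>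
        simp [add1, add2, add3, add4, mkM1, mkM2, mkM3, mkM4, Pi.single_add]
    map_smul' := fun r a => by
      apply Md.ext' <;> intros <;>
        simp [smul1, smul2, smul3, smul4, mkM1, mkM2, mkM3, mkM4, Pi.single_smul] }
noncomputable def i3 (α : Fin h) : R →ₗ[ℂ] Md R h :=
  { toFun := fun r => mkM 0 0 (Pi.single α r) 0
    map_add' := fun a b => by
      apply Md.ext' <;> intros <;>
        simp [add1, add2, add3, add4, mkM1, mkM2, mkM3, mkM4, Pi.single_add]
    map_smul' := fun r a => by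
      apply Md.ext' <;> intros <;>
        simp [smul1, smul2, smul3, smul4, mkM1, mkM2, mkM3, mkM4, Pi.single_smul] }
noncomputable def i4 : R →ₗ[ℂ] Md R h :=
  { toFun := fun r => mkM 0 0 0 r
    map_add' := fun a b => by
      apply Md.ext' <;> intros <;> simp [add1, add2, add3, add4, mkM1, mkM2, mkM3, mkM4]
    map_smul' := fun r a => by
      apply Md.ext' <;> intros <;> simp [smul1, smul2, smul3, smul4, mkM1, mkM2, mkM3, mkM4] }

omit [Algebra ℂ R] in
theorem sum2 {ι : Type} (s : Finset ι) (f : ι → Md R h) (β : Fin h) :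
    (∑ i ∈ s, f i).2.1 β = ∑ i ∈ s, (f i).2.1 β := by
  classical
  induction s using Finset.induction_on with
  | empty => rw [Finset.sum_empty, Finset.sum_empty]; rfl
  | insert a s ha ih => rw [Finset.sum_insert ha, Finset.sum_insert ha, add2, ih]
omit [Algebra ℂ R] in
theorem sum3 {ι : Type} (s : Finset ι) (f : ι → Md R h) (β : Fin h) :
    (∑ i ∈ s, f i).2.2.1 β = ∑ i ∈ s, (f i).2.2.1 β := by
  classical
  induction s using Finset.induction_on with
  | empty => rw [Finset.sum_empty, Finset.sum_empty]; rfl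
  | insert a s ha ih => rw [Finset.sum_insert ha, Finset.sum_insert ha, add3, ih]
omit [Algebra ℂ R] in
theorem sum1 {ι : Type} (s : Finset ι) (f : ι → Md R h) :
    (∑ i ∈ s, f i).1 = ∑ i ∈ s, (f i).1 := by
  classical
  induction s using Finset.induction_on with
  | empty => rw [Finset.sum_empty, Finset.sum_empty]; rfl
  | insert a s ha ih => rw [Finset.sum_insert ha, Finset.sum_insert ha, add1, ih]
omit [Algebra ℂ R] in
theorem sum4 {ι : Type} (s : Finset ι) (f : ι → Md R h) :
    (∑ i ∈ s, f i).2.2.2 = ∑ i ∈ s, (f i).2.2.2 := by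
  classical
  induction s using Finset.induction_on with
  | empty => rw [Finset.sum_empty, Finset.sum_empty]; rfl
  | insert a s ha ih => rw [Finset.sum_insert ha, Finset.sum_insert ha, add4, ih]


theorem i1_apply (r : R) : (i1 r : Md R h) = mkM r 0 0 0 := rfl
theorem i2_apply (α : Fin h) (r : R) : (i2 α r : Md R h) = mkM 0 (Pi.single α r) 0 0 := rfl
theorem i3_apply (α : Fin h) (r : R) : (i3 α r : Md R h) = mkM 0 0 (Pi.single α r) 0 := rfl
theorem i4_apply (r : R) : (i4 r : Md R h) = mkM 0 0 0 r := rfl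

theorem decomp (a : Md R h) :
    a = i1 a.1 + ∑ α, i2 α (a.2.1 α) + ∑ α, i3 α (a.2.2.1 α) + i4 a.2.2.2 := by
  apply Md.ext'
  · simp [add1, sum1, i1_apply, i2_apply, i3_apply, i4_apply, mkM1]
  · intro β
    simp [add2, sum2, i1_apply, i2_apply, i3_apply, i4_apply, mkM2, Pi.single_apply]
  · intro β
    simp [add3, sum3, i1_apply, i2_apply, i3_apply, i4_apply, mkM3, Pi.single_apply]
  · simp [add4, sum4, i1_apply, i2_apply, i3_apply, i4_apply, mkM4]

theorem range_le (hspan : Submodule.span ℂ (Set.range (fun i : Fin 5 => t ^ i.val)) = ⊤)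
    (f : R →ₗ[ℂ] Md R h) (W : Submodule ℂ (Md R h)) (hW : ∀ i : Fin 5, f (t ^ i.val) ∈ W) (r : R) :
    f r ∈ W := by
  have hr : r ∈ Submodule.span ℂ (Set.range (fun i : Fin 5 => t ^ i.val)) := by
    rw [hspan]; trivial
  refine Submodule.span_induction (p := fun a _ => f a ∈ W) ?_ ?_ ?_ ?_ hr
  · rintro _ ⟨i, rfl⟩; exact hW i
  · rw [map_zero]; exact W.zero_mem
  · intro p q _ _ hp hq; rw [map_add]; exact W.add_mem hp hq
  · intro r p _ hp; rw [map_smul]; exact W.smul_mem _ hp

omit [Algebra ℂ R] in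
theorem i1_pow (n : ℕ) : (mkM (t ^ n) 0 0 0 : Md R h) = (xs t (Sum.inl 1)) ^ n := by
  induction n with
  | zero => rw [pow_zero, pow_zero]; rfl
  | succ n ih =>
    rw [pow_succ, pow_succ, ← ih]
    apply Md.ext'
    · rw [mul1]; rfl
    · intro α; rw [mul2]; simp [mkM1, mkM2, xs]
    · intro α; rw [mul3]; simp [mkM1, mkM3, xs]
    · rw [mul4]; simp [mkM1, mkM2, mkM3, mkM4, xs, vv]

variable {σ : Type} (e : σ ≃ Ix h)

theorem four_top (hspan : Submodule.span ℂ (Set.range (fun i : Fin 5 => t ^ i.val)) = ⊤)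
    (α0 : Fin h) (a : Md R h) : a ∈ LL (fun s => xs t (e s)) 4 := by
  have h0 : xs t (e (e.symm (Sum.inl 0))) = (1 : Md R h) := by
    rw [Equiv.apply_symm_apply]; rfl
  have hx : ∀ i : Ix h, aeval (fun s => xs t (e s)) (X (e.symm i) : MvPolynomial σ ℂ) =
      (xs t i : Md R h) := by
    intro i; rw [aeval_X, Equiv.apply_symm_apply]
  rw [decomp a]
  refine Submodule.add_mem _ (Submodule.add_mem _ (Submodule.add_mem _ ?_ ?_) ?_) ?_
  · refine range_le t hspan _ _ (fun i => ?_) _
    have : (i1 (t ^ i.val) : Md R h) = aeval (fun s => xs t (e s))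
        ((X (e.symm (Sum.inl 1)) : MvPolynomial σ ℂ) ^ i.val *
          X (e.symm (Sum.inl 0)) ^ (4 - i.val)) := by
      rw [i1_apply, i1_pow, map_mul, map_pow, map_pow, hx, hx, xs_zero, one_pow, mul_one]
    rw [this]
    refine aeval_mem_LL _ _ ?_
    have h2 := ((isHomogeneous_X_pow (R := ℂ) (e.symm (Sum.inl 1)) i.val)).mul
      (isHomogeneous_X_pow (R := ℂ) (e.symm (Sum.inl 0)) (4 - i.val))
    rwa [show i.val + (4 - i.val) = 4 by omega] at h2
  · refine Submodule.sum_mem _ fun α _ => range_le t hspan _ _ (fun i => ?_) _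
    have : (i2 α (t ^ i.val) : Md R h) = aeval (fun s => xs t (e s))
        (X (e.symm (Sum.inr (false, α, i))) : MvPolynomial σ ℂ) := by
      rw [hx]; rfl
    rw [this]
    refine LL_mono' _ (e.symm (Sum.inl 0)) h0 1 3 (aeval_mem_LL _ _ (isHomogeneous_X ℂ _))
  · refine Submodule.sum_mem _ fun α _ => range_le t hspan _ _ (fun i => ?_) _
    have : (i3 α (t ^ i.val) : Md R h) = aeval (fun s => xs t (e s))
        (X (e.symm (Sum.inr (true, α, i))) : MvPolynomial σ ℂ) := by
      rw [hx]; rfl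
    rw [this]
    refine LL_mono' _ (e.symm (Sum.inl 0)) h0 1 3 (aeval_mem_LL _ _ (isHomogeneous_X ℂ _))
  · refine range_le t hspan _ _ (fun i => ?_) _
    have : (i4 (t ^ i.val) : Md R h) = aeval (fun s => xs t (e s))
        ((X (e.symm (Sum.inr (false, α0, 0))) : MvPolynomial σ ℂ) *
          X (e.symm (Sum.inr (true, α0, i)))) := by
      rw [map_mul, hx, hx, xs_zw, i4_apply]
      simp
    rw [this]
    refine LL_mono' _ (e.symm (Sum.inl 0)) h0 2 2 (aeval_mem_LL _ _
      ((isHomogeneous_X ℂ _).mul (isHomogeneous_X ℂ _)))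

theorem LL_top (hspan : Submodule.span ℂ (Set.range (fun i : Fin 5 => t ^ i.val)) = ⊤)
    (α0 : Fin h) (n : ℕ) (hn : 4 ≤ n) : LL (fun s => xs t (e s) : σ → Md R h) n = ⊤ := by
  rw [eq_top_iff]
  intro a _
  have h0 : xs t (e (e.symm (Sum.inl 0))) = (1 : Md R h) := by
    rw [Equiv.apply_symm_apply]; rfl
  have := LL_mono' (fun s => xs t (e s) : σ → Md R h) (e.symm (Sum.inl 0)) h0 4 (n - 4)
    (four_top t e hspan α0 a)
  rwa [show 4 + (n - 4) = n by omega] at this

theorem LL_ne_top (φ : R →ₗ[ℂ] ℂ) (hφ : ∀ n : ℕ, φ (t ^ n) = if n = 4 then 1 else 0) :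
    LL (fun s => xs t (e s) : σ → Md R h) 3 ≠ ⊤ := by
  intro htop
  have h1 : (mkM (t ^ 4) 0 0 0 : Md R h) ∈ LL (fun s => xs t (e s) : σ → Md R h) 3 := by
    rw [htop]; trivial
  have h2 := LL_three _ (kapM φ) (fun i j k => kapM_three t φ hφ (e i) (e j) (e k)) _ h1
  rw [kapM_apply, mkM1, hφ] at h2
  simp at h2

end Pool.Agent.Helper226.Apo
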