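import Mathlib
import Pool.Agent.Helper226.ApoModel3
set_option autoImplicit false
open MvPolynomial
namespace Pool.Agent.Helper226.Apo

/-- `ℂ[t]/t^5` -/
abbrev RR : Type := Polynomial ℂ ⧸ Ideal.span {(Polynomial.X : Polynomial ℂ) ^ 5}

/-- the class of the variable -/
noncomputable def tt : RR := Ideal.Quotient.mk _ Polynomial.X

theorem tt_pow_mk (n : ℕ) : tt ^ n = Ideal.Quotient.mk _ (Polynomial.X ^ n) := by
  rw [map_pow]; rfl

theorem tt_five (n : ℕ) (hn : 5 ≤ n) : tt ^ n = 0 := by
  rw [tt_pow_mk, Ideal.Quotient.eq_zero_iff_mem, Ideal.mem_span_singleton]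
  exact pow_dvd_pow _ hn

theorem finrank_RR : Module.finrank ℂ RR = 5 := by
  have := finrank_quotient_span_eq_natDegree (K := ℂ) (f := (Polynomial.X : Polynomial ℂ) ^ 5)
  rw [Polynomial.natDegree_X_pow] at this
  exact this

instance fdRR : FiniteDimensional ℂ RR :=
  Module.finite_of_finrank_pos (by rw [finrank_RR]; norm_num)

theorem span_RR : Submodule.span ℂ (Set.range (fun i : Fin 5 => tt ^ i.val)) = ⊤ := by
  rw [eq_top_iff]
  intro a _
  obtain ⟨p, rfl⟩ := Ideal.Quotient.mk_surjective a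
  have : (Ideal.Quotient.mk (Ideal.span {(Polynomial.X : Polynomial ℂ) ^ 5})) p =
      ∑ i ∈ Finset.range (p.natDegree + 1), p.coeff i • tt ^ i := by
    conv_lhs => rw [Polynomial.as_sum_range_C_mul_X_pow p]
    rw [map_sum]
    refine Finset.sum_congr rfl fun i _ => ?_
    rw [← Polynomial.smul_eq_C_mul, tt_pow_mk]
    rfl
  rw [this]
  refine Submodule.sum_mem _ fun i _ => Submodule.smul_mem _ _ ?_
  by_cases hi : i < 5
  · exact Submodule.subset_span ⟨⟨i, hi⟩, rfl⟩
  · rw [tt_five i (by omega)]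
    exact Submodule.zero_mem _

theorem exists_phi : ∃ φ : RR →ₗ[ℂ] ℂ, ∀ n : ℕ, φ (tt ^ n) = if n = 4 then 1 else 0 := by
  obtain ⟨φ, hφ⟩ := exists_functional
    (Ideal.Quotient.mkₐ ℂ (Ideal.span {(Polynomial.X : Polynomial ℂ) ^ 5})).toLinearMap
    (Polynomial.lcoeff ℂ 4) (by
      intro v hv
      have h1 : v ∈ Ideal.span {(Polynomial.X : Polynomial ℂ) ^ 5} :=
        Ideal.Quotient.eq_zero_iff_mem.mp hv
      rw [Ideal.mem_span_singleton, Polynomial.X_pow_dvd_iff] at h1
      exact h1 4 (by norm_num))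
  refine ⟨φ, fun n => ?_⟩
  rw [tt_pow_mk]
  have := hφ (Polynomial.X ^ n)
  rw [Polynomial.lcoeff_apply, Polynomial.coeff_X_pow] at this
  rw [show (if n = 4 then (1 : ℂ) else 0) = if 4 = n then 1 else 0 by simp [eq_comm], ← this]
  rfl

section ideal
variable {σ : Type} {A : Type} [CommRing A] [Algebra ℂ A] (x : σ → A)

/-- the homogenising map -/
noncomputable def hom : MvPolynomial σ ℂ →ₐ[ℂ] Polynomial A :=
  aeval (fun i => Polynomial.C (x i) * Polynomial.X)

theorem coeff_hom (g : MvPolynomial σ ℂ) (j : ℕ) :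
    (hom x g).coeff j = aeval x (homogeneousComponent j g) := by
  induction g using MvPolynomial.induction_on' with
  | monomial d a =>
    rw [homogeneousComponent_of_mem (isHomogeneous_monomial a rfl)]
    unfold hom
    rw [aeval_monomial]
    have h1 : (d.prod fun i k => (Polynomial.C (x i) * (Polynomial.X : Polynomial A)) ^ k) =
        Polynomial.C (d.prod fun i k => x i ^ k) * Polynomial.X ^ d.degree := by
      simp only [mul_pow, Finsupp.prod_mul, Finsupp.degree_apply]
      rw [Finsupp.prod, Finsupp.prod, Finsupp.prod, map_prod, Finset.prod_pow_eq_pow_sum]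
      simp only [map_pow]
    rw [h1]
    have h2 : (algebraMap ℂ (Polynomial A)) a = Polynomial.C (algebraMap ℂ A a) := rfl
    rw [h2, ← mul_assoc, ← map_mul, Polynomial.coeff_C_mul_X_pow]
    by_cases hj : j = d.degree
    · rw [if_pos hj, if_pos hj, aeval_monomial]
    · rw [if_neg hj, if_neg hj, map_zero]
  | add p q hp hq => rw [map_add, Polynomial.coeff_add, hp, hq, map_add, map_add]

/-- the homogeneous ideal of the embedded scheme -/
noncomputable def II : Ideal (MvPolynomial σ ℂ) := RingHom.ker (hom x)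

theorem mem_II (g : MvPolynomial σ ℂ) :
    g ∈ II x ↔ ∀ j, aeval x (homogeneousComponent j g) = 0 := by
  unfold II
  rw [RingHom.mem_ker]
  constructor
  · intro h j
    rw [← coeff_hom, h, Polynomial.coeff_zero]
  · intro h
    ext j
    rw [coeff_hom, h j, Polynomial.coeff_zero]

theorem II_hom (g : MvPolynomial σ ℂ) (hg : g ∈ II x) (t : ℕ) :
    homogeneousComponent t g ∈ II x := by
  rw [mem_II] at hg ⊢
  intro j
  rw [homogeneousComponent_of_mem (homogeneousComponent_mem t g)]
  split_ifs with h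
  · exact hg t
  · rw [map_zero]

theorem II_sat (i0 : σ) (h0 : x i0 = 1) (g : MvPolynomial σ ℂ) (k : ℕ)
    (hg : X i0 ^ k * g ∈ II x) : g ∈ II x := by
  unfold II at hg ⊢
  rw [RingHom.mem_ker] at hg ⊢
  rw [map_mul, map_pow] at hg
  have h1 : hom x (X i0) = Polynomial.X := by
    unfold hom
    rw [aeval_X, h0, map_one, one_mul]
  rw [h1] at hg
  ext j
  have := congrArg (fun p => Polynomial.coeff p (j + k)) hg
  simpa [Polynomial.coeff_X_pow_mul] using this

theorem II_inf (t : ℕ) : (JS (II x) t) = (LinearMap.ker (aeval x).toLinearMap) ⊓ HS σ t := by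
  ext g
  constructor
  · rintro ⟨h1, h2⟩
    refine ⟨?_, h2⟩
    have := (mem_II x g).mp h1 t
    rw [homogeneousComponent_eq_self h2] at this
    exact this
  · rintro ⟨h1, h2⟩
    refine ⟨?_, h2⟩
    refine (mem_II x g).mpr fun j => ?_
    rw [homogeneousComponent_of_mem h2]
    split_ifs with h
    · exact h1
    · rw [map_zero]

theorem II_finrank [Fintype σ] (t : ℕ) :
    Module.finrank ℂ (HS σ t) - Module.finrank ℂ (JS (II x) t) = Module.finrank ℂ (LL x t) := by
  rw [II_inf]
  have e1 := LinearMap.finrank_range_add_finrank_ker ((aeval x).toLinearMap.domRestrict (HS σ t))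
  have e2 : LinearMap.range ((aeval x).toLinearMap.domRestrict (HS σ t)) = LL x t := by
    rw [LinearMap.range_domRestrict]; rfl
  have e3 : Module.finrank ℂ (LinearMap.ker ((aeval x).toLinearMap.domRestrict (HS σ t))) =
      Module.finrank ℂ ((LinearMap.ker (aeval x).toLinearMap) ⊓ HS σ t :
        Submodule ℂ (MvPolynomial σ ℂ)) := by
    have h1 : LinearMap.ker ((aeval x).toLinearMap.domRestrict (HS σ t)) =
        Submodule.comap (HS σ t).subtype ((LinearMap.ker (aeval x).toLinearMap) ⊓ HS σ t) := by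
      ext g
      simp
    rw [h1]
    exact (Submodule.comapSubtypeEquivOfLe inf_le_right).finrank_eq
  rw [e2, e3] at e1
  omega

end ideal


section form
variable {σ : Type} [Fintype σ] {A : Type} [CommRing A] [Algebra ℂ A] (x : σ → A)
  (lam : A →ₗ[ℂ] ℂ)

/-- the factorial of an exponent -/
noncomputable def fac (γ : σ →₀ ℕ) : ℂ := γ.prod (fun _ k => (k.factorial : ℂ))

omit [Fintype σ] in
theorem fac_ne (γ : σ →₀ ℕ) : fac γ ≠ 0 := by
  unfold fac
  rw [Finsupp.prod, Finset.prod_ne_zero_iff]
  intro i _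
  exact_mod_cast (Nat.factorial_pos _).ne'

omit [Fintype σ] in
theorem fac_zero : fac (0 : σ →₀ ℕ) = 1 := by
  unfold fac; rw [Finsupp.prod_zero_index]

/-- the functional on forms of degree 3 -/
noncomputable def Lam : MvPolynomial σ ℂ →ₗ[ℂ] ℂ :=
  lam ∘ₗ (aeval x).toLinearMap ∘ₗ (homogeneousComponent 3)

omit [Fintype σ] in
theorem Lam_apply (g : MvPolynomial σ ℂ) : Lam x lam g = lam (aeval x (homogeneousComponent 3 g)) :=
  rfl

/-- the cubic form -/
noncomputable def ff : MvPolynomial σ ℂ := by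
  classical
  exact ∑ γ ∈ (Finset.univ : Finset σ).finsuppAntidiag 3,
    monomial γ (Lam x lam (monomial γ 1) / fac γ)

theorem ff_hom : (ff x lam).IsHomogeneous 3 := by
  classical
  unfold ff
  refine IsHomogeneous.sum _ _ _ fun γ hγ => ?_
  refine isHomogeneous_monomial _ ?_
  rw [Finset.mem_finsuppAntidiag] at hγ
  rw [Finsupp.degree_eq_sum]
  exact hγ.1

theorem coeff_ff (γ : σ →₀ ℕ) : (ff x lam).coeff γ = Lam x lam (monomial γ 1) / fac γ := by
  classical
  unfold ff
  rw [coeff_sum]
  simp only [coeff_monomial]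
  rw [Finset.sum_ite_eq' ]
  split_ifs with h
  · rfl
  · have : Lam x lam (monomial γ 1) = 0 := by
      rw [Lam_apply, homogeneousComponent_of_mem (isHomogeneous_monomial 1 rfl), if_neg, map_zero,
        map_zero]
      intro h3
      apply h
      rw [Finset.mem_finsuppAntidiag]
      refine ⟨?_, Finset.subset_univ _⟩
      rw [Finsupp.degree_eq_sum] at h3
      exact h3.symm
    rw [this, zero_div]

theorem kill_eq (g : MvPolynomial σ ℂ) (β : σ →₀ ℕ) :
    ∑ α ∈ g.support, g.coeff α * (ff x lam).coeff (α + β) *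
      ((α + β).prod (fun _ k => (k.factorial : ℂ)) / β.prod (fun _ k => (k.factorial : ℂ))) =
    (fac β)⁻¹ * Lam x lam (g * monomial β 1) := by
  have h1 : g * monomial β 1 = ∑ α ∈ g.support, g.coeff α • monomial (α + β) (1 : ℂ) := by
    conv_lhs => rw [g.as_sum]
    rw [Finset.sum_mul]
    refine Finset.sum_congr rfl fun α _ => ?_
    rw [monomial_mul, smul_monomial, smul_eq_mul]
  rw [h1, map_sum, Finset.mul_sum]
  refine Finset.sum_congr rfl fun α _ => ?_
  rw [map_smul, smul_eq_mul, coeff_ff]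
  change g.coeff α * (Lam x lam (monomial (α + β) 1) / fac (α + β)) * (fac (α + β) / fac β) = _
  have h2 := fac_ne (α + β)
  have h3 := fac_ne β
  field_simp

end form

end Pool.Agent.Helper226.Apo
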