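import Mathlib
import Pool.Agent.Helper226.ApoModel4
import Pool.Agent.Helper226.ApoCore3
set_option autoImplicit false
open MvPolynomial
namespace Pool.Agent.Helper226.Apo

/-- the number of variables is `544` for `h = 54` -/
noncomputable def ee : Fin (543 + 1) ≃ Ix 54 :=
  (Fintype.equivFinOfCardEq (by
    simp only [Fintype.card_sum, Fintype.card_prod, Fintype.card_fin, Fintype.card_bool])).symm

theorem lower (φ : RR →ₗ[ℂ] ℂ) (hφ : ∀ n : ℕ, φ (tt ^ n) = if n = 4 then 1 else 0)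
    (J : Ideal (MvPolynomial (Fin (543 + 1)) ℂ)) (r : ℕ)
    (hJ : ∀ g ∈ J, ∀ t : ℕ, homogeneousComponent t g ∈ J)
    (hsat : ∀ g : MvPolynomial (Fin (543 + 1)) ℂ,
      (∃ k : ℕ, ∀ i : Fin (543 + 1), X i ^ k * g ∈ J) → g ∈ J)
    (hkill : ∀ g ∈ J, Lam (fun s => xs tt (ee s)) (lamM φ : Md RR 54 →ₗ[ℂ] ℂ) g = 0)
    (t₀ : ℕ) (hr : ∀ t ≥ t₀, Module.finrank ℂ (HS (Fin (543 + 1)) t) -
      Module.finrank ℂ (JS J t) = r) : 550 ≤ r := by
  obtain ⟨B, _, _, _, lam, x, c, nd, hx, hc, hc0, hfr⟩ := dehom J (ee.symm (Sum.inl 0)) hJ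
    (fun g hg => hsat g ⟨1, fun i => by rw [pow_one]; exact hg i⟩) r t₀ hr
    (Lam (fun s => xs tt (ee s)) (lamM φ : Md RR 54 →ₗ[ℂ] ℂ)) (fun g hg _ => hkill g hg)
  have hx' : ∀ i j k : Ix 54, lam (x (ee.symm i) * x (ee.symm j) * x (ee.symm k)) = tri i j k := by
    intro i j k
    have hA : aeval (fun s => xs tt (ee s)) ((X (ee.symm i) : MvPolynomial (Fin (543 + 1)) ℂ) *
        X (ee.symm j) * X (ee.symm k)) = (xs tt i * xs tt j * xs tt k : Md RR 54) := by
      rw [map_mul, map_mul, aeval_X, aeval_X, aeval_X, Equiv.apply_symm_apply,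
        Equiv.apply_symm_apply, Equiv.apply_symm_apply]
    rw [hx, Lam_apply, homogeneousComponent_eq_self
      (((isHomogeneous_X ℂ _).mul (isHomogeneous_X ℂ _)).mul (isHomogeneous_X ℂ _)), hA]
    exact lamM_tri tt φ hφ i j k
  have hc' : el (fun i => x (ee.symm i)) (fun i => c (ee.symm i)) = 1 := by
    rw [← hc]
    exact Equiv.sum_comp ee.symm (fun i => c i • x i)
  have := core lam (fun i => x (ee.symm i)) nd hx' (fun i => c (ee.symm i)) hc' hc0 (by norm_num)
  omega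

theorem main :
    ¬ (∀ (n d : ℕ) (f : MvPolynomial (Fin (n + 1)) ℂ), f.IsHomogeneous d →
      ∀ (I : Ideal (MvPolynomial (Fin (n + 1)) ℂ)),
        (∀ g ∈ I, ∀ t : ℕ, MvPolynomial.homogeneousComponent t g ∈ I) →
        (∀ g : MvPolynomial (Fin (n + 1)) ℂ,
            (∃ k : ℕ, ∀ i : Fin (n + 1), MvPolynomial.X i ^ k * g ∈ I) → g ∈ I) →
        (∀ g ∈ I, ∀ β : Fin (n + 1) →₀ ℕ,
            ∑ α ∈ g.support, g.coeff α * f.coeff (α + β) *
              ((α + β).prod (fun _ k => (k.factorial : ℂ)) /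
                β.prod (fun _ k => (k.factorial : ℂ))) = 0) →
        ∀ r : ℕ,
        (∃ t₀ : ℕ, ∀ t ≥ t₀,
            Module.finrank ℂ (MvPolynomial.homogeneousSubmodule (Fin (n + 1)) ℂ t) -
              Module.finrank ℂ (Submodule.restrictScalars ℂ I ⊓
                MvPolynomial.homogeneousSubmodule (Fin (n + 1)) ℂ t :
                  Submodule ℂ (MvPolynomial (Fin (n + 1)) ℂ)) = r) →
        (∀ (J : Ideal (MvPolynomial (Fin (n + 1)) ℂ)) (r' : ℕ),
            (∀ g ∈ J, ∀ t : ℕ, MvPolynomial.homogeneousComponent t g ∈ J) →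
            (∀ g : MvPolynomial (Fin (n + 1)) ℂ,
                (∃ k : ℕ, ∀ i : Fin (n + 1), MvPolynomial.X i ^ k * g ∈ J) → g ∈ J) →
            (∀ g ∈ J, ∀ β : Fin (n + 1) →₀ ℕ,
                ∑ α ∈ g.support, g.coeff α * f.coeff (α + β) *
                  ((α + β).prod (fun _ k => (k.factorial : ℂ)) /
                    β.prod (fun _ k => (k.factorial : ℂ))) = 0) →
            (∃ t₀ : ℕ, ∀ t ≥ t₀,
                Module.finrank ℂ (MvPolynomial.homogeneousSubmodule (Fin (n + 1)) ℂ t) -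
                  Module.finrank ℂ (Submodule.restrictScalars ℂ J ⊓
                    MvPolynomial.homogeneousSubmodule (Fin (n + 1)) ℂ t :
                      Submodule ℂ (MvPolynomial (Fin (n + 1)) ℂ)) = r') →
            r ≤ r') →
        Module.finrank ℂ (MvPolynomial.homogeneousSubmodule (Fin (n + 1)) ℂ d) -
          Module.finrank ℂ (Submodule.restrictScalars ℂ I ⊓
            MvPolynomial.homogeneousSubmodule (Fin (n + 1)) ℂ d :
              Submodule ℂ (MvPolynomial (Fin (n + 1)) ℂ)) = r) := by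
  intro H
  obtain ⟨φ, hφ⟩ := exists_phi
  let x : Fin (543 + 1) → Md RR 54 := fun s => xs tt (ee s)
  let lam : Md RR 54 →ₗ[ℂ] ℂ := lamM φ
  have hx0 : x (ee.symm (Sum.inl 0)) = 1 := by
    change xs tt (ee (ee.symm (Sum.inl 0))) = 1
    rw [Equiv.apply_symm_apply]; rfl
  have hfr : Module.finrank ℂ (Md RR 54) = 550 := by
    rw [finrank_Md, finrank_RR]
  have key := H 543 3 (ff x lam) (ff_hom x lam) (II x) (fun g hg t => II_hom x g hg t)
    (fun g ⟨k, hk⟩ => II_sat x _ hx0 g k (hk _))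
    (fun g hg β => by
      rw [kill_eq, Lam_apply, (mem_II x _).mp ((II x).mul_mem_right _ hg) 3, map_zero, mul_zero])
    550
    ⟨4, fun t ht => by
      have h1 := II_finrank x t
      rw [LL_top tt ee span_RR 0 t ht, finrank_top, hfr] at h1
      exact h1⟩
    (fun J r' hJ hsat hkill ⟨t₀, hr⟩ => lower φ hφ J r' hJ hsat (fun g hg => by
      have h1 := hkill g hg 0
      rw [kill_eq, fac_zero, inv_one, one_mul] at h1
      rwa [show (monomial (0 : Fin (543 + 1) →₀ ℕ) (1 : ℂ)) = 1 from rfl, mul_one] at h1) t₀ hr)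
  have h1 := II_finrank x 3
  have h2 : Module.finrank ℂ (LL x 3) = 550 := by rw [← h1]; exact key
  have h3 : LL x 3 = ⊤ := by
    apply Submodule.eq_top_of_finrank_eq
    rw [h2, hfr]
  exact LL_ne_top tt ee φ hφ h3

end Pool.Agent.Helper226.Apo
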