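import Mathlib
import Pool.Agent.Helper226.Tangent
import Pool.Agent.Helper226.SchemeDim
import Pool.Agent.Helper226.HilbFree

set_option autoImplicit false

open scoped TensorProduct
open CategoryTheory AlgebraicGeometry

universe u

namespace Pool.Agent.Helper226

variable (k : Type u) [Field k]

/-- index of the chart -/
noncomputable def L0 : Idx (CB k) 10 := Idx.single (basB k)

lemma mem_L0 : basB k ∈ ((L0 k).s : Set (Fin 10 → CB k)) := by
  simp [L0, Idx.single]

lemma hasBas0 : HasBas ((L0 k).s : Set (Fin 10 → CB k)) (qz k).ideal := hasBas_single ⟨qz k, rfl⟩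

/-- the classifying map -/
noncomputable def z0 : (univ k (L0 k)).A →ₐ[k] k := (univ k (L0 k)).hom (qz k).ideal (hasBas0 k)

lemma z0_map : ((univ k (L0 k)).chart (mem_L0 k)).map (z0 k) = qz k := by
  apply Chart.ideal_injective
  rw [Chart.ideal_map, UnivFor.chart_ideal]
  exact (univ k (L0 k)).map_hom (qz k).ideal (hasBas0 k)

lemma z0_surjective : Function.Surjective (z0 k) := fun a => ⟨algebraMap k _ a, (z0 k).commutes a⟩

instance ker_z0_maximal : (RingHom.ker (z0 k)).IsMaximal :=
  RingHom.ker_isMaximal_of_surjective (z0 k) (z0_surjective k)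

lemma ker_z0_height : (RingHom.ker (z0 k)).height ≤ 9 := by
  have h1 := univ_finiteType (k := k) (L0 k)
  have : IsNoetherianRing (univ k (L0 k)).A := Algebra.FiniteType.isNoetherianRing k _
  exact height_ker_le k (univ k (L0 k)) (mem_L0 k) (z0 k) (z0_map k)

/-- the point in the chart -/
noncomputable def zpt : Spec (CommRingCat.of (univ k (L0 k)).A) :=
  (⟨RingHom.ker (z0 k), (ker_z0_maximal k).isPrime⟩ : PrimeSpectrum (univ k (L0 k)).A)

/-- the point of the Hilbert scheme -/
noncomputable def x0 : HilbS k (CB k) 10 := chartι k (L0 k) (zpt k)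

lemma isClosed_zpt : IsClosed {zpt k} := by
  have := (PrimeSpectrum.isClosed_singleton_iff_isMaximal
    (⟨RingHom.ker (z0 k), (ker_z0_maximal k).isPrime⟩ : PrimeSpectrum (univ k (L0 k)).A)).2
    (ker_z0_maximal k)
  exact this

lemma isClosed_x0 : IsClosed {x0 k} := by
  have hJ : JacobsonSpace (HilbS k (CB k) 10) :=
    LocallyOfFiniteType.jacobsonSpace (HilbS.str k (CB k) 10)
  have h1 : IsLocallyClosed ({x0 k} : Set (HilbS k (CB k) 10)) := by
    have h2 := (isClosed_zpt k).isLocallyClosed.image (chartι k (L0 k)).isOpenEmbedding.isInducing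
      (chartι k (L0 k)).isOpenEmbedding.isOpen_range.isLocallyClosed
    rw [Set.image_singleton] at h2
    exact h2
  exact isClosed_singleton_of_isLocallyClosed_singleton h1

lemma stalk_x0 : ringKrullDim ((HilbS k (CB k) 10).presheaf.stalk (x0 k)) ≤ 9 := by
  rw [ringKrullDim_stalk_eq_coheight]
  have h1 : Order.coheight (x0 k) = Order.coheight (zpt k) :=
    coheight_eq_of_isOpenImmersion (chartι k (L0 k))
  rw [h1, ← idealHeight_eq_coheight]
  have h2 : (((RingHom.ker (z0 k)).height : ℕ∞) : WithBot ℕ∞) ≤ ((9 : ℕ∞) : WithBot ℕ∞) :=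
    WithBot.coe_le_coe.2 (ker_z0_height k)
  exact h2

theorem small_component : ∃ Y ∈ irreducibleComponents (HilbS k (CB k) 10),
    topologicalKrullDim Y ≤ 9 :=
  ⟨irreducibleComponent (x0 k), irreducibleComponent_mem_irreducibleComponents _,
    (topDim_le_stalk (HilbS k (CB k) 10) (HilbS.str k (CB k) 10) _ isClosed_irreducibleComponent
      isIrreducible_irreducibleComponent (x0 k) mem_irreducibleComponent (isClosed_x0 k)).trans
      (stalk_x0 k)⟩

end Pool.Agent.Helper226
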