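import Mathlib

set_option autoImplicit false

universe u v

namespace Pool.Agent.Helper226

/-- Index set of the standard basis of the algebras `TT c`. -/
inductive Ix (N : ℕ) : Type
  | one : Ix N
  | u : Fin N → Ix N
  | v : Fin N → Ix N
  | w : Ix N
  | x1 : Ix N
  | x2 : Ix N
  | x3 : Ix N
  deriving DecidableEq

namespace Ix

variable {N : ℕ}

/-- the index set as a sum -/
def toSum : Ix N ≃ (Fin N ⊕ Fin N) ⊕ Fin 5 where
  toFun
    | one => Sum.inr 0
    | u i => Sum.inl (Sum.inl i)
    | v i => Sum.inl (Sum.inr i)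
    | w => Sum.inr 1
    | x1 => Sum.inr 2
    | x2 => Sum.inr 3
    | x3 => Sum.inr 4
  invFun
    | Sum.inl (Sum.inl i) => u i
    | Sum.inl (Sum.inr i) => v i
    | Sum.inr 0 => one
    | Sum.inr 1 => w
    | Sum.inr 2 => x1
    | Sum.inr 3 => x2
    | Sum.inr 4 => x3
  left_inv := by intro x; cases x <;> rfl
  right_inv := by
    rintro ((i | i) | j)
    · rfl
    · rfl
    · fin_cases j <;> rfl

instance : Fintype (Ix N) := Fintype.ofEquiv _ toSum.symm

lemma card : Fintype.card (Ix N) = 2 * N + 5 := by
  rw [Fintype.card_congr toSum]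
  simp
  ring

end Ix

/-- The coefficients of the cubic form. -/
structure Cub (R : Type u) [CommRing R] (N : ℕ) where
  c : Fin N → Fin N → Fin N → R
  s12 : ∀ i j l, c i j l = c j i l
  s23 : ∀ i j l, c i j l = c i l j

section ring
variable {R : Type u} [CommRing R] {N : ℕ}

/-- The algebra with basis `1`, `u_i`, the dual basis `v_i`, the socle generator `w`, and
`x, x^2, x^3`. -/
def TT (_c : Cub R N) : Type u := Ix N → R

variable (c : Cub R N)

namespace TT

instance : AddCommGroup (TT c) := inferInstanceAs (AddCommGroup (Ix N → R))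

instance {k : Type v} [CommRing k] [Algebra k R] : Module k (TT c) :=
  inferInstanceAs (Module k (Ix N → R))

instance : Mul (TT c) where
  mul f g := fun j => match j with
    | .one => f .one * g .one
    | .u i => f .one * g (.u i) + f (.u i) * g .one
    | .v l => f .one * g (.v l) + f (.v l) * g .one +
        ∑ i, ∑ j, c.c i j l * (f (.u i) * g (.u j))
    | .w => f .one * g .w + f .w * g .one + ∑ l, (f (.u l) * g (.v l) + f (.v l) * g (.u l)) +
        (f .x1 * g .x3 + f .x2 * g .x2 + f .x3 * g .x1)
    | .x1 => f .one * g .x1 + f .x1 * g .one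
    | .x2 => f .one * g .x2 + f .x2 * g .one + f .x1 * g .x1
    | .x3 => f .one * g .x3 + f .x3 * g .one + (f .x1 * g .x2 + f .x2 * g .x1)

instance : One (TT c) where
  one := fun j => match j with
    | .one => 1
    | _ => 0

variable {c}

@[ext] lemma ext {f g : TT c} (h1 : f .one = g .one) (h2 : ∀ i, f (.u i) = g (.u i))
    (h3 : ∀ i, f (.v i) = g (.v i)) (h4 : f .w = g .w) (h5 : f .x1 = g .x1)
    (h6 : f .x2 = g .x2) (h7 : f .x3 = g .x3) : f = g := by
  funext j
  cases j
  · exact h1
  · exact h2 _
  · exact h3 _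
  · exact h4
  · exact h5
  · exact h6
  · exact h7

@[simp] lemma add_apply (f g : TT c) (j : Ix N) : (f + g) j = f j + g j := rfl
@[simp] lemma neg_apply (f : TT c) (j : Ix N) : (-f) j = -(f j) := rfl
@[simp] lemma sub_apply (f g : TT c) (j : Ix N) : (f - g) j = f j - g j := rfl
@[simp] lemma zero_apply (j : Ix N) : (0 : TT c) j = 0 := rfl
@[simp] lemma smul_apply {k : Type v} [CommRing k] [Algebra k R] (r : k) (f : TT c) (j : Ix N) :
    (r • f) j = r • f j := rfl
@[simp] lemma one_one : (1 : TT c) .one = 1 := rfl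
@[simp] lemma one_u (i : Fin N) : (1 : TT c) (.u i) = 0 := rfl
@[simp] lemma one_v (i : Fin N) : (1 : TT c) (.v i) = 0 := rfl
@[simp] lemma one_w : (1 : TT c) .w = 0 := rfl
@[simp] lemma one_x1 : (1 : TT c) .x1 = 0 := rfl
@[simp] lemma one_x2 : (1 : TT c) .x2 = 0 := rfl
@[simp] lemma one_x3 : (1 : TT c) .x3 = 0 := rfl
@[simp] lemma mul_one' (f g : TT c) : (f * g) .one = f .one * g .one := rfl
@[simp] lemma mul_u (f g : TT c) (i : Fin N) :
    (f * g) (.u i) = f .one * g (.u i) + f (.u i) * g .one := rfl
@[simp] lemma mul_v (f g : TT c) (l : Fin N) :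
    (f * g) (.v l) = f .one * g (.v l) + f (.v l) * g .one +
        ∑ i, ∑ j, c.c i j l * (f (.u i) * g (.u j)) := rfl
@[simp] lemma mul_w (f g : TT c) : (f * g) .w = f .one * g .w + f .w * g .one +
    ∑ l, (f (.u l) * g (.v l) + f (.v l) * g (.u l)) +
        (f .x1 * g .x3 + f .x2 * g .x2 + f .x3 * g .x1) := rfl
@[simp] lemma mul_x1 (f g : TT c) : (f * g) .x1 = f .one * g .x1 + f .x1 * g .one := rfl
@[simp] lemma mul_x2 (f g : TT c) :
    (f * g) .x2 = f .one * g .x2 + f .x2 * g .one + f .x1 * g .x1 := rfl
@[simp] lemma mul_x3 (f g : TT c) :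
    (f * g) .x3 = f .one * g .x3 + f .x3 * g .one + (f .x1 * g .x2 + f .x2 * g .x1) := rfl

protected lemma mul_comm (f g : TT c) : f * g = g * f := by
  ext
  · simp [mul_comm]
  · simp only [mul_u]; ring
  · rename_i l
    simp only [mul_v]
    rw [Finset.sum_comm]
    rw [add_comm (f .one * g (.v l)), mul_comm (f .one), mul_comm (f (.v l))]
    congr 1
    refine Finset.sum_congr rfl fun i _ => Finset.sum_congr rfl fun j _ => ?_
    rw [c.s12]; ring
  · simp only [mul_w]
    have : ∑ l, (f (.u l) * g (.v l) + f (.v l) * g (.u l)) =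
        ∑ l, (g (.u l) * f (.v l) + g (.v l) * f (.u l)) :=
      Finset.sum_congr rfl fun l _ => by ring
    rw [this]; ring
  · simp only [mul_x1]; ring
  · simp only [mul_x2]; ring
  · simp only [mul_x3]; ring

protected lemma left_distrib (f g h : TT c) : f * (g + h) = f * g + f * h := by
  ext
  · simp [mul_add]
  · simp only [mul_u, add_apply]; ring
  · simp only [mul_v, add_apply, mul_add, Finset.sum_add_distrib]; ring
  · simp only [mul_w, add_apply, mul_add, Finset.sum_add_distrib]; ring
  · simp only [mul_x1, add_apply]; ring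
  · simp only [mul_x2, add_apply]; ring
  · simp only [mul_x3, add_apply]; ring

protected lemma mul_assoc (f g h : TT c) : f * g * h = f * (g * h) := by
  ext
  · simp [mul_assoc]
  · simp only [mul_u, mul_one']; ring
  · rename_i l
    simp only [mul_v, mul_u, mul_one', mul_add, add_mul, Finset.sum_add_distrib, Finset.mul_sum,
      Finset.sum_mul]
    have e1 : ∀ i j : Fin N, c.c i j l * (f .one * g (.u i) * h (.u j)) =
      f .one * (c.c i j l * (g (.u i) * h (.u j))) := fun i j => by ring
    have e2 : ∀ i j : Fin N, c.c i j l * (f (.u i) * g .one * h (.u j)) =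
      c.c i j l * (f (.u i) * (g .one * h (.u j))) := fun i j => by ring
    have e3 : ∀ i j : Fin N, c.c i j l * (f (.u i) * (g (.u j) * h .one)) =
      c.c i j l * (f (.u i) * g (.u j)) * h .one := fun i j => by ring
    simp only [e1, e2, e3]
    ring
  · simp only [mul_v, mul_u, mul_one', mul_w, mul_x1, mul_x2, mul_x3]
    have key : ∑ l, (∑ i, ∑ j, c.c i j l * (f (.u i) * g (.u j))) * h (.u l) =
        ∑ l, f (.u l) * (∑ i, ∑ j, c.c i j l * (g (.u i) * h (.u j))) := by
      simp only [Finset.mul_sum, Finset.sum_mul]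
      rw [Finset.sum_comm]
      refine Finset.sum_congr rfl fun i _ => ?_
      rw [Finset.sum_comm]
      refine Finset.sum_congr rfl fun j _ => Finset.sum_congr rfl fun l _ => ?_
      rw [show c.c i j l = c.c j l i by rw [c.s12, c.s23]]
      ring
    have e4 : ∑ l, ((f .one * g (.u l) + f (.u l) * g .one) * h (.v l) +
        (f .one * g (.v l) + f (.v l) * g .one + ∑ i, ∑ j, c.c i j l * (f (.u i) * g (.u j))) *
          h (.u l)) =
        f .one * ∑ l, (g (.u l) * h (.v l) + g (.v l) * h (.u l)) +
        ∑ l, g .one * (f (.u l) * h (.v l) + f (.v l) * h (.u l)) +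
        ∑ l, (∑ i, ∑ j, c.c i j l * (f (.u i) * g (.u j))) * h (.u l) := by
      rw [Finset.mul_sum, ← Finset.sum_add_distrib, ← Finset.sum_add_distrib]
      exact Finset.sum_congr rfl fun l _ => by ring
    have e5 : ∑ l, (f (.u l) * (g .one * h (.v l) + g (.v l) * h .one +
          ∑ i, ∑ j, c.c i j l * (g (.u i) * h (.u j))) +
        f (.v l) * (g .one * h (.u l) + g (.u l) * h .one)) =
        h .one * ∑ l, (f (.u l) * g (.v l) + f (.v l) * g (.u l)) +
        ∑ l, g .one * (f (.u l) * h (.v l) + f (.v l) * h (.u l)) +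
        ∑ l, f (.u l) * (∑ i, ∑ j, c.c i j l * (g (.u i) * h (.u j))) := by
      rw [Finset.mul_sum, ← Finset.sum_add_distrib, ← Finset.sum_add_distrib]
      exact Finset.sum_congr rfl fun l _ => by ring
    rw [e4, e5, key]
    ring
  · simp only [mul_x1, mul_one']; ring
  · simp only [mul_x2, mul_x1, mul_one']; ring
  · simp only [mul_x3, mul_x2, mul_x1, mul_one']; ring

protected lemma one_mul (f : TT c) : 1 * f = f := by
  ext <;> simp

protected lemma zero_mul (f : TT c) : 0 * f = 0 := by
  ext <;> simp

instance : CommRing (TT c) where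
  __ := (inferInstance : AddCommGroup (TT c))
  mul_assoc := TT.mul_assoc
  one_mul := TT.one_mul
  mul_one f := by rw [TT.mul_comm, TT.one_mul]
  left_distrib := TT.left_distrib
  right_distrib f g h := by rw [TT.mul_comm, TT.left_distrib, TT.mul_comm h f, TT.mul_comm h g]
  zero_mul := TT.zero_mul
  mul_zero f := by rw [TT.mul_comm, TT.zero_mul]
  mul_comm := TT.mul_comm

instance {k : Type v} [CommRing k] [Algebra k R] : Algebra k (TT c) :=
  Algebra.ofModule
    (by
      intro r f g
      ext
      · simp [smul_mul_assoc]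
      · simp [smul_add]
      · simp [smul_add, Finset.smul_sum]
      · simp [smul_add, Finset.smul_sum]
      · simp [smul_add]
      · simp [smul_add]
      · simp [smul_add])
    (by
      intro r f g
      ext
      · simp
      · simp [smul_add]
      · simp [smul_add, Finset.smul_sum]
      · simp [smul_add, Finset.smul_sum]
      · simp [smul_add]
      · simp [smul_add]
      · simp [smul_add])

end TT

end ring

end Pool.Agent.Helper226
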