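import Mathlib
import Pool.Agent.Helper226.LociPts

set_option autoImplicit false

open scoped TensorProduct
open CategoryTheory AlgebraicGeometry

universe u

namespace Pool.Agent.Helper226

section
variable {k : Type u} [Field k] {B : Type u} [CommRing B] [Algebra k B] {d : ℕ}

lemma exists_tmul_one (x : k ⊗[k] B) : ∃ y : B, (1 : k) ⊗ₜ[k] y = x := by
  induction x using TensorProduct.induction_on with
  | zero => exact ⟨0, by simp⟩
  | add x y hx hy =>
    obtain ⟨a, rfl⟩ := hx
    obtain ⟨b, rfl⟩ := hy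
    exact ⟨a + b, by rw [TensorProduct.tmul_add]⟩
  | tmul r y =>
    refine ⟨r • y, ?_⟩
    rw [TensorProduct.tmul_smul, TensorProduct.smul_tmul', smul_eq_mul, mul_one]

lemma Chart.ideal_eq_of_ker_eq {b b' : Fin d → B} {c : Chart k b k} {c' : Chart k b' k}
    (h : c.ker = c'.ker) : c.ideal = c'.ideal := by
  ext x
  obtain ⟨y, rfl⟩ := exists_tmul_one x
  have h1 : y ∈ c.ker ↔ y ∈ c'.ker := by rw [h]
  exact h1

/-- the quotient by the kernel -/
noncomputable def Chart.quotEquiv {b : Fin d → B} (c : Chart k b k) :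
    (B ⧸ c.ker) ≃ₗ[k] (Fin d → k) := by
  have hs : Function.Surjective c.q := by
    intro v
    refine ⟨∑ i, v i • b i, ?_⟩
    rw [map_sum]
    ext j
    simp [c.q_b, Pi.single_apply]
  have hk : LinearMap.ker c.q = c.ker.restrictScalars k := by
    ext x
    simp [Chart.mem_ker]
  exact (Submodule.quotEquivOfEq _ _ hk.symm).trans (c.q.quotKerEquivOfSurjective hs)

lemma exists_points [IsAlgClosed k] {b : Fin d → B} (c : Chart k b k) (hrad : c.ker.IsRadical) :
    ∃ ev : Fin d → (B →ₐ[k] k), (∀ x, x ∈ c.ker ↔ ∀ l, ev l x = 0) ∧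
      ∃ ε : Fin d → B, ∀ j l, ev l (ε j) = if j = l then 1 else 0 := by
  classical
  let Q := B ⧸ c.ker
  have hfin : Module.Finite k Q := Module.Finite.equiv c.quotEquiv.symm
  have hart : IsArtinianRing Q := IsArtinianRing.of_finite k Q
  have hred : IsReduced Q := (Ideal.isRadical_iff_quotient_reduced _).1 hrad
  let E := IsArtinianRing.equivPi Q
  have hbij : ∀ M : MaximalSpectrum Q, Function.Bijective (algebraMap k (Q ⧸ M.asIdeal)) := by
    intro M
    have hM := M.isMaximal
    have : IsDomain (Q ⧸ M.asIdeal) := Ideal.Quotient.isDomain _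
    have hf : Module.Finite k (Q ⧸ M.asIdeal) :=
      Module.Finite.of_surjective (Ideal.Quotient.mkₐ k M.asIdeal).toLinearMap
        Ideal.Quotient.mk_surjective
    exact IsAlgClosed.algebraMap_bijective_of_isIntegral
  let κ : ∀ M : MaximalSpectrum Q, (Q ⧸ M.asIdeal) ≃ₐ[k] k := fun M =>
    (AlgEquiv.ofBijective (Algebra.ofId k (Q ⧸ M.asIdeal)) (hbij M)).symm
  let evM : MaximalSpectrum Q → (Q →ₐ[k] k) := fun M =>
    ((κ M : (Q ⧸ M.asIdeal) →ₐ[k] k)).comp (Ideal.Quotient.mkₐ k M.asIdeal)
  have hF : Function.Bijective (fun (x : Q) (M : MaximalSpectrum Q) => evM M x) := by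
    constructor
    · intro x y hxy
      apply E.injective
      funext M
      rw [IsArtinianRing.equivPi_apply, IsArtinianRing.equivPi_apply]
      exact (κ M).injective (congrFun hxy M)
    · intro v
      obtain ⟨x, hx⟩ := E.surjective (fun M => (κ M).symm (v M))
      refine ⟨x, ?_⟩
      funext M
      have := congrFun hx M
      rw [IsArtinianRing.equivPi_apply] at this
      change κ M (Ideal.Quotient.mk M.asIdeal x) = v M
      rw [this, AlgEquiv.apply_symm_apply]
  have hft : Fintype (MaximalSpectrum Q) := Fintype.ofFinite _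
  let Fl : Q →ₗ[k] (MaximalSpectrum Q → k) := LinearMap.pi fun M => (evM M).toLinearMap
  let Fe : Q ≃ₗ[k] (MaximalSpectrum Q → k) := LinearEquiv.ofBijective Fl hF
  have hcard : Fintype.card (Fin d) = Fintype.card (MaximalSpectrum Q) := by
    have h1 := (c.quotEquiv.symm.trans Fe).finrank_eq
    simpa using h1
  let e : Fin d ≃ MaximalSpectrum Q := Fintype.equivOfCardEq hcard
  refine ⟨fun l => (evM (e l)).comp (Ideal.Quotient.mkₐ k c.ker), ?_, ?_⟩
  · intro x
    constructor
    · intro hx l
      rw [AlgHom.comp_apply]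
      have : Ideal.Quotient.mkₐ k c.ker x = 0 := Ideal.Quotient.eq_zero_iff_mem.2 hx
      rw [this, map_zero]
    · intro h
      apply Ideal.Quotient.eq_zero_iff_mem.1
      apply hF.1
      funext M
      have := h (e.symm M)
      rw [AlgHom.comp_apply, Equiv.apply_symm_apply] at this
      change evM M _ = evM M 0
      rw [map_zero]
      exact this
  · have hex : ∀ j : Fin d, ∃ x : B, ∀ l, evM (e l) (Ideal.Quotient.mk c.ker x) =
        if j = l then 1 else 0 := by
      intro j
      obtain ⟨y, hy⟩ := hF.2 (fun M => if e j = M then 1 else 0)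
      obtain ⟨x, rfl⟩ := Ideal.Quotient.mk_surjective y
      refine ⟨x, fun l => ?_⟩
      have := congrFun hy (e l)
      simp only at this
      rw [this]
      simp
    choose ε hε using hex
    exact ⟨ε, hε⟩

/-- chart datum of a reduced point -/
noncomputable def redChart (ev : Fin d → (B →ₐ[k] k)) (ε : Fin d → B)
    (hε : ∀ j l, ev l (ε j) = if j = l then 1 else 0) : Chart k ε k where
  q := LinearMap.pi fun l => (ev l).toLinearMap
  q_b := by
    intro i
    ext l
    simp only [LinearMap.pi_apply, AlgHom.toLinearMap_apply, hε, Pi.single_apply, eq_comm]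
  q_mul := by
    intro x y
    ext l
    simp only [LinearMap.pi_apply, AlgHom.toLinearMap_apply, map_mul, Finset.sum_apply,
      Pi.smul_apply, hε, smul_eq_mul, ite_mul, one_mul, zero_mul, mul_ite, mul_zero]
    simp

lemma redChart_q (ev : Fin d → (B →ₐ[k] k)) (ε : Fin d → B)
    (hε : ∀ j l, ev l (ε j) = if j = l then 1 else 0) (x : B) (l : Fin d) :
    (redChart ev ε hε).q x l = ev l x := rfl

variable {R' : Type u} [CommRing R'] [Algebra k R']

/-- tangent vectors at a reduced point -/
lemma red_tangent {n : ℕ} (ev : Fin d → (B →ₐ[k] k)) (ε : Fin d → B)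
    (hε : ∀ j l, ev l (ε j) = if j = l then 1 else 0) (g : Fin d → Fin n → B)
    (hg0 : ∀ l i, ev l (g l i) = 0)
    (hg : ∀ l x, ev l x = 0 → ∃ a : Fin n → B, x = ∑ i, a i * g l i)
    (N : Ideal R') (hN : ∀ x ∈ N, ∀ y ∈ N, x * y = 0) (c : Chart k ε R')
    (h0 : ∀ x j, c.q x j - algebraMap k R' (ev j x) ∈ N)
    (h1 : ∀ l i, c.q (g l i * ε l) l = 0) (x : B) (j : Fin d) :
    c.q x j = algebraMap k R' (ev j x) := by
  have rel : ∀ w : B, (∀ l, ev l w = 0) → ∀ y l, c.q (w * y) l =
      algebraMap k R' (ev l y) * c.q w l := by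
    intro w hw y l
    rw [c.q_mul, Finset.sum_apply]
    have h2 : ∀ j, (c.q w j • c.q (ε j * y)) l =
        if j = l then algebraMap k R' (ev l y) * c.q w l else 0 := by
      intro j
      rw [Pi.smul_apply, smul_eq_mul]
      have h3 : c.q w j ∈ N := by
        have := h0 w j
        rwa [hw, map_zero, sub_zero] at this
      have h4 := hN _ h3 _ (h0 (ε j * y) l)
      rw [mul_sub, sub_eq_zero] at h4
      rw [h4, map_mul, hε]
      split_ifs with h
      · subst h
        rw [one_mul, mul_comm]
      · simp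
    simp only [h2, Finset.sum_ite_eq', Finset.mem_univ, if_true]
  have hJ : ∀ w : B, (∀ l, ev l w = 0) → ∀ l, c.q w l = 0 := by
    intro w hw l
    obtain ⟨a, ha⟩ := hg l w (hw l)
    have h5 : c.q (w * (ε l * ε l)) l = c.q w l := by
      rw [rel w hw, map_mul, hε]
      simp
    rw [← h5]
    have h6 : w * (ε l * ε l) = ∑ i, (g l i * ε l) * (a i * ε l) := by
      conv_lhs => rw [ha]
      rw [Finset.sum_mul]
      exact Finset.sum_congr rfl fun i _ => by ring
    rw [h6, map_sum, Finset.sum_apply]
    refine Finset.sum_eq_zero fun i _ => ?_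
    rw [rel, h1, mul_zero]
    intro l'
    rw [map_mul, hε]
    by_cases h : l = l'
    · subst h
      rw [hg0, zero_mul]
    · rw [if_neg h, mul_zero]
  have h7 := hJ (x - ∑ i, ev i x • ε i) (by
    intro l
    rw [map_sub, map_sum]
    simp [hε]) j
  rw [map_sub, Pi.sub_apply, sub_eq_zero] at h7
  rw [h7, map_sum, Finset.sum_apply]
  simp only [map_smul, Pi.smul_apply, c.q_b, Pi.single_apply]
  simp [Algebra.smul_def]

theorem red_stalk_le [Algebra.FiniteType k B] {n : ℕ} (ev : Fin d → (B →ₐ[k] k)) (ε : Fin d → B)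
    (hε : ∀ j l, ev l (ε j) = if j = l then 1 else 0) (g : Fin d → Fin n → B)
    (hg0 : ∀ l i, ev l (g l i) = 0)
    (hg : ∀ l x, ev l x = 0 → ∃ a : Fin n → B, x = ∑ i, a i * g l i) :
    ringKrullDim ((HilbS k B d).presheaf.stalk
      (chartι k (Idx.single ε) (zp (redChart ev ε hε)))) ≤ ((n * d : ℕ) : WithBot ℕ∞) := by
  set cz := redChart ev ε hε with hcz
  set z := clf cz with hz
  have hzq : ∀ x j, z ((uc k ε).q x j) = ev j x := by
    intro x j
    rw [← Chart.map_q, uc_map_clf]
    rfl
  set m := RingHom.ker z with hm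
  let f : (Fin n × Fin d) → AR k ε := fun t => (uc k ε).q (g t.2 t.1 * ε t.2) t.2
  have hf : ∀ t, z (f t) = 0 := by
    intro t
    change z ((uc k ε).q (g t.2 t.1 * ε t.2) t.2) = 0
    rw [hzq, map_mul, hg0, zero_mul]
  refine (stalk_le cz f hf ?_).trans (by simp)
  let N : Ideal (AR k ε) := Ideal.span (Set.range f) ⊔ m * m
  let φ : AR k ε →ₐ[k] (AR k ε ⧸ N) := Ideal.Quotient.mkₐ k N
  let ψ : AR k ε →ₐ[k] (AR k ε ⧸ N) := (Algebra.ofId k (AR k ε ⧸ N)).comp z
  have hφψ : φ = ψ := by
    apply hom_ext_uc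
    ext x j
    rw [Chart.map_q, Chart.map_q]
    have := red_tangent ev ε hε g hg0 hg (m.map φ) ?_ ((uc k ε).map φ) ?_ ?_ x j
    · rw [Chart.map_q] at this
      rw [this]
      change _ = algebraMap k _ (z ((uc k ε).q x j))
      rw [hzq]
    · intro x hx y hy
      have h1 : x * y ∈ m.map φ * m.map φ := Ideal.mul_mem_mul hx hy
      rw [← Ideal.map_mul] at h1
      have h2 : (m * m).map φ ≤ ⊥ := by
        rw [Ideal.map_le_iff_le_comap]
        intro w hw
        rw [Ideal.mem_comap, Ideal.mem_bot]
        exact Ideal.Quotient.eq_zero_iff_mem.2 (Ideal.mem_sup_right hw)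
      exact (Ideal.mem_bot).1 (h2 h1)
    · intro x j
      rw [Chart.map_q, ← hzq, ← φ.commutes, ← map_sub]
      apply Ideal.mem_map_of_mem
      rw [hm, RingHom.mem_ker, map_sub, z.commutes]
      simp
    · intro l i
      rw [Chart.map_q]
      exact Ideal.Quotient.eq_zero_iff_mem.2
        (Ideal.mem_sup_left (Ideal.subset_span ⟨(i, l), rfl⟩))
  intro x hx
  have : φ x = 0 := by
    rw [hφψ]
    change algebraMap k _ (z x) = 0
    rw [RingHom.mem_ker.1 hx, map_zero]
  exact Ideal.Quotient.eq_zero_iff_mem.1 this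

end

section poly

variable {k : Type u} [Field k] {n d : ℕ}

open MvPolynomial

lemma sub_eval_mem (p : Fin n → k) (g : MvPolynomial (Fin n) k) :
    g - C (eval p g) ∈ Ideal.span (Set.range fun i => (X i - C (p i) : MvPolynomial (Fin n) k)) := by
  induction g using MvPolynomial.induction_on with
  | C a => simp
  | add g h hg hh =>
    rw [map_add, map_add, add_sub_add_comm]
    exact Ideal.add_mem _ hg hh
  | mul_X g i hg =>
    have : g * X i - C (eval p (g * X i)) =
        X i * (g - C (eval p g)) + C (eval p g) * (X i - C (p i)) := by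
      simp only [map_mul, eval_X]
      ring
    rw [this]
    exact Ideal.add_mem _ (Ideal.mul_mem_left _ _ hg)
      (Ideal.mul_mem_left _ _ (Ideal.subset_span ⟨i, rfl⟩))

theorem red_stalk_le_poly [IsAlgClosed k] {b : Fin d → MvPolynomial (Fin n) k} (c : Chart k b k)
    (hrad : c.ker.IsRadical) :
    ringKrullDim ((HilbS k (MvPolynomial (Fin n) k) d).presheaf.stalk
      (chartι k (Idx.single b) (zp c))) ≤ ((n * d : ℕ) : WithBot ℕ∞) := by
  obtain ⟨ev, hker, ε, hε⟩ := exists_points c hrad
  have hev : ∀ l x, ev l x = eval (fun i => ev l (X i)) x := by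
    intro l x
    have : ev l = aeval (fun i => ev l (X i)) := by
      apply MvPolynomial.algHom_ext
      intro i
      simp
    conv_lhs => rw [this]
    rfl
  have h1 : (redChart ev ε hε).ker = c.ker := by
    ext x
    rw [Chart.mem_ker, hker]
    constructor
    · intro h l
      exact congrFun h l
    · intro h
      ext l
      exact h l
  have h2 : chartι k (Idx.single b) (zp c) =
      chartι k (Idx.single ε) (zp (redChart ev ε hε)) := by
    rw [← mem_range_mor_iff, ← mor_eq_of_ideal_eq c (redChart ev ε hε)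
      (Chart.ideal_eq_of_ker_eq h1.symm), mem_range_mor_iff]
  rw [h2]
  apply red_stalk_le ev ε hε (fun l i => X i - C (ev l (X i)))
  · intro l i
    rw [map_sub, hev l (C _), eval_C, sub_self]
  · intro l x hx
    have h3 := sub_eval_mem (fun i => ev l (X i)) x
    rw [← hev, hx, map_zero, sub_zero] at h3
    obtain ⟨a, ha⟩ := (Ideal.mem_span_range_iff_exists_fun).1 h3
    exact ⟨a, ha.symm⟩

end poly

end Pool.Agent.Helper226
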