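import Mathlib
import Pool.Agent.Helper226.RedPoint

set_option autoImplicit false

open scoped TensorProduct
open MvPolynomial

universe u

namespace Pool.Agent.Helper226

section
variable {k : Type u} [Field k] {n d : ℕ} (e : Fin d → (Fin n →₀ ℕ))
variable {R : Type u} [CommRing R] [Algebra k R]

/-- monomials -/
noncomputable def mb (k : Type u) [Field k] {n d : ℕ} (e : Fin d → (Fin n →₀ ℕ)) :
    Fin d → MvPolynomial (Fin n) k :=
  fun j => monomial (e j) 1

lemma constr_monomial (w : (Fin n →₀ ℕ) → (Fin d → R)) (μ : Fin n →₀ ℕ) :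
    ((basisMonomials (Fin n) k).constr k w) (monomial μ 1) = w μ := by
  have h : (monomial μ (1 : k)) = (basisMonomials (Fin n) k) μ := by
    rw [coe_basisMonomials]
  rw [h, Module.Basis.constr_basis]

/-- a chart datum from its values on monomials -/
noncomputable def wChart (w : (Fin n →₀ ℕ) → (Fin d → R))
    (w1 : ∀ j, w (e j) = Pi.single j 1)
    (w2 : ∀ α β, w (α + β) = ∑ j, w α j • w (e j + β)) : Chart k (mb k e) R where
  q := (basisMonomials (Fin n) k).constr k w
  q_b := by
    intro i
    rw [← w1 i, mb, constr_monomial]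
  q_mul := by
    have hq : ∀ μ, ((basisMonomials (Fin n) k).constr k w) (monomial μ 1) = w μ := by
      intro μ
      exact constr_monomial w μ
    have hm : ∀ j β, mb k e j * monomial β 1 = monomial (e j + β) 1 := by
      intro j β
      rw [mb, monomial_mul, one_mul]
    set q := (basisMonomials (Fin n) k).constr k w with hqdef
    -- both sides are bilinear
    let L1 : MvPolynomial (Fin n) k →ₗ[k] MvPolynomial (Fin n) k →ₗ[k] (Fin d → R) :=
      (LinearMap.mul k (MvPolynomial (Fin n) k)).compr₂ q
    let L2 : MvPolynomial (Fin n) k →ₗ[k] MvPolynomial (Fin n) k →ₗ[k] (Fin d → R) :=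
      LinearMap.mk₂ k (fun x y => ∑ j, q x j • q (mb k e j * y))
        (by intro x x' y; simp [add_smul, Finset.sum_add_distrib])
        (by intro c x y; simp [Finset.smul_sum])
        (by intro x y y'; simp [mul_add, smul_add, Finset.sum_add_distrib])
        (by
          intro c x y
          simp only [mul_smul_comm, map_smul, Finset.smul_sum]
          exact Finset.sum_congr rfl fun j _ => smul_comm _ _ _)
    have h12 : L1 = L2 := by
      apply (basisMonomials (Fin n) k).ext
      intro α
      apply (basisMonomials (Fin n) k).ext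
      intro β
      simp only [coe_basisMonomials, L1, L2, LinearMap.compr₂_apply, LinearMap.mul_apply',
        LinearMap.mk₂_apply, monomial_mul, one_mul, hm, hq]
      exact w2 α β
    intro x y
    exact LinearMap.congr_fun (LinearMap.congr_fun h12 x) y

lemma wChart_q (w : (Fin n →₀ ℕ) → (Fin d → R))
    (w1 : ∀ j, w (e j) = Pi.single j 1)
    (w2 : ∀ α β, w (α + β) = ∑ j, w α j • w (e j + β)) (μ : Fin n →₀ ℕ) :
    (wChart (k := k) e w w1 w2).q (monomial μ 1) = w μ := by
  exact constr_monomial w μ

lemma chart_ext_monomial {b : Fin d → MvPolynomial (Fin n) k} {c c' : Chart k b R}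
    (h : ∀ μ, c.q (monomial μ 1) = c'.q (monomial μ 1)) : c = c' := by
  have : c.q = c'.q := by
    apply (basisMonomials (Fin n) k).ext
    intro μ
    rw [coe_basisMonomials]
    exact h μ
  ext x : 1
  rw [this]

lemma chart_q_eq_sum {b : Fin d → MvPolynomial (Fin n) k} (c : Chart k b R)
    (f : MvPolynomial (Fin n) k) :
    c.q f = ∑ μ ∈ f.support, f.coeff μ • c.q (monomial μ 1) := by
  conv_lhs => rw [f.as_sum]
  rw [map_sum]
  refine Finset.sum_congr rfl fun μ _ => ?_
  rw [← map_smul, smul_monomial, smul_eq_mul, mul_one]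

end

end Pool.Agent.Helper226
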