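import Mathlib
import Pool.Agent.Helper226.WChart

set_option autoImplicit false

open scoped TensorProduct
open MvPolynomial

universe u

namespace Pool.Agent.Helper226

/-- combinatorial data: a monomial basis of `S/I` for ideals between the cube and the square of
the maximal ideal -/
structure QData (n d : ℕ) where
  e : Fin d → (Fin n →₀ ℕ)
  e_inj : Function.Injective e
  e_deg : ∀ j, (e j).degree ≤ 2
  e_small : ∀ μ : Fin n →₀ ℕ, μ.degree ≤ 1 → ∃ j, e j = μ
  N : Type
  [finN : Fintype N]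
  [decN : DecidableEq N]
  nb : N → (Fin n →₀ ℕ)
  nb_inj : Function.Injective nb
  nb_deg : ∀ i, (nb i).degree = 2
  nb_disj : ∀ i j, nb i ≠ e j
  cover : ∀ μ : Fin n →₀ ℕ, μ.degree = 2 → (∃ j, e j = μ) ∨ (∃ i, nb i = μ)

attribute [instance] QData.finN QData.decN

namespace QData

variable {n d : ℕ} (D : QData n d)

/-- indices of the quadratic monomials -/
abbrev E : Type := {j : Fin d // (D.e j).degree = 2}

section w
variable {k : Type u} [Field k] {R : Type u} [CommRing R] [Algebra k R]

open Classical in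
/-- value on monomials: `a` gives the quadratic monomials outside of the basis, `c` the cubic
monomials -/
noncomputable def wfun (R : Type u) [CommRing R] (a : D.N → D.E → R) (c : (Fin n →₀ ℕ) → D.E → R)
    (μ : Fin n →₀ ℕ) : Fin d → R :=
  if h : ∃ j, D.e j = μ then Pi.single h.choose 1
  else if h : ∃ i, D.nb i = μ then fun j => if hj : (D.e j).degree = 2 then a h.choose ⟨j, hj⟩ else 0
  else if μ.degree = 3 then fun j => if hj : (D.e j).degree = 2 then c μ ⟨j, hj⟩ else 0
  else 0

variable (a : D.N → D.E → R) (c : (Fin n →₀ ℕ) → D.E → R)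

lemma wfun_e (j : Fin d) : D.wfun R a c (D.e j) = Pi.single j 1 := by
  have h : ∃ j', D.e j' = D.e j := ⟨j, rfl⟩
  unfold wfun
  rw [dif_pos h]
  congr 1
  exact D.e_inj h.choose_spec

lemma wfun_nb (i : D.N) : D.wfun R a c (D.nb i) =
    fun j => if hj : (D.e j).degree = 2 then a i ⟨j, hj⟩ else 0 := by
  have h1 : ¬ ∃ j', D.e j' = D.nb i := by
    rintro ⟨j, hj⟩
    exact D.nb_disj i j hj.symm
  have h : ∃ i', D.nb i' = D.nb i := ⟨i, rfl⟩
  unfold wfun
  rw [dif_neg h1, dif_pos h]
  have : h.choose = i := D.nb_inj h.choose_spec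
  rw [this]

lemma wfun_three (μ : Fin n →₀ ℕ) (hμ : μ.degree = 3) : D.wfun R a c μ =
    fun j => if hj : (D.e j).degree = 2 then c μ ⟨j, hj⟩ else 0 := by
  have h1 : ¬ ∃ j', D.e j' = μ := by
    rintro ⟨j, rfl⟩
    have := D.e_deg j
    omega
  have h2 : ¬ ∃ i', D.nb i' = μ := by
    rintro ⟨j, rfl⟩
    have := D.nb_deg j
    omega
  unfold wfun
  rw [dif_neg h1, dif_neg h2, if_pos hμ]

lemma wfun_four (μ : Fin n →₀ ℕ) (hμ : 4 ≤ μ.degree) : D.wfun R a c μ = 0 := by
  have h1 : ¬ ∃ j', D.e j' = μ := by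
    rintro ⟨j, rfl⟩
    have := D.e_deg j
    omega
  have h2 : ¬ ∃ i', D.nb i' = μ := by
    rintro ⟨j, rfl⟩
    have := D.nb_deg j
    omega
  unfold wfun
  rw [dif_neg h1, dif_neg h2, if_neg (by omega)]

/-- the support of the values is in the quadratic part from degree two on -/
lemma wfun_supp (μ : Fin n →₀ ℕ) (hμ : 2 ≤ μ.degree) (j : Fin d) (hj : (D.e j).degree ≠ 2) :
    D.wfun R a c μ j = 0 := by
  rcases lt_or_ge μ.degree 3 with h | h
  · have h2 : μ.degree = 2 := by omega
    rcases D.cover μ h2 with ⟨j', rfl⟩ | ⟨i, rfl⟩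
    · rw [wfun_e, Pi.single_apply, if_neg]
      rintro rfl
      exact hj h2
    · rw [wfun_nb]
      simp only [dif_neg hj]
  · rcases h.eq_or_lt with h | h
    · rw [wfun_three D a c μ h.symm]
      simp only [dif_neg hj]
    · rw [wfun_four D a c μ (by omega)]
      rfl

lemma sum_single_smul (j : Fin d) (v : Fin d → (Fin d → R)) :
    ∑ j', (Pi.single j (1 : R) : Fin d → R) j' • v j' = v j := by
  simp [Pi.single_apply]

lemma sum_smul_single (v : Fin d → R) :
    ∑ j, v j • (Pi.single j (1 : R) : Fin d → R) = v := by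
  ext l
  simp [Pi.single_apply]

lemma sum_E {M : Type*} [AddCommMonoid M] (g : Fin d → M)
    (hg : ∀ j, (D.e j).degree ≠ 2 → g j = 0) : ∑ j, g j = ∑ j : D.E, g j.1 := by
  rw [← Finset.sum_filter_of_ne (p := fun j => (D.e j).degree = 2)]
  · exact Finset.sum_subtype _ (by simp) _
  · intro j _ h
    by_contra h2
    exact h (hg j h2)

/-- the multiplicativity relation -/
lemma wfun_mul (h3 : ∀ (i : D.N) (β : Fin n →₀ ℕ), β.degree = 1 → ∀ l : D.E,
      c (D.nb i + β) l = ∑ j : D.E, a i j * c (D.e j.1 + β) l)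
    (h4 : ∀ (α β : Fin n →₀ ℕ), α.degree = 3 → β.degree = 1 → ∀ l : D.E,
      ∑ j : D.E, c α j * c (D.e j.1 + β) l = 0)
    (α β : Fin n →₀ ℕ) :
    D.wfun R a c (α + β) = ∑ j, D.wfun R a c α j • D.wfun R a c (D.e j + β) := by
  have hb : ∀ j0, D.wfun R a c (D.e j0 + β) =
      ∑ j, D.wfun R a c (D.e j0) j • D.wfun R a c (D.e j + β) := by
    intro j0
    rw [wfun_e, sum_single_smul]
  -- sum restricted to the quadratic part
  have hsum : 2 ≤ α.degree → ∑ j, D.wfun R a c α j • D.wfun R a c (D.e j + β) =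
      ∑ j : D.E, D.wfun R a c α j.1 • D.wfun R a c (D.e j.1 + β) := by
    intro hα
    apply D.sum_E
    intro j hj
    rw [D.wfun_supp a c α hα j hj, zero_smul]
  by_cases hβ0 : β = 0
  · subst hβ0
    simp only [add_zero, wfun_e, sum_smul_single]
  have hβ : 1 ≤ β.degree := by
    rw [Nat.one_le_iff_ne_zero]
    intro h
    exact hβ0 ((Finsupp.degree_eq_zero_iff β).1 h)
  rcases le_or_gt α.degree 1 with hα | hα
  · obtain ⟨j0, rfl⟩ := D.e_small α hα
    exact hb j0
  have hα2 : 2 ≤ α.degree := hα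
  have hadd : (α + β).degree = α.degree + β.degree := map_add _ _ _
  have haddj : ∀ j, (D.e j + β).degree = (D.e j).degree + β.degree := fun j => map_add _ _ _
  rcases eq_or_lt_of_le hα2 with hα3 | hα3
  · rcases D.cover α hα3.symm with ⟨j0, rfl⟩ | ⟨i, rfl⟩
    · exact hb j0
    rw [hsum hα2]
    rcases eq_or_lt_of_le hβ with hβ1 | hβ1
    · rw [wfun_three D a c _ (by rw [hadd]; omega)]
      have h5 : ∀ j : D.E, D.wfun R a c (D.nb i) j.1 • D.wfun R a c (D.e j.1 + β) =
          fun l => if hl : (D.e l).degree = 2 then a i j * c (D.e j.1 + β) ⟨l, hl⟩ else 0 := by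
        intro j
        rw [wfun_nb, wfun_three D a c (D.e j.1 + β) (by rw [haddj]; have := j.2; omega)]
        ext l
        simp only [Pi.smul_apply, smul_eq_mul, j.2, dite_true]
        split_ifs <;> simp
      simp only [h5]
      ext l
      rw [Finset.sum_apply]
      split_ifs with hl
      · exact h3 i β hβ1.symm ⟨l, hl⟩
      · simp
    · rw [wfun_four D a c _ (by rw [hadd]; omega)]
      symm
      refine Finset.sum_eq_zero fun j _ => ?_
      rw [wfun_four D a c (D.e j.1 + β) (by rw [haddj]; have := j.2; omega), smul_zero]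
  · rw [wfun_four D a c (α + β) (by rw [hadd]; omega), hsum hα2]
    symm
    rcases eq_or_lt_of_le (show 3 ≤ α.degree from hα3) with hα4 | hα4
    · rcases eq_or_lt_of_le hβ with hβ1 | hβ1
      · have h5 : ∀ j : D.E, D.wfun R a c α j.1 • D.wfun R a c (D.e j.1 + β) =
            fun l => if hl : (D.e l).degree = 2 then c α j * c (D.e j.1 + β) ⟨l, hl⟩ else 0 := by
          intro j
          rw [wfun_three D a c α (by omega),
            wfun_three D a c (D.e j.1 + β) (by rw [haddj]; have := j.2; omega)]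
          ext l
          simp only [Pi.smul_apply, smul_eq_mul, j.2, dite_true]
          split_ifs <;> simp
        simp only [h5]
        ext l
        rw [Finset.sum_apply]
        simp only [Pi.zero_apply]
        by_cases hl : (D.e l).degree = 2
        · simp only [hl, dite_true]
          exact h4 α β (by omega) hβ1.symm ⟨l, hl⟩
        · simp [hl]
      · refine Finset.sum_eq_zero fun j _ => ?_
        rw [wfun_four D a c (D.e j.1 + β) (by rw [haddj]; have := j.2; omega), smul_zero]
    · refine Finset.sum_eq_zero fun j _ => ?_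
      rw [wfun_four D a c α (by omega)]
      simp

/-- the chart datum with given values on monomials -/
noncomputable def chart (h3 : ∀ (i : D.N) (β : Fin n →₀ ℕ), β.degree = 1 → ∀ l : D.E,
      c (D.nb i + β) l = ∑ j : D.E, a i j * c (D.e j.1 + β) l)
    (h4 : ∀ (α β : Fin n →₀ ℕ), α.degree = 3 → β.degree = 1 → ∀ l : D.E,
      ∑ j : D.E, c α j * c (D.e j.1 + β) l = 0) : Chart k (mb k D.e) R :=
  wChart D.e (D.wfun R a c) (D.wfun_e a c) (D.wfun_mul a c h3 h4)

lemma chart_q (h3 : ∀ (i : D.N) (β : Fin n →₀ ℕ), β.degree = 1 → ∀ l : D.E,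
      c (D.nb i + β) l = ∑ j : D.E, a i j * c (D.e j.1 + β) l)
    (h4 : ∀ (α β : Fin n →₀ ℕ), α.degree = 3 → β.degree = 1 → ∀ l : D.E,
      ∑ j : D.E, c α j * c (D.e j.1 + β) l = 0) (μ : Fin n →₀ ℕ) :
    (D.chart (k := k) a c h3 h4).q (monomial μ 1) = D.wfun R a c μ :=
  wChart_q _ _ _ _ _

end w

end QData

end Pool.Agent.Helper226
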