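import Mathlib

set_option autoImplicit false

universe u v

namespace Pool.Agent.Helper226

open TopologicalSpace Topology

lemma exists_irreducible_meeting {X : Type u} {V : Type v} [TopologicalSpace X]
    [TopologicalSpace V] [NoetherianSpace V] (ψ : V → X) (hψ : IsOpenEmbedding ψ)
    (S C : Set X) (hC : IsIrreducible C)
    (hsub : C ⊆ closure S) (hne : (C ∩ Set.range ψ).Nonempty) :
    ∃ Y : Set X, IsClosed Y ∧ IsIrreducible Y ∧ C ⊆ Y ∧ (S ∩ Y).Nonempty := by
  classical
  have hcl : ψ ⁻¹' (closure S) = closure (ψ ⁻¹' S) :=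
    hψ.isOpenMap.preimage_closure_eq_closure_preimage hψ.continuous S
  have hC' : IsIrreducible (ψ ⁻¹' C) := hC.preimage hψ hne
  obtain ⟨T, hTf, hTc, hTi, hTU⟩ :=
    NoetherianSpace.exists_finite_set_isClosed_irreducible (isClosed_closure (s := ψ ⁻¹' S))
  lift T to Finset (Set V) using hTf
  have h1 : ψ ⁻¹' C ⊆ ⋃₀ ((T.image fun t => closure (ψ ⁻¹' S ∩ t) : Finset (Set V)) : Set (Set V)) := by
    have h2 : closure (ψ ⁻¹' S) ⊆
        ⋃₀ ((T.image fun t => closure (ψ ⁻¹' S ∩ t) : Finset (Set V)) : Set (Set V)) := by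
      apply closure_minimal
      · intro x hx
        have : x ∈ ⋃₀ (T : Set (Set V)) := by
          rw [← hTU]
          exact subset_closure hx
        obtain ⟨t, ht, hxt⟩ := this
        exact ⟨closure (ψ ⁻¹' S ∩ t), by
          simp only [Finset.coe_image, Set.mem_image, Finset.mem_coe]
          exact ⟨t, ht, rfl⟩, subset_closure ⟨hx, hxt⟩⟩
      · rw [Set.sUnion_eq_biUnion]
        apply (Finset.finite_toSet _).isClosed_biUnion
        intro t ht
        simp only [Finset.coe_image, Set.mem_image, Finset.mem_coe] at ht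
        obtain ⟨t', _, rfl⟩ := ht
        exact isClosed_closure
    refine subset_trans ?_ h2
    rw [← hcl]
    exact Set.preimage_mono hsub
  obtain ⟨z, hz, hCz⟩ := isIrreducible_iff_sUnion_isClosed.1 hC' _ (by
    intro z hz
    rw [Finset.mem_image] at hz
    obtain ⟨t, _, rfl⟩ := hz
    exact isClosed_closure) h1
  rw [Finset.mem_image] at hz
  obtain ⟨t, ht, rfl⟩ := hz
  have htc : closure (ψ ⁻¹' S ∩ t) ⊆ t := closure_minimal Set.inter_subset_right (hTc t ht)
  refine ⟨closure (ψ '' t), isClosed_closure, ?_, ?_, ?_⟩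
  · exact ((hTi t ht).image ψ hψ.continuous.continuousOn).closure
  · refine (subset_closure_inter_of_isPreirreducible_of_isOpen hC.2 hψ.isOpen_range hne).trans ?_
    apply closure_mono
    rintro _ ⟨hx, y, rfl⟩
    exact ⟨y, htc (hCz hx), rfl⟩
  · obtain ⟨y, hy⟩ := hC'.1
    have h3 : (closure (ψ ⁻¹' S ∩ t)).Nonempty := ⟨y, hCz hy⟩
    rw [closure_nonempty_iff] at h3
    obtain ⟨w, hw1, hw2⟩ := h3
    exact ⟨ψ w, hw1, subset_closure ⟨w, hw2, rfl⟩⟩

lemma exists_open_subset_component {X : Type u} {V : Type v} [TopologicalSpace X]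
    [TopologicalSpace V] [NoetherianSpace V] (ψ : V → X) (hψ : IsOpenEmbedding ψ)
    (C : Set X) (hC : C ∈ irreducibleComponents X) (hne : (C ∩ Set.range ψ).Nonempty) :
    ∃ O : Set V, IsOpen O ∧ O.Nonempty ∧ ψ '' O ⊆ C := by
  have h1 := preimage_mem_irreducibleComponents hC hψ hne
  obtain ⟨O, hO, hOne, hOC⟩ :=
    NoetherianSpace.exists_isOpen_nonempty_subset_irreducibleComponent _ h1
  exact ⟨O, hO, hOne, Set.image_subset_iff.2 hOC⟩

end Pool.Agent.Helper226
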