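import Mathlib
import Pool.Agent.Helper226.RedPoint
import Pool.Agent.Helper226.TopLemmas

set_option autoImplicit false

open scoped TensorProduct
open CategoryTheory AlgebraicGeometry

universe u

namespace Pool.Agent.Helper226

section
variable {k : Type u} [Field k]

lemma noetherianSpace_chart {B : Type u} [CommRing B] [Algebra k B] [Algebra.FiniteType k B]
    {d : ℕ} (b : Fin d → B) :
    TopologicalSpace.NoetherianSpace (Spec (CommRingCat.of (AR k b))) := by
  have := noetherian_AR (k := k) b
  exact inferInstanceAs (TopologicalSpace.NoetherianSpace (PrimeSpectrum (AR k b)))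

theorem topDim_le_of_subset_smoothable [IsAlgClosed k] {n d : ℕ}
    (b : Fin d → MvPolynomial (Fin n) k)
    (C : Set (HilbS k (MvPolynomial (Fin n) k) d)) (hC : IsIrreducible C)
    (hsub : C ⊆ closure ((hilb k (MvPolynomial (Fin n) k) d).locus Ideal.IsRadical))
    (hne : (C ∩ Set.range (chartι k (Idx.single b))).Nonempty) :
    topologicalKrullDim C ≤ ((n * d : ℕ) : WithBot ℕ∞) := by
  have := noetherianSpace_chart (k := k) b
  obtain ⟨Y, hYc, hYi, hCY, x, hxS, hxY⟩ := exists_irreducible_meeting
    (chartι k (Idx.single b)) (chartι k (Idx.single b)).isOpenEmbedding _ C hC hsub hne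
  obtain ⟨b', c, hrad, hr⟩ := exists_chart_of_mem_locus _ x hxS
  rw [mem_range_mor_iff] at hr
  have h1 : topologicalKrullDim C ≤ topologicalKrullDim Y :=
    (Topology.IsEmbedding.inclusion hCY).isInducing.topologicalKrullDim_le
  refine h1.trans ?_
  have h2 := topDim_le_stalk (HilbS k (MvPolynomial (Fin n) k) d)
    (HilbS.str k (MvPolynomial (Fin n) k) d) Y hYc hYi x hxY (by
      rw [hr]
      exact isClosed_chartι_zp c)
  refine h2.trans ?_
  rw [hr]
  exact red_stalk_le_poly c hrad

end

end Pool.Agent.Helper226
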