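import Mathlib

set_option autoImplicit false

universe u

namespace Pool.Agent.Helper226

open MvPolynomial

/-- The maximal ideal of the point `v` of affine `n`-space. -/
noncomputable def pointIdeal {k : Type u} [Field k] {n : ℕ} (v : Fin n → k) : Ideal (MvPolynomial (Fin n) k) :=
  Ideal.span (Set.range fun i => X i - C (v i))

/-- The powers of the maximal ideal `m` of the algebra `A = S/I`, pulled back to `S`. -/
noncomputable def powSub {k : Type u} [Field k] {n : ℕ} (I m : Ideal (MvPolynomial (Fin n) k)) (i : ℕ) :
    Submodule k (MvPolynomial (Fin n) k) :=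
  (m ^ i ⊔ I).restrictScalars k

/-- The Hilbert function of the algebra `A = S/I` at the maximal ideal `m`: the dimension over `k`
of `m^i A / m^(i+1) A`, which is the quotient of `m^i + I` by `m^(i+1) + I`. -/
noncomputable def hilbFn {k : Type u} [Field k] {n : ℕ} (I m : Ideal (MvPolynomial (Fin n) k))
    (i : ℕ) : ℕ :=
  Module.finrank k (powSub I m i ⧸ (powSub I m (i + 1)).submoduleOf (powSub I m i))

/-- Very compressed algebras `A = S/I` of length `d`: local algebras, supported at an arbitrary
point `v`, whose Hilbert function is as large as possible in every degree below `s`, is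
`d - binom(n+s-1, n)` in degree `s`, and zero in larger degrees. -/
def IsVeryCompressed {k : Type u} [Field k] {n : ℕ} (d : ℕ)
    (I : Ideal (MvPolynomial (Fin n) k)) : Prop :=
  ∃ (v : Fin n → k) (s : ℕ), (n + s - 1).choose n < d ∧ d ≤ (n + s).choose n ∧
    I.radical = pointIdeal v ∧
    (∀ i < s, hilbFn I (pointIdeal v) i = (i + n - 1).choose (n - 1)) ∧
    hilbFn I (pointIdeal v) s = d - (n + s - 1).choose n ∧
    ∀ i, s < i → hilbFn I (pointIdeal v) i = 0

end Pool.Agent.Helper226
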