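import Mathlib
import Pool.Agent.Helper226.QData
import Pool.Agent.Helper226.VCDefs
import Pool.Agent.Helper226.Smoothable

set_option autoImplicit false

open scoped TensorProduct
open MvPolynomial CategoryTheory AlgebraicGeometry

universe u

namespace Pool.Agent.Helper226

section hf
variable {k : Type u} [Field k] {n : ℕ}

lemma pointIdeal_zero : pointIdeal (0 : Fin n → k) = idealOfVars (Fin n) k := by
  simp [pointIdeal]

lemma finrank_quot {V : Type*} [AddCommGroup V] [Module k V] {W : Type*} [AddCommGroup W]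
    [Module k W] (A B : Submodule k V) (φ : A →ₗ[k] W) (hs : Function.Surjective φ)
    (hk : ∀ x : A, φ x = 0 ↔ (x : V) ∈ B) :
    Module.finrank k (A ⧸ B.submoduleOf A) = Module.finrank k W := by
  have h : B.submoduleOf A = LinearMap.ker φ := by
    ext x
    rw [LinearMap.mem_ker, hk]
    rfl
  rw [h]
  exact (φ.quotKerEquivOfSurjective hs).finrank_eq

lemma mem_powSub (I m : Ideal (MvPolynomial (Fin n) k)) (i : ℕ) (x : MvPolynomial (Fin n) k) :
    x ∈ powSub I m i ↔ x ∈ m ^ i ⊔ I := Iff.rfl

/-- Hilbert function of an ideal between the cube and the square of the maximal ideal -/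
lemma hilbFn_zero (I : Ideal (MvPolynomial (Fin n) k)) (h2 : I ≤ idealOfVars (Fin n) k ^ 2) :
    hilbFn I (idealOfVars (Fin n) k) 0 = 1 := by
  have hle : I ≤ idealOfVars (Fin n) k := h2.trans (Ideal.pow_le_self (by norm_num))
  unfold hilbFn
  rw [finrank_quot (powSub I (idealOfVars (Fin n) k) 0) (powSub I (idealOfVars (Fin n) k) 1)
    ((lcoeff k (0 : Fin n →₀ ℕ)) ∘ₗ Submodule.subtype _)]
  · simp
  · intro a
    refine ⟨⟨C a, ?_⟩, ?_⟩
    · rw [mem_powSub, pow_zero, Ideal.one_eq_top, top_sup_eq]
      trivial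
    · simp
  · intro x
    rw [mem_powSub, sup_eq_left.2 (by simpa using hle), mem_pow_idealOfVars_iff']
    simp only [LinearMap.comp_apply, Submodule.subtype_apply, lcoeff_apply]
    constructor
    · intro h y hy
      have : y = 0 := (Finsupp.degree_eq_zero_iff y).1 (by omega)
      rw [this]
      exact h
    · intro h
      exact h 0 (by simp)

lemma degree_single_one (i : Fin n) : (Finsupp.single i 1 : Fin n →₀ ℕ).degree = 1 := by
  simp

lemma exists_single_of_degree_one (μ : Fin n →₀ ℕ) (h : μ.degree = 1) :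
    ∃ i, μ = Finsupp.single i 1 := by
  have hne : μ ≠ 0 := by
    rintro rfl
    simp at h
  obtain ⟨i, hi⟩ := Finsupp.ne_iff.1 hne
  have hi' : μ i ≠ 0 := hi
  have hle : Finsupp.single i 1 ≤ μ := by
    rw [Finsupp.single_le_iff]
    omega
  obtain ⟨ν, rfl⟩ := exists_add_of_le hle
  rw [map_add, Finsupp.degree_single] at h
  have hν : ν = 0 := (Finsupp.degree_eq_zero_iff ν).1 (by omega)
  exact ⟨i, by rw [hν, add_zero]⟩

lemma hilbFn_one (I : Ideal (MvPolynomial (Fin n) k)) (h2 : I ≤ idealOfVars (Fin n) k ^ 2) :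
    hilbFn I (idealOfVars (Fin n) k) 1 = n := by
  have hle : I ≤ idealOfVars (Fin n) k := h2.trans (Ideal.pow_le_self (by norm_num))
  unfold hilbFn
  rw [finrank_quot (powSub I (idealOfVars (Fin n) k) 1) (powSub I (idealOfVars (Fin n) k) (1 + 1))
    ((LinearMap.pi fun i => lcoeff k (Finsupp.single i 1 : Fin n →₀ ℕ)) ∘ₗ Submodule.subtype _)]
  · simp
  · intro a
    refine ⟨⟨∑ i, a i • X i, ?_⟩, ?_⟩
    · rw [mem_powSub, pow_one]
      apply Ideal.mem_sup_left
      refine Ideal.sum_mem _ fun i _ => ?_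
      rw [smul_eq_C_mul]
      exact Ideal.mul_mem_left _ _ (Ideal.subset_span ⟨i, rfl⟩)
    · ext i
      simp only [LinearMap.comp_apply, Submodule.subtype_apply, LinearMap.pi_apply, lcoeff_apply,
        coeff_sum, coeff_smul, coeff_X, smul_eq_mul]
      rw [Finset.sum_eq_single i]
      · simp
      · intro j _ hj
        rw [if_neg, mul_zero]
        intro h
        exact hj (Finsupp.single_left_injective one_ne_zero h)
      · simp
  · intro x
    have hx : (x : MvPolynomial (Fin n) k) ∈ idealOfVars (Fin n) k := by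
      have := x.2
      rw [mem_powSub, pow_one, sup_eq_left.2 hle] at this
      exact this
    rw [mem_powSub, sup_eq_left.2 h2, mem_pow_idealOfVars_iff']
    simp only [LinearMap.comp_apply, Submodule.subtype_apply]
    constructor
    · intro h y hy
      rcases Nat.lt_or_ge y.degree 1 with h1 | h1
      · have hx1 : (x : MvPolynomial (Fin n) k) ∈ idealOfVars (Fin n) k ^ 1 := by
          rw [pow_one]; exact hx
        exact (mem_pow_idealOfVars_iff' 1 _).1 hx1 y h1
      · obtain ⟨i, rfl⟩ := exists_single_of_degree_one y (by omega)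
        exact congrFun h i
    · intro h
      ext i
      exact h _ (by simp)

variable {d : ℕ} (D : QData n d)

lemma chart_q_small (c : Chart k (mb k D.e) k) (h2 : c.ker ≤ idealOfVars (Fin n) k ^ 2)
    (x : MvPolynomial (Fin n) k) (j : Fin d) (hj : (D.e j).degree < 2) :
    c.q x j = coeff (D.e j) x := by
  have h1 : x - ∑ j, c.q x j • mb k D.e j ∈ c.ker := by
    rw [Chart.mem_ker, map_sub, map_sum]
    simp only [map_smul, c.q_b]
    ext l
    simp [Pi.single_apply]
  have h3 := (mem_pow_idealOfVars_iff' 2 _).1 (h2 h1) (D.e j) hj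
  rw [coeff_sub, coeff_sum, sub_eq_zero] at h3
  rw [h3, Finset.sum_eq_single j]
  · simp [mb]
  · intro l _ hl
    rw [mb, coeff_smul, coeff_monomial, if_neg (fun h => hl (D.e_inj h)), smul_zero]
  · simp

lemma hilbFn_two (c : Chart k (mb k D.e) k) (h3 : idealOfVars (Fin n) k ^ 3 ≤ c.ker)
    (h2 : c.ker ≤ idealOfVars (Fin n) k ^ 2) :
    hilbFn c.ker (idealOfVars (Fin n) k) 2 = Fintype.card D.E := by
  unfold hilbFn
  rw [finrank_quot (powSub c.ker (idealOfVars (Fin n) k) 2)
    (powSub c.ker (idealOfVars (Fin n) k) (2 + 1))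
    ((LinearMap.pi fun j : D.E => LinearMap.proj j.1 ∘ₗ c.q) ∘ₗ Submodule.subtype _)]
  · simp
  · intro a
    refine ⟨⟨∑ j : D.E, a j • mb k D.e j.1, ?_⟩, ?_⟩
    · rw [mem_powSub]
      apply Ideal.mem_sup_left
      refine Ideal.sum_mem _ fun j _ => ?_
      rw [smul_eq_C_mul]
      apply Ideal.mul_mem_left
      rw [mb, monomial_mem_pow_idealOfVars_iff _ _ one_ne_zero, j.2]
    · ext j
      simp only [LinearMap.comp_apply, Submodule.subtype_apply, LinearMap.pi_apply, map_sum,
        map_smul, c.q_b, LinearMap.proj_apply, Pi.single_apply,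
        smul_eq_mul, mul_ite, mul_one, mul_zero]
      rw [Finset.sum_eq_single j]
      · simp
      · intro l _ hl
        rw [if_neg (fun h => hl (Subtype.ext h.symm))]
      · simp
  · intro x
    have hx : (x : MvPolynomial (Fin n) k) ∈ idealOfVars (Fin n) k ^ 2 := by
      have := x.2
      rw [mem_powSub, sup_eq_left.2 h2] at this
      exact this
    rw [mem_powSub, sup_eq_right.2 h3, Chart.mem_ker]
    constructor
    · intro h
      ext j
      by_cases hj : (D.e j).degree = 2
      · exact congrFun h ⟨j, hj⟩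
      · have hj2 : (D.e j).degree < 2 := by
          have := D.e_deg j
          omega
        rw [chart_q_small D c h2 _ j hj2]
        exact (mem_pow_idealOfVars_iff' 2 _).1 hx _ hj2
    · intro h
      ext j
      exact congrFun h j.1

lemma hilbFn_ge (I : Ideal (MvPolynomial (Fin n) k)) (h3 : idealOfVars (Fin n) k ^ 3 ≤ I)
    (i : ℕ) (hi : 2 < i) : hilbFn I (idealOfVars (Fin n) k) i = 0 := by
  unfold hilbFn
  rw [finrank_quot (powSub I (idealOfVars (Fin n) k) i) (powSub I (idealOfVars (Fin n) k) (i + 1))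
    (0 : _ →ₗ[k] (Fin 0 → k))]
  · simp
  · intro a
    exact ⟨0, Subsingleton.elim _ _⟩
  · intro x
    have hle : ∀ j, 3 ≤ j → idealOfVars (Fin n) k ^ j ≤ I := fun j hj => (Ideal.pow_le_pow_right hj).trans h3
    have hx := x.2
    rw [mem_powSub, sup_eq_right.2 (hle i hi)] at hx
    rw [mem_powSub, sup_eq_right.2 (hle (i + 1) (by omega))]
    simp [hx]

lemma idealOfVars_eq_ker : idealOfVars (Fin n) k =
    RingHom.ker (constantCoeff : MvPolynomial (Fin n) k →+* k) := by
  ext x
  rw [RingHom.mem_ker, ← pow_one (idealOfVars (Fin n) k), mem_pow_idealOfVars_iff',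
    constantCoeff_eq]
  constructor
  · intro h
    exact h 0 (by simp)
  · intro h y hy
    have : y = 0 := (Finsupp.degree_eq_zero_iff y).1 (by omega)
    rw [this]
    exact h

lemma idealOfVars_isMaximal : (idealOfVars (Fin n) k).IsMaximal := by
  rw [idealOfVars_eq_ker]
  exact RingHom.ker_isMaximal_of_surjective _ (fun a => ⟨C a, by simp⟩)

lemma isVeryCompressed_of_bounds (c : Chart k (mb k D.e) k)
    (hn : 1 ≤ n) (hd1 : n + 1 < d) (hd2 : d ≤ (n + 2).choose n) (hE : Fintype.card D.E = d - (n + 1))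
    (h3 : idealOfVars (Fin n) k ^ 3 ≤ c.ker)
    (h2 : c.ker ≤ idealOfVars (Fin n) k ^ 2) : IsVeryCompressed d c.ker := by
  have hch : (n + 2 - 1).choose n = n + 1 := by
    rw [show n + 2 - 1 = n + 1 by omega, Nat.choose_succ_self_right]
  refine ⟨0, 2, by rw [hch]; exact hd1, hd2, ?_, ?_, ?_, ?_⟩
  · rw [pointIdeal_zero]
    apply le_antisymm
    · have hp : (idealOfVars (Fin n) k).IsPrime := idealOfVars_isMaximal.isPrime
      exact (Ideal.IsPrime.radical_le_iff hp).2 (h2.trans (Ideal.pow_le_self (by norm_num)))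
    · intro x hx
      exact ⟨3, h3 (Ideal.pow_mem_pow hx 3)⟩
  · intro i hi
    rw [pointIdeal_zero]
    interval_cases i
    · rw [hilbFn_zero _ h2]
      simp
    · rw [hilbFn_one _ h2]
      rw [show 1 + n - 1 = n by omega]
      exact (Nat.choose_symm_of_eq_add (by omega : n = (n - 1) + 1)).symm ▸ (by simp)
  · rw [pointIdeal_zero, hilbFn_two D c h3 h2, hE, hch]
  · intro i hi
    rw [pointIdeal_zero]
    exact hilbFn_ge _ h3 i hi

end hf

section pts
variable {k : Type u} [Field k] {B : Type u} [CommRing B] [Algebra k B] {d : ℕ}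

lemma mor_point {P : Type u} [CommRing P] [Algebra k P] {b : Fin d → B} (c : Chart k b P)
    (g : P →ₐ[k] k) (M : Spec (CommRingCat.of P)) (hM : M.asIdeal = RingHom.ker g) :
    mor c M ∈ Set.range (mor (c.map g)) := by
  let y0 : Spec (CommRingCat.of k) := (⟨⊥, Ideal.isPrime_bot⟩ : PrimeSpectrum k)
  refine ⟨y0, ?_⟩
  have h1 : mor (c.map g) y0 = mor c (Spec.map (CommRingCat.ofHom g.toRingHom) y0) := by
    rw [mor_map]
    rfl
  rw [h1]
  congr 1
  apply PrimeSpectrum.ext
  rw [hM]
  exact range_specMap_field g y0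

end pts

section fam
variable {k : Type u} [Field k] {n d : ℕ} (D : QData n d)

/-- chart datum without cubic part -/
noncomputable def qchart {R : Type u} [CommRing R] [Algebra k R] (a : D.N → D.E → R) :
    Chart k (mb k D.e) R :=
  D.chart a (fun _ _ => 0) (by simp) (by simp)

lemma qchart_q {R : Type u} [CommRing R] [Algebra k R] (a : D.N → D.E → R) (μ : Fin n →₀ ℕ) :
    (qchart (k := k) D a).q (monomial μ 1) = D.wfun R a (fun _ _ => 0) μ :=
  D.chart_q _ _ _ _ _

lemma qchart_cube (a : D.N → D.E → k) : idealOfVars (Fin n) k ^ 3 ≤ (qchart (k := k) D a).ker := by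
  intro x hx
  rw [mem_pow_idealOfVars_iff] at hx
  rw [Chart.mem_ker, chart_q_eq_sum]
  refine Finset.sum_eq_zero fun μ hμ => ?_
  rw [qchart_q]
  have h3 := hx μ hμ
  rcases eq_or_lt_of_le h3 with h | h
  · rw [D.wfun_three _ _ _ h.symm]
    ext j
    simp
  · rw [D.wfun_four _ _ _ h, smul_zero]

lemma qchart_sq (a : D.N → D.E → k) : (qchart (k := k) D a).ker ≤ idealOfVars (Fin n) k ^ 2 := by
  intro x hx
  rw [Chart.mem_ker, chart_q_eq_sum] at hx
  rw [mem_pow_idealOfVars_iff']
  intro μ hμ
  obtain ⟨j, rfl⟩ := D.e_small μ (by omega)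
  have h1 := congrFun hx j
  rw [Finset.sum_apply] at h1
  have h2 : ∀ ν ∈ x.support, (coeff ν x • (qchart (k := k) D a).q (monomial ν 1)) j =
      if ν = D.e j then coeff (D.e j) x else 0 := by
    intro ν _
    rw [qchart_q, Pi.smul_apply, smul_eq_mul]
    rcases Nat.lt_or_ge ν.degree 2 with h | h
    · obtain ⟨j', rfl⟩ := D.e_small ν (by omega)
      rw [D.wfun_e, Pi.single_apply]
      by_cases hjj : j = j'
      · subst hjj; simp
      · rw [if_neg hjj, if_neg (fun h => hjj (D.e_inj h.symm)), mul_zero]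
    · rw [D.wfun_supp _ _ ν h j (by omega), mul_zero, if_neg]
      rintro rfl
      omega
  rw [Finset.sum_congr rfl h2, Finset.sum_ite_eq'] at h1
  by_cases h3 : D.e j ∈ x.support
  · rw [if_pos h3] at h1
    exact h1
  · exact notMem_support_iff.1 h3

/-- the family of all quadratic coefficients -/
noncomputable def famChart : Chart k (mb k D.e) (MvPolynomial (ULift.{u} (D.N × D.E)) k) :=
  qchart D fun i j => X ⟨(i, j)⟩

lemma famChart_map (g : MvPolynomial (ULift.{u} (D.N × D.E)) k →ₐ[k] k) :
    (famChart (k := k) D).map g = qchart D fun i j => g (X ⟨(i, j)⟩) := by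
  apply chart_ext_monomial
  intro μ
  ext l
  rw [Chart.map_q]
  unfold famChart
  rw [qchart_q, qchart_q]
  unfold QData.wfun
  split_ifs with h1 h2 h3
  · rw [Pi.single_apply, Pi.single_apply]
    split_ifs <;> simp
  · dsimp only
    split_ifs <;> simp
  · simp
  · simp

lemma clf_famChart_surjective : Function.Surjective (clf (famChart (k := k) D)) := by
  rw [← AlgHom.range_eq_top, eq_top_iff, ← MvPolynomial.adjoin_range_X, Algebra.adjoin_le_iff]
  rintro _ ⟨⟨i, j⟩, rfl⟩
  refine ⟨(uc k (mb k D.e)).q (monomial (D.nb i) 1) j.1, ?_⟩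
  have h1 := uc_map_clf (famChart (k := k) D)
  have h2 : clf (famChart (k := k) D) ((uc k (mb k D.e)).q (monomial (D.nb i) 1) j.1) =
      (famChart (k := k) D).q (monomial (D.nb i) 1) j.1 := by
    rw [← Chart.map_q, h1]
  change clf (famChart (k := k) D) _ = _
  rw [h2]
  unfold famChart
  rw [qchart_q, D.wfun_nb]
  simp only [j.2, dite_true]

/-- the family is topologically embedded -/
lemma mor_famChart_isInducing : Topology.IsInducing (mor (famChart (k := k) D)) := by
  unfold mor
  have h1 : Topology.IsClosedEmbedding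
      (Spec.map (CommRingCat.ofHom (clf (famChart (k := k) D)).toRingHom)) :=
    PrimeSpectrum.isClosedEmbedding_comap_of_surjective _ _ (clf_famChart_surjective D)
  have h2 := (chartι k (Idx.single (mb k D.e))).isOpenEmbedding
  exact (h2.isInducing.comp h1.isInducing)

/-- The closure of the family. -/
def famClosure (k : Type u) [Field k] {n d : ℕ} (D : QData n d) :
    Set (HilbS k (MvPolynomial (Fin n) k) d) :=
  closure (Set.range (mor (famChart (k := k) D)))

lemma famClosure_irreducible : IsIrreducible (famClosure k D) := by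
  unfold famClosure
  apply IsIrreducible.closure
  rw [← Set.image_univ]
  have : IrreducibleSpace (Spec (CommRingCat.of (MvPolynomial (ULift.{u} (D.N × D.E)) k))) :=
    inferInstanceAs (IrreducibleSpace (PrimeSpectrum (MvPolynomial (ULift.{u} (D.N × D.E)) k)))
  exact (IrreducibleSpace.isIrreducible_univ _).image _ (mor (famChart D)).continuous.continuousOn

lemma famClosure_dim : ((Fintype.card D.N * Fintype.card D.E : ℕ) : WithBot ℕ∞) ≤
    topologicalKrullDim (famClosure k D) := by
  have h1 : ringKrullDim (MvPolynomial (ULift.{u} (D.N × D.E)) k) =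
      ((Fintype.card D.N * Fintype.card D.E : ℕ) : WithBot ℕ∞) := by
    rw [MvPolynomial.ringKrullDim_of_isNoetherianRing, ringKrullDim_eq_zero_of_field]
    simp
  rw [← h1, ← PrimeSpectrum.topologicalKrullDim_eq_ringKrullDim]
  let f : PrimeSpectrum (MvPolynomial (ULift.{u} (D.N × D.E)) k) → famClosure k D :=
    fun x => ⟨mor (famChart (k := k) D) x, subset_closure ⟨x, rfl⟩⟩
  have hf : Topology.IsInducing f := by
    have h2 : Topology.IsInducing (Subtype.val ∘ f) := mor_famChart_isInducing D
    exact Topology.IsInducing.subtypeVal.of_comp_iff.1 h2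
  exact hf.topologicalKrullDim_le

lemma famClosure_meets :
    (famClosure k D ∩ Set.range (chartι k (Idx.single (mb k D.e)))).Nonempty := by
  have : Nonempty (PrimeSpectrum (MvPolynomial (ULift.{u} (D.N × D.E)) k)) := inferInstance
  obtain ⟨x⟩ := this
  let x' : Spec (CommRingCat.of (MvPolynomial (ULift.{u} (D.N × D.E)) k)) := x
  exact ⟨mor (famChart (k := k) D) x', subset_closure ⟨x', rfl⟩,
    ⟨Spec.map (CommRingCat.ofHom (clf (famChart (k := k) D)).toRingHom) x', rfl⟩⟩

/-- Nullstellensatz -/
lemma exists_hom_of_maximal [IsAlgClosed k] {P : Type u} [CommRing P] [Algebra k P]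
    [Algebra.FiniteType k P] (M : Ideal P) (hM : M.IsMaximal) :
    ∃ g : P →ₐ[k] k, RingHom.ker g = M := by
  have hfield : IsField (P ⧸ M) := (Ideal.Quotient.maximal_ideal_iff_isField_quotient M).1 hM
  let _ := hfield.toField
  have hft : Algebra.FiniteType k (P ⧸ M) := inferInstance
  have hfin : Module.Finite k (P ⧸ M) := finite_of_finite_type_of_isJacobsonRing k (P ⧸ M)
  have hbij : Function.Bijective (algebraMap k (P ⧸ M)) :=
    IsAlgClosed.algebraMap_bijective_of_isIntegral
  let κ : (P ⧸ M) ≃ₐ[k] k := (AlgEquiv.ofBijective (Algebra.ofId k (P ⧸ M)) hbij).symm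
  refine ⟨(κ : (P ⧸ M) →ₐ[k] k).comp (Ideal.Quotient.mkₐ k M), ?_⟩
  ext x
  rw [RingHom.mem_ker, AlgHom.comp_apply]
  constructor
  · intro h
    exact Ideal.Quotient.eq_zero_iff_mem.1 (κ.injective (by rw [map_zero]; exact h))
  · intro h
    have : Ideal.Quotient.mkₐ k M x = 0 := Ideal.Quotient.eq_zero_iff_mem.2 h
    rw [this, map_zero]

lemma famClosure_subset [IsAlgClosed k] (P : Ideal (MvPolynomial (Fin n) k) → Prop)
    (hP : ∀ a : D.N → D.E → k, P (qchart D a).ker) :
    famClosure k D ⊆ closure ((hilb k (MvPolynomial (Fin n) k) d).locus P) := by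
  unfold famClosure
  apply closure_minimal _ isClosed_closure
  rintro _ ⟨o, rfl⟩
  refine mem_closure_iff.2 ?_
  intro U hU hoU
  have hJ : JacobsonSpace (PrimeSpectrum (MvPolynomial (ULift.{u} (D.N × D.E)) k)) :=
    PrimeSpectrum.isJacobsonRing_iff_jacobsonSpace.1 (isJacobsonRing_of_finiteType (A := k))
  have hV : IsOpen ((mor (famChart (k := k) D)) ⁻¹' U) := hU.preimage (mor (famChart D)).continuous
  obtain ⟨M, hMV, hMc⟩ := @nonempty_inter_closedPoints
    (PrimeSpectrum (MvPolynomial (ULift.{u} (D.N × D.E)) k)) _ hJ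
    ((mor (famChart (k := k) D)) ⁻¹' U) ⟨o, hoU⟩ hV.isLocallyClosed
  have hM : M.asIdeal.IsMaximal := (PrimeSpectrum.isClosed_singleton_iff_isMaximal M).1 hMc
  obtain ⟨g, hg⟩ := exists_hom_of_maximal (k := k) M.asIdeal hM
  refine ⟨mor (famChart (k := k) D) M, hMV, ?_⟩
  apply mem_locus_of_chart ((famChart (k := k) D).map g) P
  · rw [famChart_map]
    exact hP _
  · exact mor_point _ g M hg.symm

theorem famClosure_not_smoothable [IsAlgClosed k]
    (hdim : n * d < Fintype.card D.N * Fintype.card D.E) :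
    ¬ famClosure k D ⊆ closure ((hilb k (MvPolynomial (Fin n) k) d).locus Ideal.IsRadical) := by
  intro h
  have h1 := topDim_le_of_subset_smoothable (mb k D.e) (famClosure k D) (famClosure_irreducible D)
    h (famClosure_meets D)
  have h2 := (famClosure_dim (k := k) D).trans h1
  have h3 : Fintype.card D.N * Fintype.card D.E ≤ n * d := by exact_mod_cast h2
  omega

end fam

end Pool.Agent.Helper226
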