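import Mathlib
import Pool.Agent.Helper226.GorRing
import Pool.Agent.Helper226.VCFam

set_option autoImplicit false

open scoped TensorProduct
open MvPolynomial CategoryTheory AlgebraicGeometry

universe u

namespace Pool.Agent.Helper226

section general
variable {k : Type u} [Field k] {B : Type u} [CommRing B] [Algebra k B] {d : ℕ}
variable {R : Type u} [CommRing R] [Algebra k R]
variable {T : Type u} [CommRing T] [Algebra R T] [Algebra k T] [IsScalarTower k R T]

/-- chart datum of a map to a free algebra -/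
noncomputable def chartOfBasis (bs : Module.Basis (Fin d) R T) (φ : B →ₐ[k] T) (b : Fin d → B)
    (h : ∀ i, φ (b i) = bs i) : Chart k b R where
  q := (bs.equivFun.toLinearMap.restrictScalars k) ∘ₗ φ.toLinearMap
  q_b := by
    intro i
    simp only [LinearMap.coe_comp, LinearMap.coe_restrictScalars, LinearEquiv.coe_coe,
      Function.comp_apply, AlgHom.toLinearMap_apply, h]
    ext j
    rw [Module.Basis.equivFun_self, Pi.single_apply]
    simp [eq_comm]
  q_mul := by
    intro x y
    simp only [LinearMap.coe_comp, LinearMap.coe_restrictScalars, LinearEquiv.coe_coe,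
      Function.comp_apply, AlgHom.toLinearMap_apply, map_mul, h]
    conv_lhs => rw [← bs.sum_equivFun (φ x), Finset.sum_mul, map_sum]
    refine Finset.sum_congr rfl fun j _ => ?_
    rw [smul_mul_assoc, map_smul]

lemma chartOfBasis_q (bs : Module.Basis (Fin d) R T) (φ : B →ₐ[k] T) (b : Fin d → B)
    (h : ∀ i, φ (b i) = bs i) (x : B) : (chartOfBasis bs φ b h).q x = bs.equivFun (φ x) := rfl

end general

section kpoint
variable {k : Type u} [Field k] {B : Type u} [CommRing B] [Algebra k B] {d : ℕ}
variable {T : Type u} [CommRing T] [Algebra k T]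

lemma chartOfBasis_ker (bs : Module.Basis (Fin d) k T) (φ : B →ₐ[k] T) (b : Fin d → B)
    (h : ∀ i, φ (b i) = bs i) : (chartOfBasis bs φ b h).ker = RingHom.ker φ := by
  ext x
  rw [Chart.mem_ker, chartOfBasis_q, RingHom.mem_ker]
  exact LinearEquiv.map_eq_zero_iff _

end kpoint

namespace TT

variable {R : Type u} [CommRing R] {N : ℕ} {c : Cub R N}

/-- standard basis -/
def e (c : Cub R N) (j : Ix N) : TT c := fun i => if i = j then 1 else 0

@[simp] lemma e_apply (j i : Ix N) : e c j i = if i = j then 1 else 0 := rfl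

/-- the basis -/
noncomputable def bas (c : Cub R N) : Module.Basis (Ix N) R (TT c) :=
  Module.Basis.ofEquivFun (LinearEquiv.refl R (Ix N → R))

lemma bas_equivFun (f : TT c) (j : Ix N) : (bas c).equivFun f j = f j := rfl

lemma bas_apply (j : Ix N) : bas c j = e c j := by
  apply (bas c).equivFun.injective
  funext i
  rw [Module.Basis.equivFun_self]
  change _ = e c j i
  simp [eq_comm]

end TT

section fam
variable {R : Type u} [CommRing R] {M : ℕ}

/-- three element multiset -/
def s3 (i j l : Fin M) : Sym (Fin M) 3 := i ::ₛ j ::ₛ l ::ₛ Sym.nil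

lemma s3_12 (i j l : Fin M) : s3 i j l = s3 j i l := Sym.cons_swap _ _ _
lemma s3_23 (i j l : Fin M) : s3 i j l = s3 i l j := by
  unfold s3
  rw [Sym.cons_swap j l]

lemma s3_surj (σ : Sym (Fin M) 3) : ∃ i j l, σ = s3 i j l := by
  obtain ⟨i, σ, rfl⟩ := σ.exists_eq_cons_of_succ
  obtain ⟨j, σ, rfl⟩ := σ.exists_eq_cons_of_succ
  obtain ⟨l, σ, rfl⟩ := σ.exists_eq_cons_of_succ
  exact ⟨i, j, l, by rw [Sym.eq_nil_of_card_zero σ]; rfl⟩

/-- coefficients of the normalised cubic -/
def cc (p : Sym (Fin M) 3 → R) (i j l : Fin (M + 1)) : R :=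
  Fin.cases (if j = l then 1 else 0)
    (fun i' => Fin.cases (if i'.succ = l then 1 else 0)
      (fun j' => Fin.cases (if i' = j' then 1 else 0) (fun l' => p (s3 i' j' l')) l) j) i

lemma cc_zero (p : Sym (Fin M) 3 → R) (j l : Fin (M + 1)) : cc p 0 j l = if j = l then 1 else 0 :=
  rfl

lemma cc_s12 (p : Sym (Fin M) 3 → R) (i j l : Fin (M + 1)) : cc p i j l = cc p j i l := by
  cases i using Fin.cases with
  | zero =>
    cases j using Fin.cases with
    | zero => rfl
    | succ j => rfl
  | succ i =>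
    cases j using Fin.cases with
    | zero => rfl
    | succ j =>
      cases l using Fin.cases with
      | zero => simp [cc, eq_comm]
      | succ l => simp only [cc, Fin.cases_succ]; rw [s3_12]

lemma cc_s23 (p : Sym (Fin M) 3 → R) (i j l : Fin (M + 1)) : cc p i j l = cc p i l j := by
  cases i using Fin.cases with
  | zero => simp [cc, eq_comm]
  | succ i =>
    cases j using Fin.cases with
    | zero =>
      cases l using Fin.cases with
      | zero => rfl
      | succ l => simp [cc]
    | succ j =>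
      cases l using Fin.cases with
      | zero => simp [cc]
      | succ l => simp only [cc, Fin.cases_succ]; rw [s3_23]

/-- the cubic form with parameters `p` -/
def cub (p : Sym (Fin M) 3 → R) : Cub R (M + 1) where
  c := cc p
  s12 := cc_s12 p
  s23 := cc_s23 p

@[simp] lemma cub_c (p : Sym (Fin M) 3 → R) : (cub p).c = cc p := rfl

/-- images of the variables: the first variable is `x` -/
def ggen (p : Sym (Fin M) 3 → R) : Fin (M + 2) → TT (cub p) :=
  Fin.cases (TT.e _ .x1) (fun i => TT.e _ (.u i))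

variable {k : Type u} [Field k] [Algebra k R]

/-- the map from the polynomial ring -/
noncomputable def phi (k : Type u) [Field k] [Algebra k R] (p : Sym (Fin M) 3 → R) :
    MvPolynomial (Fin (M + 2)) k →ₐ[k] TT (cub p) :=
  aeval (ggen p)

lemma phi_X0 (p : Sym (Fin M) 3 → R) : phi k p (X 0) = TT.e _ .x1 := by
  simp [phi, ggen]

lemma phi_Xs (p : Sym (Fin M) 3 → R) (i : Fin (M + 1)) : phi k p (X i.succ) = TT.e _ (.u i) := by
  simp [phi, ggen]

/-- monomials forming a basis -/
noncomputable def bb (k : Type u) [Field k] (M : ℕ) : Ix (M + 1) → MvPolynomial (Fin (M + 2)) k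
  | .one => 1
  | .u i => X i.succ
  | .v i => X (Fin.succ 0) * X i.succ
  | .w => X 0 ^ 4
  | .x1 => X 0
  | .x2 => X 0 ^ 2
  | .x3 => X 0 ^ 3

lemma e_uu (p : Sym (Fin M) 3 → R) (i j : Fin (M + 1)) (l : Fin (M + 1)) :
    (TT.e (cub p) (.u i) * TT.e (cub p) (.u j)) (.v l) = cc p i j l := by
  simp

lemma e_xx (p : Sym (Fin M) 3 → R) : TT.e (cub p) .x1 * TT.e (cub p) .x1 = TT.e (cub p) .x2 := by
  ext <;> simp

lemma e_xx2 (p : Sym (Fin M) 3 → R) : TT.e (cub p) .x2 * TT.e (cub p) .x1 = TT.e (cub p) .x3 := by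
  ext <;> simp

lemma e_xx3 (p : Sym (Fin M) 3 → R) : TT.e (cub p) .x3 * TT.e (cub p) .x1 = TT.e (cub p) .w := by
  ext <;> simp

lemma e_0i (p : Sym (Fin M) 3 → R) (i : Fin (M + 1)) :
    TT.e (cub p) (.u 0) * TT.e (cub p) (.u i) = TT.e (cub p) (.v i) := by
  ext
  · simp
  · simp
  · rename_i l
    rw [e_uu, cc_zero]
    simp [eq_comm]
  · simp
  · simp
  · simp
  · simp

lemma phi_bb (p : Sym (Fin M) 3 → R) (j : Ix (M + 1)) : phi k p (bb k M j) = TT.e _ j := by
  have h2 : phi k p (X 0 ^ 2) = TT.e _ .x2 := by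
    rw [map_pow, phi_X0, pow_two, e_xx]
  have h3 : phi k p (X 0 ^ 3) = TT.e _ .x3 := by
    rw [pow_succ, map_mul, h2, phi_X0, e_xx2]
  cases j
  · simp only [bb, map_one]
    ext <;> simp
  · simp only [bb, phi_Xs]
  · simp only [bb]
    rw [map_mul, phi_Xs, phi_Xs, e_0i]
  · simp only [bb]
    rw [pow_succ, map_mul, h3, phi_X0, e_xx3]
  · simp only [bb, phi_X0]
  · exact h2
  · exact h3

/-- numbering of the basis -/
noncomputable def num (M : ℕ) : Ix (M + 1) ≃ Fin (2 * (M + 1) + 5) :=
  Fintype.equivFinOfCardEq Ix.card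

instance {N : ℕ} (c : Cub R N) : IsScalarTower k R (TT c) :=
  inferInstanceAs (IsScalarTower k R (Ix N → R))

/-- numbered basis monomials -/
noncomputable def bbn (k : Type u) [Field k] (M : ℕ) :
    Fin (2 * (M + 1) + 5) → MvPolynomial (Fin (M + 2)) k := fun i => bb k M ((num M).symm i)

/-- the chart datum with parameters `p` -/
noncomputable def gch (k : Type u) [Field k] [Algebra k R] (p : Sym (Fin M) 3 → R) :
    Chart k (bbn k M) R :=
  chartOfBasis ((TT.bas (cub p)).reindex (num M)) (phi k p) (bbn k M) (by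
    intro i
    rw [Module.Basis.reindex_apply, TT.bas_apply, bbn, phi_bb])

lemma gch_q (p : Sym (Fin M) 3 → R) (x : MvPolynomial (Fin (M + 2)) k)
    (i : Fin (2 * (M + 1) + 5)) : (gch k p).q x i = phi k p x ((num M).symm i) := by
  unfold gch
  rw [chartOfBasis_q]
  simp [Module.Basis.equivFun_apply]
  rfl

end fam

end Pool.Agent.Helper226
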