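import Mathlib
import Pool.Agent.Helper226.LociDefs

set_option autoImplicit false

open MvPolynomial

universe u

namespace Pool.Agent.Helper226

/-- `CPiece A s a i` is the preimage in `A` of the degree `i` piece
`C(a)_i = ((0 : 𝔪^(s+1-a-i)) ∩ 𝔪^i + 𝔪^(i+1)) / 𝔪^(i+1)` of Iarrobino's ideal `C(a) ⊆ gr A`,
for a local ring `A` with maximal ideal `𝔪` and socle degree `s`. -/
def CPiece (A : Type u) [CommRing A] [IsLocalRing A] (s a i : ℕ) : Ideal A :=
  (Submodule.annihilator (IsLocalRing.maximalIdeal A ^ (s + 1 - a - i) : Ideal A) ⊓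
    IsLocalRing.maximalIdeal A ^ i) ⊔ IsLocalRing.maximalIdeal A ^ (i + 1)

/-- The homogeneous ideal of `S = k[X_1, …, X_n]` presenting `Q(0) = gr A / C(1)` for `A = S ⧸ I`
local with socle degree `s` and all variables in the maximal ideal: it is generated by the forms
`f` of degree `i` whose class in `A` lies in the preimage of `C(1)_i`. -/
noncomputable def Q0Ideal {k : Type u} [Field k] {n : ℕ} (I : Ideal (MvPolynomial (Fin n) k))
    [IsLocalRing (MvPolynomial (Fin n) k ⧸ I)] (s : ℕ) : Ideal (MvPolynomial (Fin n) k) :=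
  Ideal.span {f | ∃ i, f.IsHomogeneous i ∧
    Ideal.Quotient.mk I f ∈ CPiece (MvPolynomial (Fin n) k ⧸ I) s 1 i}

/-- `A` is a finite dimensional local Gorenstein `k`-algebra of degree `d` and socle degree `s`:
its socle `(0 : 𝔪)` is one-dimensional, and `𝔪^s ≠ 0 = 𝔪^(s+1)`. -/
structure IsGorensteinLocal (k : Type u) [Field k] (A : Type u) [CommRing A] [Algebra k A]
    [IsLocalRing A] (d s : ℕ) : Prop where
  finite : Module.Finite k A
  finrank_eq : Module.finrank k A = d
  socle : Module.finrank k (Submodule.annihilator (IsLocalRing.maximalIdeal A : Ideal A)) = 1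
  pow_ne : IsLocalRing.maximalIdeal A ^ s ≠ ⊥
  pow_succ_eq : IsLocalRing.maximalIdeal A ^ (s + 1) = ⊥

/-- `I` is a point of the Hilbert scheme of `d` points of affine `n`-space over `k` which lies in
the closure of the locus of radical ideals (sets of `d` distinct reduced points). -/
def IsSmoothablePoint {k : Type u} [Field k] {n : ℕ} (I : Ideal (MvPolynomial (Fin n) k))
    (d : ℕ) : Prop :=
  ∃ (𝓗 : HilbertScheme k (MvPolynomial (Fin n) k) d) (f : PointsOver k 𝓗.H 𝓗.s k),
    𝓗.idealOf f = I ∧ Set.range f.1 ⊆ closure (𝓗.locus Ideal.IsRadical)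

/-- `I` is a point of the Hilbert scheme of `d` points of affine `n`-space over `k` which does not
lie in the closure of the locus of radical ideals. -/
def IsNonsmoothablePoint {k : Type u} [Field k] {n : ℕ} (I : Ideal (MvPolynomial (Fin n) k))
    (d : ℕ) : Prop :=
  ∃ (𝓗 : HilbertScheme k (MvPolynomial (Fin n) k) d) (f : PointsOver k 𝓗.H 𝓗.s k),
    𝓗.idealOf f = I ∧ ¬ Set.range f.1 ⊆ closure (𝓗.locus Ideal.IsRadical)

end Pool.Agent.Helper226
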