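import Mathlib
import Pool.Agent.Helper226.GorChart

set_option autoImplicit false

open scoped TensorProduct
open MvPolynomial CategoryTheory AlgebraicGeometry

universe u

namespace Pool.Agent.Helper226

section general
variable {k : Type u} [Field k] {ι : Type u} [Finite ι] {n d : ℕ}
variable {b : Fin d → MvPolynomial (Fin n) k}

lemma mor_isInducing (c : Chart k b (MvPolynomial ι k)) (hs : Function.Surjective (clf c)) :
    Topology.IsInducing (mor c) := by
  unfold mor
  have h1 : Topology.IsClosedEmbedding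
      (Spec.map (CommRingCat.ofHom (clf c).toRingHom)) :=
    PrimeSpectrum.isClosedEmbedding_comap_of_surjective _ _ hs
  have h2 := (chartι k (Idx.single b)).isOpenEmbedding
  exact (h2.isInducing.comp h1.isInducing)

theorem exists_not_smoothable [IsAlgClosed k] (c : Chart k b (MvPolynomial ι k))
    (hs : Function.Surjective (clf c)) (hdim : n * d < Nat.card ι) :
    ∃ g : MvPolynomial ι k →ₐ[k] k, ¬ Set.range (mor (c.map g)) ⊆
      closure ((hilb k (MvPolynomial (Fin n) k) d).locus Ideal.IsRadical) := by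
  by_contra hcon
  push Not at hcon
  have hfin := Fintype.ofFinite ι
  set Z := closure ((hilb k (MvPolynomial (Fin n) k) d).locus Ideal.IsRadical) with hZ
  have hrange : Set.range (mor c) ⊆ Z := by
    rintro _ ⟨o, rfl⟩
    by_contra ho
    have hJ : JacobsonSpace (PrimeSpectrum (MvPolynomial ι k)) :=
      PrimeSpectrum.isJacobsonRing_iff_jacobsonSpace.1 (isJacobsonRing_of_finiteType (A := k))
    have hU : IsOpen Zᶜ := isClosed_closure.isOpen_compl
    have hV : IsOpen ((mor c) ⁻¹' Zᶜ) := hU.preimage (mor c).continuous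
    obtain ⟨M, hMV, hMc⟩ := @nonempty_inter_closedPoints
      (PrimeSpectrum (MvPolynomial ι k)) _ hJ
      ((mor c) ⁻¹' Zᶜ) ⟨o, ho⟩ hV.isLocallyClosed
    have hM : M.asIdeal.IsMaximal := (PrimeSpectrum.isClosed_singleton_iff_isMaximal M).1 hMc
    obtain ⟨g, hg⟩ := exists_hom_of_maximal (k := k) M.asIdeal hM
    exact hMV (hcon g (mor_point c g M hg.symm))
  have hirr : IsIrreducible (closure (Set.range (mor c))) := by
    apply IsIrreducible.closure
    rw [← Set.image_univ]
    have : IrreducibleSpace (Spec (CommRingCat.of (MvPolynomial ι k))) :=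
      inferInstanceAs (IrreducibleSpace (PrimeSpectrum (MvPolynomial ι k)))
    exact (IrreducibleSpace.isIrreducible_univ _).image _ (mor c).continuous.continuousOn
  have hne : (closure (Set.range (mor c)) ∩ Set.range (chartι k (Idx.single b))).Nonempty := by
    have : Nonempty (PrimeSpectrum (MvPolynomial ι k)) := inferInstance
    obtain ⟨x⟩ := this
    let x' : Spec (CommRingCat.of (MvPolynomial ι k)) := x
    exact ⟨mor c x', subset_closure ⟨x', rfl⟩,
      ⟨Spec.map (CommRingCat.ofHom (clf c).toRingHom) x', rfl⟩⟩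
  have h1 := topDim_le_of_subset_smoothable b (closure (Set.range (mor c))) hirr
    (closure_minimal hrange isClosed_closure) hne
  have h2 : ((Nat.card ι : ℕ) : WithBot ℕ∞) ≤
      topologicalKrullDim (closure (Set.range (mor c))) := by
    have h1 : ringKrullDim (MvPolynomial ι k) = ((Nat.card ι : ℕ) : WithBot ℕ∞) := by
      rw [MvPolynomial.ringKrullDim_of_isNoetherianRing, ringKrullDim_eq_zero_of_field]
      simp
    rw [← h1, ← PrimeSpectrum.topologicalKrullDim_eq_ringKrullDim]
    let f : PrimeSpectrum (MvPolynomial ι k) → closure (Set.range (mor c)) :=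
      fun x => ⟨mor c x, subset_closure ⟨x, rfl⟩⟩
    have hf : Topology.IsInducing f := by
      have h2 : Topology.IsInducing (Subtype.val ∘ f) := mor_isInducing c hs
      exact Topology.IsInducing.subtypeVal.of_comp_iff.1 h2
    exact hf.topologicalKrullDim_le
  have h3 : Nat.card ι ≤ n * d := by exact_mod_cast h2.trans h1
  omega

end general

section fam
variable {k : Type u} [Field k] {M : ℕ}
variable {R : Type u} [CommRing R] [Algebra k R] {R' : Type u} [CommRing R'] [Algebra k R']

/-- functoriality of the algebras (underlying map) -/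
def TT.fmap {N : ℕ} {c : Cub R N} (c' : Cub R' N) (g : R →ₐ[k] R') (f : TT c) : TT c' :=
  fun j => g (f j)

@[simp] lemma TT.fmap_apply {N : ℕ} {c : Cub R N} (c' : Cub R' N) (g : R →ₐ[k] R') (f : TT c)
    (j : Ix N) : TT.fmap c' g f j = g (f j) := rfl

/-- functoriality of the algebras -/
def TT.mapc {N : ℕ} (c : Cub R N) (c' : Cub R' N) (g : R →ₐ[k] R')
    (h : ∀ i j l, c'.c i j l = g (c.c i j l)) : TT c →ₐ[k] TT c' where
  toFun f := TT.fmap c' g f
  map_one' := by
    ext <;> simp
  map_mul' f f' := by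
    ext
    · simp
    · simp
    · simp [h]
    · simp
    · simp
    · simp
    · simp
  map_zero' := by ext <;> simp
  map_add' f f' := by ext <;> simp
  commutes' r := by
    rw [Algebra.algebraMap_eq_smul_one, Algebra.algebraMap_eq_smul_one]
    ext <;> simp

lemma TT.mapc_apply {N : ℕ} (c : Cub R N) (c' : Cub R' N) (g : R →ₐ[k] R')
    (h : ∀ i j l, c'.c i j l = g (c.c i j l)) (f : TT c) (j : Ix N) :
    TT.mapc c c' g h f j = g (f j) := rfl

lemma cc_map (p : Sym (Fin M) 3 → R) (g : R →ₐ[k] R') (i j l : Fin (M + 1)) :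
    cc (fun σ => g (p σ)) i j l = g (cc p i j l) := by
  cases i using Fin.cases with
  | zero => simp only [cc_zero]; split_ifs <;> simp
  | succ i =>
    cases j using Fin.cases with
    | zero => simp only [cc, Fin.cases_succ, Fin.cases_zero]; split_ifs <;> simp
    | succ j =>
      cases l using Fin.cases with
      | zero => simp only [cc, Fin.cases_succ, Fin.cases_zero]; split_ifs <;> simp
      | succ l => rfl

lemma cub_map (p : Sym (Fin M) 3 → R) (g : R →ₐ[k] R') (i j l : Fin (M + 1)) :
    (cub fun σ => g (p σ)).c i j l = g ((cub p).c i j l) := cc_map p g i j l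

lemma mapc_e (p : Sym (Fin M) 3 → R) (g : R →ₐ[k] R') (j : Ix (M + 1)) :
    TT.mapc (cub p) (cub fun σ => g (p σ)) g (cub_map p g) (TT.e _ j) = TT.e _ j := by
  funext i
  rw [TT.mapc_apply, TT.e_apply, TT.e_apply]
  split_ifs <;> simp

lemma phi_map (p : Sym (Fin M) 3 → R) (g : R →ₐ[k] R') (x : MvPolynomial (Fin (M + 2)) k)
    (j : Ix (M + 1)) : phi k (fun σ => g (p σ)) x j = g (phi k p x j) := by
  have h1 : phi k (fun σ => g (p σ)) =
      (TT.mapc (cub p) (cub fun σ => g (p σ)) g (cub_map p g)).comp (phi k p) := by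
    apply MvPolynomial.algHom_ext
    intro i
    rw [AlgHom.comp_apply]
    cases i using Fin.cases with
    | zero => rw [phi_X0, phi_X0, mapc_e]
    | succ i => rw [phi_Xs, phi_Xs, mapc_e]
  rw [h1]
  rfl

lemma gch_map (p : Sym (Fin M) 3 → R) (g : R →ₐ[k] R') :
    (gch k p).map g = gch k (fun σ => g (p σ)) := by
  ext x i
  rw [Chart.map_q, gch_q, gch_q, phi_map]

/-- the universal family -/
noncomputable def ugch (k : Type u) [Field k] (M : ℕ) :
    Chart k (bbn k M) (MvPolynomial (ULift.{u} (Sym (Fin M) 3)) k) :=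
  gch k (fun σ => X ⟨σ⟩)

lemma clf_ugch_surjective : Function.Surjective (clf (ugch k M)) := by
  rw [← AlgHom.range_eq_top, eq_top_iff, ← MvPolynomial.adjoin_range_X, Algebra.adjoin_le_iff]
  rintro _ ⟨⟨σ⟩, rfl⟩
  obtain ⟨i, j, l, rfl⟩ := s3_surj σ
  refine ⟨(uc k (bbn k M)).q (X i.succ.succ * X j.succ.succ) (num M (.v l.succ)), ?_⟩
  have h1 := uc_map_clf (ugch k M)
  have h2 : clf (ugch k M)
      ((uc k (bbn k M)).q (X i.succ.succ * X j.succ.succ) (num M (.v l.succ))) =
      (ugch k M).q (X i.succ.succ * X j.succ.succ) (num M (.v l.succ)) := by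
    rw [← Chart.map_q, h1]
  change clf (ugch k M) _ = _
  rw [h2]
  unfold ugch
  rw [gch_q, Equiv.symm_apply_apply, map_mul, phi_Xs, phi_Xs, e_uu]
  rfl

theorem exists_gor_not_smoothable [IsAlgClosed k]
    (hdim : (M + 2) * (2 * (M + 1) + 5) < (M + 2).choose 3) :
    ∃ p : Sym (Fin M) 3 → k, ¬ Set.range (mor (gch k p)) ⊆
      closure ((hilb k (MvPolynomial (Fin (M + 2)) k) (2 * (M + 1) + 5)).locus
        Ideal.IsRadical) := by
  have hcard : Nat.card (ULift.{u} (Sym (Fin M) 3)) = (M + 2).choose 3 := by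
    rw [Nat.card_ulift, Nat.card_eq_fintype_card, Sym.card_sym_eq_choose, Fintype.card_fin]
    rfl
  obtain ⟨g, hg⟩ := exists_not_smoothable (ugch k M) clf_ugch_surjective (by rw [hcard]; exact hdim)
  refine ⟨fun σ => g (X ⟨σ⟩), ?_⟩
  rw [← gch_map (fun σ => (X ⟨σ⟩ : MvPolynomial (ULift.{u} (Sym (Fin M) 3)) k)) g]
  exact hg

end fam

end Pool.Agent.Helper226
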