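import Mathlib
import Pool.Agent.Helper226.GorNot
import Pool.Agent.Helper226.GorDefs

set_option autoImplicit false

open scoped TensorProduct
open MvPolynomial CategoryTheory AlgebraicGeometry

universe u

namespace Pool.Agent.Helper226

section alg
variable {k : Type u} [Field k] {M : ℕ} (p : Sym (Fin M) 3 → k)

lemma phi_surjective : Function.Surjective (phi k p) := by
  intro t
  refine ⟨∑ j, t j • bb k M j, ?_⟩
  rw [map_sum]
  simp only [map_smul, phi_bb]
  have h := (TT.bas (cub p)).sum_equivFun t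
  simp only [TT.bas_apply, TT.bas_equivFun] at h
  exact h

/-- the ideal of the Gorenstein algebra -/
noncomputable abbrev II : Ideal (MvPolynomial (Fin (M + 2)) k) := RingHom.ker (phi k p)

lemma gch_ker : (gch k p).ker = II p := chartOfBasis_ker _ _ _ _

/-- the filtration of `TT` -/
def FF (p : Sym (Fin M) 3 → k) : ℕ → Set (TT (cub p))
  | 0 => Set.univ
  | 1 => {t | t .one = 0}
  | 2 => {t | t .one = 0 ∧ (∀ i, t (.u i) = 0) ∧ t .x1 = 0}
  | 3 => {t | t .one = 0 ∧ (∀ i, t (.u i) = 0) ∧ t .x1 = 0 ∧ (∀ i, t (.v i) = 0) ∧ t .x2 = 0}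
  | 4 => {t | t .one = 0 ∧ (∀ i, t (.u i) = 0) ∧ t .x1 = 0 ∧ (∀ i, t (.v i) = 0) ∧ t .x2 = 0 ∧
      t .x3 = 0}
  | _ => {t | t = 0}

lemma FF_add (i : ℕ) (s t : TT (cub p)) (hs : s ∈ FF p i) (ht : t ∈ FF p i) : s + t ∈ FF p i := by
  match i with
  | 0 => trivial
  | 1 => simp [FF] at *; simp [hs, ht]
  | 2 => simp [FF] at *; simp [hs, ht]
  | 3 => simp [FF] at *; simp [hs, ht]
  | 4 => simp [FF] at *; simp [hs, ht]
  | (i + 5) => simp [FF] at *; simp [hs, ht]

lemma FF_mul_left (i : ℕ) (s t : TT (cub p)) (ht : t ∈ FF p i) : s * t ∈ FF p i := by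
  match i with
  | 0 => trivial
  | 1 => simp [FF] at *; simp [ht]
  | 2 => simp [FF] at *; simp [ht]
  | 3 => simp [FF] at *; simp [ht]
  | 4 => simp [FF] at *; simp [ht]
  | (i + 5) => simp [FF] at *; simp [ht]

lemma FF_mul_one (i : ℕ) (s t : TT (cub p)) (hs : s ∈ FF p 1) (ht : t ∈ FF p i) :
    s * t ∈ FF p (i + 1) := by
  match i with
  | 0 => rw [mul_comm]; exact FF_mul_left p _ _ _ hs
  | 1 => simp [FF] at *; simp [hs, ht]
  | 2 => simp [FF] at *; simp [hs, ht]
  | 3 => simp [FF] at *; simp [hs, ht]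
  | 4 =>
    simp only [FF, Set.mem_ofPred_eq] at *
    ext
    · simp [hs]
    · simp [hs, ht]
    · simp [hs, ht]
    · simp [hs, ht]
    · simp [hs, ht]
    · simp [hs, ht]
    · simp [hs, ht]
  | (i + 5) => simp [FF] at *; simp [ht]

lemma phi_one_coeff (x : MvPolynomial (Fin (M + 2)) k) :
    phi k p x .one = constantCoeff x := by
  let ε : TT (cub p) →ₐ[k] k :=
    { toFun := fun t => t .one
      map_one' := rfl
      map_mul' := fun _ _ => rfl
      map_zero' := rfl
      map_add' := fun _ _ => rfl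
      commutes' := fun r => by
        rw [Algebra.algebraMap_eq_smul_one]
        simp }
  have h : ε.comp (phi k p) = aeval (fun _ => (0 : k)) := by
    apply MvPolynomial.algHom_ext
    intro i
    rw [AlgHom.comp_apply]
    cases i using Fin.cases with
    | zero =>
      rw [phi_X0, aeval_X]
      change TT.e (cub p) Ix.x1 Ix.one = 0
      simp
    | succ i =>
      rw [phi_Xs, aeval_X]
      change TT.e (cub p) (Ix.u i) Ix.one = 0
      simp
  have h2 := congrArg (fun f => f x) h
  simp only [AlgHom.comp_apply] at h2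
  change phi k p x .one = _ at h2
  rw [h2]
  simp

lemma phi_mem_FF_one (x : MvPolynomial (Fin (M + 2)) k) (hx : x ∈ idealOfVars (Fin (M + 2)) k) :
    phi k p x ∈ FF p 1 := by
  rw [idealOfVars_eq_ker, RingHom.mem_ker] at hx
  change phi k p x .one = 0
  rw [phi_one_coeff, hx]

lemma phi_mem_FF (j : ℕ) (x : MvPolynomial (Fin (M + 2)) k)
    (hx : x ∈ idealOfVars (Fin (M + 2)) k ^ j) : phi k p x ∈ FF p j := by
  induction j generalizing x with
  | zero => trivial
  | succ j ih =>
    rw [pow_succ'] at hx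
    induction hx using Submodule.mul_induction_on' with
    | mem_mul_mem a ha b hb =>
      rw [map_mul]
      exact FF_mul_one p j _ _ (phi_mem_FF_one p a ha) (ih b hb)
    | add a _ b _ h1 h2 =>
      rw [map_add]
      exact FF_add p _ _ _ h1 h2

lemma pow5_le : idealOfVars (Fin (M + 2)) k ^ 5 ≤ II p := by
  intro x hx
  have := phi_mem_FF p 5 x hx
  rw [RingHom.mem_ker]
  exact this

lemma II_le : II p ≤ idealOfVars (Fin (M + 2)) k := by
  intro x hx
  rw [RingHom.mem_ker] at hx
  rw [idealOfVars_eq_ker, RingHom.mem_ker, ← phi_one_coeff p, hx]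
  rfl

lemma u_mul_FF3 (i : Fin (M + 1)) (t : TT (cub p)) (ht : t ∈ FF p 3) : TT.e _ (.u i) * t = 0 := by
  simp only [FF, Set.mem_ofPred_eq] at ht
  ext
  · simp
  · simp [ht]
  · simp [ht]
  · simp [ht]
  · simp [ht]
  · simp [ht]
  · simp [ht]

lemma X0_pow4 : phi k p (X 0 ^ 4) = TT.e _ .w := phi_bb (k := k) p .w

lemma X0_pow5 : (X 0 ^ 5 : MvPolynomial (Fin (M + 2)) k) ∈ II p := by
  apply pow5_le
  have h : (X 0 : MvPolynomial (Fin (M + 2)) k) ∈ idealOfVars (Fin (M + 2)) k :=
    Ideal.subset_span ⟨0, rfl⟩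
  exact Ideal.pow_mem_pow h 5

lemma X0_pow4_not_mem : (X 0 ^ 4 : MvPolynomial (Fin (M + 2)) k) ∉ II p := by
  rw [RingHom.mem_ker, X0_pow4]
  intro h
  have := congrFun h Ix.w
  simp at this

lemma soc (t : TT (cub p)) (h1 : ∀ i, t * TT.e _ (.u i) = 0) (h2 : t * TT.e _ .x1 = 0) :
    t = t .w • TT.e _ .w := by
  have hone : t .one = 0 := by
    have := congrFun (h1 0) (Ix.u 0)
    simpa using this
  have hu : ∀ l, t (.u l) = 0 := by
    intro l
    have h := congrFun (h1 0) (Ix.v l)
    rw [TT.mul_v] at h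
    simp only [TT.e_apply, hone] at h
    have e1 : ∀ i j : Fin (M + 1), (cub p).c i j l * (t (.u i) * if Ix.u j = Ix.u 0 then 1 else 0) =
        if j = 0 then (cub p).c i j l * t (.u i) else 0 := by
      intro i j
      by_cases hj : j = 0 <;> simp [hj]
    simp only [e1, Finset.sum_ite_eq', Finset.mem_univ, if_true] at h
    have e2 : ∀ i : Fin (M + 1), (cub p).c i 0 l * t (.u i) = if i = l then t (.u l) else 0 := by
      intro i
      rw [cub_c, cc_s12, cc_zero]
      by_cases hi : i = l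
      · subst hi; simp
      · simp [hi]
    simp only [e2, Finset.sum_ite_eq', Finset.mem_univ, if_true] at h
    simpa using h
  have hv : ∀ l, t (.v l) = 0 := by
    intro l
    have h := congrFun (h1 l) Ix.w
    rw [TT.mul_w] at h
    simp only [TT.e_apply, hone, hu] at h
    simpa using h
  have hx3 : t .x3 = 0 := by
    have h := congrFun h2 Ix.w
    simpa using h
  have hx2 : t .x2 = 0 := by
    have h := congrFun h2 Ix.x3
    simpa using h
  have hx1 : t .x1 = 0 := by
    have h := congrFun h2 Ix.x2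
    simpa using h
  ext <;> simp [hone, hu, hv, hx1, hx2, hx3]


lemma X_mem_vars (i : Fin (M + 2)) :
    (X i : MvPolynomial (Fin (M + 2)) k) ∈ idealOfVars (Fin (M + 2)) k :=
  Ideal.subset_span ⟨i, rfl⟩

/-- the maximal ideal of the quotient -/
noncomputable def mb' : Ideal (MvPolynomial (Fin (M + 2)) k ⧸ II p) :=
  (idealOfVars (Fin (M + 2)) k).map (Ideal.Quotient.mk (II p))

lemma mk_mem_mb'_pow (j : ℕ) (x : MvPolynomial (Fin (M + 2)) k) :
    Ideal.Quotient.mk (II p) x ∈ mb' p ^ j ↔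
      ∃ y ∈ idealOfVars (Fin (M + 2)) k ^ j, x - y ∈ II p := by
  unfold mb'
  rw [← Ideal.map_pow, Ideal.mem_map_iff_of_surjective _ Ideal.Quotient.mk_surjective]
  constructor
  · rintro ⟨y, hy, hxy⟩
    exact ⟨y, hy, Ideal.Quotient.eq.1 hxy.symm⟩
  · rintro ⟨y, hy, hxy⟩
    exact ⟨y, hy, (Ideal.Quotient.eq.2 hxy).symm⟩

lemma mb'_pow_five : mb' p ^ 5 = ⊥ := by
  rw [eq_bot_iff]
  intro x hx
  obtain ⟨x, rfl⟩ := Ideal.Quotient.mk_surjective x
  rw [mk_mem_mb'_pow] at hx
  obtain ⟨y, hy, hxy⟩ := hx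
  rw [Ideal.mem_bot, Ideal.Quotient.eq_zero_iff_mem]
  have := Ideal.add_mem _ hxy (pow5_le p hy)
  rwa [sub_add_cancel] at this

lemma mb'_isMaximal : (mb' p).IsMaximal := by
  have h := idealOfVars_isMaximal (k := k) (n := M + 2)
  rcases Ideal.map_eq_top_or_isMaximal_of_surjective (Ideal.Quotient.mk (II p))
    Ideal.Quotient.mk_surjective h with h1 | h1
  · exfalso
    have h2 := congrArg (Ideal.comap (Ideal.Quotient.mk (II p))) h1
    rw [Ideal.comap_map_of_surjective _ Ideal.Quotient.mk_surjective, Ideal.comap_top,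
      ← RingHom.ker_eq_comap_bot, Ideal.mk_ker, sup_eq_left.2 (II_le p)] at h2
    exact h.ne_top h2
  · exact h1

lemma isLocalRing_quot : IsLocalRing (MvPolynomial (Fin (M + 2)) k ⧸ II p) := by
  apply IsLocalRing.of_unique_max_ideal
  refine ⟨mb' p, mb'_isMaximal p, fun P hP => ?_⟩
  have hle : mb' p ≤ P := by
    have h1 : mb' p ^ 5 ≤ P := by rw [mb'_pow_five]; exact bot_le
    exact Ideal.IsPrime.le_of_pow_le (hP := hP.isPrime) h1
  exact ((mb'_isMaximal p).eq_of_le hP.ne_top hle).symm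

lemma maximalIdeal_eq [IsLocalRing (MvPolynomial (Fin (M + 2)) k ⧸ II p)] :
    IsLocalRing.maximalIdeal (MvPolynomial (Fin (M + 2)) k ⧸ II p) = mb' p :=
  (IsLocalRing.eq_maximalIdeal (mb'_isMaximal p)).symm

lemma mk_mem_ann (j : ℕ) (x : MvPolynomial (Fin (M + 2)) k) :
    Ideal.Quotient.mk (II p) x ∈ Submodule.annihilator (mb' p ^ j : Ideal _) ↔
      ∀ y ∈ idealOfVars (Fin (M + 2)) k ^ j, x * y ∈ II p := by
  rw [Submodule.mem_annihilator]
  constructor
  · intro h y hy
    have h1 := h (Ideal.Quotient.mk (II p) y) ((mk_mem_mb'_pow p j y).2 ⟨y, hy, by simp⟩)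
    rw [smul_eq_mul, ← map_mul, Ideal.Quotient.eq_zero_iff_mem] at h1
    exact h1
  · intro h y hy
    obtain ⟨y, rfl⟩ := Ideal.Quotient.mk_surjective y
    rw [mk_mem_mb'_pow] at hy
    obtain ⟨z, hz, hyz⟩ := hy
    rw [smul_eq_mul, ← map_mul, Ideal.Quotient.eq_zero_iff_mem]
    have h1 : x * y = x * (y - z) + x * z := by ring
    rw [h1]
    exact Ideal.add_mem _ (Ideal.mul_mem_left _ _ hyz) (h z hz)

end alg

section q0
variable {k : Type u} [Field k] {M : ℕ}

/-- ideal of `Q(0)` -/
noncomputable def KK (k : Type u) [Field k] (M : ℕ) : Ideal (MvPolynomial (Fin (M + 2)) k) :=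
  Ideal.span (Set.range fun i : Fin (M + 1) => (X i.succ : MvPolynomial (Fin (M + 2)) k)) ⊔
    Ideal.span {X 0 ^ 5}

lemma degree_single_zero_iff (μ : Fin (M + 2) →₀ ℕ) (h : ∀ i : Fin (M + 1), μ i.succ = 0) :
    μ = Finsupp.single 0 μ.degree := by
  have h1 : μ = Finsupp.single 0 (μ 0) := by
    ext i
    cases i using Fin.cases with
    | zero => simp
    | succ i => rw [h i, Finsupp.single_apply, if_neg (Fin.succ_ne_zero i).symm]
  have h2 : μ.degree = μ 0 := by
    conv_lhs => rw [h1]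
    simp
  rw [h2]
  exact h1

lemma monomial_mem_U (μ : Fin (M + 2) →₀ ℕ) (h : μ ≠ Finsupp.single 0 μ.degree) (a : k) :
    (monomial μ a : MvPolynomial (Fin (M + 2)) k) ∈
      Ideal.span (Set.range fun i : Fin (M + 1) => (X i.succ : MvPolynomial (Fin (M + 2)) k)) := by
  by_contra hnot
  apply h
  apply degree_single_zero_iff
  intro j
  by_contra hj
  apply hnot
  have hle : Finsupp.single j.succ 1 ≤ μ := by
    rw [Finsupp.single_le_iff]; omega
  obtain ⟨ν, rfl⟩ := exists_add_of_le hle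
  have : (monomial (Finsupp.single j.succ 1 + ν) a : MvPolynomial (Fin (M + 2)) k) =
      X j.succ * monomial ν a := by
    rw [X, monomial_mul, one_mul]
  rw [this]
  exact Ideal.mul_mem_right _ _ (Ideal.subset_span ⟨j, rfl⟩)

lemma sub_mem_U (f : MvPolynomial (Fin (M + 2)) k) (i : ℕ) (hf : f.IsHomogeneous i) :
    f - C (coeff (Finsupp.single 0 i) f) * X 0 ^ i ∈
      Ideal.span (Set.range fun i : Fin (M + 1) => (X i.succ : MvPolynomial (Fin (M + 2)) k)) := by
  have hdeg : ∀ μ, coeff μ f ≠ 0 → μ.degree = i := by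
    intro μ hc
    have := hf hc
    rwa [Pi.one_def, ← Finsupp.degree_eq_weight_one] at this
  set g := f - C (coeff (Finsupp.single 0 i) f) * X 0 ^ i with hg
  rw [g.as_sum]
  refine Ideal.sum_mem _ fun μ hμ => ?_
  have hcg : ∀ μ, coeff μ g = coeff μ f -
      if μ = Finsupp.single 0 i then coeff (Finsupp.single 0 i) f else 0 := by
    intro μ
    rw [hg, coeff_sub, coeff_C_mul, coeff_X_pow, mul_ite, mul_one, mul_zero]
    congr 1
    simp [eq_comm]
  apply monomial_mem_U
  intro hcon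
  rw [mem_support_iff] at hμ
  apply hμ
  rw [hcg]
  by_cases h : μ = Finsupp.single 0 i
  · rw [if_pos h, h, sub_self]
  · rw [if_neg h, sub_zero]
    by_contra hne
    apply h
    rw [hcon, hdeg μ hne]

variable (p : Sym (Fin M) 3 → k)

/-- value on forms of degree four -/
lemma phi_deg_four (f : MvPolynomial (Fin (M + 2)) k) (i : ℕ) (hi : i ≤ 4) (hf : f.IsHomogeneous i) :
    phi k p (f * X 0 ^ (4 - i)) = coeff (Finsupp.single 0 i) f • TT.e _ .w := by
  -- write `f` as a sum
  have hdeg : ∀ μ, coeff μ f ≠ 0 → μ.degree = i := by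
    intro μ hc
    have := hf hc
    rwa [Pi.one_def, ← Finsupp.degree_eq_weight_one] at this
  have key : ∀ μ : Fin (M + 2) →₀ ℕ, μ ≠ Finsupp.single 0 i → μ.degree = i → ∀ a : k,
      phi k p (monomial μ a * X 0 ^ (4 - i)) = 0 := by
    intro μ hμ hd a
    have hex : ∃ j : Fin (M + 1), μ j.succ ≠ 0 := by
      by_contra hcon
      push Not at hcon
      exact hμ (by rw [degree_single_zero_iff μ hcon, hd])
    obtain ⟨j, hj⟩ := hex
    have hle : Finsupp.single j.succ 1 ≤ μ := by
      rw [Finsupp.single_le_iff]; omega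
    obtain ⟨ν, rfl⟩ := exists_add_of_le hle
    have h1 : (monomial (Finsupp.single j.succ 1 + ν) a : MvPolynomial (Fin (M + 2)) k) =
        X j.succ * monomial ν a := by
      rw [X, monomial_mul, one_mul]
    rw [h1, mul_assoc, map_mul, phi_Xs]
    apply u_mul_FF3
    apply phi_mem_FF
    rw [map_add, Finsupp.degree_single] at hd
    have h2 : (monomial ν a : MvPolynomial (Fin (M + 2)) k) ∈
        idealOfVars (Fin (M + 2)) k ^ ν.degree := by
      by_cases ha : a = 0
      · rw [ha, map_zero]; exact Ideal.zero_mem _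
      · rw [monomial_mem_pow_idealOfVars_iff _ _ ha]
    have h3 := Ideal.mul_mem_mul h2 (Ideal.pow_mem_pow (X_mem_vars (k := k) (M := M) 0) (4 - i))
    rw [← pow_add] at h3
    have h4 : ν.degree + (4 - i) = 3 := by omega
    rwa [h4] at h3
  conv_lhs => rw [f.as_sum, Finset.sum_mul, map_sum]
  have hterm : ∀ μ ∈ f.support, phi k p (monomial μ (coeff μ f) * X 0 ^ (4 - i)) =
      if μ = Finsupp.single 0 i then coeff (Finsupp.single 0 i) f • TT.e _ .w else 0 := by
    intro μ hμ
    split_ifs with h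
    · rw [h]
      have h5 : (monomial (Finsupp.single 0 i) (coeff (Finsupp.single 0 i) f) :
          MvPolynomial (Fin (M + 2)) k) = coeff (Finsupp.single 0 i) f • X 0 ^ i := by
        rw [X_pow_eq_monomial, smul_monomial, smul_eq_mul, mul_one]
      rw [h5, smul_mul_assoc, ← pow_add, Nat.add_sub_cancel' hi, map_smul, X0_pow4]
    · exact key μ h (hdeg μ (mem_support_iff.1 hμ)) _
  rw [Finset.sum_congr rfl hterm, Finset.sum_ite_eq']
  split_ifs with h
  · rfl
  · rw [notMem_support_iff.1 h, zero_smul]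

theorem Q0Ideal_eq [IsLocalRing (MvPolynomial (Fin (M + 2)) k ⧸ II p)] :
    Q0Ideal (II p) 4 = KK k M := by
  apply le_antisymm
  · unfold Q0Ideal
    rw [Ideal.span_le]
    rintro f ⟨i, hf, hC⟩
    change f ∈ KK k M
    have hsub := sub_mem_U f i hf
    have hsub' : f - C (coeff (Finsupp.single 0 i) f) * X 0 ^ i ∈ KK k M :=
      Ideal.mem_sup_left hsub
    have hf2 : f = (f - C (coeff (Finsupp.single 0 i) f) * X 0 ^ i) +
      C (coeff (Finsupp.single 0 i) f) * X 0 ^ i := by ring
    rw [hf2]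
    refine Ideal.add_mem _ hsub' ?_
    rcases Nat.lt_or_ge 4 i with hi | hi
    · obtain ⟨j, rfl⟩ := Nat.exists_eq_add_of_le (show 5 ≤ i by omega)
      rw [pow_add]
      apply Ideal.mul_mem_left
      apply Ideal.mul_mem_right
      exact Ideal.mem_sup_right (Ideal.mem_span_singleton_self _)
    · -- coefficient vanishes
      have hz : coeff (Finsupp.single 0 i) f = 0 := by
        unfold CPiece at hC
        rw [maximalIdeal_eq, show 4 + 1 - 1 - i = 4 - i by omega] at hC
        obtain ⟨a, ha, b, hb, hab⟩ := Submodule.mem_sup.1 hC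
        obtain ⟨b, rfl⟩ := Ideal.Quotient.mk_surjective b
        obtain ⟨a, rfl⟩ := Ideal.Quotient.mk_surjective a
        have ha1 := (mk_mem_ann p _ _).1 ha.1 (X 0 ^ (4 - i))
          (Ideal.pow_mem_pow (X_mem_vars 0) _)
        obtain ⟨b', hb', hbb'⟩ := (mk_mem_mb'_pow p _ _).1 hb
        rw [← map_add] at hab
        have hab' := Ideal.Quotient.eq.1 hab
        have h1 : phi k p (f * X 0 ^ (4 - i)) = 0 := by
          have h2 : f * X 0 ^ (4 - i) = a * X 0 ^ (4 - i) + (b - b') * X 0 ^ (4 - i) +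
            b' * X 0 ^ (4 - i) - (a + b - f) * X 0 ^ (4 - i) := by ring
          have h3 : b' * X 0 ^ (4 - i) ∈ II p := by
            apply pow5_le
            have h4 := Ideal.mul_mem_mul hb' (Ideal.pow_mem_pow (X_mem_vars (k := k) (M := M) 0) (4 - i))
            rw [← pow_add, show i + 1 + (4 - i) = 5 by omega] at h4
            exact h4
          have h5 : f * X 0 ^ (4 - i) ∈ II p := by
            rw [h2]
            exact Ideal.sub_mem _ (Ideal.add_mem _ (Ideal.add_mem _ ha1
              (Ideal.mul_mem_right _ _ hbb')) h3) (Ideal.mul_mem_right _ _ hab')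
          exact h5
        rw [phi_deg_four p f i hi hf] at h1
        have h6 := congrFun h1 Ix.w
        simpa using h6
      rw [hz, C_0, zero_mul]
      exact Ideal.zero_mem _
  · unfold KK
    rw [sup_le_iff, Ideal.span_le, Ideal.span_le]
    constructor
    · rintro _ ⟨i, rfl⟩
      apply Ideal.subset_span
      refine ⟨1, isHomogeneous_X _ _, ?_⟩
      unfold CPiece
      apply Ideal.mem_sup_left
      rw [maximalIdeal_eq]
      refine ⟨?_, ?_⟩
      · rw [show 4 + 1 - 1 - 1 = 3 by norm_num]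
        rw [SetLike.mem_coe, mk_mem_ann]
        intro y hy
        rw [RingHom.mem_ker, map_mul, phi_Xs]
        exact u_mul_FF3 p i _ (phi_mem_FF p 3 y hy)
      · rw [SetLike.mem_coe, mk_mem_mb'_pow]
        exact ⟨X i.succ, by rw [pow_one]; exact X_mem_vars _, by simp⟩
    · rintro _ rfl
      apply Ideal.subset_span
      refine ⟨5, isHomogeneous_X_pow _ _, ?_⟩
      rw [Ideal.Quotient.eq_zero_iff_mem.2 (X0_pow5 p)]
      exact Ideal.zero_mem _

theorem gorenstein [IsLocalRing (MvPolynomial (Fin (M + 2)) k ⧸ II p)] :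
    IsGorensteinLocal k (MvPolynomial (Fin (M + 2)) k ⧸ II p) (2 * (M + 1) + 5) 4 := by
  let E : (MvPolynomial (Fin (M + 2)) k ⧸ II p) ≃ₐ[k] TT (cub p) :=
    Ideal.quotientKerAlgEquivOfSurjective (phi_surjective p)
  have hfin : Module.Finite k (MvPolynomial (Fin (M + 2)) k ⧸ II p) :=
    Module.Finite.of_basis ((TT.bas (cub p)).map E.toLinearEquiv.symm)
  refine ⟨hfin, ?_, ?_, ?_, ?_⟩
  · rw [E.toLinearEquiv.finrank_eq, Module.finrank_eq_card_basis (TT.bas (cub p)), Ix.card]
  · rw [maximalIdeal_eq]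
    have hmem : ∀ x : MvPolynomial (Fin (M + 2)) k,
        Ideal.Quotient.mk (II p) x ∈ Submodule.annihilator (mb' p : Ideal _) ↔
          ∀ y ∈ idealOfVars (Fin (M + 2)) k, x * y ∈ II p := by
      intro x
      have h1 := mk_mem_ann p 1 x
      have e : (mb' p ^ 1 : Ideal _) = mb' p := Submodule.pow_one _
      rw [pow_one] at h1
      rw [← h1]
      exact iff_of_eq (congrArg (fun J : Ideal (MvPolynomial (Fin (M + 2)) k ⧸ II p) =>
        Ideal.Quotient.mk (II p) x ∈ Submodule.annihilator J) e.symm)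
    have hw : Ideal.Quotient.mk (II p) (X 0 ^ 4) ∈ Submodule.annihilator (mb' p : Ideal _) := by
      rw [hmem]
      intro y hy
      apply pow5_le
      have := Ideal.mul_mem_mul (Ideal.pow_mem_pow (X_mem_vars (k := k) (M := M) 0) 4) hy
      rwa [← pow_succ] at this
    rw [finrank_eq_one_iff']
    refine ⟨⟨_, hw⟩, ?_, ?_⟩
    · intro h
      have h1 := congrArg Subtype.val h
      exact X0_pow4_not_mem p (Ideal.Quotient.eq_zero_iff_mem.1 h1)
    · rintro ⟨x, hx⟩
      obtain ⟨x, rfl⟩ := Ideal.Quotient.mk_surjective x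
      rw [hmem] at hx
      have h1 : ∀ i, phi k p x * TT.e _ (.u i) = 0 := by
        intro i
        have := hx (X i.succ) (X_mem_vars _)
        rw [RingHom.mem_ker, map_mul, phi_Xs] at this
        exact this
      have h2 : phi k p x * TT.e _ .x1 = 0 := by
        have := hx (X 0) (X_mem_vars _)
        rw [RingHom.mem_ker, map_mul, phi_X0] at this
        exact this
      have h3 := soc p _ h1 h2
      refine ⟨phi k p x .w, ?_⟩
      apply Subtype.ext
      change (phi k p x .w) • Ideal.Quotient.mk (II p) (X 0 ^ 4) = Ideal.Quotient.mk (II p) x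
      have h4 : (phi k p x .w) • Ideal.Quotient.mk (II p) (X 0 ^ 4) =
          Ideal.Quotient.mk (II p) ((phi k p x .w) • X 0 ^ 4) := rfl
      rw [h4, Ideal.Quotient.eq, RingHom.mem_ker, map_sub, map_smul, X0_pow4, ← h3, sub_self]
  · rw [maximalIdeal_eq]
    intro h
    have h1 : Ideal.Quotient.mk (II p) (X 0 ^ 4) ∈ mb' p ^ 4 :=
      (mk_mem_mb'_pow p 4 _).2 ⟨X 0 ^ 4, Ideal.pow_mem_pow (X_mem_vars _) 4, by simp⟩
    rw [h, Ideal.mem_bot] at h1
    exact X0_pow4_not_mem p (Ideal.Quotient.eq_zero_iff_mem.1 h1)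
  · rw [maximalIdeal_eq]
    exact mb'_pow_five p

end q0

end Pool.Agent.Helper226
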