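import Mathlib
import Pool.Agent.Helper226.GorQ0

set_option autoImplicit false

open scoped TensorProduct
open MvPolynomial CategoryTheory AlgebraicGeometry

universe u

namespace Pool.Agent.Helper226

section ext
variable {k : Type u} [Field k] {n d : ℕ} {b : Fin d → MvPolynomial (Fin n) k}
variable {R : Type u} [CommRing R] [Algebra k R]

lemma chart_ext_vars (c c' : Chart k b R) (h1 : c.q 1 = c'.q 1)
    (hX : ∀ j i, c.q (b j * X i) = c'.q (b j * X i)) : c = c' := by
  have key : ∀ x, c.q x = c'.q x := by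
    intro x
    induction x using MvPolynomial.induction_on with
    | C a =>
      have h : (C a : MvPolynomial (Fin n) k) = a • 1 := by rw [smul_eq_C_mul, mul_one]
      rw [h, map_smul, map_smul, h1]
    | add p q hp hq => rw [map_add, map_add, hp, hq]
    | mul_X p i hp =>
      rw [c.q_mul, c'.q_mul, hp]
      exact Finset.sum_congr rfl fun j _ => by rw [hX]
  ext x : 1
  exact key x

end ext

section sm
variable {k : Type u} [Field k] {M : ℕ}
variable {R : Type u} [CommRing R] [Algebra k R]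

/-- the polynomial `X^5 - t` -/
noncomputable def ft (t : R) : Polynomial R := Polynomial.X ^ 5 - Polynomial.C t

lemma ft_monic (t : R) : (ft t).Monic := Polynomial.monic_X_pow_sub_C t (by norm_num)

lemma ft_natDegree [Nontrivial R] (t : R) : (ft t).natDegree = 5 :=
  Polynomial.natDegree_X_pow_sub_C

/-- the map to `R[X]/(X^5 - t)` -/
noncomputable def psi (k : Type u) [Field k] [Algebra k R] (M : ℕ) (t : R) :
    MvPolynomial (Fin (M + 2)) k →ₐ[k] AdjoinRoot (ft t) :=
  aeval (Fin.cases (AdjoinRoot.root (ft t)) (fun _ : Fin (M + 1) => 0))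

lemma psi_X0 (t : R) : psi k M t (X 0) = AdjoinRoot.root (ft t) := by
  simp [psi]

lemma psi_Xs (t : R) (i : Fin (M + 1)) : psi k M t (X i.succ) = 0 := by
  simp [psi]

/-- basis monomials -/
noncomputable def b5 (k : Type u) [Field k] (M : ℕ) : Fin 5 → MvPolynomial (Fin (M + 2)) k :=
  fun i => X 0 ^ (i : ℕ)

/-- basis of `R[X]/(X^5 - t)` -/
noncomputable def bas5 [Nontrivial R] (t : R) : Module.Basis (Fin 5) R (AdjoinRoot (ft t)) :=
  (AdjoinRoot.powerBasis' (ft_monic t)).basis.reindex
    (finCongr ((AdjoinRoot.powerBasis'_dim (ft_monic t)).trans (ft_natDegree t)))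

lemma bas5_apply [Nontrivial R] (t : R) (i : Fin 5) :
    bas5 t i = AdjoinRoot.root (ft t) ^ (i : ℕ) := by
  unfold bas5
  rw [Module.Basis.reindex_apply, PowerBasis.basis_eq_pow, AdjoinRoot.powerBasis'_gen]
  rfl

/-- chart datum of `S → R[X]/(X^5 - t)` -/
noncomputable def sch (k : Type u) [Field k] [Algebra k R] [Nontrivial R] (M : ℕ) (t : R) :
    Chart k (b5 k M) R :=
  chartOfBasis (bas5 t) (psi k M t) (b5 k M) (by
    intro i
    rw [b5, map_pow, psi_X0, bas5_apply])

lemma root_pow5 (t : R) : AdjoinRoot.root (ft t) ^ 5 = algebraMap R _ t := by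
  have h : (AdjoinRoot.mk (ft t)) (ft t) = 0 := AdjoinRoot.mk_self
  unfold ft at h ⊢
  rw [map_sub, map_pow, AdjoinRoot.mk_X, AdjoinRoot.mk_C, sub_eq_zero] at h
  exact h

lemma sch_q_Xs [Nontrivial R] (t : R) (x : MvPolynomial (Fin (M + 2)) k) (i : Fin (M + 1)) :
    (sch k M t).q (x * X i.succ) = 0 := by
  unfold sch
  rw [chartOfBasis_q, map_mul, psi_Xs, mul_zero, map_zero]

lemma sch_q_one [Nontrivial R] (t : R) : (sch k M t).q 1 = Pi.single 0 1 := by
  have h : (1 : MvPolynomial (Fin (M + 2)) k) = b5 k M 0 := by simp [b5]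
  rw [h, (sch k M t).q_b]

lemma sch_q_pow5 [Nontrivial R] (t : R) : (sch k M t).q (X 0 ^ 5) = t • Pi.single 0 1 := by
  unfold sch
  rw [chartOfBasis_q, map_pow, psi_X0, root_pow5, Algebra.algebraMap_eq_smul_one, map_smul]
  congr 1
  have h : (1 : AdjoinRoot (ft t)) = bas5 t 0 := by rw [bas5_apply]; simp
  rw [h]
  ext j
  rw [Module.Basis.equivFun_self, Pi.single_apply]
  simp [eq_comm]

lemma sch_q_b_mul [Nontrivial R] (t : R) (j : Fin 5) :
    (sch k M t).q (b5 k M j * X 0) =
      if h : (j : ℕ) + 1 < 5 then Pi.single ⟨(j : ℕ) + 1, h⟩ 1 else t • Pi.single 0 1 := by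
  have h1 : b5 k M j * X 0 = X 0 ^ ((j : ℕ) + 1) := by
    rw [b5, pow_succ]
  rw [h1]
  split_ifs with h
  · exact (sch k M t).q_b ⟨(j : ℕ) + 1, h⟩
  · have h2 : (j : ℕ) + 1 = 5 := by omega
    rw [h2]
    exact sch_q_pow5 t

lemma sch_map {R' : Type u} [CommRing R'] [Algebra k R'] [Nontrivial R] [Nontrivial R'] (t : R)
    (g : R →ₐ[k] R') : (sch k M t).map g = sch k M (g t) := by
  apply chart_ext_vars
  · ext j
    rw [Chart.map_q, sch_q_one, sch_q_one, Pi.single_apply, Pi.single_apply]
    split_ifs <;> simp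
  · intro j i
    ext l
    rw [Chart.map_q]
    cases i using Fin.cases with
    | zero =>
      rw [sch_q_b_mul, sch_q_b_mul]
      split_ifs with h
      · rw [Pi.single_apply, Pi.single_apply]
        split_ifs <;> simp
      · rw [Pi.smul_apply, Pi.smul_apply, Pi.single_apply, Pi.single_apply]
        split_ifs <;> simp
    | succ i =>
      rw [sch_q_Xs, sch_q_Xs]
      simp

end sm

section field
variable {k : Type u} [Field k] {M : ℕ}

/-- restriction to the `x`-axis -/
noncomputable def rho (k : Type u) [Field k] (M : ℕ) :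
    MvPolynomial (Fin (M + 2)) k →ₐ[k] Polynomial k :=
  aeval (Fin.cases Polynomial.X (fun _ : Fin (M + 1) => 0))

lemma rho_X0 : rho k M (X 0) = Polynomial.X := by simp [rho]

lemma rho_Xs (i : Fin (M + 1)) : rho k M (X i.succ) = 0 := by simp [rho]

lemma psi_eq (t : k) (x : MvPolynomial (Fin (M + 2)) k) :
    psi k M t x = AdjoinRoot.mk (ft t) (rho k M x) := by
  have h : psi k M t = (AdjoinRoot.mkₐ (ft t)).comp (rho k M) := by
    apply MvPolynomial.algHom_ext
    intro i
    rw [AlgHom.comp_apply]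
    cases i using Fin.cases with
    | zero => rw [psi_X0, rho_X0]; rfl
    | succ i => rw [psi_Xs, rho_Xs, map_zero]
  rw [h]
  rfl

lemma ker_psi (t : k) : RingHom.ker (psi k M t) = (Ideal.span {ft t}).comap (rho k M) := by
  ext x
  rw [RingHom.mem_ker, psi_eq, AdjoinRoot.mk_eq_zero, Ideal.mem_comap,
    Ideal.mem_span_singleton]

lemma sch_ker (t : k) : (sch k M t).ker = RingHom.ker (psi k M t) := chartOfBasis_ker _ _ _ _

lemma sch_ker_isRadical [CharZero k] (t : k) (ht : t ≠ 0) : (sch k M t).ker.IsRadical := by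
  rw [sch_ker, ker_psi]
  apply Ideal.IsRadical.comap
  rw [← isRadical_iff_span_singleton]
  apply Squarefree.isRadical
  apply Polynomial.Separable.squarefree
  exact Polynomial.separable_X_pow_sub_C t (by norm_num) ht

lemma sub_rho_mem (x : MvPolynomial (Fin (M + 2)) k) :
    x - Polynomial.aeval (X 0) (rho k M x) ∈
      Ideal.span (Set.range fun i : Fin (M + 1) => (X i.succ : MvPolynomial (Fin (M + 2)) k)) := by
  induction x using MvPolynomial.induction_on with
  | C a =>
    have h : rho k M (C a) = Polynomial.C a := (rho k M).commutes a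
    rw [h, Polynomial.aeval_C]
    change C a - C a ∈ _
    rw [sub_self]
    exact Ideal.zero_mem _
  | add p q hp hq =>
    rw [map_add, map_add, add_sub_add_comm]
    exact Ideal.add_mem _ hp hq
  | mul_X p i hp =>
    rw [map_mul, map_mul]
    cases i using Fin.cases with
    | zero =>
      rw [rho_X0, Polynomial.aeval_X, ← sub_mul]
      exact Ideal.mul_mem_right _ _ hp
    | succ i =>
      rw [rho_Xs, map_zero, mul_zero, sub_zero]
      exact Ideal.mul_mem_left _ _ (Ideal.subset_span ⟨i, rfl⟩)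

lemma sch_ker_zero : (sch k M (0 : k)).ker = KK k M := by
  rw [sch_ker, ker_psi]
  have hft : ft (0 : k) = Polynomial.X ^ 5 := by simp [ft]
  rw [hft]
  apply le_antisymm
  · intro x hx
    rw [Ideal.mem_comap, Ideal.mem_span_singleton] at hx
    obtain ⟨g, hg⟩ := hx
    have h := sub_rho_mem x
    rw [hg, map_mul, map_pow, Polynomial.aeval_X] at h
    have h2 : x = (x - X 0 ^ 5 * Polynomial.aeval (X 0) g) + X 0 ^ 5 * Polynomial.aeval (X 0) g := by
      ring
    rw [h2]
    unfold KK
    exact Ideal.add_mem _ (Ideal.mem_sup_left h)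
      (Ideal.mem_sup_right (Ideal.mul_mem_right _ _ (Ideal.mem_span_singleton_self _)))
  · unfold KK
    rw [sup_le_iff, Ideal.span_le, Ideal.span_le]
    constructor
    · rintro _ ⟨i, rfl⟩
      rw [SetLike.mem_coe, Ideal.mem_comap, rho_Xs]
      exact Ideal.zero_mem _
    · rintro _ rfl
      rw [SetLike.mem_coe, Ideal.mem_comap, map_pow, rho_X0]
      exact Ideal.mem_span_singleton_self _

theorem KK_smoothable [IsAlgClosed k] [CharZero k] :
    Set.range (mor (sch k M (0 : k))) ⊆
      closure ((hilb k (MvPolynomial (Fin (M + 2)) k) 5).locus Ideal.IsRadical) := by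
  set c : Chart k (b5 k M) (Polynomial k) := sch k M (Polynomial.X : Polynomial k) with hc
  have hmap : ∀ g : Polynomial k →ₐ[k] k, c.map g = sch k M (g Polynomial.X) := fun g =>
    sch_map _ g
  let g0 : Polynomial k →ₐ[k] k := Polynomial.aeval 0
  have hg0 : c.map g0 = sch k M (0 : k) := by
    rw [hmap]
    simp [g0]
  let M0 : Spec (CommRingCat.of (Polynomial k)) :=
    (⟨RingHom.ker g0, RingHom.ker_isPrime _⟩ : PrimeSpectrum (Polynomial k))
  have hM0 := mor_point c g0 M0 rfl
  rw [hg0] at hM0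
  intro y hy
  have hy' : y = mor c M0 := by
    rw [mem_range_mor_iff] at hy hM0
    rw [hy, hM0]
  rw [hy']
  refine mem_closure_iff.2 ?_
  intro U hU hoU
  have hJ : JacobsonSpace (PrimeSpectrum (Polynomial k)) :=
    PrimeSpectrum.isJacobsonRing_iff_jacobsonSpace.1 (isJacobsonRing_of_finiteType (A := k))
  have hV : IsOpen ((mor c) ⁻¹' U) := hU.preimage (mor c).continuous
  let V : Set (PrimeSpectrum (Polynomial k)) := (mor c) ⁻¹' U
  have hVo : IsOpen V := hV
  have hW : IsOpen (V ∩ (PrimeSpectrum.basicOpen (Polynomial.X : Polynomial k) :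
      Set (PrimeSpectrum (Polynomial k)))) := hVo.inter (PrimeSpectrum.basicOpen _).isOpen
  have hWne : (V ∩ (PrimeSpectrum.basicOpen (Polynomial.X : Polynomial k) :
      Set (PrimeSpectrum (Polynomial k)))).Nonempty := by
    apply nonempty_preirreducible_inter hVo (PrimeSpectrum.basicOpen _).isOpen ⟨M0, hoU⟩
    refine ⟨⟨⊥, Ideal.isPrime_bot⟩, ?_⟩
    rw [SetLike.mem_coe, PrimeSpectrum.mem_basicOpen]
    intro h
    exact Polynomial.X_ne_zero (Ideal.mem_bot.1 h)
  obtain ⟨P, hPV, hPc⟩ := @nonempty_inter_closedPoints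
    (PrimeSpectrum (Polynomial k)) _ hJ _ hWne hW.isLocallyClosed
  have hP : P.asIdeal.IsMaximal := (PrimeSpectrum.isClosed_singleton_iff_isMaximal P).1 hPc
  obtain ⟨g, hg⟩ := exists_hom_of_maximal (k := k) P.asIdeal hP
  refine ⟨mor c P, hPV.1, ?_⟩
  apply mem_locus_of_chart (c.map g)
  · rw [hmap]
    apply sch_ker_isRadical
    intro h0
    have h1 := hPV.2
    rw [SetLike.mem_coe, PrimeSpectrum.mem_basicOpen, ← hg] at h1
    exact h1 h0
  · exact mor_point _ g P hg.symm

end field

end Pool.Agent.Helper226
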