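import Mathlib
import Pool.Agent.Helper226.WChart
import Pool.Agent.Helper226.QData

set_option autoImplicit false

open scoped TensorProduct
open MvPolynomial

universe u

namespace Pool.Agent.Helper226

/-- combinatorial data: a monomial basis of `S/I` for ideals between `m^(s+1)` and `m^s` -/
structure SData (n s d : ℕ) where
  e : Fin d → (Fin n →₀ ℕ)
  e_inj : Function.Injective e
  e_deg : ∀ j, (e j).degree ≤ s
  e_small : ∀ μ : Fin n →₀ ℕ, μ.degree < s → ∃ j, e j = μ

namespace SData

variable {n s d : ℕ} (D : SData n s d)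

lemma eq_single_left {α β : Fin n →₀ ℕ} {z : Fin n} {m : ℕ} (h : α + β = Finsupp.single z m) :
    α = Finsupp.single z α.degree := by
  have h1 : ∀ i, i ≠ z → α i = 0 := by
    intro i hi
    have h2 := DFunLike.congr_fun h i
    rw [Finsupp.add_apply, Finsupp.single_eq_of_ne hi] at h2
    omega
  have h2 : α = Finsupp.single z (α z) := by
    ext i
    by_cases hi : i = z
    · subst hi; simp
    · rw [h1 i hi, Finsupp.single_eq_of_ne hi]
  have h3 : α.degree = α z := by
    rw [h2]
    simp
  rw [h3]
  exact h2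

lemma add_eq_single_iff {α β : Fin n →₀ ℕ} {z : Fin n} {a b : ℕ} (ha : α.degree = a)
    (hb : β.degree = b) :
    α + β = Finsupp.single z (a + b) ↔ α = Finsupp.single z a ∧ β = Finsupp.single z b := by
  constructor
  · intro h
    have h1 := eq_single_left h
    rw [add_comm] at h
    have h2 := eq_single_left h
    rw [ha] at h1
    rw [hb] at h2
    exact ⟨h1, h2⟩
  · rintro ⟨rfl, rfl⟩
    rw [Finsupp.single_add]

section w
variable {R : Type u} [CommRing R]

open Classical in
/-- value on monomials of degree at most `s`, without the deformation part -/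
noncomputable def top (A : (Fin n →₀ ℕ) → Fin d → R) (μ : Fin n →₀ ℕ) : Fin d → R :=
  if h : ∃ j, D.e j = μ then Pi.single h.choose 1
  else fun j => if (D.e j).degree = s then A μ j else 0

lemma top_e (A : (Fin n →₀ ℕ) → Fin d → R) (j : Fin d) : D.top A (D.e j) = Pi.single j 1 := by
  have h : ∃ j', D.e j' = D.e j := ⟨j, rfl⟩
  unfold top
  rw [dif_pos h]
  congr 1
  exact D.e_inj h.choose_spec

lemma top_not (A : (Fin n →₀ ℕ) → Fin d → R) (μ : Fin n →₀ ℕ) (h : ¬ ∃ j, D.e j = μ) :
    D.top A μ = fun j => if (D.e j).degree = s then A μ j else 0 := by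
  unfold top
  rw [dif_neg h]

/-- for monomials of degree `s` the value is supported in degree `s` -/
lemma top_supp (A : (Fin n →₀ ℕ) → Fin d → R) (μ : Fin n →₀ ℕ) (hμ : μ.degree = s) (j : Fin d)
    (hj : (D.e j).degree ≠ s) : D.top A μ j = 0 := by
  by_cases h : ∃ j, D.e j = μ
  · obtain ⟨j', rfl⟩ := h
    rw [top_e, Pi.single_apply, if_neg]
    rintro rfl
    exact hj hμ
  · rw [top_not D A μ h]
    simp only [if_neg hj]

variable (A : (Fin n →₀ ℕ) → Fin d → R) (F : Fin d → R) (t : R) (z : Fin n)

open Classical in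
/-- value on monomials of degree at most `s` -/
noncomputable def w7 (μ : Fin n →₀ ℕ) : Fin d → R :=
  D.top A μ + (if μ = Finsupp.single z s then t • F else 0)

/-- the value of the product of `F` and the last variable -/
noncomputable def UU : Fin d → R := ∑ j, F j • D.w7 A F t z (D.e j + Finsupp.single z 1)

open Classical in
/-- value on all monomials -/
noncomputable def wf (μ : Fin n →₀ ℕ) : Fin d → R :=
  if μ.degree ≤ s then D.w7 A F t z μ
  else if μ = Finsupp.single z μ.degree then t ^ (μ.degree - s) • D.UU A F t z else 0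

lemma wf_low (μ : Fin n →₀ ℕ) (h : μ.degree ≤ s) : D.wf A F t z μ = D.w7 A F t z μ := by
  unfold wf
  rw [if_pos h]

open Classical in
lemma wf_high (μ : Fin n →₀ ℕ) (m : ℕ) (hm : μ.degree = s + m) (h1 : 1 ≤ m) :
    D.wf A F t z μ = if μ = Finsupp.single z (s + m) then t ^ m • D.UU A F t z else 0 := by
  unfold wf
  rw [if_neg (by omega), hm, show s + m - s = m by omega]

variable (hz : ∀ j, D.e j ≠ Finsupp.single z s)
  (hF : ∀ j, (D.e j).degree + 1 ≠ s → F j = 0)
  (hFz : ∀ j, D.e j = Finsupp.single z (s - 1) → t * F j = t)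
  (hFl : ∀ l, l ≠ z → t • ∑ j, F j • D.w7 A F t z (D.e j + Finsupp.single l 1) = 0)
  (hs : 1 ≤ s)

include hz in
lemma wf_e (j : Fin d) : D.wf A F t z (D.e j) = Pi.single j 1 := by
  rw [wf_low _ _ _ _ _ _ (D.e_deg j)]
  unfold w7
  rw [if_neg (hz j), add_zero, top_e]

include hz in
lemma wf_top_add (j : Fin d) (hj : (D.e j).degree = s) (β : Fin n →₀ ℕ) (hβ : 1 ≤ β.degree) :
    D.wf A F t z (D.e j + β) = 0 := by
  rw [wf_high D A F t z _ β.degree (by rw [map_add, hj]) hβ, if_neg]
  intro h
  exact hz j ((add_eq_single_iff hj rfl).1 h).1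

/-- multiplication by a monomial on values -/
noncomputable def Lb (β : Fin n →₀ ℕ) : (Fin d → R) →ₗ[R] (Fin d → R) :=
  Fintype.linearCombination R (fun j => D.wf A F t z (D.e j + β))

lemma Lb_apply (β : Fin n →₀ ℕ) (v : Fin d → R) :
    D.Lb A F t z β v = ∑ j, v j • D.wf A F t z (D.e j + β) := rfl

include hz in
lemma Lb_supp (β : Fin n →₀ ℕ) (hβ : 1 ≤ β.degree) (v : Fin d → R)
    (hv : ∀ j, (D.e j).degree ≠ s → v j = 0) : D.Lb A F t z β v = 0 := by
  rw [Lb_apply]
  refine Finset.sum_eq_zero fun j _ => ?_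
  by_cases hj : (D.e j).degree = s
  · rw [wf_top_add D A F t z hz j hj β hβ, smul_zero]
  · rw [hv j hj, zero_smul]

lemma exists_single_of_degree_one' (μ : Fin n →₀ ℕ) (h : μ.degree = 1) :
    ∃ i, μ = Finsupp.single i 1 := by
  have hne : μ ≠ 0 := by
    rintro rfl
    simp at h
  obtain ⟨i, hi⟩ := Finsupp.ne_iff.1 hne
  have hi' : μ i ≠ 0 := hi
  have hle : Finsupp.single i 1 ≤ μ := by
    rw [Finsupp.single_le_iff]
    omega
  obtain ⟨ν, rfl⟩ := exists_add_of_le hle
  rw [map_add, Finsupp.degree_single] at h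
  have hν : ν = 0 := (Finsupp.degree_eq_zero_iff ν).1 (by omega)
  exact ⟨i, by rw [hν, add_zero]⟩

open Classical in
include hF hFz hFl hs in
lemma Lb_F (β : Fin n →₀ ℕ) (m : ℕ) (hm : β.degree = m) (h1 : 1 ≤ m) :
    t • D.Lb A F t z β F = if β = Finsupp.single z m then t ^ m • D.UU A F t z else 0 := by
  rw [Lb_apply]
  rcases eq_or_lt_of_le h1 with h2 | h2
  · subst h2
    obtain ⟨l, rfl⟩ := exists_single_of_degree_one' β hm
    have h3 : ∑ j, F j • D.wf A F t z (D.e j + Finsupp.single l 1) =
        ∑ j, F j • D.w7 A F t z (D.e j + Finsupp.single l 1) := by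
      refine Finset.sum_congr rfl fun j _ => ?_
      by_cases hj : (D.e j).degree + 1 = s
      · rw [wf_low]
        rw [map_add, Finsupp.degree_single]
        omega
      · rw [hF j hj, zero_smul, zero_smul]
    rw [h3]
    by_cases hl : l = z
    · subst hl
      rw [if_pos rfl, pow_one]
      rfl
    · rw [if_neg (fun h => hl (Finsupp.single_left_injective one_ne_zero h))]
      exact hFl l hl
  · have h3 : ∀ j, F j • D.wf A F t z (D.e j + β) =
        if D.e j = Finsupp.single z (s - 1) ∧ β = Finsupp.single z m then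
          (F j * t ^ (m - 1)) • D.UU A F t z else 0 := by
      intro j
      by_cases hj : (D.e j).degree + 1 = s
      · have h4 : (D.e j).degree = s - 1 := by omega
        rw [wf_high D A F t z (D.e j + β) (m - 1) (by rw [map_add]; omega) (by omega)]
        have h5 : D.e j + β = Finsupp.single z (s + (m - 1)) ↔
            D.e j = Finsupp.single z (s - 1) ∧ β = Finsupp.single z m := by
          rw [← add_eq_single_iff h4 hm, show s + (m - 1) = s - 1 + m by omega]
        by_cases h6 : D.e j = Finsupp.single z (s - 1) ∧ β = Finsupp.single z m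
        · rw [if_pos (h5.2 h6), if_pos h6, smul_smul]
        · rw [if_neg (fun h => h6 (h5.1 h)), if_neg h6, smul_zero]
      · rw [hF j hj, zero_smul, if_neg]
        rintro ⟨h6, -⟩
        apply hj
        rw [h6, Finsupp.degree_single]
        omega
    rw [Finset.sum_congr rfl fun j _ => h3 j]
    by_cases h6 : β = Finsupp.single z m
    · rw [if_pos h6]
      obtain ⟨j0, hj0⟩ := D.e_small (Finsupp.single z (s - 1)) (by
        rw [Finsupp.degree_single]; omega)
      rw [Finset.sum_eq_single j0]
      · rw [if_pos ⟨hj0, h6⟩, smul_smul, ← mul_assoc, hFz j0 hj0, ← pow_succ',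
          show m - 1 + 1 = m by omega]
      · intro j _ hj
        rw [if_neg]
        rintro ⟨h7, -⟩
        exact hj (D.e_inj (h7.trans hj0.symm))
      · simp
    · rw [if_neg h6]
      rw [Finset.sum_eq_zero, smul_zero]
      intro j _
      rw [if_neg (fun h => h6 h.2)]

include hz hF hFz hs in
lemma Lb_UU (β : Fin n →₀ ℕ) (hβ : 1 ≤ β.degree) :
    t • D.Lb A F t z β (D.UU A F t z) = t • (t • D.Lb A F t z β F) := by
  classical
  have h1 : ∀ j, F j • D.Lb A F t z β (D.w7 A F t z (D.e j + Finsupp.single z 1)) =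
      if D.e j = Finsupp.single z (s - 1) then F j • (t • D.Lb A F t z β F) else 0 := by
    intro j
    by_cases hj : (D.e j).degree + 1 = s
    · have h2 : D.e j + Finsupp.single z 1 = Finsupp.single z s ↔
          D.e j = Finsupp.single z (s - 1) := by
        have := add_eq_single_iff (z := z) (show (D.e j).degree = s - 1 by omega)
          (show (Finsupp.single z 1 : Fin n →₀ ℕ).degree = 1 by simp)
        rw [show s - 1 + 1 = s by omega] at this
        rw [this]
        simp
      unfold w7
      rw [map_add, Lb_supp D A F t z hz β hβ (D.top A (D.e j + Finsupp.single z 1)) (by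
        intro j' hj'
        exact D.top_supp A _ (by rw [map_add, Finsupp.degree_single]; exact hj) j' hj'), zero_add]
      by_cases h3 : D.e j = Finsupp.single z (s - 1)
      · rw [if_pos (h2.2 h3), if_pos h3, map_smul]
      · rw [if_neg (fun h => h3 (h2.1 h)), if_neg h3, map_zero, smul_zero]
    · rw [hF j hj, zero_smul, zero_smul, ite_self]
  have h2 : D.Lb A F t z β (D.UU A F t z) =
      ∑ j, F j • D.Lb A F t z β (D.w7 A F t z (D.e j + Finsupp.single z 1)) := by
    conv_lhs => rw [UU]
    rw [map_sum]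
    simp only [map_smul]
  rw [h2, Finset.sum_congr rfl fun j _ => h1 j]
  obtain ⟨j0, hj0⟩ := D.e_small (Finsupp.single z (s - 1)) (by
    rw [Finsupp.degree_single]; omega)
  rw [Finset.sum_eq_single j0]
  · rw [if_pos hj0, smul_smul, hFz j0 hj0]
  · intro j _ hj
    rw [if_neg]
    intro h7
    exact hj (D.e_inj (h7.trans hj0.symm))
  · simp

include hz hF hFz hFl hs in
/-- the multiplicativity relation -/
lemma wf_mul (α β : Fin n →₀ ℕ) :
    D.wf A F t z (α + β) = ∑ j, D.wf A F t z α j • D.wf A F t z (D.e j + β) := by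
  classical
  have hb : ∀ j0, D.wf A F t z (D.e j0 + β) =
      ∑ j, D.wf A F t z (D.e j0) j • D.wf A F t z (D.e j + β) := by
    intro j0
    rw [wf_e D A F t z hz, QData.sum_single_smul]
  by_cases hβ0 : β = 0
  · subst hβ0
    simp only [add_zero, wf_e D A F t z hz, QData.sum_smul_single]
  have hβ : 1 ≤ β.degree := by
    rw [Nat.one_le_iff_ne_zero]
    intro h
    exact hβ0 ((Finsupp.degree_eq_zero_iff β).1 h)
  by_cases hex : ∃ j, D.e j = α
  · obtain ⟨j0, rfl⟩ := hex
    exact hb j0
  have hα : s ≤ α.degree := by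
    by_contra h
    exact hex (D.e_small α (by omega))
  rw [← Lb_apply]
  rcases eq_or_lt_of_le hα with h1 | h1
  · rw [wf_high D A F t z (α + β) β.degree (by rw [map_add]; omega) hβ]
    rw [wf_low D A F t z α (by omega)]
    unfold w7
    rw [map_add, Lb_supp D A F t z hz β hβ (D.top A α)
      (fun j hj => D.top_supp A α h1.symm j hj), zero_add]
    by_cases h2 : α = Finsupp.single z s
    · rw [if_pos h2, map_smul, Lb_F D A F t z hF hFz hFl hs β β.degree rfl hβ]
      have h3 := add_eq_single_iff (z := z) h1.symm (rfl : β.degree = β.degree)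
      by_cases h4 : β = Finsupp.single z β.degree
      · rw [if_pos (h3.2 ⟨h2, h4⟩), if_pos h4]
      · rw [if_neg (fun h => h4 (h3.1 h).2), if_neg h4]
    · rw [if_neg h2, map_zero, if_neg]
      intro h
      exact h2 ((add_eq_single_iff h1.symm rfl).1 h).1
  · obtain ⟨r, hr⟩ : ∃ r, α.degree = s + r := ⟨α.degree - s, by omega⟩
    have hr1 : 1 ≤ r := by omega
    rw [wf_high D A F t z (α + β) (r + β.degree) (by rw [map_add]; omega) (by omega),
      wf_high D A F t z α r hr hr1]
    have h3 := add_eq_single_iff (z := z) hr (rfl : β.degree = β.degree)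
    rw [show s + r + β.degree = s + (r + β.degree) by omega] at h3
    by_cases h2 : α = Finsupp.single z (s + r)
    · rw [if_pos h2, map_smul]
      have h5 : t ^ r • D.Lb A F t z β (D.UU A F t z) =
          t ^ r • (t • D.Lb A F t z β F) := by
        obtain ⟨r', rfl⟩ : ∃ r', r = r' + 1 := ⟨r - 1, by omega⟩
        rw [pow_succ, mul_smul, Lb_UU D A F t z hz hF hFz hs β hβ, ← mul_smul]
      rw [h5, Lb_F D A F t z hF hFz hFl hs β β.degree rfl hβ]
      by_cases h4 : β = Finsupp.single z β.degree
      · rw [if_pos (h3.2 ⟨h2, h4⟩), if_pos h4, smul_smul, pow_add]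
      · rw [if_neg (fun h => h4 (h3.1 h).2), if_neg h4, smul_zero]
    · rw [if_neg h2, map_zero, if_neg]
      intro h
      exact h2 (h3.1 h).1

end w

end SData

end Pool.Agent.Helper226
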