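import Mathlib
import Pool.Agent.Helper226.VCFam

set_option autoImplicit false

open scoped TensorProduct
open MvPolynomial CategoryTheory AlgebraicGeometry

universe u

namespace Pool.Agent.Helper226

section trans
variable {k : Type u} [Field k] {n : ℕ}

/-- translation -/
noncomputable def trHom (v : Fin n → k) : MvPolynomial (Fin n) k →ₐ[k] MvPolynomial (Fin n) k :=
  aeval fun i => X i + C (v i)

lemma trHom_X (v : Fin n → k) (i : Fin n) : trHom v (X i) = X i + C (v i) := by
  simp [trHom]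

lemma trHom_C (v : Fin n → k) (a : k) : trHom v (C a) = C a := by
  simp [trHom]

lemma trHom_comp (v w : Fin n → k) (h : ∀ i, v i + w i = 0) :
    (trHom v).comp (trHom w) = AlgHom.id k _ := by
  apply MvPolynomial.algHom_ext
  intro i
  rw [AlgHom.comp_apply, trHom_X, map_add, trHom_X, trHom_C, add_assoc, ← C_add, h, C_0, add_zero]
  rfl

/-- translation as an automorphism -/
noncomputable def tr (v : Fin n → k) : MvPolynomial (Fin n) k ≃ₐ[k] MvPolynomial (Fin n) k :=
  AlgEquiv.ofAlgHom (trHom v) (trHom (-v)) (trHom_comp _ _ (by simp)) (trHom_comp _ _ (by simp))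

lemma tr_X (v : Fin n → k) (i : Fin n) : tr v (X i) = X i + C (v i) := trHom_X v i
lemma tr_C (v : Fin n → k) (a : k) : tr v (C a) = C a := trHom_C v a
lemma tr_symm_X (v : Fin n → k) (i : Fin n) : (tr v).symm (X i) = X i - C (v i) := by
  change trHom (-v) (X i) = _
  rw [trHom_X, Pi.neg_apply, C_neg, sub_eq_add_neg]
lemma tr_symm_C (v : Fin n → k) (a : k) : (tr v).symm (C a) = C a := trHom_C (-v) a

lemma pointIdeal_map (v : Fin n → k) : (pointIdeal v).map (tr v) = idealOfVars (Fin n) k := by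
  unfold pointIdeal
  rw [Ideal.map_span]
  congr 1
  ext x
  constructor
  · rintro ⟨_, ⟨i, rfl⟩, rfl⟩
    refine ⟨i, ?_⟩
    rw [map_sub, tr_X, tr_C, add_sub_cancel_right]
  · rintro ⟨i, rfl⟩
    refine ⟨_, ⟨i, rfl⟩, ?_⟩
    rw [map_sub, tr_X, tr_C, add_sub_cancel_right]

lemma mem_pointIdeal_pow_iff (v : Fin n → k) (N : ℕ) (x : MvPolynomial (Fin n) k) :
    x ∈ pointIdeal v ^ N ↔ tr v x ∈ idealOfVars (Fin n) k ^ N := by
  rw [← pointIdeal_map v, ← Ideal.map_pow]
  constructor
  · intro h
    exact Ideal.mem_map_of_mem _ h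
  · intro h
    obtain ⟨y, hy, hyx⟩ := (Ideal.mem_map_iff_of_surjective (tr v) (tr v).surjective).1 h
    rw [← (tr v).injective hyx]
    exact hy

lemma mem_pointIdeal_iff (v : Fin n → k) (x : MvPolynomial (Fin n) k) :
    x ∈ pointIdeal v ↔ tr v x ∈ idealOfVars (Fin n) k := by
  have := mem_pointIdeal_pow_iff v 1 x
  rwa [pow_one, pow_one] at this

lemma finite_quot_of (I : Ideal (MvPolynomial (Fin n) k))
    [Module.Finite k (MvPolynomial (Fin n) k ⧸ I)] (m : Ideal (MvPolynomial (Fin n) k)) (i : ℕ) :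
    Module.Finite k (powSub I m i ⧸ (powSub I m (i + 1)).submoduleOf (powSub I m i)) := by
  let f : powSub I m i →ₗ[k] (MvPolynomial (Fin n) k ⧸ powSub I m (i + 1)) :=
    (powSub I m (i + 1)).mkQ ∘ₗ (powSub I m i).subtype
  have hle : I.restrictScalars k ≤ powSub I m (i + 1) := fun x hx => Ideal.mem_sup_right hx
  have hfin0 : Module.Finite k (MvPolynomial (Fin n) k ⧸ I.restrictScalars k) :=
    Module.Finite.equiv (Submodule.Quotient.restrictScalarsEquiv k I).symm
  have hfin : Module.Finite k (MvPolynomial (Fin n) k ⧸ powSub I m (i + 1)) :=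
    Module.Finite.of_surjective (M := MvPolynomial (Fin n) k ⧸ I.restrictScalars k)
      (Submodule.factor hle) (Submodule.factor_surjective hle)
  have hk : (powSub I m (i + 1)).submoduleOf (powSub I m i) = LinearMap.ker f := by
    ext x
    rw [LinearMap.mem_ker]
    change (x : MvPolynomial (Fin n) k) ∈ powSub I m (i + 1) ↔
      Submodule.Quotient.mk (x : MvPolynomial (Fin n) k) = 0
    rw [Submodule.Quotient.mk_eq_zero]
  rw [hk]
  exact Module.Finite.equiv f.quotKerEquivRange.symm

lemma powSub_le_of_hilbFn_eq_zero (I : Ideal (MvPolynomial (Fin n) k))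
    [Module.Finite k (MvPolynomial (Fin n) k ⧸ I)] (m : Ideal (MvPolynomial (Fin n) k)) (i : ℕ)
    (h : hilbFn I m i = 0) : m ^ i ⊔ I ≤ m ^ (i + 1) ⊔ I := by
  have := finite_quot_of I m i
  unfold hilbFn at h
  rw [Module.finrank_eq_zero_iff_of_free, Submodule.Quotient.subsingleton_iff] at h
  intro x hx
  have h1 : (⟨x, hx⟩ : powSub I m i) ∈ (powSub I m (i + 1)).submoduleOf (powSub I m i) := by
    rw [h]; trivial
  exact h1

lemma cube_le_of_hilbFn (I : Ideal (MvPolynomial (Fin n) k))
    [Module.Finite k (MvPolynomial (Fin n) k ⧸ I)] (v : Fin n → k) (hr : I.radical = pointIdeal v)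
    (h : ∀ i, 2 < i → hilbFn I (pointIdeal v) i = 0) : pointIdeal v ^ 3 ≤ I := by
  have h1 : ∀ N, pointIdeal v ^ 3 ⊔ I ≤ pointIdeal v ^ (3 + N) ⊔ I := by
    intro N
    induction N with
    | zero => exact le_rfl
    | succ N ih =>
      exact ih.trans (powSub_le_of_hilbFn_eq_zero I _ (3 + N) (h _ (by omega)))
  obtain ⟨N, hN⟩ := I.exists_radical_pow_le_of_fg (IsNoetherian.noetherian _)
  rw [hr] at hN
  have h2 := h1 N
  have h3 : pointIdeal v ^ (3 + N) ≤ I := (Ideal.pow_le_pow_right (by omega)).trans hN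
  rw [sup_eq_right.2 h3] at h2
  exact le_sup_left.trans h2

lemma le_sq_of_hilbFn (I : Ideal (MvPolynomial (Fin n) k)) (v : Fin n → k)
    (hr : I ≤ pointIdeal v)
    (h : hilbFn I (pointIdeal v) 1 = n) : I ≤ pointIdeal v ^ 2 := by
  let lin : MvPolynomial (Fin n) k →ₗ[k] (Fin n → k) :=
    (LinearMap.pi fun i => lcoeff k (Finsupp.single i 1 : Fin n →₀ ℕ)) ∘ₗ (tr v).toLinearMap
  have hb : ∀ i, lin (X i - C (v i)) = Pi.single i 1 := by
    intro i
    change (LinearMap.pi fun i => lcoeff k (Finsupp.single i 1 : Fin n →₀ ℕ))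
      (tr v (X i - C (v i))) = _
    rw [map_sub, tr_X, tr_C, add_sub_cancel_right]
    ext j
    rw [LinearMap.pi_apply, lcoeff_apply, coeff_X, Pi.single_apply]
    by_cases h : i = j
    · simp [h]
    · rw [if_neg (fun h2 => h (Finsupp.single_left_injective one_ne_zero h2)), if_neg (Ne.symm h)]
  have hlin : ∀ x ∈ pointIdeal v, lin x = 0 → x ∈ pointIdeal v ^ 2 := by
    intro x hx h0
    rw [mem_pointIdeal_pow_iff, mem_pow_idealOfVars_iff']
    intro y hy
    rcases Nat.lt_or_ge y.degree 1 with h1 | h1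
    · have hx1 : tr v x ∈ idealOfVars (Fin n) k ^ 1 := by
        rw [pow_one]; exact (mem_pointIdeal_iff v x).1 hx
      exact (mem_pow_idealOfVars_iff' 1 _).1 hx1 y h1
    · obtain ⟨i, rfl⟩ := exists_single_of_degree_one y (by omega)
      exact congrFun h0 i
  have hlin0 : ∀ x ∈ pointIdeal v ^ 2, lin x = 0 := by
    intro x hx
    rw [mem_pointIdeal_pow_iff, mem_pow_idealOfVars_iff'] at hx
    ext i
    exact hx (Finsupp.single i 1) (by simp)
  let U : Submodule k (Fin n → k) := (I.restrictScalars k).map lin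
  have hsurj : ∀ a : Fin n → k, ∃ x ∈ pointIdeal v, lin x = a := by
    intro a
    refine ⟨∑ i, a i • (X i - C (v i)), ?_, ?_⟩
    · refine Ideal.sum_mem _ fun i _ => ?_
      rw [smul_eq_C_mul]
      exact Ideal.mul_mem_left _ _ (Ideal.subset_span ⟨i, rfl⟩)
    · rw [map_sum]
      simp only [map_smul, hb]
      ext i
      simp [Pi.single_apply]
  have h1 : hilbFn I (pointIdeal v) 1 = Module.finrank k ((Fin n → k) ⧸ U) := by
    unfold hilbFn
    apply finrank_quot _ _ ((U.mkQ ∘ₗ lin) ∘ₗ (powSub I (pointIdeal v) 1).subtype)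
    · intro a
      obtain ⟨a, rfl⟩ := Submodule.mkQ_surjective U a
      obtain ⟨x, hx, rfl⟩ := hsurj a
      refine ⟨⟨x, ?_⟩, rfl⟩
      rw [mem_powSub, pow_one]
      exact Ideal.mem_sup_left hx
    · intro x
      have hx : (x : MvPolynomial (Fin n) k) ∈ pointIdeal v := by
        have := x.2
        rw [mem_powSub, pow_one, sup_eq_left.2 hr] at this
        exact this
      simp only [LinearMap.comp_apply, Submodule.subtype_apply, Submodule.mkQ_apply,
        Submodule.Quotient.mk_eq_zero]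
      rw [mem_powSub]
      constructor
      · rintro ⟨y, hy, hxy⟩
        have h2 : (x : MvPolynomial (Fin n) k) - y ∈ pointIdeal v ^ 2 := by
          apply hlin _ (Ideal.sub_mem _ hx (hr hy))
          rw [map_sub, hxy, sub_self]
        have h3 : (x : MvPolynomial (Fin n) k) - y + y ∈ pointIdeal v ^ 2 ⊔ I :=
          Ideal.add_mem _ (Ideal.mem_sup_left h2) (Ideal.mem_sup_right hy)
        rwa [sub_add_cancel] at h3
      · intro h2
        obtain ⟨y, hy, z, hz, hyz⟩ := Submodule.mem_sup.1 h2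
        refine ⟨z, hz, ?_⟩
        rw [← hyz, map_add, hlin0 y hy, zero_add]
  rw [h] at h1
  have h2 := U.finrank_quotient_add_finrank
  rw [← h1, Module.finrank_fin_fun] at h2
  have h3 : Module.finrank k U = 0 := by omega
  have h4 : U = ⊥ := Submodule.finrank_eq_zero.1 h3
  intro x hx
  apply hlin x (hr hx)
  have : lin x ∈ U := ⟨x, hx, rfl⟩
  rw [h4] at this
  exact (Submodule.mem_bot k).1 this

lemma bounds_of_isVeryCompressed {d : ℕ} (hd1 : n + 1 < d)
    (hd2 : d ≤ (n + 2).choose n) (hn : 1 ≤ n) (I : Ideal (MvPolynomial (Fin n) k))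
    [Module.Finite k (MvPolynomial (Fin n) k ⧸ I)] (h : IsVeryCompressed d I) :
    ∃ v : Fin n → k, pointIdeal v ^ 3 ≤ I ∧ I ≤ pointIdeal v ^ 2 := by
  obtain ⟨v, s, hs1, hs2, hr, hlt, -, hgt⟩ := h
  have hs : s = 2 := by
    rcases lt_trichotomy s 2 with h | h | h
    · have : (n + s).choose n ≤ (n + 1).choose n := Nat.choose_le_choose n (by omega)
      rw [Nat.choose_succ_self_right] at this
      omega
    · exact h
    · have : (n + 2).choose n ≤ (n + s - 1).choose n := Nat.choose_le_choose n (by omega)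
      omega
  subst hs
  refine ⟨v, cube_le_of_hilbFn I v hr hgt, ?_⟩
  have h1 := hlt 1 (by norm_num)
  apply le_sq_of_hilbFn I v
  · rw [← hr]
    exact Ideal.le_radical
  · rw [h1, show 1 + n - 1 = n by omega]
    exact (Nat.choose_symm_of_eq_add (by omega : n = (n - 1) + 1)).symm ▸ (by simp)

end trans

section chart
variable {k : Type u} [Field k] {B : Type u} [CommRing B] [Algebra k B] {d : ℕ}
variable {R : Type u} [CommRing R] [Algebra k R] {R' : Type u} [CommRing R'] [Algebra k R']

/-- transport of a chart datum along an automorphism of `B` -/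
noncomputable def Chart.trans {b : Fin d → B} (c : Chart k b R) (σ : B ≃ₐ[k] B) :
    Chart k (fun i => σ.symm (b i)) R where
  q := c.q ∘ₗ σ.toLinearMap
  q_b := by
    intro i
    simp [c.q_b]
  q_mul := by
    intro x y
    change c.q (σ (x * y)) = ∑ j, c.q (σ x) j • c.q (σ (σ.symm (b j) * y))
    rw [map_mul σ x y, c.q_mul]
    refine Finset.sum_congr rfl fun j _ => ?_
    rw [map_mul σ (σ.symm (b j)) y, AlgEquiv.apply_symm_apply]

lemma Chart.trans_q {b : Fin d → B} (c : Chart k b R) (σ : B ≃ₐ[k] B) (x : B) :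
    (c.trans σ).q x = c.q (σ x) := rfl

lemma Chart.trans_map {b : Fin d → B} (c : Chart k b R) (σ : B ≃ₐ[k] B) (g : R →ₐ[k] R') :
    (c.trans σ).map g = (c.map g).trans σ := by
  ext x j
  rfl

lemma Chart.mem_trans_ker {b : Fin d → B} (c : Chart k b k) (σ : B ≃ₐ[k] B) (x : B) :
    x ∈ (c.trans σ).ker ↔ σ x ∈ c.ker := by
  rw [Chart.mem_ker, Chart.mem_ker, Chart.trans_q]

lemma Chart.exists_rebase {b' : Fin d → B} (c' : Chart k b' k) (b : Fin d → B)
    (h : ∀ α : Fin d → k, c'.q (∑ i, α i • b i) = 0 → α = 0) :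
    ∃ c : Chart k b k, c.ker = c'.ker := by
  have hli : LinearIndependent k (tmat c' b).row := by
    rw [Fintype.linearIndependent_iff]
    intro g hg i
    have : g = 0 := by
      apply h
      rw [map_sum]
      simp only [map_smul]
      exact hg
    rw [this]
    rfl
  have hu : IsUnit (tmat c' b) := Matrix.linearIndependent_rows_iff_isUnit.1 hli
  obtain ⟨c, hc⟩ := isBas_of_isUnit_det c' ((Matrix.isUnit_iff_isUnit_det _).1 hu)
  refine ⟨c, ?_⟩
  unfold Chart.ker
  rw [hc]

end chart

end Pool.Agent.Helper226
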