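import Mathlib
import Pool.Agent.Helper226.VCTrans

set_option autoImplicit false

open scoped TensorProduct
open MvPolynomial CategoryTheory AlgebraicGeometry

universe u

namespace Pool.Agent.Helper226

section norm
variable {k : Type u} [Field k] {n d : ℕ} (D : QData n d)

lemma exists_add_of_degree_succ (μ : Fin n →₀ ℕ) (m : ℕ) (h : μ.degree = m + 1) :
    ∃ (i : Fin n) (ν : Fin n →₀ ℕ), μ = Finsupp.single i 1 + ν ∧ ν.degree = m := by
  have hne : μ ≠ 0 := by
    rintro rfl
    simp at h
  obtain ⟨i, hi⟩ := Finsupp.ne_iff.1 hne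
  have hi' : μ i ≠ 0 := hi
  have hle : Finsupp.single i 1 ≤ μ := by
    rw [Finsupp.single_le_iff]
    omega
  obtain ⟨ν, rfl⟩ := exists_add_of_le hle
  refine ⟨i, ν, rfl, ?_⟩
  rw [map_add, Finsupp.degree_single] at h
  omega

lemma monomial_single_add (i : Fin n) (ν : Fin n →₀ ℕ) :
    (monomial (Finsupp.single i 1 + ν) 1 : MvPolynomial (Fin n) k) = X i * monomial ν 1 := by
  rw [X, monomial_mul, one_mul]

/-- the span of the basis monomials -/
noncomputable def spanB (k : Type u) [Field k] {n d : ℕ} (D : QData n d) :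
    Submodule k (MvPolynomial (Fin n) k) :=
  Submodule.span k (Set.range (mb k D.e))

lemma C_mem_spanB (a : k) : C a ∈ spanB k D := by
  obtain ⟨j, hj⟩ := D.e_small 0 (by simp)
  have : C a = a • mb k D.e j := by
    rw [mb, hj, smul_monomial, smul_eq_mul, mul_one]
    rfl
  rw [this]
  exact Submodule.smul_mem _ _ (Submodule.subset_span ⟨j, rfl⟩)

lemma X_mem_spanB (i : Fin n) : X i ∈ spanB k D := by
  obtain ⟨j, hj⟩ := D.e_small (Finsupp.single i 1) (by simp)
  have : X i = mb k D.e j := by
    rw [mb, hj]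
    rfl
  rw [this]
  exact Submodule.subset_span ⟨j, rfl⟩

lemma tr_symm_mem_spanB (v : Fin n → k) (x : MvPolynomial (Fin n) k) (hx : x ∈ spanB k D) :
    (tr v).symm x ∈ spanB k D := by
  unfold spanB at hx
  induction hx using Submodule.span_induction with
  | mem x hx =>
    obtain ⟨j, rfl⟩ := hx
    have hj := D.e_deg j
    rcases Nat.lt_or_ge (D.e j).degree 1 with h | h
    · have : D.e j = 0 := (Finsupp.degree_eq_zero_iff _).1 (by omega)
      have h1 : mb k D.e j = C 1 := by
        rw [mb, this]
        rfl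
      rw [h1, tr_symm_C]
      exact C_mem_spanB D 1
    · obtain ⟨i, ν, h1, h2⟩ := exists_add_of_degree_succ (D.e j) ((D.e j).degree - 1) (by omega)
      have h3 : mb k D.e j = X i * monomial ν 1 := by
        rw [mb, h1, monomial_single_add]
      rcases Nat.lt_or_ge ν.degree 1 with h4 | h4
      · have : ν = 0 := (Finsupp.degree_eq_zero_iff _).1 (by omega)
        rw [h3, this]
        have h5 : (X i * monomial 0 1 : MvPolynomial (Fin n) k) = X i := by
          change X i * C 1 = X i
          simp
        rw [h5, tr_symm_X]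
        exact Submodule.sub_mem _ (X_mem_spanB D i) (C_mem_spanB D _)
      · obtain ⟨l, hl⟩ := exists_single_of_degree_one ν (by omega)
        have h6 : mb k D.e j = X i * X l := by
          rw [h3, hl]
          rfl
        have h7 : (tr v).symm (mb k D.e j) =
            mb k D.e j - v l • X i - v i • X l + C (v i * v l) := by
          rw [h6, map_mul, tr_symm_X, tr_symm_X, smul_eq_C_mul, smul_eq_C_mul, C_mul]
          ring
        rw [h7]
        refine Submodule.add_mem _ (Submodule.sub_mem _ (Submodule.sub_mem _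
          (Submodule.subset_span ⟨j, rfl⟩) ?_) ?_) (C_mem_spanB D _)
        · exact Submodule.smul_mem _ _ (X_mem_spanB D i)
        · exact Submodule.smul_mem _ _ (X_mem_spanB D l)
  | zero => rw [map_zero]; exact Submodule.zero_mem _
  | add x y _ _ hx hy => rw [map_add]; exact Submodule.add_mem _ hx hy
  | smul a x _ hx => rw [map_smul]; exact Submodule.smul_mem _ _ hx

lemma eq_zero_of_mem_spanB (c : Chart k (mb k D.e) k) (x : MvPolynomial (Fin n) k)
    (hx : x ∈ spanB k D) (h : c.q x = 0) : x = 0 := by
  obtain ⟨α, rfl⟩ := (Submodule.mem_span_range_iff_exists_fun k).1 hx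
  have : c.q (∑ i, α i • mb k D.e i) = α := by
    rw [map_sum]
    simp only [map_smul, c.q_b]
    ext l
    simp [Pi.single_apply]
  rw [this] at h
  subst h
  simp

lemma exists_normal (c : Chart k (mb k D.e) k) (v : Fin n → k) (h3 : pointIdeal v ^ 3 ≤ c.ker)
    (h2 : c.ker ≤ pointIdeal v ^ 2) :
    ∃ a : D.N → D.E → k, ∀ x, x ∈ c.ker ↔ tr v x ∈ (qchart D a).ker := by
  obtain ⟨c0, hc0⟩ := Chart.exists_rebase (c.trans (tr v).symm) (mb k D.e) (by
    intro α hα
    have hp : ∑ i, α i • mb k D.e i ∈ spanB k D :=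
      Submodule.sum_mem _ fun i _ => Submodule.smul_mem _ _ (Submodule.subset_span ⟨i, rfl⟩)
    have h4 := eq_zero_of_mem_spanB D c _ (tr_symm_mem_spanB D v _ hp) hα
    have h5 : ∑ i, α i • mb k D.e i = 0 := by
      have := congrArg (tr v) h4
      rwa [AlgEquiv.apply_symm_apply, map_zero] at this
    have h6 : c.q (∑ i, α i • mb k D.e i) = α := by
      rw [map_sum]
      simp only [map_smul, c.q_b]
      ext l
      simp [Pi.single_apply]
    rw [h5, map_zero] at h6
    exact h6.symm)
  have hmem : ∀ x, x ∈ c0.ker ↔ (tr v).symm x ∈ c.ker := by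
    intro x
    rw [hc0, Chart.mem_trans_ker]
  have h3' : idealOfVars (Fin n) k ^ 3 ≤ c0.ker := by
    intro x hx
    rw [hmem]
    apply h3
    rw [mem_pointIdeal_pow_iff, AlgEquiv.apply_symm_apply]
    exact hx
  have h2' : c0.ker ≤ idealOfVars (Fin n) k ^ 2 := by
    intro x hx
    rw [hmem] at hx
    have := h2 hx
    rwa [mem_pointIdeal_pow_iff, AlgEquiv.apply_symm_apply] at this
  refine ⟨fun i j => c0.q (monomial (D.nb i) 1) j.1, fun x => ?_⟩
  have hq : qchart D (fun i j => c0.q (monomial (D.nb i) 1) j.1) = c0 := by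
    apply chart_ext_monomial
    intro μ
    rw [qchart_q]
    rcases Nat.lt_or_ge μ.degree 2 with h | h
    · obtain ⟨j, rfl⟩ := D.e_small μ (by omega)
      rw [D.wfun_e, ← c0.q_b j]
      rfl
    · rcases Nat.lt_or_ge μ.degree 3 with h' | h'
      · rcases D.cover μ (by omega) with ⟨j, rfl⟩ | ⟨i, rfl⟩
        · rw [D.wfun_e, ← c0.q_b j]
          rfl
        · rw [D.wfun_nb]
          ext l
          split_ifs with hl
          · rfl
          · rw [chart_q_small D c0 h2' _ l (by have := D.e_deg l; omega), coeff_monomial,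
              if_neg (D.nb_disj i l)]
      · have h4 : (monomial μ 1 : MvPolynomial (Fin n) k) ∈ c0.ker := by
          apply h3'
          rw [monomial_mem_pow_idealOfVars_iff _ _ one_ne_zero]
          exact h'
        rw [(Chart.mem_ker c0 _).1 h4]
        rcases eq_or_lt_of_le h' with h5 | h5
        · rw [D.wfun_three _ _ _ h5.symm]
          ext l
          simp
        · rw [D.wfun_four _ _ _ h5]
  rw [hq, hmem, AlgEquiv.symm_apply_apply]

end norm

section linalg
variable {k : Type u} [Field k] {n d : ℕ} (D : QData n d)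

open Classical in
/-- extension of a function on cubic monomials -/
noncomputable def ext3 (f : Sym (Fin n) 3 → k) (μ : Fin n →₀ ℕ) : k :=
  if h : (Finsupp.toMultiset μ).card = 3 then f ⟨Finsupp.toMultiset μ, h⟩ else 0

lemma exists_cubic (hnum : Fintype.card D.N * n < Fintype.card (Sym (Fin n) 3))
    (a : D.N → D.E → k) :
    ∃ F : (Fin n →₀ ℕ) → k, (∃ γ : Fin n →₀ ℕ, γ.degree = 3 ∧ F γ ≠ 0) ∧
      ∀ (i : D.N) (l : Fin n), F (D.nb i + Finsupp.single l 1) =
        ∑ j : D.E, a i j * F (D.e j.1 + Finsupp.single l 1) := by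
  let T : (Sym (Fin n) 3 → k) →ₗ[k] (D.N × Fin n → k) :=
    { toFun := fun f p => ext3 f (D.nb p.1 + Finsupp.single p.2 1) -
        ∑ j : D.E, a p.1 j * ext3 f (D.e j.1 + Finsupp.single p.2 1)
      map_add' := by
        intro f g
        have h : ∀ μ, ext3 (f + g) μ = ext3 f μ + ext3 g μ := by
          intro μ
          unfold ext3
          split_ifs
          · rfl
          · simp
        ext p
        simp only [h, Pi.add_apply, mul_add, Finset.sum_add_distrib]
        ring
      map_smul' := by
        intro r f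
        have h : ∀ μ, ext3 (r • f) μ = r * ext3 f μ := by
          intro μ
          unfold ext3
          split_ifs
          · rfl
          · simp
        ext p
        simp only [h, Pi.smul_apply, smul_eq_mul, RingHom.id_apply, mul_sub, Finset.mul_sum]
        congr 1
        exact Finset.sum_congr rfl fun j _ => by ring }
  have hker : LinearMap.ker T ≠ ⊥ := by
    apply LinearMap.ker_ne_bot_of_finrank_lt
    simpa using hnum
  obtain ⟨f, hf, hf0⟩ := (Submodule.ne_bot_iff _).1 hker
  obtain ⟨s, hs⟩ := Function.ne_iff.1 hf0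
  refine ⟨ext3 f, ⟨Multiset.toFinsupp s.1, ?_, ?_⟩, ?_⟩
  · have h1 : Finsupp.toMultiset (Multiset.toFinsupp s.1) = s.1 := by simp
    have h2 := Finsupp.card_toMultiset (Multiset.toFinsupp s.1)
    rw [h1, s.2] at h2
    rw [Finsupp.degree_eq_sum]
    rw [Finsupp.sum_fintype _ _ (by intro i; rfl)] at h2
    exact h2.symm
  · unfold ext3
    have h1 : Finsupp.toMultiset (Multiset.toFinsupp s.1) = s.1 := by simp
    rw [dif_pos (by rw [h1]; exact s.2)]
    have h2 : (⟨Finsupp.toMultiset (Multiset.toFinsupp s.1), by rw [h1]; exact s.2⟩ : Sym (Fin n) 3) = s :=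
      Subtype.ext h1
    rw [h2]
    exact hs
  · intro i l
    have := congrFun (LinearMap.mem_ker.1 hf) (i, l)
    exact sub_eq_zero.1 this

lemma exists_quadric (hnum : n < Fintype.card D.E) (F : (Fin n →₀ ℕ) → k) :
    ∃ u : D.E → k, u ≠ 0 ∧ ∀ l : Fin n, ∑ j : D.E, u j * F (D.e j.1 + Finsupp.single l 1) = 0 := by
  let T : (D.E → k) →ₗ[k] (Fin n → k) :=
    { toFun := fun u l => ∑ j : D.E, u j * F (D.e j.1 + Finsupp.single l 1)
      map_add' := by
        intro f g
        ext p
        simp only [Pi.add_apply, add_mul, Finset.sum_add_distrib]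
      map_smul' := by
        intro r f
        ext p
        simp only [Pi.smul_apply, smul_eq_mul, RingHom.id_apply, Finset.mul_sum]
        exact Finset.sum_congr rfl fun j _ => by ring }
  have hker : LinearMap.ker T ≠ ⊥ := by
    apply LinearMap.ker_ne_bot_of_finrank_lt
    simpa using hnum
  obtain ⟨u, hu, hu0⟩ := (Submodule.ne_bot_iff _).1 hker
  exact ⟨u, hu0, fun l => congrFun (LinearMap.mem_ker.1 hu) l⟩

end linalg

end Pool.Agent.Helper226
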