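import Mathlib
import Pool.Agent.Helper226.VCNorm

set_option autoImplicit false

open scoped TensorProduct
open MvPolynomial CategoryTheory AlgebraicGeometry

universe u

namespace Pool.Agent.Helper226

/-- for every variable `a` a triangle of basis monomials containing `a` -/
structure Tri {n d : ℕ} (D : QData n d) where
  tb : Fin n → Fin n
  tc : Fin n → Fin n
  jbc : Fin n → Fin d
  jac : Fin n → Fin d
  jab : Fin n → Fin d
  hbc : ∀ a, D.e (jbc a) = Finsupp.single (tb a) 1 + Finsupp.single (tc a) 1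
  hac : ∀ a, D.e (jac a) = Finsupp.single a 1 + Finsupp.single (tc a) 1
  hab : ∀ a, D.e (jab a) = Finsupp.single a 1 + Finsupp.single (tb a) 1
  ne1 : ∀ a, jbc a ≠ jac a
  ne2 : ∀ a, jbc a ≠ jab a

section gens
variable {k : Type u} [Field k] {n d : ℕ} (D : QData n d)
variable {R : Type u} [CommRing R] [Algebra k R] {R' : Type u} [CommRing R'] [Algebra k R']

lemma X_mul_X (a b : Fin n) : (X a * X b : MvPolynomial (Fin n) k) =
    monomial (Finsupp.single a 1 + Finsupp.single b 1) 1 := by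
  rw [X, X, monomial_mul, one_mul]

lemma q_mono_ne (c : Chart k (mb k D.e) R) (μ : Fin n →₀ ℕ) (j j' : Fin d) (h : D.e j' = μ)
    (hne : j ≠ j') : c.q (monomial μ 1) j = 0 := by
  have h1 : c.q (monomial μ 1) = Pi.single j' 1 := by
    rw [← h]
    exact c.q_b j'
  rw [h1, Pi.single_apply, if_neg hne]

lemma q_mono_eq (c : Chart k (mb k D.e) R) (μ : Fin n →₀ ℕ) (j : Fin d) (h : D.e j = μ) :
    c.q (monomial μ 1) j = 1 := by
  have h1 : c.q (monomial μ 1) = Pi.single j 1 := by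
    rw [← h]
    exact c.q_b j
  rw [h1, Pi.single_apply, if_pos rfl]

lemma q_small_zero (c : Chart k (mb k D.e) R) (μ : Fin n →₀ ℕ) (hμ : μ.degree ≤ 1) (j : Fin d)
    (hj : (D.e j).degree = 2) : c.q (monomial μ 1) j = 0 := by
  obtain ⟨j', hj'⟩ := D.e_small μ hμ
  apply q_mono_ne D c μ j j' hj'
  rintro rfl
  rw [hj'] at hj
  omega

variable {D} (T : Tri D)

/-- the coordinates of the support point -/
noncomputable def vv (c : Chart k (mb k D.e) R) (a : Fin n) : R :=
  c.q (X a * X (T.tb a) * X (T.tc a)) (T.jbc a)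

lemma deg_jbc (a : Fin n) : (D.e (T.jbc a)).degree = 2 := by
  rw [T.hbc, map_add]
  simp

lemma cube_mem (v : Fin n → k) (i j l : Fin n) :
    (X i - C (v i)) * (X j - C (v j)) * (X l - C (v l)) ∈ pointIdeal v ^ 3 := by
  have h : ∀ i, (X i - C (v i) : MvPolynomial (Fin n) k) ∈ pointIdeal v := fun i =>
    Ideal.subset_span ⟨i, rfl⟩
  rw [pow_succ, pow_succ, pow_one]
  exact Ideal.mul_mem_mul (Ideal.mul_mem_mul (h i) (h j)) (h l)

lemma vv_eq (c : Chart k (mb k D.e) k) (v : Fin n → k) (h3 : pointIdeal v ^ 3 ≤ c.ker)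
    (a : Fin n) : vv T c a = v a := by
  have h0 := (Chart.mem_ker c _).1 (h3 (cube_mem v a (T.tb a) (T.tc a)))
  have h1 : (X a - C (v a)) * (X (T.tb a) - C (v (T.tb a))) * (X (T.tc a) - C (v (T.tc a))) =
      X a * X (T.tb a) * X (T.tc a) - v a • (X (T.tb a) * X (T.tc a))
      - v (T.tb a) • (X a * X (T.tc a)) - v (T.tc a) • (X a * X (T.tb a))
      + (v a * v (T.tb a)) • X (T.tc a) + (v a * v (T.tc a)) • X (T.tb a)
      + (v (T.tb a) * v (T.tc a)) • X a
      - (v a * v (T.tb a) * v (T.tc a)) • (1 : MvPolynomial (Fin n) k) := by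
    simp only [smul_eq_C_mul, C_mul]
    ring
  rw [h1] at h0
  have h2 := congrFun h0 (T.jbc a)
  simp only [map_add, map_sub, map_smul, Pi.add_apply, Pi.sub_apply, Pi.smul_apply,
    smul_eq_mul, Pi.zero_apply] at h2
  rw [X_mul_X (T.tb a) (T.tc a), X_mul_X a (T.tc a), X_mul_X a (T.tb a) ,
    q_mono_eq D c _ (T.jbc a) (T.hbc a), q_mono_ne D c _ (T.jbc a) (T.jac a) (T.hac a) (T.ne1 a),
    q_mono_ne D c _ (T.jbc a) (T.jab a) (T.hab a) (T.ne2 a)] at h2
  have hX : ∀ i, c.q (X i) (T.jbc a) = 0 := fun i =>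
    q_small_zero D c (Finsupp.single i 1) (by simp) _ (deg_jbc T a)
  have h1' : c.q 1 (T.jbc a) = 0 := q_small_zero D c 0 (by simp) _ (deg_jbc T a)
  rw [hX, hX, hX, h1', ← X_mul_X a (T.tb a)] at h2
  unfold vv
  linear_combination h2

/-- the closed conditions -/
noncomputable def GG (c : Chart k (mb k D.e) R) (p : Fin n × Fin n × Fin n × Fin d) : R :=
  c.q (X p.1 * X p.2.1 * X p.2.2.1) p.2.2.2
    - vv T c p.1 * c.q (X p.2.1 * X p.2.2.1) p.2.2.2
    - vv T c p.2.1 * c.q (X p.1 * X p.2.2.1) p.2.2.2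
    - vv T c p.2.2.1 * c.q (X p.1 * X p.2.1) p.2.2.2
    + (vv T c p.1 * vv T c p.2.1) * c.q (X p.2.2.1) p.2.2.2
    + (vv T c p.1 * vv T c p.2.2.1) * c.q (X p.2.1) p.2.2.2
    + (vv T c p.2.1 * vv T c p.2.2.1) * c.q (X p.1) p.2.2.2
    - (vv T c p.1 * vv T c p.2.1 * vv T c p.2.2.1) * c.q 1 p.2.2.2

lemma vv_map (c : Chart k (mb k D.e) R) (g : R →ₐ[k] R') (a : Fin n) :
    vv T (c.map g) a = g (vv T c a) := rfl

lemma GG_map (c : Chart k (mb k D.e) R) (g : R →ₐ[k] R') (p : Fin n × Fin n × Fin n × Fin d) :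
    GG T (c.map g) p = g (GG T c p) := by
  unfold GG
  simp only [map_add, map_sub, map_mul, vv_map, Chart.map_q]

lemma GG_eq (c : Chart k (mb k D.e) k) (i j l : Fin n) (m : Fin d) :
    GG T c (i, j, l, m) =
      c.q ((X i - C (vv T c i)) * (X j - C (vv T c j)) * (X l - C (vv T c l))) m := by
  have h1 : (X i - C (vv T c i)) * (X j - C (vv T c j)) * (X l - C (vv T c l)) =
      X i * X j * X l - vv T c i • (X j * X l)
      - vv T c j • (X i * X l) - vv T c l • (X i * X j)
      + (vv T c i * vv T c j) • X l + (vv T c i * vv T c l) • X j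
      + (vv T c j * vv T c l) • X i
      - (vv T c i * vv T c j * vv T c l) • (1 : MvPolynomial (Fin n) k) := by
    simp only [smul_eq_C_mul, C_mul]
    ring
  rw [h1]
  simp only [map_add, map_sub, map_smul, Pi.add_apply, Pi.sub_apply, Pi.smul_apply,
    smul_eq_mul]
  rfl

lemma GG_zero (c : Chart k (mb k D.e) k) (v : Fin n → k) (h3 : pointIdeal v ^ 3 ≤ c.ker)
    (p : Fin n × Fin n × Fin n × Fin d) : GG T c p = 0 := by
  obtain ⟨i, j, l, m⟩ := p
  rw [GG_eq, vv_eq T c v h3, vv_eq T c v h3, vv_eq T c v h3,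
    (Chart.mem_ker c _).1 (h3 (cube_mem v i j l))]
  rfl

lemma mem_ker_of_GG (c : Chart k (mb k D.e) k) (h : ∀ p, GG T c p = 0) (i j l : Fin n) :
    (X i - C (vv T c i)) * (X j - C (vv T c j)) * (X l - C (vv T c l)) ∈ c.ker := by
  rw [Chart.mem_ker]
  ext m
  rw [← GG_eq]
  exact h _

/-- the closed subset of the chart -/
def KK (k : Type u) [Field k] {n d : ℕ} {D : QData n d} (T : Tri D) :
    Set (Spec (CommRingCat.of (AR k (mb k D.e)))) :=
  PrimeSpectrum.zeroLocus (Set.range (GG T (uc k (mb k D.e))))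

lemma KK_closed : IsClosed (KK k T) :=
  PrimeSpectrum.isClosed_zeroLocus _

lemma zp_mem_KK_iff (c : Chart k (mb k D.e) k) : zp c ∈ KK k T ↔ ∀ p, GG T c p = 0 := by
  have h1 : ∀ p, clf c (GG T (uc k (mb k D.e)) p) = GG T c p := by
    intro p
    rw [← GG_map, uc_map_clf]
  constructor
  · intro h p
    have h2 : GG T (uc k (mb k D.e)) p ∈ (zp c).asIdeal := h ⟨p, rfl⟩
    rw [zp_asIdeal, RingHom.mem_ker] at h2
    rw [← h1]
    exact h2
  · rintro h _ ⟨p, rfl⟩
    change GG T (uc k (mb k D.e)) p ∈ (zp c).asIdeal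
    rw [zp_asIdeal, RingHom.mem_ker]
    exact (h1 p).trans (h p)

end gens

section key
variable {k : Type u} [Field k] {n d : ℕ} (D : QData n d)

lemma dchart_sq (a : D.N → D.E → k) (c : (Fin n →₀ ℕ) → D.E → k)
    (h3 : ∀ (i : D.N) (β : Fin n →₀ ℕ), β.degree = 1 → ∀ l : D.E,
      c (D.nb i + β) l = ∑ j : D.E, a i j * c (D.e j.1 + β) l)
    (h4 : ∀ (α β : Fin n →₀ ℕ), α.degree = 3 → β.degree = 1 → ∀ l : D.E,
      ∑ j : D.E, c α j * c (D.e j.1 + β) l = 0) :
    (D.chart (k := k) a c h3 h4).ker ≤ idealOfVars (Fin n) k ^ 2 := by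
  intro x hx
  rw [Chart.mem_ker, chart_q_eq_sum] at hx
  rw [mem_pow_idealOfVars_iff']
  intro μ hμ
  obtain ⟨j, rfl⟩ := D.e_small μ (by omega)
  have h1 := congrFun hx j
  rw [Finset.sum_apply] at h1
  have h2 : ∀ ν ∈ x.support, (coeff ν x • (D.chart (k := k) a c h3 h4).q (monomial ν 1)) j =
      if ν = D.e j then coeff (D.e j) x else 0 := by
    intro ν _
    rw [D.chart_q, Pi.smul_apply, smul_eq_mul]
    rcases Nat.lt_or_ge ν.degree 2 with h | h
    · obtain ⟨j', rfl⟩ := D.e_small ν (by omega)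
      rw [D.wfun_e, Pi.single_apply]
      by_cases hjj : j = j'
      · subst hjj; simp
      · rw [if_neg hjj, if_neg (fun h => hjj (D.e_inj h.symm)), mul_zero]
    · rw [D.wfun_supp _ _ ν h j (by omega), mul_zero, if_neg]
      rintro rfl
      omega
  rw [Finset.sum_congr rfl h2, Finset.sum_ite_eq'] at h1
  by_cases h3 : D.e j ∈ x.support
  · rw [if_pos h3] at h1
    exact h1
  · exact notMem_support_iff.1 h3

open Polynomial in
/-- the deformation -/
noncomputable def defo (a : D.N → D.E → k) (F : (Fin n →₀ ℕ) → k) (w : D.E → k)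
    (hF : ∀ (i : D.N) (l : Fin n), F (D.nb i + Finsupp.single l 1) =
        ∑ j : D.E, a i j * F (D.e j.1 + Finsupp.single l 1))
    (hw : ∀ l : Fin n, ∑ j : D.E, w j * F (D.e j.1 + Finsupp.single l 1) = 0) :
    Chart k (mb k D.e) (Polynomial k) :=
  D.chart (fun i j => Polynomial.C (a i j)) (fun μ l => Polynomial.X * Polynomial.C (F μ * w l))
    (by
      intro i β hβ l
      obtain ⟨l', rfl⟩ := exists_single_of_degree_one β hβ
      rw [hF, Finset.sum_mul, map_sum, Finset.mul_sum]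
      refine Finset.sum_congr rfl fun j _ => ?_
      rw [map_mul, map_mul, map_mul]
      ring)
    (by
      intro α β hα hβ l
      obtain ⟨l', rfl⟩ := exists_single_of_degree_one β hβ
      have h1 : ∀ j : D.E, Polynomial.X * Polynomial.C (F α * w j) *
          (Polynomial.X * Polynomial.C (F (D.e j.1 + Finsupp.single l' 1) * w l)) =
          (Polynomial.X * Polynomial.X * Polynomial.C (F α * w l)) *
            Polynomial.C (w j * F (D.e j.1 + Finsupp.single l' 1)) := by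
        intro j
        simp only [map_mul]
        ring
      simp only [h1]
      rw [← Finset.mul_sum, ← map_sum, hw, map_zero, mul_zero])

lemma defo_map_q (a : D.N → D.E → k) (F : (Fin n →₀ ℕ) → k) (w : D.E → k)
    (hF : ∀ (i : D.N) (l : Fin n), F (D.nb i + Finsupp.single l 1) =
        ∑ j : D.E, a i j * F (D.e j.1 + Finsupp.single l 1))
    (hw : ∀ l : Fin n, ∑ j : D.E, w j * F (D.e j.1 + Finsupp.single l 1) = 0) (t : k)
    (μ : Fin n →₀ ℕ) :
    ((defo D a F w hF hw).map (Polynomial.aeval t : Polynomial k →ₐ[k] k)).q (monomial μ 1) =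
      D.wfun k a (fun μ l => t * (F μ * w l)) μ := by
  ext l
  rw [Chart.map_q]
  unfold defo
  rw [D.chart_q]
  unfold QData.wfun
  split_ifs with h1 h2 h3
  · rw [Pi.single_apply, Pi.single_apply]
    split_ifs <;> simp
  · dsimp only
    split_ifs <;> simp
  · dsimp only
    split_ifs <;> simp
  · simp

lemma defo_map_zero (a : D.N → D.E → k) (F : (Fin n →₀ ℕ) → k) (w : D.E → k)
    (hF : ∀ (i : D.N) (l : Fin n), F (D.nb i + Finsupp.single l 1) =
        ∑ j : D.E, a i j * F (D.e j.1 + Finsupp.single l 1))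
    (hw : ∀ l : Fin n, ∑ j : D.E, w j * F (D.e j.1 + Finsupp.single l 1) = 0) :
    (defo D a F w hF hw).map (Polynomial.aeval 0 : Polynomial k →ₐ[k] k) = qchart D a := by
  apply chart_ext_monomial
  intro μ
  rw [defo_map_q, qchart_q]
  simp only [zero_mul]

lemma defo_map_sq (a : D.N → D.E → k) (F : (Fin n →₀ ℕ) → k) (w : D.E → k)
    (hF : ∀ (i : D.N) (l : Fin n), F (D.nb i + Finsupp.single l 1) =
        ∑ j : D.E, a i j * F (D.e j.1 + Finsupp.single l 1))
    (hw : ∀ l : Fin n, ∑ j : D.E, w j * F (D.e j.1 + Finsupp.single l 1) = 0) (t : k) :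
    ((defo D a F w hF hw).map (Polynomial.aeval t : Polynomial k →ₐ[k] k)).ker ≤
      idealOfVars (Fin n) k ^ 2 := by
  have h3 : ∀ (i : D.N) (β : Fin n →₀ ℕ), β.degree = 1 → ∀ l : D.E,
      t * (F (D.nb i + β) * w l) = ∑ j : D.E, a i j * (t * (F (D.e j.1 + β) * w l)) := by
    intro i β hβ l
    obtain ⟨l', rfl⟩ := exists_single_of_degree_one β hβ
    rw [hF, Finset.sum_mul, Finset.mul_sum]
    exact Finset.sum_congr rfl fun j _ => by ring
  have h4 : ∀ (α β : Fin n →₀ ℕ), α.degree = 3 → β.degree = 1 → ∀ l : D.E,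
      ∑ j : D.E, t * (F α * w j) * (t * (F (D.e j.1 + β) * w l)) = 0 := by
    intro α β hα hβ l
    obtain ⟨l', rfl⟩ := exists_single_of_degree_one β hβ
    have h1 : ∀ j : D.E, t * (F α * w j) * (t * (F (D.e j.1 + Finsupp.single l' 1) * w l)) =
        (t * t * (F α * w l)) * (w j * F (D.e j.1 + Finsupp.single l' 1)) := by
      intro j
      ring
    simp only [h1]
    rw [← Finset.mul_sum, hw, mul_zero]
  have h : (defo D a F w hF hw).map (Polynomial.aeval t : Polynomial k →ₐ[k] k) =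
      D.chart a (fun μ l => t * (F μ * w l)) h3 h4 := by
    apply chart_ext_monomial
    intro μ
    rw [defo_map_q, D.chart_q]
  rw [h]
  exact dchart_sq D _ _ h3 h4

lemma defo_map_ne (a : D.N → D.E → k) (F : (Fin n →₀ ℕ) → k) (w : D.E → k)
    (hF : ∀ (i : D.N) (l : Fin n), F (D.nb i + Finsupp.single l 1) =
        ∑ j : D.E, a i j * F (D.e j.1 + Finsupp.single l 1))
    (hw : ∀ l : Fin n, ∑ j : D.E, w j * F (D.e j.1 + Finsupp.single l 1) = 0) (t : k)
    (ht : t ≠ 0) (γ : Fin n →₀ ℕ) (hγ : γ.degree = 3) (hFγ : F γ ≠ 0) (hw0 : w ≠ 0) :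
    monomial γ 1 ∉ ((defo D a F w hF hw).map (Polynomial.aeval t : Polynomial k →ₐ[k] k)).ker := by
  intro h
  rw [Chart.mem_ker, defo_map_q, D.wfun_three _ _ _ hγ] at h
  apply hw0
  ext l
  have h1 := congrFun h l.1
  simp only [l.2, dite_true] at h1
  have h2 : t * (F γ * w l) = 0 := h1
  have h3 : F γ * w l = 0 := (mul_eq_zero.1 h2).resolve_left ht
  exact (mul_eq_zero.1 h3).resolve_left hFγ

/-- the point of the affine line -/
noncomputable def ptA (t : k) : Spec (CommRingCat.of (Polynomial k)) :=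
  (⟨RingHom.ker (Polynomial.aeval t : Polynomial k →ₐ[k] k), RingHom.ker_isPrime _⟩ :
    PrimeSpectrum (Polynomial k))

lemma exists_ne_zero_mem [Infinite k] (U : Set (Spec (CommRingCat.of (Polynomial k))))
    (hU : IsOpen U) (h0 : ptA (0 : k) ∈ U) : ∃ t : k, t ≠ 0 ∧ ptA t ∈ U := by
  have hU' : IsOpen (U : Set (PrimeSpectrum (Polynomial k))) := hU
  obtain ⟨_, ⟨f, rfl⟩, hf1, hf2⟩ :=
    (PrimeSpectrum.isTopologicalBasis_basic_opens (R := Polynomial k)).exists_subset_of_mem_open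
      h0 hU'
  have hf0 : f ≠ 0 := by
    rintro rfl
    exact hf1 (Ideal.zero_mem _)
  have hfx : f * Polynomial.X ≠ 0 := mul_ne_zero hf0 Polynomial.X_ne_zero
  have : ∃ t : k, (f * Polynomial.X).eval t ≠ 0 := by
    by_contra h
    push Not at h
    exact hfx (Polynomial.funext fun t => by rw [h t, Polynomial.eval_zero])
  obtain ⟨t, ht⟩ := this
  rw [Polynomial.eval_mul, Polynomial.eval_X] at ht
  refine ⟨t, right_ne_zero_of_mul ht, hf2 ?_⟩
  change f ∉ RingHom.ker (Polynomial.aeval t : Polynomial k →ₐ[k] k)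
  rw [RingHom.mem_ker, Polynomial.coe_aeval_eq_eval]
  exact left_ne_zero_of_mul ht

end key

section main
variable {k : Type u} [Field k] [IsAlgClosed k] {n d : ℕ}

theorem closure_not_component (D : QData n d) (T : Tri D) (hn : 1 ≤ n) (hd1 : n + 1 < d)
    (hd2 : d ≤ (n + 2).choose n) (hE : Fintype.card D.E = d - (n + 1))
    (hnum1 : Fintype.card D.N * n < Fintype.card (Sym (Fin n) 3))
    (hnum2 : n < Fintype.card D.E) :
    closure ((hilb k (MvPolynomial (Fin n) k) d).locus (IsVeryCompressed d)) ∉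
      irreducibleComponents (hilb k (MvPolynomial (Fin n) k) d).H := by
  intro hcomp
  have hinf : Infinite k := inferInstance
  have := noetherianSpace_chart (k := k) (mb k D.e)
  set S := (hilb k (MvPolynomial (Fin n) k) d).locus (IsVeryCompressed d) with hS
  set ψ := chartι k (Idx.single (mb k D.e)) with hψ
  have hemb : Topology.IsOpenEmbedding ψ := ψ.isOpenEmbedding
  -- preimage of the closure
  have hcl : ψ ⁻¹' (closure S) = closure (ψ ⁻¹' S) :=
    hemb.isOpenMap.preimage_closure_eq_closure_preimage hemb.continuous S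
  have hZK : ψ ⁻¹' S ⊆ KK k T := by
    intro o ho
    obtain ⟨c, hc, rfl⟩ := exists_chart_in _ o ho
    have := Module.Finite.equiv c.quotEquiv.symm
    obtain ⟨v, h3, -⟩ := bounds_of_isVeryCompressed hd1 hd2 hn c.ker hc
    rw [zp_mem_KK_iff]
    exact GG_zero T c v h3
  have hclK : ψ ⁻¹' (closure S) ⊆ KK k T := by
    rw [hcl]
    exact closure_minimal hZK (KK_closed T)
  -- the chart meets the closure
  have hne : (closure S ∩ Set.range ψ).Nonempty := by
    refine ⟨ψ (zp (qchart D 0)), subset_closure ?_, ⟨_, rfl⟩⟩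
    exact chartι_zp_mem_locus _ _ (isVeryCompressed_of_bounds D _ hn hd1 hd2 hE
      (qchart_cube D 0) (qchart_sq D 0))
  obtain ⟨O, hO, hOne, hOC⟩ := exists_open_subset_component ψ hemb (closure S) hcomp hne
  -- a very compressed point in the open set
  obtain ⟨o0, ho0⟩ := hOne
  have ho0' : o0 ∈ closure (ψ ⁻¹' S) := by
    rw [← hcl]
    exact hOC ⟨o0, ho0, rfl⟩
  obtain ⟨o, hoO, hoS⟩ := mem_closure_iff.1 ho0' O hO ho0
  obtain ⟨c, hc, rfl⟩ := exists_chart_in _ o hoS
  have := Module.Finite.equiv c.quotEquiv.symm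
  obtain ⟨v, h3, h2⟩ := bounds_of_isVeryCompressed hd1 hd2 hn c.ker hc
  obtain ⟨a, ha⟩ := exists_normal D c v h3 h2
  obtain ⟨F, ⟨γ, hγ, hFγ⟩, hF⟩ := exists_cubic D hnum1 a
  obtain ⟨w, hw0, hw⟩ := exists_quadric D hnum2 F
  let ct := defo D a F w hF hw
  let ctv := ct.trans (tr v)
  -- the point at zero
  have hm0 : mor ctv (ptA 0) = ψ (zp c) := by
    have h4 := mor_point ctv (Polynomial.aeval 0 : Polynomial k →ₐ[k] k) (ptA 0) rfl
    have h5 : (ctv.map (Polynomial.aeval 0 : Polynomial k →ₐ[k] k)).ker = c.ker := by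
      ext x
      rw [ha, Chart.trans_map, Chart.mem_trans_ker, defo_map_zero]
    rw [mor_eq_of_ideal_eq _ c (Chart.ideal_eq_of_ker_eq h5), mem_range_mor_iff] at h4
    exact h4
  have hU : IsOpen (mor ctv ⁻¹' (ψ '' O)) :=
    (hemb.isOpenMap O hO).preimage (mor ctv).continuous
  obtain ⟨t, ht, htU⟩ := exists_ne_zero_mem _ hU (by
    change mor ctv (ptA 0) ∈ ψ '' O
    rw [hm0]
    exact ⟨_, hoO, rfl⟩)
  obtain ⟨o1, ho1, ho1'⟩ := htU
  let g1 : Polynomial k →ₐ[k] k := Polynomial.aeval t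
  have h6 : ψ o1 ∈ (hilb k (MvPolynomial (Fin n) k) d).locus (fun I => I = (ctv.map g1).ker) := by
    apply mem_locus_of_chart (ctv.map g1) (fun I => I = (ctv.map g1).ker) rfl
    rw [ho1']
    exact mor_point ctv g1 (ptA t) rfl
  obtain ⟨c1, hc1, rfl⟩ := exists_chart_in _ o1 h6
  have h7 : ∀ p, GG T c1 p = 0 := by
    rw [← zp_mem_KK_iff]
    exact hclK (hOC ⟨_, ho1, rfl⟩)
  have h8 := mem_ker_of_GG T c1 h7
  have h9 : ∀ x, x ∈ c1.ker ↔ tr v x ∈ (ct.map g1).ker := by
    intro x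
    rw [hc1, Chart.trans_map, Chart.mem_trans_ker]
  have hsq : (ct.map g1).ker ≤ idealOfVars (Fin n) k ^ 2 := defo_map_sq D a F w hF hw t
  -- the support point is unchanged
  have h10 : ∀ i, vv T c1 i = v i := by
    intro i
    have h11 := (h9 _).1 (h8 i i i)
    have h12 : tr v ((X i - C (vv T c1 i)) * (X i - C (vv T c1 i)) * (X i - C (vv T c1 i))) ∈
        idealOfVars (Fin n) k := (hsq.trans (Ideal.pow_le_self (by norm_num))) h11
    rw [idealOfVars_eq_ker, RingHom.mem_ker] at h12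
    simp only [map_mul, map_sub, tr_X, tr_C, map_add, constantCoeff_X, constantCoeff_C,
      zero_add] at h12
    have h13 : v i - vv T c1 i = 0 := by
      by_contra h
      exact h (by simpa using h12)
    exact (sub_eq_zero.1 h13).symm
  have h11 : ∀ i j l : Fin n, (X i * X j * X l : MvPolynomial (Fin n) k) ∈ (ct.map g1).ker := by
    intro i j l
    have h12 := (h9 _).1 (h8 i j l)
    simp only [h10, map_mul, map_sub, tr_X, tr_C, add_sub_cancel_right] at h12
    exact h12
  -- contradiction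
  obtain ⟨i, ν, hν, hν2⟩ := exists_add_of_degree_succ γ 2 hγ
  obtain ⟨j, ξ, hξ, hξ2⟩ := exists_add_of_degree_succ ν 1 hν2
  obtain ⟨l, hl⟩ := exists_single_of_degree_one ξ hξ2
  have h12 : (monomial γ 1 : MvPolynomial (Fin n) k) = X i * X j * X l := by
    rw [hν, hξ, hl, monomial_single_add, monomial_single_add, mul_assoc]
    rfl
  exact defo_map_ne D a F w hF hw t ht γ hγ hFγ hw0 (h12 ▸ h11 i j l)

end main

end Pool.Agent.Helper226
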