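import Mathlib
import Pool.Agent.Helper226.SChart
import Pool.Agent.Helper226.VCNot

set_option autoImplicit false

open scoped TensorProduct
open MvPolynomial

universe u

namespace Pool.Agent.Helper226

namespace SData

variable {n s d : ℕ} (D : SData n s d)

section charts
variable {k : Type u} [Field k] {R : Type u} [CommRing R] [Algebra k R]
  {R' : Type u} [CommRing R'] [Algebra k R']

/-- the chart datum of the deformation -/
noncomputable def chart (k : Type u) [Field k] {R : Type u} [CommRing R] [Algebra k R]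
    (A : (Fin n →₀ ℕ) → Fin d → R) (F : Fin d → R) (t : R) (z : Fin n)
    (hz : ∀ j, D.e j ≠ Finsupp.single z s)
    (hF : ∀ j, (D.e j).degree + 1 ≠ s → F j = 0)
    (hFz : ∀ j, D.e j = Finsupp.single z (s - 1) → t * F j = t)
    (hFl : ∀ l, l ≠ z → t • ∑ j, F j • D.w7 A F t z (D.e j + Finsupp.single l 1) = 0)
    (hs : 1 ≤ s) : Chart k (mb k D.e) R :=
  wChart D.e (D.wf A F t z) (D.wf_e A F t z hz) (D.wf_mul A F t z hz hF hFz hFl hs)

lemma chart_q (A : (Fin n →₀ ℕ) → Fin d → R) (F : Fin d → R) (t : R) (z : Fin n)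
    (hz : ∀ j, D.e j ≠ Finsupp.single z s)
    (hF : ∀ j, (D.e j).degree + 1 ≠ s → F j = 0)
    (hFz : ∀ j, D.e j = Finsupp.single z (s - 1) → t * F j = t)
    (hFl : ∀ l, l ≠ z → t • ∑ j, F j • D.w7 A F t z (D.e j + Finsupp.single l 1) = 0)
    (hs : 1 ≤ s) (μ : Fin n →₀ ℕ) :
    (D.chart k A F t z hz hF hFz hFl hs).q (monomial μ 1) = D.wf A F t z μ :=
  wChart_q _ _ _ _ _

/-- the homogeneous chart datum -/
noncomputable def hchart (k : Type u) [Field k] {R : Type u} [CommRing R] [Algebra k R]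
    (A : (Fin n →₀ ℕ) → Fin d → R) (z : Fin n)
    (hz : ∀ j, D.e j ≠ Finsupp.single z s) (hs : 1 ≤ s) : Chart k (mb k D.e) R :=
  D.chart k A 0 0 z hz (by simp) (by simp) (by simp) hs

lemma top_map (g : R →+* R') (A : (Fin n →₀ ℕ) → Fin d → R) (μ : Fin n →₀ ℕ) (j : Fin d) :
    g (D.top A μ j) = D.top (fun μ j => g (A μ j)) μ j := by
  by_cases h : ∃ j, D.e j = μ
  · obtain ⟨j', rfl⟩ := h
    rw [top_e, top_e, Pi.single_apply, Pi.single_apply]
    split_ifs <;> simp
  · rw [top_not D A μ h, top_not D _ μ h]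
    dsimp only
    split_ifs <;> simp

lemma w7_map (g : R →+* R') (A : (Fin n →₀ ℕ) → Fin d → R) (F : Fin d → R) (t : R) (z : Fin n)
    (μ : Fin n →₀ ℕ) (j : Fin d) :
    g (D.w7 A F t z μ j) = D.w7 (fun μ j => g (A μ j)) (fun j => g (F j)) (g t) z μ j := by
  unfold w7
  rw [Pi.add_apply, Pi.add_apply, map_add, top_map]
  congr 1
  split_ifs
  · rw [Pi.smul_apply, Pi.smul_apply, smul_eq_mul, smul_eq_mul, map_mul]
  · simp

lemma UU_map (g : R →+* R') (A : (Fin n →₀ ℕ) → Fin d → R) (F : Fin d → R) (t : R) (z : Fin n)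
    (j : Fin d) :
    g (D.UU A F t z j) = D.UU (fun μ j => g (A μ j)) (fun j => g (F j)) (g t) z j := by
  unfold UU
  rw [Finset.sum_apply, Finset.sum_apply, map_sum]
  refine Finset.sum_congr rfl fun i _ => ?_
  rw [Pi.smul_apply, Pi.smul_apply, smul_eq_mul, smul_eq_mul, map_mul, w7_map]

lemma wf_map (g : R →+* R') (A : (Fin n →₀ ℕ) → Fin d → R) (F : Fin d → R) (t : R) (z : Fin n)
    (μ : Fin n →₀ ℕ) (j : Fin d) :
    g (D.wf A F t z μ j) = D.wf (fun μ j => g (A μ j)) (fun j => g (F j)) (g t) z μ j := by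
  unfold wf
  split_ifs
  · rw [w7_map]
  · rw [Pi.smul_apply, Pi.smul_apply, smul_eq_mul, smul_eq_mul, map_mul, map_pow, UU_map]
  · simp

lemma wf_zero (A : (Fin n →₀ ℕ) → Fin d → R) (F : Fin d → R) (z : Fin n)
    (μ : Fin n →₀ ℕ) : D.wf A F 0 z μ = if μ.degree ≤ s then D.top A μ else 0 := by
  classical
  unfold wf w7
  by_cases h : μ.degree ≤ s
  · rw [if_pos h, if_pos h, zero_smul, ite_self, add_zero]
  · rw [if_neg h, if_neg h]
    have : (0 : R) ^ (μ.degree - s) = 0 := zero_pow (by omega)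
    rw [this, zero_smul, ite_self]

variable (z : Fin n) (hz : ∀ j, D.e j ≠ Finsupp.single z s) (hs : 1 ≤ s)

lemma hchart_q (A : (Fin n →₀ ℕ) → Fin d → R) (μ : Fin n →₀ ℕ) :
    (D.hchart k A z hz hs).q (monomial μ 1) = if μ.degree ≤ s then D.top A μ else 0 := by
  unfold hchart
  rw [chart_q, wf_zero]

lemma hchart_map (A : (Fin n →₀ ℕ) → Fin d → R) (g : R →ₐ[k] R') :
    (D.hchart k A z hz hs).map g = D.hchart k (fun μ j => g (A μ j)) z hz hs := by
  apply chart_ext_monomial
  intro μ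
  ext j
  rw [Chart.map_q, hchart_q, hchart_q]
  split_ifs
  · exact D.top_map (g : R →+* R') A μ j
  · simp

lemma hchart_high (A : (Fin n →₀ ℕ) → Fin d → k) :
    idealOfVars (Fin n) k ^ (s + 1) ≤ (D.hchart k A z hz hs).ker := by
  intro x hx
  rw [mem_pow_idealOfVars_iff] at hx
  rw [Chart.mem_ker, chart_q_eq_sum]
  refine Finset.sum_eq_zero fun μ hμ => ?_
  have := hx μ hμ
  rw [hchart_q, if_neg (by omega), smul_zero]

lemma hchart_low (A : (Fin n →₀ ℕ) → Fin d → k) :
    (D.hchart k A z hz hs).ker ≤ idealOfVars (Fin n) k ^ s := by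
  intro x hx
  rw [Chart.mem_ker, chart_q_eq_sum] at hx
  rw [mem_pow_idealOfVars_iff']
  intro μ hμ
  obtain ⟨j, rfl⟩ := D.e_small μ hμ
  have h1 := congrFun hx j
  rw [Finset.sum_apply] at h1
  have h2 : ∀ ν ∈ x.support, (coeff ν x • (D.hchart k A z hz hs).q (monomial ν 1)) j =
      if ν = D.e j then coeff (D.e j) x else 0 := by
    intro ν _
    rw [hchart_q, Pi.smul_apply, smul_eq_mul]
    by_cases h : ∃ j', D.e j' = ν
    · obtain ⟨j', rfl⟩ := h
      rw [if_pos (D.e_deg j'), top_e, Pi.single_apply]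
      by_cases hjj : j = j'
      · subst hjj; simp
      · rw [if_neg hjj, if_neg (fun h => hjj (D.e_inj h.symm)), mul_zero]
    · rw [if_neg (show ¬ ν = D.e j from fun h' => h ⟨j, h'.symm⟩)]
      split_ifs with h3
      · rw [top_not D A ν h]
        simp only
        rw [if_neg (by omega), mul_zero]
      · simp
  rw [Finset.sum_congr rfl h2, Finset.sum_ite_eq'] at h1
  by_cases h3 : D.e j ∈ x.support
  · rw [if_pos h3] at h1
    exact h1
  · exact notMem_support_iff.1 h3

lemma q_small (c : Chart k (mb k D.e) k) (h2 : c.ker ≤ idealOfVars (Fin n) k ^ s)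
    (x : MvPolynomial (Fin n) k) (j : Fin d) (hj : (D.e j).degree < s) :
    c.q x j = coeff (D.e j) x := by
  have h1 : x - ∑ j, c.q x j • mb k D.e j ∈ c.ker := by
    rw [Chart.mem_ker, map_sub, map_sum]
    simp only [map_smul, c.q_b]
    ext l
    simp [Pi.single_apply]
  have h3 := (mem_pow_idealOfVars_iff' s _).1 (h2 h1) (D.e j) hj
  rw [coeff_sub, coeff_sum, sub_eq_zero] at h3
  rw [h3, Finset.sum_eq_single j]
  · simp [mb]
  · intro l _ hl
    rw [mb, coeff_smul, coeff_monomial, if_neg (fun h => hl (D.e_inj h)), smul_zero]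
  · simp

/-- a chart datum between the two powers is homogeneous -/
lemma eq_hchart (c : Chart k (mb k D.e) k) (h3 : idealOfVars (Fin n) k ^ (s + 1) ≤ c.ker)
    (h2 : c.ker ≤ idealOfVars (Fin n) k ^ s) :
    D.hchart k (fun μ => c.q (monomial μ 1)) z hz hs = c := by
  apply chart_ext_monomial
  intro μ
  rw [hchart_q]
  by_cases hex : ∃ j, D.e j = μ
  · obtain ⟨j, rfl⟩ := hex
    rw [if_pos (D.e_deg j), top_e]
    exact (c.q_b j).symm
  split_ifs with h
  · have hμ : μ.degree = s := by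
      by_contra h'
      exact hex (D.e_small μ (by omega))
    rw [top_not D _ μ hex]
    ext l
    split_ifs with hl
    · rfl
    · rw [q_small D c h2 _ l (by have := D.e_deg l; omega), coeff_monomial,
        if_neg (fun h' => hex ⟨l, h'.symm⟩)]
  · have h4 : (monomial μ 1 : MvPolynomial (Fin n) k) ∈ c.ker := by
      apply h3
      rw [monomial_mem_pow_idealOfVars_iff _ _ one_ne_zero]
      omega
    rw [(Chart.mem_ker c _).1 h4]

end charts

end SData

end Pool.Agent.Helper226
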