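import Mathlib
import Pool.Agent.Helper226.SChart2

set_option autoImplicit false

open scoped TensorProduct
open MvPolynomial

universe u

namespace Pool.Agent.Helper226

namespace SData

section pm
variable {k : Type u} [Field k] {n : ℕ}

/-- polynomials with monomials of degree less than `m` -/
noncomputable def Pm (k : Type u) [Field k] (n m : ℕ) : Submodule k (MvPolynomial (Fin n) k) :=
  Submodule.span k {x | ∃ ν : Fin n →₀ ℕ, ν.degree < m ∧ x = monomial ν 1}

lemma mono_mem_Pm (m : ℕ) (ν : Fin n →₀ ℕ) (h : ν.degree < m) :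
    (monomial ν 1 : MvPolynomial (Fin n) k) ∈ Pm k n m :=
  Submodule.subset_span ⟨ν, h, rfl⟩

lemma Pm_mono {m m' : ℕ} (h : m ≤ m') : Pm k n m ≤ Pm k n m' := by
  unfold Pm
  apply Submodule.span_mono
  rintro _ ⟨ν, hν, rfl⟩
  exact ⟨ν, by omega, rfl⟩

lemma X_mul_Pm (m : ℕ) (i : Fin n) (x : MvPolynomial (Fin n) k) (hx : x ∈ Pm k n m) :
    X i * x ∈ Pm k n (m + 1) := by
  unfold Pm at hx
  induction hx using Submodule.span_induction with
  | mem x hx =>
    obtain ⟨ν, hν, rfl⟩ := hx
    rw [← monomial_single_add]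
    apply mono_mem_Pm
    rw [map_add, Finsupp.degree_single]
    omega
  | zero => rw [mul_zero]; exact Submodule.zero_mem _
  | add x y _ _ hx hy => rw [mul_add]; exact Submodule.add_mem _ hx hy
  | smul a x _ hx => rw [mul_smul_comm]; exact Submodule.smul_mem _ _ hx

lemma tr_symm_monomial (v : Fin n → k) (m : ℕ) : ∀ μ : Fin n →₀ ℕ, μ.degree = m →
    (tr v).symm (monomial μ 1) - monomial μ 1 ∈ Pm k n m := by
  induction m with
  | zero =>
    intro μ hμ
    have : μ = 0 := (Finsupp.degree_eq_zero_iff μ).1 hμ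
    subst this
    have h1 : (monomial (0 : Fin n →₀ ℕ) (1 : k)) = 1 := rfl
    rw [h1, map_one, sub_self]
    exact Submodule.zero_mem _
  | succ m ih =>
    intro μ hμ
    obtain ⟨i, ν, rfl, hν⟩ := exists_add_of_degree_succ μ m hμ
    have h1 := ih ν hν
    rw [monomial_single_add, map_mul, tr_symm_X]
    have h2 : (X i - C (v i)) * (tr v).symm (monomial ν 1) - X i * monomial ν 1 =
        X i * ((tr v).symm (monomial ν 1) - monomial ν 1) -
          (v i • (monomial ν 1 : MvPolynomial (Fin n) k) +
            v i • ((tr v).symm (monomial ν 1) - monomial ν 1)) := by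
      simp only [smul_eq_C_mul]
      ring
    rw [h2]
    refine Submodule.sub_mem _ (X_mul_Pm m i _ h1) (Submodule.add_mem _ ?_ ?_)
    · exact Submodule.smul_mem _ _ (mono_mem_Pm _ _ (by omega))
    · exact Submodule.smul_mem _ _ (Pm_mono (by omega) h1)

end pm

variable {n s d : ℕ} (D : SData n s d)

section norm
variable {k : Type u} [Field k]

/-- the span of the basis monomials -/
noncomputable def spanS (k : Type u) [Field k] (D : SData n s d) :
    Submodule k (MvPolynomial (Fin n) k) :=
  Submodule.span k (Set.range (mb k D.e))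

lemma Pm_le_spanS : Pm k n s ≤ spanS k D := by
  unfold Pm spanS
  rw [Submodule.span_le]
  rintro _ ⟨ν, hν, rfl⟩
  obtain ⟨j, rfl⟩ := D.e_small ν hν
  exact Submodule.subset_span ⟨j, rfl⟩

lemma tr_symm_mem_spanS (v : Fin n → k) (x : MvPolynomial (Fin n) k) (hx : x ∈ spanS k D) :
    (tr v).symm x ∈ spanS k D := by
  unfold spanS at hx
  induction hx using Submodule.span_induction with
  | mem x hx =>
    obtain ⟨j, rfl⟩ := hx
    have h1 := tr_symm_monomial v (D.e j).degree (D.e j) rfl
    have h2 : (tr v).symm (mb k D.e j) =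
        ((tr v).symm (monomial (D.e j) 1) - monomial (D.e j) 1) + mb k D.e j := by
      rw [mb]; ring
    rw [h2]
    exact Submodule.add_mem _ (Pm_le_spanS D (Pm_mono (D.e_deg j) h1))
      (Submodule.subset_span ⟨j, rfl⟩)
  | zero => rw [map_zero]; exact Submodule.zero_mem _
  | add x y _ _ hx hy => rw [map_add]; exact Submodule.add_mem _ hx hy
  | smul a x _ hx => rw [map_smul]; exact Submodule.smul_mem _ _ hx

lemma eq_zero_of_mem_spanS (c : Chart k (mb k D.e) k) (x : MvPolynomial (Fin n) k)
    (hx : x ∈ spanS k D) (h : c.q x = 0) : x = 0 := by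
  obtain ⟨α, rfl⟩ := (Submodule.mem_span_range_iff_exists_fun k).1 hx
  have : c.q (∑ i, α i • mb k D.e i) = α := by
    rw [map_sum]
    simp only [map_smul, c.q_b]
    ext l
    simp [Pi.single_apply]
  rw [this] at h
  subst h
  simp

variable (z : Fin n) (hz : ∀ j, D.e j ≠ Finsupp.single z s) (hs : 1 ≤ s)

lemma exists_normal (c : Chart k (mb k D.e) k) (v : Fin n → k)
    (h3 : pointIdeal v ^ (s + 1) ≤ c.ker) (h2 : c.ker ≤ pointIdeal v ^ s) :
    ∃ A : (Fin n →₀ ℕ) → Fin d → k, ∀ x, x ∈ c.ker ↔ tr v x ∈ (D.hchart k A z hz hs).ker := by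
  obtain ⟨c0, hc0⟩ := Chart.exists_rebase (c.trans (tr v).symm) (mb k D.e) (by
    intro α hα
    have hp : ∑ i, α i • mb k D.e i ∈ spanS k D :=
      Submodule.sum_mem _ fun i _ => Submodule.smul_mem _ _ (Submodule.subset_span ⟨i, rfl⟩)
    have h4 := eq_zero_of_mem_spanS D c _ (tr_symm_mem_spanS D v _ hp) hα
    have h5 : ∑ i, α i • mb k D.e i = 0 := by
      have := congrArg (tr v) h4
      rwa [AlgEquiv.apply_symm_apply, map_zero] at this
    have h6 : c.q (∑ i, α i • mb k D.e i) = α := by
      rw [map_sum]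
      simp only [map_smul, c.q_b]
      ext l
      simp [Pi.single_apply]
    rw [h5, map_zero] at h6
    exact h6.symm)
  have hmem : ∀ x, x ∈ c0.ker ↔ (tr v).symm x ∈ c.ker := by
    intro x
    rw [hc0, Chart.mem_trans_ker]
  have h3' : idealOfVars (Fin n) k ^ (s + 1) ≤ c0.ker := by
    intro x hx
    rw [hmem]
    apply h3
    rw [mem_pointIdeal_pow_iff, AlgEquiv.apply_symm_apply]
    exact hx
  have h2' : c0.ker ≤ idealOfVars (Fin n) k ^ s := by
    intro x hx
    rw [hmem] at hx
    have := h2 hx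
    rwa [mem_pointIdeal_pow_iff, AlgEquiv.apply_symm_apply] at this
  refine ⟨fun μ => c0.q (monomial μ 1), fun x => ?_⟩
  rw [D.eq_hchart z hz hs c0 h3' h2', hmem, AlgEquiv.symm_apply_apply]

end norm

section trace
variable {k : Type u} [Field k] {R : Type u} [CommRing R] [Algebra k R]
  {R' : Type u} [CommRing R'] [Algebra k R']

/-- trace of multiplication by `f` on the universal algebra of a chart -/
noncomputable def trc {b : Fin d → MvPolynomial (Fin n) k} (c : Chart k b R)
    (f : MvPolynomial (Fin n) k) : R := ∑ j, c.q (b j * f) j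

lemma trc_map {b : Fin d → MvPolynomial (Fin n) k} (c : Chart k b R)
    (f : MvPolynomial (Fin n) k) (g : R →ₐ[k] R') : trc (c.map g) f = g (trc c f) := by
  unfold trc
  rw [map_sum]
  rfl

lemma trc_sub {b : Fin d → MvPolynomial (Fin n) k} (c : Chart k b R)
    (f f' : MvPolynomial (Fin n) k) : trc c (f - f') = trc c f - trc c f' := by
  unfold trc
  rw [← Finset.sum_sub_distrib]
  refine Finset.sum_congr rfl fun j _ => ?_
  rw [mul_sub, map_sub, Pi.sub_apply]

lemma trc_C {b : Fin d → MvPolynomial (Fin n) k} (c : Chart k b k) (a : k) :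
    trc c (C a) = d * a := by
  unfold trc
  have : ∀ j, c.q (b j * C a) j = a := by
    intro j
    rw [mul_comm, ← smul_eq_C_mul, map_smul, c.q_b]
    simp
  rw [Finset.sum_congr rfl fun j _ => this j]
  simp

lemma trc_nilpotent {b : Fin d → MvPolynomial (Fin n) k} (c : Chart k b k)
    (f : MvPolynomial (Fin n) k) (N : ℕ) (hf : f ^ N ∈ c.ker) : trc c f = 0 := by
  let M : Matrix (Fin d) (Fin d) k := fun j i => c.q (b i * f) j
  have hM : ∀ x, c.q (x * f) = M.mulVec (c.q x) := by
    intro x
    rw [c.q_mul]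
    ext j
    rw [Finset.sum_apply]
    simp only [M, Matrix.mulVec, dotProduct, Pi.smul_apply, smul_eq_mul]
    exact Finset.sum_congr rfl fun i _ => mul_comm _ _
  have hMN : ∀ m x, c.q (x * f ^ m) = (M ^ m).mulVec (c.q x) := by
    intro m
    induction m with
    | zero => intro x; simp
    | succ m ih =>
      intro x
      rw [pow_succ', ← mul_assoc, ih, hM, pow_succ, Matrix.mulVec_mulVec]
  have hzero : M ^ N = 0 := by
    ext i j
    have h1 := hMN N (b j)
    have h2 : b j * f ^ N ∈ c.ker := Ideal.mul_mem_left _ _ hf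
    rw [(Chart.mem_ker c _).1 h2, c.q_b] at h1
    have h3 := congrFun h1 i
    rw [Matrix.mulVec_single_one] at h3
    simpa using h3.symm
  have h1 : IsNilpotent M := ⟨N, hzero⟩
  have h2 := (Matrix.isNilpotent_trace_of_isNilpotent h1).eq_zero
  exact h2

end trace

end SData

end Pool.Agent.Helper226
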