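import Mathlib
import Pool.Agent.Helper226.SNorm

set_option autoImplicit false

open scoped TensorProduct
open MvPolynomial

universe u

namespace Pool.Agent.Helper226

namespace SData

section hf
variable {k : Type u} [Field k] {n : ℕ}

/-- monomials of degree `i` -/
abbrev Mi (n i : ℕ) : Type :=
  {μ : Fin n →₀ ℕ // μ ∈ (Finset.univ : Finset (Fin n)).finsuppAntidiag i}

lemma mem_Mi (i : ℕ) (μ : Fin n →₀ ℕ) :
    μ ∈ (Finset.univ : Finset (Fin n)).finsuppAntidiag i ↔ μ.degree = i := by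
  rw [Finset.mem_finsuppAntidiag, Finsupp.degree_eq_sum]
  simp

lemma card_Mi (i : ℕ) (hn : 1 ≤ n) : Fintype.card (Mi n i) = (i + n - 1).choose (n - 1) := by
  rw [Fintype.card_coe, Finset.card_finsuppAntidiag_nat_eq_choose, Finset.card_univ,
    Fintype.card_fin]
  rw [show n + i - 1 = (n - 1) + i by omega, show i + n - 1 = (n - 1) + i by omega]
  exact (Nat.choose_symm_add).symm

/-- coefficients in degree `i` after translation -/
noncomputable def lin (v : Fin n → k) (i : ℕ) : MvPolynomial (Fin n) k →ₗ[k] (Mi n i → k) :=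
  (LinearMap.pi fun μ : Mi n i => lcoeff k μ.1) ∘ₗ (tr v).toLinearMap

lemma lin_apply (v : Fin n → k) (i : ℕ) (x : MvPolynomial (Fin n) k) (μ : Mi n i) :
    lin v i x μ = coeff μ.1 (tr v x) := rfl

lemma lin_ker (v : Fin n → k) (i : ℕ) (x : MvPolynomial (Fin n) k) (hx : x ∈ pointIdeal v ^ i)
    (h0 : lin v i x = 0) : x ∈ pointIdeal v ^ (i + 1) := by
  rw [mem_pointIdeal_pow_iff, mem_pow_idealOfVars_iff'] at hx ⊢
  intro y hy
  rcases Nat.lt_or_ge y.degree i with h1 | h1
  · exact hx y h1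
  · have h2 : y.degree = i := by omega
    exact congrFun h0 ⟨y, (mem_Mi i y).2 h2⟩

lemma lin_zero (v : Fin n → k) (i : ℕ) (x : MvPolynomial (Fin n) k)
    (hx : x ∈ pointIdeal v ^ (i + 1)) : lin v i x = 0 := by
  rw [mem_pointIdeal_pow_iff, mem_pow_idealOfVars_iff'] at hx
  ext μ
  exact hx μ.1 (by rw [(mem_Mi i μ.1).1 μ.2]; omega)

lemma lin_surj (v : Fin n → k) (i : ℕ) (a : Mi n i → k) :
    ∃ x ∈ pointIdeal v ^ i, lin v i x = a := by
  refine ⟨(tr v).symm (∑ μ : Mi n i, monomial μ.1 (a μ)), ?_, ?_⟩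
  · rw [mem_pointIdeal_pow_iff, AlgEquiv.apply_symm_apply]
    refine Ideal.sum_mem _ fun μ _ => ?_
    rw [mem_pow_idealOfVars_iff']
    intro y hy
    rw [coeff_monomial, if_neg]
    rintro rfl
    rw [(mem_Mi i μ.1).1 μ.2] at hy
    omega
  · ext μ
    rw [lin_apply, AlgEquiv.apply_symm_apply, coeff_sum, Finset.sum_eq_single μ]
    · rw [coeff_monomial, if_pos rfl]
    · intro ν _ hν
      rw [coeff_monomial, if_neg (fun h => hν (Subtype.ext h))]
    · simp

lemma hilbFn_eq (I : Ideal (MvPolynomial (Fin n) k)) (v : Fin n → k) (i : ℕ)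
    (hI : I ≤ pointIdeal v ^ i) :
    hilbFn I (pointIdeal v) i =
      Module.finrank k ((Mi n i → k) ⧸ (I.restrictScalars k).map (lin v i)) := by
  unfold hilbFn
  apply finrank_quot _ _ ((((I.restrictScalars k).map (lin v i)).mkQ ∘ₗ lin v i) ∘ₗ
    (powSub I (pointIdeal v) i).subtype)
  · intro a
    obtain ⟨a, rfl⟩ := Submodule.mkQ_surjective _ a
    obtain ⟨x, hx, rfl⟩ := lin_surj v i a
    refine ⟨⟨x, ?_⟩, rfl⟩
    rw [mem_powSub]
    exact Ideal.mem_sup_left hx
  · intro x
    have hx : (x : MvPolynomial (Fin n) k) ∈ pointIdeal v ^ i := by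
      have := x.2
      rw [mem_powSub, sup_eq_left.2 hI] at this
      exact this
    simp only [LinearMap.comp_apply, Submodule.subtype_apply, Submodule.mkQ_apply,
      Submodule.Quotient.mk_eq_zero]
    rw [mem_powSub]
    constructor
    · rintro ⟨y, hy, hxy⟩
      have h2 : (x : MvPolynomial (Fin n) k) - y ∈ pointIdeal v ^ (i + 1) := by
        apply lin_ker v i _ (Ideal.sub_mem _ hx (hI hy))
        rw [map_sub, hxy, sub_self]
      have h3 : (x : MvPolynomial (Fin n) k) - y + y ∈ pointIdeal v ^ (i + 1) ⊔ I :=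
        Ideal.add_mem _ (Ideal.mem_sup_left h2) (Ideal.mem_sup_right hy)
      rwa [sub_add_cancel] at h3
    · intro h2
      obtain ⟨y, hy, z, hz, hyz⟩ := Submodule.mem_sup.1 h2
      refine ⟨z, hz, ?_⟩
      rw [← hyz, map_add, lin_zero v i y hy, zero_add]

lemma hilbFn_full (I : Ideal (MvPolynomial (Fin n) k)) (v : Fin n → k) (i : ℕ) (hn : 1 ≤ n)
    (hI : I ≤ pointIdeal v ^ (i + 1)) :
    hilbFn I (pointIdeal v) i = (i + n - 1).choose (n - 1) := by
  rw [hilbFn_eq I v i (hI.trans (Ideal.pow_le_pow_right (by omega)))]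
  have h1 : (I.restrictScalars k).map (lin v i) = ⊥ := by
    rw [eq_bot_iff]
    rintro _ ⟨x, hx, rfl⟩
    exact lin_zero v i x (hI hx)
  have h2 := ((I.restrictScalars k).map (lin v i)).finrank_quotient_add_finrank
  rw [h1, finrank_bot, add_zero, Module.finrank_fintype_fun_eq_card, card_Mi i hn] at h2
  rw [h1, h2]

lemma le_of_hilbFn (I : Ideal (MvPolynomial (Fin n) k)) (v : Fin n → k) (i : ℕ) (hn : 1 ≤ n)
    (hI : I ≤ pointIdeal v ^ i) (h : hilbFn I (pointIdeal v) i = (i + n - 1).choose (n - 1)) :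
    I ≤ pointIdeal v ^ (i + 1) := by
  rw [hilbFn_eq I v i hI] at h
  have h2 := ((I.restrictScalars k).map (lin v i)).finrank_quotient_add_finrank
  rw [h, Module.finrank_fintype_fun_eq_card, card_Mi i hn] at h2
  have h3 : Module.finrank k ((I.restrictScalars k).map (lin v i)) = 0 := by omega
  have h4 := Submodule.finrank_eq_zero.1 h3
  intro x hx
  apply lin_ker v i x (hI hx)
  have : lin v i x ∈ (I.restrictScalars k).map (lin v i) := ⟨x, hx, rfl⟩
  rw [h4] at this
  exact (Submodule.mem_bot k).1 this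

lemma pow_le_of_hilbFn (I : Ideal (MvPolynomial (Fin n) k))
    [Module.Finite k (MvPolynomial (Fin n) k ⧸ I)] (v : Fin n → k) (s : ℕ)
    (hr : I.radical = pointIdeal v)
    (h : ∀ i, s < i → hilbFn I (pointIdeal v) i = 0) : pointIdeal v ^ (s + 1) ≤ I := by
  have h1 : ∀ N, pointIdeal v ^ (s + 1) ⊔ I ≤ pointIdeal v ^ (s + 1 + N) ⊔ I := by
    intro N
    induction N with
    | zero => exact le_rfl
    | succ N ih =>
      exact ih.trans (powSub_le_of_hilbFn_eq_zero I _ (s + 1 + N) (h _ (by omega)))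
  obtain ⟨N, hN⟩ := I.exists_radical_pow_le_of_fg (IsNoetherian.noetherian _)
  rw [hr] at hN
  have h2 := h1 N
  have h3 : pointIdeal v ^ (s + 1 + N) ≤ I := (Ideal.pow_le_pow_right (by omega)).trans hN
  rw [sup_eq_right.2 h3] at h2
  exact le_sup_left.trans h2

/-- very compressed ideals lie between two powers of the maximal ideal -/
lemma bounds_of_vc {d : ℕ} (s : ℕ) (hd1 : (n + s - 1).choose n < d)
    (hd2 : d ≤ (n + s).choose n) (hn : 1 ≤ n) (hs : 1 ≤ s) (I : Ideal (MvPolynomial (Fin n) k))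
    [Module.Finite k (MvPolynomial (Fin n) k ⧸ I)] (h : IsVeryCompressed d I) :
    ∃ v : Fin n → k, pointIdeal v ^ (s + 1) ≤ I ∧ I ≤ pointIdeal v ^ s := by
  obtain ⟨v, s', hs1, hs2, hr, hlt, -, hgt⟩ := h
  have hss : s' = s := by
    rcases lt_trichotomy s' s with h | h | h
    · have : (n + s').choose n ≤ (n + s - 1).choose n := Nat.choose_le_choose n (by omega)
      omega
    · exact h
    · have : (n + s).choose n ≤ (n + s' - 1).choose n := Nat.choose_le_choose n (by omega)
      omega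
  subst hss
  refine ⟨v, pow_le_of_hilbFn I v s' hr hgt, ?_⟩
  have h1 : ∀ i, i ≤ s' → I ≤ pointIdeal v ^ i := by
    intro i
    induction i with
    | zero => intro _; rw [pow_zero, Ideal.one_eq_top]; exact le_top
    | succ i ih =>
      intro hi
      exact le_of_hilbFn I v i hn (ih (by omega)) (hlt i (by omega))
  exact h1 s' le_rfl

variable {s d : ℕ} (D : SData n s d)

lemma hilbFn_top (c : Chart k (mb k D.e) k) (h3 : idealOfVars (Fin n) k ^ (s + 1) ≤ c.ker)
    (h2 : c.ker ≤ idealOfVars (Fin n) k ^ s) :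
    hilbFn c.ker (idealOfVars (Fin n) k) s = Fintype.card {j // (D.e j).degree = s} := by
  unfold hilbFn
  rw [finrank_quot (powSub c.ker (idealOfVars (Fin n) k) s)
    (powSub c.ker (idealOfVars (Fin n) k) (s + 1))
    ((LinearMap.pi fun j : {j // (D.e j).degree = s} => LinearMap.proj j.1 ∘ₗ c.q) ∘ₗ
      Submodule.subtype _)]
  · simp
  · intro a
    refine ⟨⟨∑ j : {j // (D.e j).degree = s}, a j • mb k D.e j.1, ?_⟩, ?_⟩
    · rw [mem_powSub]
      apply Ideal.mem_sup_left
      refine Ideal.sum_mem _ fun j _ => ?_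
      rw [smul_eq_C_mul]
      apply Ideal.mul_mem_left
      rw [mb, monomial_mem_pow_idealOfVars_iff _ _ one_ne_zero, j.2]
    · ext j
      simp only [LinearMap.comp_apply, Submodule.subtype_apply, LinearMap.pi_apply, map_sum,
        map_smul, c.q_b, LinearMap.proj_apply, Pi.single_apply,
        smul_eq_mul, mul_ite, mul_one, mul_zero]
      rw [Finset.sum_eq_single j]
      · simp
      · intro l _ hl
        rw [if_neg (fun h => hl (Subtype.ext h.symm))]
      · simp
  · intro x
    have hx : (x : MvPolynomial (Fin n) k) ∈ idealOfVars (Fin n) k ^ s := by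
      have := x.2
      rw [mem_powSub, sup_eq_left.2 h2] at this
      exact this
    rw [mem_powSub, sup_eq_right.2 h3, Chart.mem_ker]
    constructor
    · intro h
      ext j
      by_cases hj : (D.e j).degree = s
      · exact congrFun h ⟨j, hj⟩
      · have hj2 : (D.e j).degree < s := by
          have := D.e_deg j
          omega
        rw [q_small D c h2 _ j hj2]
        exact (mem_pow_idealOfVars_iff' s _).1 hx _ hj2
    · intro h
      ext j
      exact congrFun h j.1

lemma hilbFn_ge' (I : Ideal (MvPolynomial (Fin n) k)) (h3 : idealOfVars (Fin n) k ^ (s + 1) ≤ I)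
    (i : ℕ) (hi : s < i) : hilbFn I (idealOfVars (Fin n) k) i = 0 := by
  unfold hilbFn
  rw [finrank_quot (powSub I (idealOfVars (Fin n) k) i) (powSub I (idealOfVars (Fin n) k) (i + 1))
    (0 : _ →ₗ[k] (Fin 0 → k))]
  · simp
  · intro a
    exact ⟨0, Subsingleton.elim _ _⟩
  · intro x
    have hle : ∀ j, s + 1 ≤ j → idealOfVars (Fin n) k ^ j ≤ I :=
      fun j hj => (Ideal.pow_le_pow_right hj).trans h3
    have hx := x.2
    rw [mem_powSub, sup_eq_right.2 (hle i hi)] at hx
    rw [mem_powSub, sup_eq_right.2 (hle (i + 1) (by omega))]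
    simp [hx]

lemma vc_of_bounds (c : Chart k (mb k D.e) k)
    (hn : 1 ≤ n) (hs : 1 ≤ s) (hd1 : (n + s - 1).choose n < d) (hd2 : d ≤ (n + s).choose n)
    (hE : Fintype.card {j // (D.e j).degree = s} = d - (n + s - 1).choose n)
    (h3 : idealOfVars (Fin n) k ^ (s + 1) ≤ c.ker)
    (h2 : c.ker ≤ idealOfVars (Fin n) k ^ s) : IsVeryCompressed d c.ker := by
  refine ⟨0, s, hd1, hd2, ?_, ?_, ?_, ?_⟩
  · rw [pointIdeal_zero]
    apply le_antisymm
    · have hp : (idealOfVars (Fin n) k).IsPrime := idealOfVars_isMaximal.isPrime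
      exact (Ideal.IsPrime.radical_le_iff hp).2 (h2.trans (Ideal.pow_le_self (by omega)))
    · intro x hx
      exact ⟨s + 1, h3 (Ideal.pow_mem_pow hx (s + 1))⟩
  · intro i hi
    apply hilbFn_full _ _ _ hn
    rw [pointIdeal_zero]
    exact h2.trans (Ideal.pow_le_pow_right (by omega))
  · rw [pointIdeal_zero, hilbFn_top D c h3 h2, hE]
  · intro i hi
    rw [pointIdeal_zero]
    exact hilbFn_ge' _ h3 i hi

end hf

end SData

end Pool.Agent.Helper226
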