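import Mathlib
import Pool.Agent.Helper226.SHilb

set_option autoImplicit false

open scoped TensorProduct
open MvPolynomial

universe u

namespace Pool.Agent.Helper226

namespace SData

variable {s d : ℕ} (D : SData 3 s d)

/-- the combinatorial condition on the monomials of degree `s` in the basis -/
def Par : Prop := ∀ j, (D.e j).degree = s → (D.e j) 0 % 2 = 1 ∧ 1 ≤ (D.e j) 1

/-- index of the unknowns -/
abbrev Qx : Type := {j : Fin d // (D.e j).degree = s} × Fin 2

/-- the monomial of degree `s - 1` attached to an index -/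
noncomputable def mo (q : D.Qx) : Fin 3 →₀ ℕ :=
  D.e q.1.1 - Finsupp.single q.2.castSucc 1

variable {D} (hP : D.Par)

include hP in
lemma one_le (q : D.Qx) : 1 ≤ D.e q.1.1 q.2.castSucc := by
  obtain ⟨⟨j, hj⟩, l⟩ := q
  have h := hP j hj
  fin_cases l
  · change 1 ≤ D.e j 0
    omega
  · exact h.2

include hP in
lemma mo_add (q : D.Qx) : D.mo q + Finsupp.single q.2.castSucc 1 = D.e q.1.1 := by
  unfold mo
  apply tsub_add_cancel_of_le
  rw [Finsupp.single_le_iff]
  exact one_le hP q

include hP in
lemma mo_deg (q : D.Qx) : (D.mo q).degree + 1 = s := by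
  have h := congrArg Finsupp.degree (mo_add hP q)
  rw [map_add, Finsupp.degree_single, q.1.2] at h
  exact h

include hP in
lemma exists_ix (q : D.Qx) : ∃ j, D.e j = D.mo q :=
  D.e_small _ (by have := mo_deg hP q; omega)

/-- its position in the basis -/
noncomputable def ix (q : D.Qx) : Fin d := (exists_ix hP q).choose

lemma e_ix (q : D.Qx) : D.e (ix hP q) = D.mo q := (exists_ix hP q).choose_spec

section mat
variable {R : Type u} [CommRing R] {R' : Type u} [CommRing R']

/-- the matrix of the linear system -/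
noncomputable def Mm (D : SData 3 s d) (A : (Fin 3 →₀ ℕ) → Fin d → R) : Matrix D.Qx D.Qx R :=
  fun p q => D.top A (D.mo q + Finsupp.single p.2.castSucc 1) p.1.1

lemma Mm_map (g : R →+* R') (A : (Fin 3 →₀ ℕ) → Fin d → R) :
    (Mm D A).map g = Mm D (fun μ j => g (A μ j)) := by
  ext p q
  rw [Matrix.map_apply]
  exact D.top_map g A _ _

include hP in
lemma Mm_zero : Mm D (fun _ _ => (0 : R)) = 1 := by
  classical
  ext p q
  unfold Mm
  by_cases hl : p.2 = q.2
  · rw [hl, mo_add hP q, top_e, Matrix.one_apply, Pi.single_apply]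
    by_cases h : p = q
    · rw [if_pos h, if_pos (by rw [h])]
    · rw [if_neg h, if_neg]
      intro h'
      exact h (Prod.ext (Subtype.ext h') hl)
  · rw [Matrix.one_apply, if_neg (fun h => hl (by rw [h])), top_not]
    · simp
    · rintro ⟨j, hj⟩
      have hdeg : (D.e j).degree = s := by
        rw [hj, map_add, Finsupp.degree_single]
        exact mo_deg hP q
      have h1 := (hP j hdeg).1
      have h2 := (hP q.1.1 q.1.2).1
      have h3 := DFunLike.congr_fun hj 0
      have h4 := DFunLike.congr_fun (mo_add hP q) 0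
      rw [Finsupp.add_apply] at h3 h4
      obtain ⟨p1, p2⟩ := p
      obtain ⟨q1, q2⟩ := q
      fin_cases p2 <;> fin_cases q2
      · exact hl rfl
      · simp at h3 h4 h1 h2 ⊢
        omega
      · simp at h3 h4 h1 h2 ⊢
        omega
      · exact hl rfl

end mat

section solve
variable {k : Type u} [Field k]

include hP in
/-- the form of degree `s - 1` used in the deformation -/
lemma exists_F (hs : 1 ≤ s) (A : (Fin 3 →₀ ℕ) → Fin d → k) (hdet : (Mm D A).det ≠ 0) :
    ∃ F : Fin d → k, (∀ j, (D.e j).degree + 1 ≠ s → F j = 0) ∧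
      (∀ j, D.e j = Finsupp.single 2 (s - 1) → F j = 1) ∧
      ∀ l : Fin 3, l ≠ 2 → ∑ j, F j • D.top A (D.e j + Finsupp.single l 1) = 0 := by
  classical
  obtain ⟨jz, hjz⟩ := D.e_small (Finsupp.single 2 (s - 1)) (by
    rw [Finsupp.degree_single]; omega)
  let b : D.Qx → k := fun p => - D.top A (D.e jz + Finsupp.single p.2.castSucc 1) p.1.1
  let c : D.Qx → k := (Mm D A)⁻¹.mulVec b
  have hc : (Mm D A).mulVec c = b := by
    have hu : IsUnit (Mm D A).det := isUnit_iff_ne_zero.2 hdet
    simp only [c]
    rw [Matrix.mulVec_mulVec, Matrix.mul_nonsing_inv _ hu, Matrix.one_mulVec]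
  let F : Fin d → k := Pi.single jz 1 + ∑ q : D.Qx, c q • Pi.single (ix hP q) 1
  refine ⟨F, ?_, ?_, ?_⟩
  · intro j hj
    simp only [F, Pi.add_apply, Finset.sum_apply, Pi.smul_apply, smul_eq_mul]
    rw [Pi.single_apply, if_neg, zero_add]
    · refine Finset.sum_eq_zero fun q _ => ?_
      rw [Pi.single_apply, if_neg, mul_zero]
      rintro rfl
      apply hj
      rw [e_ix, mo_deg hP q]
    · rintro rfl
      apply hj
      rw [hjz, Finsupp.degree_single]
      omega
  · intro j hj
    have hjj : j = jz := D.e_inj (hj.trans hjz.symm)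
    subst hjj
    simp only [F, Pi.add_apply, Finset.sum_apply, Pi.smul_apply, smul_eq_mul]
    rw [Pi.single_eq_same, Finset.sum_eq_zero, add_zero]
    intro q _
    rw [Pi.single_apply, if_neg, mul_zero]
    intro h
    have h1 := e_ix hP q
    rw [← h, hj] at h1
    have h2 := mo_add hP q
    rw [← h1] at h2
    have h3 := hP q.1.1 q.1.2
    rw [← h2] at h3
    obtain ⟨q1, q2⟩ := q
    fin_cases q2
    · simp at h3
    · simp at h3
  · intro l hl
    obtain ⟨l, rfl⟩ : ∃ l' : Fin 2, l = l'.castSucc := by
      fin_cases l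
      · exact ⟨0, rfl⟩
      · exact ⟨1, rfl⟩
      · exact absurd rfl hl
    let L := Fintype.linearCombination k (fun j => D.top A (D.e j + Finsupp.single l.castSucc 1))
    have hL : ∀ j, L (Pi.single j 1) = D.top A (D.e j + Finsupp.single l.castSucc 1) := by
      intro j
      simp only [L]
      rw [Fintype.linearCombination_apply_single, one_smul]
    change L F = 0
    simp only [F, map_add, map_sum, map_smul, hL]
    ext j
    rw [Pi.add_apply, Finset.sum_apply, Pi.zero_apply]
    by_cases hj : (D.e j).degree = s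
    · have h1 := congrFun hc (⟨⟨j, hj⟩, l⟩ : D.Qx)
      simp only [Matrix.mulVec, dotProduct, b] at h1
      rw [← neg_eq_iff_eq_neg] at h1
      rw [← h1, neg_add_eq_zero]
      refine Finset.sum_congr rfl fun q _ => ?_
      rw [Pi.smul_apply, smul_eq_mul, e_ix, mul_comm]
      rfl
    · rw [D.top_supp A _ (by rw [hjz, map_add, Finsupp.degree_single, Finsupp.degree_single]; omega)
        j hj, zero_add]
      refine Finset.sum_eq_zero fun q _ => ?_
      rw [Pi.smul_apply, D.top_supp A _ (by
        rw [e_ix, map_add, Finsupp.degree_single, mo_deg hP q]) j hj, smul_zero]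

end solve

end SData

end Pool.Agent.Helper226
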