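import Mathlib
import Pool.Agent.Helper226.SSolve

set_option autoImplicit false

open scoped TensorProduct
open MvPolynomial CategoryTheory AlgebraicGeometry

universe u

namespace Pool.Agent.Helper226

namespace SData

section evp
variable {k : Type u} [Field k] {s d : ℕ} (D : SData 3 s d)

/-- value of a monomial at the point with last coordinate `τ` -/
noncomputable def pe (τ : k) (μ : Fin 3 →₀ ℕ) : k :=
  eval (Pi.single 2 τ : Fin 3 → k) (monomial μ 1)

lemma pe_add (τ : k) (α β : Fin 3 →₀ ℕ) : pe τ (α + β) = pe τ α * pe τ β := by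
  unfold pe
  rw [← map_mul, monomial_mul, one_mul]

lemma pe_single (τ : k) (m : ℕ) : pe τ (Finsupp.single 2 m) = τ ^ m := by
  unfold pe
  rw [eval_monomial, one_mul, Finsupp.prod_single_index (by rw [pow_zero])]
  simp

lemma pe_zero (τ : k) (μ : Fin 3 →₀ ℕ) (h : μ ≠ Finsupp.single 2 μ.degree) : pe τ μ = 0 := by
  have h1 : ∃ i : Fin 3, i ≠ 2 ∧ μ i ≠ 0 := by
    by_contra h2
    push Not at h2
    apply h
    have h3 : μ = Finsupp.single 2 (μ 2) := by
      ext i
      by_cases hi : i = 2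
      · subst hi; simp
      · rw [h2 i hi, Finsupp.single_eq_of_ne hi]
    have h4 : μ.degree = μ 2 := by
      rw [h3]
      simp
    rw [h4]
    exact h3
  obtain ⟨i, hi, hμ⟩ := h1
  unfold pe
  rw [eval_monomial, one_mul]
  apply Finset.prod_eq_zero (Finsupp.mem_support_iff.2 hμ)
  change (Pi.single 2 τ : Fin 3 → k) i ^ μ i = 0
  rw [Pi.single_eq_of_ne hi, zero_pow hμ]

variable (A : (Fin 3 →₀ ℕ) → Fin d → k) (F : Fin d → k) (t τ : k)
  (hz : ∀ j, D.e j ≠ Finsupp.single 2 s)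
  (hF : ∀ j, (D.e j).degree + 1 ≠ s → F j = 0)
  (hFz : ∀ j, D.e j = Finsupp.single 2 (s - 1) → F j = 1)
  (hs : 1 ≤ s) (hτ : t * τ ^ (s - 1) = τ ^ s)

/-- evaluation on value vectors -/
noncomputable def Ev : (Fin d → k) →ₗ[k] k :=
  Fintype.linearCombination k (fun j => pe τ (D.e j))

lemma Ev_apply (v : Fin d → k) : D.Ev τ v = ∑ j, v j * pe τ (D.e j) := rfl

lemma Ev_single (j : Fin d) : D.Ev τ (Pi.single j 1) = pe τ (D.e j) := by
  classical
  unfold Ev
  rw [Fintype.linearCombination_apply_single, one_smul]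

include hz in
lemma Ev_top (μ : Fin 3 →₀ ℕ) (hμ : μ.degree ≤ s) (h0 : μ ≠ Finsupp.single 2 s) :
    D.Ev τ (D.top A μ) = pe τ μ := by
  by_cases hex : ∃ j, D.e j = μ
  · obtain ⟨j, rfl⟩ := hex
    rw [top_e, Ev_single]
  · have h1 : μ.degree = s := by
      by_contra h
      exact hex (D.e_small μ (by omega))
    rw [pe_zero τ μ (by rw [h1]; exact h0), Ev_apply]
    refine Finset.sum_eq_zero fun j _ => ?_
    by_cases hj : (D.e j).degree = s
    · rw [pe_zero τ (D.e j) (by rw [hj]; exact hz j), mul_zero]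
    · rw [D.top_supp A μ h1 j hj, zero_mul]

include hz in
lemma Ev_top_z : D.Ev τ (D.top A (Finsupp.single 2 s)) = 0 := by
  rw [Ev_apply]
  refine Finset.sum_eq_zero fun j _ => ?_
  by_cases hj : (D.e j).degree = s
  · rw [pe_zero τ (D.e j) (by rw [hj]; exact hz j), mul_zero]
  · rw [D.top_supp A _ (by simp) j hj, zero_mul]

include hF hFz hs in
lemma sum_F (g : (Fin 3 →₀ ℕ) → k) (hg : ∀ μ : Fin 3 →₀ ℕ, μ.degree = s - 1 →
    μ ≠ Finsupp.single 2 (s - 1) → g μ = 0) :
    ∑ j, F j * g (D.e j) = g (Finsupp.single 2 (s - 1)) := by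
  obtain ⟨j0, hj0⟩ := D.e_small (Finsupp.single 2 (s - 1)) (by
    rw [Finsupp.degree_single]; omega)
  rw [Finset.sum_eq_single j0]
  · rw [hFz j0 hj0, one_mul, hj0]
  · intro j _ hj
    by_cases h1 : (D.e j).degree + 1 = s
    · rw [hg (D.e j) (by omega) (fun h => hj (D.e_inj (h.trans hj0.symm))), mul_zero]
    · rw [hF j h1, zero_mul]
  · simp

include hF hFz hs in
lemma Ev_F : D.Ev τ F = τ ^ (s - 1) := by
  rw [Ev_apply, sum_F D F hF hFz hs (pe τ), pe_single]
  intro μ h1 h2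
  apply pe_zero
  rw [h1]
  exact h2

include hz hF hFz hs hτ in
lemma Ev_w7 (μ : Fin 3 →₀ ℕ) (hμ : μ.degree ≤ s) : D.Ev τ (D.w7 A F t 2 μ) = pe τ μ := by
  classical
  unfold w7
  rw [map_add]
  by_cases h : μ = Finsupp.single 2 s
  · subst h
    rw [if_pos rfl, Ev_top_z D A τ hz, zero_add, map_smul, Ev_F D F τ hF hFz hs, pe_single,
      smul_eq_mul, hτ]
  · rw [if_neg h, map_zero, add_zero, Ev_top D A τ hz μ hμ h]

include hz hF hFz hs hτ in
lemma Ev_UU : D.Ev τ (D.UU A F t 2) = τ ^ s := by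
  unfold UU
  rw [map_sum]
  have h1 : ∀ j, D.Ev τ (F j • D.w7 A F t 2 (D.e j + Finsupp.single 2 1)) =
      F j * pe τ (D.e j + Finsupp.single 2 1) := by
    intro j
    rw [map_smul, smul_eq_mul]
    by_cases hj : (D.e j).degree + 1 = s
    · rw [Ev_w7 D A F t τ hz hF hFz hs hτ]
      rw [map_add, Finsupp.degree_single]
      omega
    · rw [hF j hj, zero_mul, zero_mul]
  rw [Finset.sum_congr rfl fun j _ => h1 j,
    sum_F D F hF hFz hs (fun μ => pe τ (μ + Finsupp.single 2 1))]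
  · rw [← Finsupp.single_add, pe_single, show s - 1 + 1 = s by omega]
  · intro μ h2 h3
    rw [pe_add, pe_zero τ μ (by rw [h2]; exact h3), zero_mul]

include hz hF hFz hs hτ in
lemma Ev_wf (μ : Fin 3 →₀ ℕ) : D.Ev τ (D.wf A F t 2 μ) = pe τ μ := by
  classical
  rcases Nat.lt_or_ge s μ.degree with h | h
  · obtain ⟨m, hm⟩ : ∃ m, μ.degree = s + m := ⟨μ.degree - s, by omega⟩
    rw [wf_high D A F t 2 μ m hm (by omega)]
    split_ifs with h1
    · rw [map_smul, Ev_UU D A F t τ hz hF hFz hs hτ, h1, pe_single, smul_eq_mul]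
      have h2 : t * τ ^ s = τ ^ (s + 1) := by
        have h0 : τ ^ s = τ ^ (s - 1) * τ := by rw [← pow_succ, show s - 1 + 1 = s by omega]
        calc t * τ ^ s = t * (τ ^ (s - 1) * τ) := by rw [h0]
          _ = (t * τ ^ (s - 1)) * τ := by ring
          _ = τ ^ (s + 1) := by rw [hτ, pow_succ]
      have h3 : ∀ m, t ^ m * τ ^ s = τ ^ (s + m) := by
        intro m
        induction m with
        | zero => simp
        | succ m ih =>
          rw [pow_succ, mul_assoc, h2, pow_succ, ← mul_assoc, ih, ← pow_succ]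
          rfl
      exact h3 m
    · rw [map_zero, pe_zero]
      rw [hm]
      exact h1
  · rw [wf_low D A F t 2 μ h, Ev_w7 D A F t τ hz hF hFz hs hτ μ h]

include hz hF hFz hs hτ in
lemma eval_of_ker (c : Chart k (mb k D.e) k)
    (hc : ∀ μ, c.q (monomial μ 1) = D.wf A F t 2 μ) (x : MvPolynomial (Fin 3) k)
    (hx : x ∈ c.ker) : eval (Pi.single 2 τ : Fin 3 → k) x = 0 := by
  have h1 := (Chart.mem_ker c _).1 hx
  rw [chart_q_eq_sum] at h1
  have h2 := congrArg (D.Ev τ) h1
  rw [map_sum, map_zero] at h2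
  rw [x.as_sum, map_sum, ← h2]
  refine Finset.sum_congr rfl fun μ _ => ?_
  rw [map_smul, hc, Ev_wf D A F t τ hz hF hFz hs hτ μ, smul_eq_mul]
  unfold pe
  rw [← smul_eval]
  congr 1
  rw [smul_monomial, smul_eq_mul, mul_one]

end evp

end SData

end Pool.Agent.Helper226
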