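import Mathlib
import Pool.Agent.Helper226.SEval

set_option autoImplicit false

open scoped TensorProduct
open MvPolynomial CategoryTheory AlgebraicGeometry

universe u

namespace Pool.Agent.Helper226

namespace SData

section gens
variable {k : Type u} [Field k] {s d : ℕ} (D : SData 3 s d)
variable {R : Type u} [CommRing R] [Algebra k R] {R' : Type u} [CommRing R'] [Algebra k R']

/-- the last coordinate of the barycentre -/
noncomputable def vz (c : Chart k (mb k D.e) R) : R := algebraMap k R (d : k)⁻¹ * trc c (X 2)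

/-- the closed conditions saying that the last coordinate is nilpotent after translation -/
noncomputable def GG (c : Chart k (mb k D.e) R) (j : Fin d) : R :=
  ∑ m ∈ Finset.range (s + 2), c.q (X 2 ^ m) j * (-(D.vz c)) ^ (s + 1 - m) *
    ((s + 1).choose m : R)

lemma vz_map (c : Chart k (mb k D.e) R) (g : R →ₐ[k] R') : D.vz (c.map g) = g (D.vz c) := by
  unfold vz
  rw [trc_map, map_mul, AlgHom.commutes]

lemma GG_map (c : Chart k (mb k D.e) R) (g : R →ₐ[k] R') (j : Fin d) :
    D.GG (c.map g) j = g (D.GG c j) := by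
  unfold GG
  rw [map_sum]
  refine Finset.sum_congr rfl fun m _ => ?_
  rw [map_mul g, map_mul g, map_pow g, map_neg g, vz_map, map_natCast g, Chart.map_q]

lemma GG_eq (c : Chart k (mb k D.e) k) (j : Fin d) :
    D.GG c j = c.q ((X 2 - C (D.vz c)) ^ (s + 1)) j := by
  unfold GG
  rw [sub_eq_add_neg, add_pow, map_sum, Finset.sum_apply]
  refine Finset.sum_congr rfl fun m _ => ?_
  have h1 : (X 2 ^ m * (-C (D.vz c)) ^ (s + 1 - m) * ((s + 1).choose m : MvPolynomial (Fin 3) k)) =
      ((-(D.vz c)) ^ (s + 1 - m) * ((s + 1).choose m : k)) • (X 2 ^ m) := by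
    rw [smul_eq_C_mul, C_mul, C_pow, C_neg]
    have : (C ((s + 1).choose m : k) : MvPolynomial (Fin 3) k) = ((s + 1).choose m : ℕ) := by
      simp
    rw [this]
    ring
  rw [h1, map_smul, Pi.smul_apply, smul_eq_mul]
  ring

lemma vz_eq [CharZero k] (hd : d ≠ 0) (c : Chart k (mb k D.e) k) (v : Fin 3 → k)
    (h3 : pointIdeal v ^ (s + 1) ≤ c.ker) : D.vz c = v 2 := by
  have h0 : (X 2 - C (v 2) : MvPolynomial (Fin 3) k) ∈ pointIdeal v :=
    Ideal.subset_span ⟨2, rfl⟩
  have h1 : (X 2 - C (v 2) : MvPolynomial (Fin 3) k) ^ (s + 1) ∈ c.ker :=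
    h3 (Ideal.pow_mem_pow h0 _)
  have h2 := trc_nilpotent c _ _ h1
  rw [trc_sub, trc_C, sub_eq_zero] at h2
  have hd' : (d : k) ≠ 0 := by exact_mod_cast hd
  unfold vz
  rw [h2]
  change (d : k)⁻¹ * (d * v 2) = v 2
  field_simp

lemma GG_zero [CharZero k] (hd : d ≠ 0) (c : Chart k (mb k D.e) k) (v : Fin 3 → k)
    (h3 : pointIdeal v ^ (s + 1) ≤ c.ker) (j : Fin d) : D.GG c j = 0 := by
  rw [GG_eq, vz_eq D hd c v h3]
  have h0 : (X 2 - C (v 2) : MvPolynomial (Fin 3) k) ∈ pointIdeal v :=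
    Ideal.subset_span ⟨2, rfl⟩
  have h1 : (X 2 - C (v 2) : MvPolynomial (Fin 3) k) ^ (s + 1) ∈ c.ker :=
    h3 (Ideal.pow_mem_pow h0 _)
  rw [(Chart.mem_ker c _).1 h1]
  rfl

lemma mem_ker_of_GG (c : Chart k (mb k D.e) k) (h : ∀ j, D.GG c j = 0) :
    (X 2 - C (D.vz c)) ^ (s + 1) ∈ c.ker := by
  rw [Chart.mem_ker]
  ext j
  rw [← GG_eq]
  exact h j

/-- the closed subset of the chart -/
def KK (k : Type u) [Field k] {s d : ℕ} (D : SData 3 s d) :
    Set (Spec (CommRingCat.of (AR k (mb k D.e)))) :=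
  PrimeSpectrum.zeroLocus (Set.range (D.GG (uc k (mb k D.e))))

lemma KK_closed : IsClosed (KK k D) :=
  PrimeSpectrum.isClosed_zeroLocus _

lemma zp_mem_KK_iff (c : Chart k (mb k D.e) k) : zp c ∈ KK k D ↔ ∀ j, D.GG c j = 0 := by
  have h1 : ∀ p, clf c (D.GG (uc k (mb k D.e)) p) = D.GG c p := by
    intro p
    rw [← GG_map, uc_map_clf]
  constructor
  · intro h p
    have h2 : D.GG (uc k (mb k D.e)) p ∈ (zp c).asIdeal := h ⟨p, rfl⟩
    rw [zp_asIdeal, RingHom.mem_ker] at h2
    rw [← h1]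
    exact h2
  · rintro h _ ⟨p, rfl⟩
    change D.GG (uc k (mb k D.e)) p ∈ (zp c).asIdeal
    rw [zp_asIdeal, RingHom.mem_ker]
    exact (h1 p).trans (h p)

lemma exists_good_mem [Infinite k] (U : Set (Spec (CommRingCat.of (Polynomial k))))
    (hU : IsOpen U) (h0 : ptA (0 : k) ∈ U) (g : Polynomial k) (hg : g ≠ 0) :
    ∃ t : k, g.eval t ≠ 0 ∧ ptA t ∈ U := by
  have hU' : IsOpen (U : Set (PrimeSpectrum (Polynomial k))) := hU
  obtain ⟨_, ⟨f, rfl⟩, hf1, hf2⟩ :=
    (PrimeSpectrum.isTopologicalBasis_basic_opens (R := Polynomial k)).exists_subset_of_mem_open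
      h0 hU'
  have hf0 : f ≠ 0 := by
    rintro rfl
    exact hf1 (Ideal.zero_mem _)
  have hfx : f * g ≠ 0 := mul_ne_zero hf0 hg
  have : ∃ t : k, (f * g).eval t ≠ 0 := by
    by_contra h
    push Not at h
    exact hfx (Polynomial.funext fun t => by rw [h t, Polynomial.eval_zero])
  obtain ⟨t, ht⟩ := this
  rw [Polynomial.eval_mul] at ht
  refine ⟨t, right_ne_zero_of_mul ht, hf2 ?_⟩
  change f ∉ RingHom.ker (Polynomial.aeval t : Polynomial k →ₐ[k] k)
  rw [RingHom.mem_ker, Polynomial.coe_aeval_eq_eval]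
  exact left_ne_zero_of_mul ht

/-- one step along a curve in the Hilbert scheme: if the point at zero lies in the open subset of
the chart, then so does a general point -/
lemma curve_step [Infinite k] {b' : Fin d → MvPolynomial (Fin 3) k}
    (O : Set (Spec (CommRingCat.of (AR k (mb k D.e))))) (hO : IsOpen O)
    (c : Chart k (mb k D.e) k) (hc : zp c ∈ O) (ct : Chart k b' (Polynomial k))
    (h0 : (ct.map (Polynomial.aeval 0 : Polynomial k →ₐ[k] k)).ker = c.ker)
    (g : Polynomial k) (hg : g ≠ 0) :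
    ∃ (t : k) (c1 : Chart k (mb k D.e) k), g.eval t ≠ 0 ∧ zp c1 ∈ O ∧
      c1.ker = (ct.map (Polynomial.aeval t : Polynomial k →ₐ[k] k)).ker := by
  set ψ := chartι k (Idx.single (mb k D.e)) with hψ
  have hemb : Topology.IsOpenEmbedding ψ := ψ.isOpenEmbedding
  have hm0 : mor ct (ptA 0) = ψ (zp c) := by
    have h4 := mor_point ct (Polynomial.aeval 0 : Polynomial k →ₐ[k] k) (ptA 0) rfl
    rw [mor_eq_of_ideal_eq _ c (Chart.ideal_eq_of_ker_eq h0), mem_range_mor_iff] at h4
    exact h4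
  have hU : IsOpen (mor ct ⁻¹' (ψ '' O)) := (hemb.isOpenMap O hO).preimage (mor ct).continuous
  obtain ⟨t, ht, htU⟩ := exists_good_mem _ hU (by
    change mor ct (ptA 0) ∈ ψ '' O
    rw [hm0]
    exact ⟨_, hc, rfl⟩) g hg
  obtain ⟨o1, ho1, ho1'⟩ := htU
  have h6 : ψ o1 ∈ (hilb k (MvPolynomial (Fin 3) k) d).locus (fun I => I =
      (ct.map (Polynomial.aeval t : Polynomial k →ₐ[k] k)).ker) := by
    apply mem_locus_of_chart (ct.map (Polynomial.aeval t : Polynomial k →ₐ[k] k))
      (fun I => I = (ct.map (Polynomial.aeval t : Polynomial k →ₐ[k] k)).ker) rfl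
    rw [ho1']
    exact mor_point ct _ (ptA t) rfl
  obtain ⟨c1, hc1, rfl⟩ := exists_chart_in _ o1 h6
  exact ⟨t, c1, ht, ho1, hc1⟩

end gens

section main
variable {k : Type u} [Field k] [IsAlgClosed k] [CharZero k] {s d : ℕ}

theorem closure_not_component (D : SData 3 s d) (hP : D.Par) (hs : 2 ≤ s)
    (hd1 : (3 + s - 1).choose 3 < d) (hd2 : d ≤ (3 + s).choose 3)
    (hE : Fintype.card {j // (D.e j).degree = s} = d - (3 + s - 1).choose 3) :
    closure ((hilb k (MvPolynomial (Fin 3) k) d).locus (IsVeryCompressed d)) ∉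
      irreducibleComponents (hilb k (MvPolynomial (Fin 3) k) d).H := by
  intro hcomp
  have hinf : Infinite k := inferInstance
  have hd0 : d ≠ 0 := by omega
  have hz : ∀ j, D.e j ≠ Finsupp.single 2 s := by
    intro j hj
    have h1 := (hP j (by rw [hj, Finsupp.degree_single])).1
    rw [hj] at h1
    simp at h1
  have := noetherianSpace_chart (k := k) (mb k D.e)
  set S := (hilb k (MvPolynomial (Fin 3) k) d).locus (IsVeryCompressed d) with hS
  set ψ := chartι k (Idx.single (mb k D.e)) with hψ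
  have hemb : Topology.IsOpenEmbedding ψ := ψ.isOpenEmbedding
  -- preimage of the closure
  have hcl : ψ ⁻¹' (closure S) = closure (ψ ⁻¹' S) :=
    hemb.isOpenMap.preimage_closure_eq_closure_preimage hemb.continuous S
  have hZK : ψ ⁻¹' S ⊆ KK k D := by
    intro o ho
    obtain ⟨c, hc, rfl⟩ := exists_chart_in _ o ho
    have := Module.Finite.equiv c.quotEquiv.symm
    obtain ⟨v, h3, -⟩ := bounds_of_vc s hd1 hd2 (by norm_num) (by omega) c.ker hc
    rw [zp_mem_KK_iff]
    exact GG_zero D hd0 c v h3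
  have hclK : ψ ⁻¹' (closure S) ⊆ KK k D := by
    rw [hcl]
    exact closure_minimal hZK (KK_closed D)
  -- the chart meets the closure
  have hne : (closure S ∩ Set.range ψ).Nonempty := by
    refine ⟨ψ (zp (D.hchart k (fun _ _ => 0) 2 hz (by omega))), subset_closure ?_, ⟨_, rfl⟩⟩
    exact chartι_zp_mem_locus _ _ (vc_of_bounds D _ (by norm_num) (by omega) hd1 hd2 hE
      (D.hchart_high 2 hz (by omega) _) (D.hchart_low 2 hz (by omega) _))
  obtain ⟨O, hO, hOne, hOC⟩ := exists_open_subset_component ψ hemb (closure S) hcomp hne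
  -- a very compressed point in the open set
  obtain ⟨o0, ho0⟩ := hOne
  have ho0' : o0 ∈ closure (ψ ⁻¹' S) := by
    rw [← hcl]
    exact hOC ⟨o0, ho0, rfl⟩
  obtain ⟨o, hoO, hoS⟩ := mem_closure_iff.1 ho0' O hO ho0
  obtain ⟨c, hc, rfl⟩ := exists_chart_in _ o hoS
  have := Module.Finite.equiv c.quotEquiv.symm
  obtain ⟨v, h3, h2⟩ := bounds_of_vc s hd1 hd2 (by norm_num) (by omega) c.ker hc
  obtain ⟨A, hA⟩ := D.exists_normal 2 hz (by omega) c v h3 h2
  -- first curve: scale the parameters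
  let A1 : (Fin 3 →₀ ℕ) → Fin d → Polynomial k := fun μ j =>
    (1 - Polynomial.X) * Polynomial.C (A μ j)
  let ct1 := (D.hchart k A1 2 hz (by omega)).trans (tr v)
  have hev1 : ∀ t : k, ct1.map (Polynomial.aeval t : Polynomial k →ₐ[k] k) =
      (D.hchart k (fun μ j => (1 - t) * A μ j) 2 hz (by omega)).trans (tr v) := by
    intro t
    simp only [ct1]
    rw [Chart.trans_map, hchart_map]
    simp [A1]
  have h01 : (ct1.map (Polynomial.aeval 0 : Polynomial k →ₐ[k] k)).ker = c.ker := by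
    ext x
    rw [hA, hev1, Chart.mem_trans_ker]
    simp
  have hdet : ∀ t : k, (Mm D A1).det.eval t = (Mm D (fun μ j => (1 - t) * A μ j)).det := by
    intro t
    have h1 := Mm_map (D := D) (Polynomial.evalRingHom t) A1
    have h2 := RingHom.map_det (Polynomial.evalRingHom t) (Mm D A1)
    rw [RingHom.mapMatrix_apply, h1] at h2
    rw [Polynomial.coe_evalRingHom] at h2
    rw [h2]
    simp [A1]
  have hg1 : (Mm D A1).det ≠ 0 := by
    intro h
    have h1 := hdet 1
    rw [h, Polynomial.eval_zero] at h1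
    have h2 : (fun μ j => (1 - (1 : k)) * A μ j) = fun _ _ => (0 : k) := by
      ext μ j
      simp
    rw [h2, Mm_zero hP, Matrix.det_one] at h1
    exact zero_ne_one h1
  obtain ⟨t1, c1, ht1, hc1O, hc1⟩ := curve_step D O hO c hoO ct1 h01 _ hg1
  rw [hdet] at ht1
  -- second curve: the deformation
  set A2 : (Fin 3 →₀ ℕ) → Fin d → k := fun μ j => (1 - t1) * A μ j with hA2
  obtain ⟨F, hF, hFz, hFl⟩ := exists_F hP (by omega) A2 ht1
  have hw7 : ∀ (R : Type u) [CommRing R] (B : (Fin 3 →₀ ℕ) → Fin d → R) (G : Fin d → R) (t : R)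
      (l : Fin 3) (hl : l ≠ 2) (j : Fin d),
      D.w7 B G t 2 (D.e j + Finsupp.single l 1) = D.top B (D.e j + Finsupp.single l 1) := by
    intro R _ B G t l hl j
    unfold w7
    rw [if_neg, add_zero]
    intro h
    have h1 := DFunLike.congr_fun h l
    rw [Finsupp.add_apply, Finsupp.single_eq_same, Finsupp.single_eq_of_ne hl] at h1
    omega
  let ct2' : Chart k (mb k D.e) (Polynomial k) :=
    D.chart k (fun μ j => Polynomial.C (A2 μ j)) (fun j => Polynomial.C (F j)) Polynomial.X 2 hz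
      (by intro j hj; rw [hF j hj, map_zero])
      (by intro j hj; rw [hFz j hj, map_one, mul_one])
      (by
        intro l hl
        have h1 : ∑ j, Polynomial.C (F j) • D.w7 (fun μ j => Polynomial.C (A2 μ j))
            (fun j => Polynomial.C (F j)) Polynomial.X 2 (D.e j + Finsupp.single l 1) = 0 := by
          ext j : 1
          rw [Finset.sum_apply, Pi.zero_apply]
          have h2 := congrArg (Polynomial.C) (congrFun (hFl l hl) j)
          rw [Finset.sum_apply, Pi.zero_apply, map_zero, map_sum] at h2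
          rw [← h2]
          refine Finset.sum_congr rfl fun i _ => ?_
          rw [hw7 _ _ _ _ l hl, Pi.smul_apply, Pi.smul_apply, smul_eq_mul, smul_eq_mul, map_mul,
            D.top_map (Polynomial.C) A2]
        rw [h1, smul_zero])
      (by omega)
  let ct2 := ct2'.trans (tr v)
  have hq2 : ∀ (t : k) (μ : Fin 3 →₀ ℕ),
      (ct2'.map (Polynomial.aeval t : Polynomial k →ₐ[k] k)).q (monomial μ 1) =
        D.wf A2 F t 2 μ := by
    intro t μ
    ext j
    rw [Chart.map_q]
    simp only [ct2']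
    rw [chart_q]
    have h1 := D.wf_map (Polynomial.evalRingHom t) (fun μ j => Polynomial.C (A2 μ j))
      (fun j => Polynomial.C (F j)) Polynomial.X 2 μ j
    simp only [Polynomial.coe_evalRingHom, Polynomial.eval_C, Polynomial.eval_X] at h1
    rw [Polynomial.coe_aeval_eq_eval]
    exact h1
  have h02 : (ct2.map (Polynomial.aeval 0 : Polynomial k →ₐ[k] k)).ker = c1.ker := by
    ext x
    rw [hc1, hev1]
    simp only [ct2]
    rw [Chart.trans_map, Chart.mem_trans_ker, Chart.mem_trans_ker]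
    have h1 : ct2'.map (Polynomial.aeval 0 : Polynomial k →ₐ[k] k) =
        D.hchart k A2 2 hz (by omega) := by
      apply chart_ext_monomial
      intro μ
      rw [hq2, hchart_q, wf_zero]
    rw [h1]
  obtain ⟨t2, c2, ht2, hc2O, hc2⟩ := curve_step D O hO c1 hc1O ct2 h02 _ Polynomial.X_ne_zero
  rw [Polynomial.eval_X] at ht2
  have h7 : ∀ j, D.GG c2 j = 0 := by
    rw [← zp_mem_KK_iff]
    exact hclK (hOC ⟨_, hc2O, rfl⟩)
  have h8 := mem_ker_of_GG D c2 h7
  rw [hc2] at h8
  simp only [ct2] at h8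
  rw [Chart.trans_map, Chart.mem_trans_ker, map_pow, map_sub, tr_X, tr_C] at h8
  have h9 : ∀ τ : k, t2 * τ ^ (s - 1) = τ ^ s → τ + v 2 - D.vz c2 = 0 := by
    intro τ hτ
    have h10 := D.eval_of_ker A2 F t2 τ hz hF hFz (by omega) hτ _ (hq2 t2) _ h8
    simp only [map_pow, map_sub, map_add, eval_X, eval_C, Pi.single_eq_same] at h10
    exact pow_eq_zero_iff (by omega) |>.1 h10
  have h10 := h9 0 (by rw [zero_pow (by omega), zero_pow (by omega), mul_zero])
  have h11 := h9 t2 (by rw [← pow_succ', show s - 1 + 1 = s by omega])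
  apply ht2
  linear_combination h11 - h10

end main

end SData

end Pool.Agent.Helper226
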