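import Mathlib
import Pool.Agent.Helper226.SMain

set_option autoImplicit false

namespace Pool.Agent.Helper226

namespace Inst396

/-- condition on exponents -/
def ok (p : Fin 8 × Fin 8 × Fin 8) : Prop :=
  p.1.val + p.2.1.val + p.2.2.val ≤ 6 ∨
    (p.1.val + p.2.1.val + p.2.2.val = 7 ∧ p.1.val % 2 = 1 ∧ 1 ≤ p.2.1.val)

instance (p : Fin 8 × Fin 8 × Fin 8) : Decidable (ok p) := by
  unfold ok; infer_instance

/-- exponents of the basis monomials -/
abbrev J : Type := {p : Fin 8 × Fin 8 × Fin 8 // ok p}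
/-- exponents of the basis monomials of degree seven -/
abbrev JE : Type := {p : Fin 8 × Fin 8 × Fin 8 //
  p.1.val + p.2.1.val + p.2.2.val = 7 ∧ p.1.val % 2 = 1 ∧ 1 ≤ p.2.1.val}

lemma card_J : Fintype.card J = 96 := by decide +kernel
lemma card_JE : Fintype.card JE = 12 := by decide +kernel

/-- monomial -/
noncomputable def ex (p : Fin 8 × Fin 8 × Fin 8) : Fin 3 →₀ ℕ :=
  Finsupp.equivFunOnFinite.symm ![p.1.val, p.2.1.val, p.2.2.val]

lemma ex_0 (p : Fin 8 × Fin 8 × Fin 8) : ex p 0 = p.1.val := rfl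
lemma ex_1 (p : Fin 8 × Fin 8 × Fin 8) : ex p 1 = p.2.1.val := rfl
lemma ex_2 (p : Fin 8 × Fin 8 × Fin 8) : ex p 2 = p.2.2.val := rfl

lemma degree_three (μ : Fin 3 →₀ ℕ) : μ.degree = μ 0 + μ 1 + μ 2 := by
  rw [Finsupp.degree_eq_sum, Fin.sum_univ_three]

lemma ex_deg (p : Fin 8 × Fin 8 × Fin 8) :
    (ex p).degree = p.1.val + p.2.1.val + p.2.2.val := by
  rw [degree_three, ex_0, ex_1, ex_2]

lemma ex_inj : Function.Injective ex := by
  intro p q h
  have h0 := DFunLike.congr_fun h 0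
  have h1 := DFunLike.congr_fun h 1
  have h2 := DFunLike.congr_fun h 2
  rw [ex_0, ex_0] at h0
  rw [ex_1, ex_1] at h1
  rw [ex_2, ex_2] at h2
  exact Prod.ext (Fin.ext h0) (Prod.ext (Fin.ext h1) (Fin.ext h2))

/-- numbering -/
noncomputable def eqv : Fin 96 ≃ J := (Fintype.equivFinOfCardEq card_J).symm

/-- the combinatorial datum -/
noncomputable def D : SData 3 7 96 where
  e j := ex (eqv j).1
  e_inj := by
    intro i j h
    exact eqv.injective (Subtype.ext (ex_inj h))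
  e_deg := by
    intro j
    rw [ex_deg]
    rcases (eqv j).2 with h | h
    · omega
    · omega
  e_small := by
    intro μ hμ
    have h := degree_three μ
    let p : Fin 8 × Fin 8 × Fin 8 :=
      (⟨μ 0, by omega⟩, ⟨μ 1, by omega⟩, ⟨μ 2, by omega⟩)
    have hp : ok p := Or.inl (by
      change μ 0 + μ 1 + μ 2 ≤ 6
      omega)
    refine ⟨eqv.symm ⟨p, hp⟩, ?_⟩
    rw [Equiv.apply_symm_apply]
    ext i
    fin_cases i <;> rfl

lemma par : D.Par := by
  intro j hj
  have h1 : (ex (eqv j).1).degree = 7 := hj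
  rw [ex_deg] at h1
  change (ex (eqv j).1) 0 % 2 = 1 ∧ 1 ≤ (ex (eqv j).1) 1
  rw [ex_0, ex_1]
  rcases (eqv j).2 with h | h
  · omega
  · exact h.2

lemma card_E : Fintype.card {j // (D.e j).degree = 7} = 12 := by
  rw [← card_JE]
  apply Fintype.card_congr
  symm
  refine Equiv.ofBijective
    (fun p => ⟨eqv.symm ⟨p.1, Or.inr p.2⟩, by
      change (ex (eqv (eqv.symm ⟨p.1, Or.inr p.2⟩)).1).degree = 7
      rw [Equiv.apply_symm_apply, ex_deg]
      exact p.2.1⟩) ⟨?_, ?_⟩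
  · intro p p' h
    have h1 := congrArg Subtype.val h
    have h2 := eqv.symm.injective h1
    have h3 : p.1 = p'.1 := congrArg (fun x : J => x.1) h2
    exact Subtype.ext h3
  · rintro ⟨j, hj⟩
    have hj' : (ex (eqv j).1).degree = 7 := hj
    rw [ex_deg] at hj'
    have h1 : (eqv j).1.1.val + (eqv j).1.2.1.val + (eqv j).1.2.2.val = 7 ∧
        (eqv j).1.1.val % 2 = 1 ∧ 1 ≤ (eqv j).1.2.1.val := by
      rcases (eqv j).2 with h | h
      · omega
      · exact h
    refine ⟨⟨(eqv j).1, h1⟩, Subtype.ext ?_⟩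
    change eqv.symm ⟨(eqv j).1, _⟩ = j
    rw [Equiv.symm_apply_eq]

end Inst396

end Pool.Agent.Helper226
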