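import Mathlib
import Pool.Agent.Helper226.VCNot

set_option autoImplicit false

open MvPolynomial

universe u

namespace Pool.Agent.Helper226.Inst

/-- same block -/
abbrev blk (p : Fin 8 × Fin 8) : Prop := p.1.val / 2 = p.2.val / 2

/-- pairs of variables of different blocks -/
abbrev PE : Type := {p : Fin 8 × Fin 8 // p.1 ≤ p.2 ∧ ¬ blk p}
/-- pairs of variables of the same block -/
abbrev PN : Type := {p : Fin 8 × Fin 8 // p.1 ≤ p.2 ∧ blk p}
/-- index type of the basis -/
abbrev J : Type := Option (Fin 8) ⊕ PE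

/-- quadratic monomial -/
noncomputable def pm (p : Fin 8 × Fin 8) : Fin 8 →₀ ℕ := Finsupp.single p.1 1 + Finsupp.single p.2 1

lemma pm_inj (p p' : Fin 8 × Fin 8) (hp : p.1 ≤ p.2) (hp' : p'.1 ≤ p'.2) (h : pm p = pm p') :
    p = p' := by
  obtain ⟨a, b⟩ := p
  obtain ⟨c, d⟩ := p'
  unfold pm at h
  dsimp only at *
  have h1 := congrArg Finsupp.toMultiset h
  simp only [map_add, Finsupp.toMultiset_single, one_smul, Multiset.singleton_add] at h1
  rw [Multiset.cons_eq_cons] at h1
  rcases h1 with ⟨rfl, h2⟩ | ⟨h2, cs, h3, h4⟩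
  · rw [Multiset.singleton_inj] at h2
    rw [h2]
  · have h5 : cs = 0 := by
      have := congrArg Multiset.card h3
      simpa using this
    subst h5
    have h6 : b = c := by
      have : ({b} : Multiset (Fin 8)) = {c} := h3
      exact Multiset.singleton_inj.1 this
    have h7 : d = a := by
      have : ({d} : Multiset (Fin 8)) = {a} := h4
      exact Multiset.singleton_inj.1 this
    subst h6 h7
    rw [le_antisymm hp hp']

lemma pm_degree (p : Fin 8 × Fin 8) : (pm p).degree = 2 := by
  unfold pm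
  rw [map_add]
  simp

/-- exponents of the basis monomials -/
noncomputable def ex : J → (Fin 8 →₀ ℕ)
  | Sum.inl none => 0
  | Sum.inl (some i) => Finsupp.single i 1
  | Sum.inr p => pm p.1

lemma ex_inj : Function.Injective ex := by
  intro x y h
  have hd := congrArg Finsupp.degree h
  rcases x with (_ | i) | p <;> rcases y with (_ | i') | p'
  · rfl
  · simp [ex] at hd
  · simp [ex, pm_degree] at hd
  · simp [ex] at hd
  · simp only [ex] at h
    rw [Finsupp.single_left_injective one_ne_zero h]
  · simp [ex, pm_degree] at hd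
  · simp [ex, pm_degree] at hd
  · simp [ex, pm_degree] at hd
  · simp only [ex] at h
    rw [Subtype.ext (pm_inj _ _ p.2.1 p'.2.1 h)]

lemma card_PE : Fintype.card PE = 24 := by decide
lemma card_PN : Fintype.card PN = 12 := by decide
lemma card_J : Fintype.card J = 33 := by
  rw [Fintype.card_sum, card_PE]
  simp

lemma cover_pair (μ : Fin 8 →₀ ℕ) (h : μ.degree = 2) :
    ∃ p : Fin 8 × Fin 8, p.1 ≤ p.2 ∧ pm p = μ := by
  obtain ⟨i, ν, rfl, hν⟩ := exists_add_of_degree_succ μ 1 h
  obtain ⟨j, rfl⟩ := exists_single_of_degree_one ν hν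
  rcases le_total i j with hij | hij
  · exact ⟨(i, j), hij, rfl⟩
  · exact ⟨(j, i), hij, add_comm _ _⟩

/-- numbering -/
noncomputable def eqv : Fin 33 ≃ J := (Fintype.equivFinOfCardEq card_J).symm

lemma ex_cover (μ : Fin 8 →₀ ℕ) (h : μ.degree = 2) :
    (∃ j, ex (eqv j) = μ) ∨ (∃ i : PN, pm i.1 = μ) := by
  obtain ⟨p, hp, hpμ⟩ := cover_pair μ h
  by_cases hb : blk p
  · exact Or.inr ⟨⟨p, hp, hb⟩, hpμ⟩
  · left
    refine ⟨eqv.symm (Sum.inr ⟨p, hp, hb⟩), ?_⟩
    rw [Equiv.apply_symm_apply]
    exact hpμ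

/-- the combinatorial datum -/
noncomputable def D : QData 8 33 where
  e j := ex (eqv j)
  e_inj := ex_inj.comp eqv.injective
  e_deg := by
    intro j
    generalize eqv j = x
    rcases x with (_ | i) | p
    · simp [ex]
    · simp [ex]
    · simp [ex, pm_degree]
  e_small := by
    intro μ hμ
    rcases Nat.lt_or_ge μ.degree 1 with h | h
    · have h0 : μ = 0 := (Finsupp.degree_eq_zero_iff _).1 (by omega)
      refine ⟨eqv.symm (Sum.inl none), ?_⟩
      rw [Equiv.apply_symm_apply, h0]
      rfl
    · obtain ⟨i, rfl⟩ := exists_single_of_degree_one μ (by omega)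
      refine ⟨eqv.symm (Sum.inl (some i)), ?_⟩
      rw [Equiv.apply_symm_apply]
      rfl
  N := PN
  nb i := pm i.1
  nb_inj := by
    intro p p' h
    exact Subtype.ext (pm_inj _ _ p.2.1 p'.2.1 h)
  nb_deg i := pm_degree _
  nb_disj := by
    intro i j h
    have hd := congrArg Finsupp.degree h
    generalize eqv j = x at h hd
    rcases x with (_ | i') | p
    · simp [ex, pm_degree] at hd
    · simp [ex, pm_degree] at hd
    · have h1 : pm i.1 = pm p.1 := h
      have h2 := pm_inj _ _ i.2.1 p.2.1 h1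
      exact p.2.2 (h2 ▸ i.2.2)
  cover := ex_cover

lemma exists_j (a b : Fin 8) (h : ¬ a.val / 2 = b.val / 2) :
    ∃ j, D.e j = Finsupp.single a 1 + Finsupp.single b 1 := by
  have hd : (Finsupp.single a 1 + Finsupp.single b 1 : Fin 8 →₀ ℕ).degree = 2 := by
    rw [map_add]; simp
  rcases D.cover _ hd with h1 | ⟨i, hi⟩
  · exact h1
  · exfalso
    have hi' : pm i.1 = Finsupp.single a 1 + Finsupp.single b 1 := hi
    have hb : i.1.1.val / 2 = i.1.2.val / 2 := i.2.2
    rcases le_total a b with hab | hab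
    · have := pm_inj i.1 (a, b) i.2.1 hab hi'
      rw [this] at hb
      exact h hb
    · have := pm_inj i.1 (b, a) i.2.1 hab (by rw [hi', add_comm]; rfl)
      rw [this] at hb
      exact h hb.symm

lemma f24 : ∀ a : Fin 8, ¬ (a + 2).val / 2 = (a + 4).val / 2 := by decide
lemma f4 : ∀ a : Fin 8, ¬ a.val / 2 = (a + 4).val / 2 := by decide
lemma f2 : ∀ a : Fin 8, ¬ a.val / 2 = (a + 2).val / 2 := by decide

/-- the triangles -/
noncomputable def T : Tri D where
  tb a := a + 2
  tc a := a + 4
  jbc a := (exists_j (a + 2) (a + 4) (f24 a)).choose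
  jac a := (exists_j a (a + 4) (f4 a)).choose
  jab a := (exists_j a (a + 2) (f2 a)).choose
  hbc a := (exists_j (a + 2) (a + 4) (f24 a)).choose_spec
  hac a := (exists_j a (a + 4) (f4 a)).choose_spec
  hab a := (exists_j a (a + 2) (f2 a)).choose_spec
  ne1 a h := by
    have h1 := congrArg D.e h
    rw [(exists_j (a + 2) (a + 4) (f24 a)).choose_spec,
      (exists_j a (a + 4) (f4 a)).choose_spec] at h1
    have h2 := Finsupp.single_left_injective one_ne_zero (add_right_cancel h1)
    exact (by decide : ∀ a : Fin 8, a + 2 ≠ a) a h2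
  ne2 a h := by
    have h1 := congrArg D.e h
    rw [(exists_j (a + 2) (a + 4) (f24 a)).choose_spec,
      (exists_j a (a + 2) (f2 a)).choose_spec, add_comm] at h1
    have h2 := Finsupp.single_left_injective one_ne_zero (add_right_cancel h1)
    exact (by decide : ∀ a : Fin 8, a + 4 ≠ a) a h2

lemma card_E : Fintype.card D.E = 24 := by
  rw [← card_PE]
  apply Fintype.card_congr
  symm
  refine Equiv.ofBijective
    (fun p => ⟨eqv.symm (Sum.inr p), by
      change (ex (eqv (eqv.symm (Sum.inr p)))).degree = 2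
      rw [Equiv.apply_symm_apply]
      exact pm_degree _⟩) ⟨?_, ?_⟩
  · intro p p' h
    have h1 := congrArg Subtype.val h
    exact Sum.inr_injective (eqv.symm.injective h1)
  · rintro ⟨j, hj⟩
    have hj' : (ex (eqv j)).degree = 2 := hj
    rcases hx : eqv j with (_ | i') | p
    · rw [hx] at hj'
      simp [ex] at hj'
    · rw [hx] at hj'
      simp [ex] at hj'
    · refine ⟨p, Subtype.ext ?_⟩
      change eqv.symm (Sum.inr p) = j
      rw [← hx, Equiv.symm_apply_apply]

lemma card_N : Fintype.card D.N = 12 := by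
  rw [← card_PN]
  exact Fintype.card_congr (Equiv.refl PN)

lemma card_sym : Fintype.card (Sym (Fin 8) 3) = 120 := by
  rw [Sym.card_sym_eq_choose]
  rfl

end Pool.Agent.Helper226.Inst
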